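import Pool.Agent.W_1bfdb5_h19.Defs

/-! Walks along a closed walk, and the arc lemma. -/

namespace Pool.Agent.CycGT

open Finset
open scoped Classical

variable {V : Type} {G : SimpleGraph V}

lemma Wk.symm {r : ℕ} {u v : V} (h : Wk G r u v) : Wk G r v u := by
  obtain ⟨p, hp⟩ := h
  exact ⟨p.reverse, by simpa using hp⟩

lemma Wk.trans {r s : ℕ} {u v w : V} (h : Wk G r u v) (h' : Wk G s v w) : Wk G (r + s) u w := by
  obtain ⟨p, hp⟩ := h
  obtain ⟨q, hq⟩ := h'
  exact ⟨p.append q, by simp [hp, hq]⟩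

lemma wk_zero {u v : V} : Wk G 0 u v ↔ u = v := by
  constructor
  · rintro ⟨p, hp⟩
    exact SimpleGraph.Walk.eq_of_length_eq_zero hp
  · rintro rfl
    exact ⟨SimpleGraph.Walk.nil, rfl⟩

lemma wk_one {u v : V} : Wk G 1 u v ↔ G.Adj u v := by
  constructor
  · rintro ⟨p, hp⟩
    exact p.adj_of_length_eq_one hp
  · intro h
    exact ⟨h.toWalk, rfl⟩

lemma wk_succ {r : ℕ} {u v : V} : Wk G (r + 1) u v ↔ ∃ p, G.Adj u p ∧ Wk G r p v := by
  constructor
  · rintro ⟨p, hp⟩
    cases p with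
    | nil => simp at hp
    | cons h q =>
      exact ⟨_, h, q, by simpa using hp⟩
  · rintro ⟨p, h, q, hq⟩
    exact ⟨SimpleGraph.Walk.cons h q, by simp [hq]⟩

lemma wk_two {u v : V} : Wk G 2 u v ↔ ∃ p, G.Adj u p ∧ G.Adj p v := by
  rw [show (2 : ℕ) = 1 + 1 from rfl, wk_succ]
  simp only [wk_one]

/-- The walk along `c`. -/
lemma IsCl.along {M : ℕ} {c : ZMod M → V} (hc : IsCl G M c) (i : ZMod M) (n : ℕ) :
    Wk G n (c i) (c (i + n)) := by
  induction n with
  | zero => simpa using wk_zero.2 rfl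
  | succ n ih =>
    have h := ih.trans (wk_one.2 (hc (i + n)))
    have e : i + ((n + 1 : ℕ) : ZMod M) = i + n + 1 := by push_cast; ring
    rw [e]
    exact h

/-- The arc lemma: if an outside walk of length `r` joins `c i` to `c j`, where `c` is a closed
walk of odd length `m + 2h`, and there is no closed walk of odd length less than `m`, then
`j = i ± e` for some `e ≤ r + 2h` with the parity of `r`. -/
lemma arc {M m h : ℕ} (hM : M = m + 2 * h) (ho : Odd m) (hG : OddFree G m) {c : ZMod M → V}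
    (hc : IsCl G M c) {r : ℕ} {i j : ZMod M} (hw : Wk G r (c i) (c j)) :
    ∃ e : ℕ, e ≤ r + 2 * h ∧ e % 2 = r % 2 ∧ (j = i + e ∨ j = i - e) := by
  have hm0 : 0 < m := ho.pos
  have hM0 : 0 < M := by omega
  have : NeZero M := ⟨hM0.ne'⟩
  set d := (j - i).val with hd
  have hdM : d < M := ZMod.val_lt _
  have hdc : ((d : ℕ) : ZMod M) = j - i := by rw [hd]; exact ZMod.natCast_zmod_val _
  have hMc : ((M : ℕ) : ZMod M) = 0 := ZMod.natCast_self M
  obtain ⟨q, hq⟩ := ho
  have hj : j = i + (d : ZMod M) := by rw [hdc]; ring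
  rcases Nat.even_or_odd (r + d) with he | hod
  · -- use the other arc
    have h2 : Wk G (M - d) (c j) (c i) := by
      have := hc.along j (M - d)
      have e : j + ((M - d : ℕ) : ZMod M) = i := by
        rw [Nat.cast_sub hdM.le, hMc, hj]; ring
      rwa [e] at this
    have h3 := hw.trans h2
    obtain ⟨a, ha⟩ := he
    have hodd : Odd (r + (M - d)) := ⟨a + q + h - d, by omega⟩
    have : ¬ (r + (M - d) < m) := fun hlt => hG _ hlt hodd _ h3
    exact ⟨d, by omega, by omega, Or.inl hj⟩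
  · have h2 : Wk G d (c j) (c i) := by
      have := hc.along i d
      rw [← hj] at this
      exact this.symm
    have h3 := hw.trans h2
    have : ¬ (r + d < m) := fun hlt => hG _ hlt hod _ h3
    obtain ⟨a, ha⟩ := hod
    refine ⟨M - d, by omega, by omega, Or.inr ?_⟩
    rw [Nat.cast_sub hdM.le, hMc, hj]; ring

/-- Small numbers are not divisible by an odd `M ≥ 7`. -/
lemma nz {M : ℕ} (hM : 7 ≤ M) (ho : Odd M) {n : ℕ}
    (hn : n = 1 ∨ n = 2 ∨ n = 3 ∨ n = 4 ∨ n = 5 ∨ n = 6 ∨ n = 8 ∨ n = 10 ∨ n = 12) :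
    (n : ZMod M) ≠ 0 := by
  intro h
  rw [ZMod.natCast_eq_zero_iff] at h
  obtain ⟨k, hk⟩ := h
  obtain ⟨q, hq⟩ := ho
  have hk1 : k < 2 := by
    by_contra hk2
    push Not at hk2
    have : M * 2 ≤ M * k := Nat.mul_le_mul_left _ hk2
    omega
  interval_cases k <;> omega

end Pool.Agent.CycGT
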