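import Mathlib

/-!
# Generalized Turan numbers of odd cycles: definitions
-/

namespace Pool.Agent.CycGT

open Finset
open scoped Classical

/-- `ex (n, C_k, C_l)`: the largest number of copies of `C_k` in a graph on `n` vertices without
a copy of `C_l`. -/
noncomputable def exC (n k l : ℕ) : ℕ :=
  ((univ : Finset (SimpleGraph (Fin n))).filter
    (fun G => (SimpleGraph.cycleGraph l).Free G)).sup
    (fun G => G.copyCount (SimpleGraph.cycleGraph k))

/-- The coefficient `c_{k,l}` of the problem. -/
noncomputable def cKL (k l : ℕ) : ℝ :=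
  ((l : ℝ) + 2) / k * (1 / ((l : ℝ) + 2) ^ k) *
    ∑ j ∈ (range (k + 1)).filter (fun j => Odd j ∧ j * (l + 2) ≤ k),
      (k.choose ((k - j * (l + 2)) / 2) : ℝ)

end Pool.Agent.CycGT
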