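import Pool.Agent.W_1bfdb5_h19.Arc

/-!
# The balanced blow-up of C_m

The class of the vertex `x : Fin n` is its residue modulo `m`.
* `BB_free`: a copy of `C_l` is a closed walk of length `l` in `Z/m` with steps `±1`, the sum of
  the steps is an odd number of absolute value at most `l < m`, hence not divisible by `m`.
* `BB_clos`: patterns `π : ZMod (m+2) → ZMod m` closed walks with steps `±1`: with
  `π0 i = i` for `i = 0, 1`, `π0 i = i - 2` for `2 ≤ i ≤ m + 1` (representative of `i`), the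
  `2 m (m+2)` functions `i ↦ t + π0 (j + i)`, `i ↦ t - π0 (j + i)` are distinct (exactly one step of
  `π0` is `-1`, the step from 1 to 2).  For each pattern and each `g : ZMod (m+2) → Fin q` the
  function `i ↦ (π i).val + m * g i` is a closed walk; different `(π, g)` give different walks.
-/

namespace Pool.Agent.CycGT

open Finset
open scoped Classical

/-- The balanced blow-up of `C_m` on `n` vertices. -/
def BB (n m : ℕ) : SimpleGraph (Fin n) :=
  SimpleGraph.fromRel (fun x y => ((y : ℕ) : ZMod m) = ((x : ℕ) : ZMod m) + 1)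

theorem BB_free (n m l : ℕ) (ho : Odd l) (hl : 3 ≤ l) (hm : l < m) :
    (SimpleGraph.cycleGraph l).Free (BB n m) := by
  obtain ⟨k, rfl⟩ : ∃ k, l = k + 2 := ⟨l - 2, by omega⟩
  rintro ⟨f⟩
  have hadj : ∀ i : Fin (k + 2), ∃ e : ℤ, (e = 1 ∨ e = -1) ∧
      ((((f (i + 1) : Fin n) : ℕ) : ZMod m) - (((f i : Fin n) : ℕ) : ZMod m) = (e : ZMod m)) := by
    intro i
    have h1 : (SimpleGraph.cycleGraph (k + 2)).Adj i (i + 1) := by
      rw [SimpleGraph.cycleGraph_adj]
      right
      simp
    have h2 : (BB n m).Adj (f i) (f (i + 1)) := f.toHom.map_adj h1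
    have h2' := (SimpleGraph.fromRel_adj _ _ _).1 h2
    rcases h2'.2 with h | h
    · exact ⟨1, Or.inl rfl, by rw [h]; push_cast; ring⟩
    · exact ⟨-1, Or.inr rfl, by rw [h]; push_cast; ring⟩
  choose e he1 he2 using hadj
  have hsum : ((∑ i, e i : ℤ) : ZMod m) = 0 := by
    push_cast
    rw [← Finset.sum_congr rfl (fun i _ => he2 i), Finset.sum_sub_distrib, sub_eq_zero]
    exact Equiv.sum_comp (Equiv.addRight (1 : Fin (k + 2)))
      (fun i => (((f i : Fin n) : ℕ) : ZMod m))
  have habs : |∑ i, e i| ≤ (k + 2 : ℕ) := by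
    refine (Finset.abs_sum_le_sum_abs _ _).trans ?_
    have : ∀ i ∈ (Finset.univ : Finset (Fin (k + 2))), |e i| ≤ 1 := by
      intro i _
      rcases he1 i with h | h <;> rw [h] <;> simp
    refine (Finset.sum_le_sum this).trans ?_
    simp
  have hodd : Odd (∑ i, e i) := by
    have h2 : (∑ i, e i) % 2 = 1 := by
      have h3 : ((∑ i, e i : ℤ) : ZMod 2) = ((k + 2 : ℕ) : ZMod 2) := by
        push_cast
        have : ∀ i ∈ (Finset.univ : Finset (Fin (k + 2))), ((e i : ℤ) : ZMod 2) = 1 := by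
          intro i _
          rcases he1 i with h | h
          · rw [h]; simp
          · rw [h]; decide
        rw [Finset.sum_congr rfl this]
        simp
      have h4 : (((∑ i, e i : ℤ) - ((k + 2 : ℕ) : ℤ) : ℤ) : ZMod 2) = 0 := by
        push_cast at h3 ⊢
        rw [h3]; ring
      rw [ZMod.intCast_zmod_eq_zero_iff_dvd] at h4
      obtain ⟨a, ha⟩ := ho
      omega
    exact Int.odd_iff.2 h2
  rw [ZMod.intCast_zmod_eq_zero_iff_dvd] at hsum
  have hz : (∑ i, e i) = 0 := by
    apply Int.eq_zero_of_abs_lt_dvd hsum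
    have : ((k + 2 : ℕ) : ℤ) < (m : ℤ) := by exact_mod_cast hm
    omega
  rw [hz] at hodd
  simp at hodd

/-- The base pattern. -/
private def p0 (m : ℕ) (i : ZMod (m + 2)) : ZMod m :=
  if i.val ≤ 1 then (i.val : ZMod m) else ((i.val - 2 : ℕ) : ZMod m)

private lemma val_succ (m : ℕ) (i : ZMod (m + 2)) :
    (i + 1).val = if i.val = m + 1 then 0 else i.val + 1 := by
  have h1 : i.val < m + 2 := ZMod.val_lt i
  rw [ZMod.val_add, ZMod.val_one_eq_one_mod, Nat.mod_eq_of_lt (show 1 < m + 2 by omega)]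
  split_ifs with h
  · rw [h, Nat.mod_self]
  · exact Nat.mod_eq_of_lt (by omega)

private lemma eq_one_iff (m : ℕ) (i : ZMod (m + 2)) : i = 1 ↔ i.val = 1 := by
  have h1 : (1 : ZMod (m + 2)).val = 1 := by
    rw [ZMod.val_one_eq_one_mod, Nat.mod_eq_of_lt (by omega)]
  constructor
  · rintro rfl
    exact h1
  · intro h
    exact ZMod.val_injective _ (by rw [h, h1])

private lemma p0_step (m : ℕ) (hm : 5 ≤ m) (i : ZMod (m + 2)) :
    p0 m (i + 1) = p0 m i + (if i = 1 then -1 else 1) := by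
  have h1 : i.val < m + 2 := ZMod.val_lt i
  have hz : ((m : ℕ) : ZMod m) = 0 := ZMod.natCast_self m
  simp only [p0, val_succ, eq_one_iff]
  generalize i.val = a at h1 ⊢
  by_cases ha : a = m + 1
  · subst ha
    rw [if_pos rfl, if_pos (by omega), if_neg (by omega), if_neg (by omega)]
    have : ((m + 1 - 2 : ℕ) : ZMod m) + 1 = ((m : ℕ) : ZMod m) := by
      rw [← Nat.cast_add_one]; congr 1; omega
    rw [this, hz]; simp
  · rw [if_neg ha]
    rcases Nat.lt_or_ge a 2 with h2 | h2
    · interval_cases a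
      · simp
      · simp
    · rw [if_neg (by omega), if_neg (by omega), if_neg (by omega), ← Nat.cast_add_one]
      congr 1; omega

/-- The patterns. -/
private def pat (m : ℕ) (s : Bool) (t : ZMod m) (j i : ZMod (m + 2)) : ZMod m :=
  t + (if s then 1 else -1) * p0 m (j + i)

private lemma pat_step (m : ℕ) (hm : 5 ≤ m) (s : Bool) (t : ZMod m) (j i : ZMod (m + 2)) :
    pat m s t j (i + 1) - pat m s t j i =
      (if s then 1 else -1) * (if j + i = 1 then -1 else 1) := by
  simp only [pat]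
  rw [← add_assoc, p0_step m hm]
  ring

private lemma one_ne (m : ℕ) (hm : 5 ≤ m) : (1 : ZMod m) ≠ -1 := by
  intro h
  have h2 : ((2 : ℕ) : ZMod m) = 0 := by
    push_cast
    linear_combination h
  rw [ZMod.natCast_eq_zero_iff] at h2
  have := Nat.le_of_dvd (by norm_num) h2
  omega

private lemma exists_third (m : ℕ) (hm : 5 ≤ m) (a b : ZMod (m + 2)) :
    ∃ i : ZMod (m + 2), a + i ≠ 1 ∧ b + i ≠ 1 := by
  by_contra hcon
  push Not at hcon
  have h1 : (Finset.univ : Finset (ZMod (m + 2))) ⊆ {1 - a, 1 - b} := by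
    intro i _
    rw [Finset.mem_insert, Finset.mem_singleton]
    by_cases h : a + i = 1
    · left; rw [← h]; ring
    · right; rw [← hcon i h]; ring
  have h2 := Finset.card_le_card h1
  rw [Finset.card_univ, ZMod.card] at h2
  have h3 := Finset.card_le_two (a := 1 - a) (b := 1 - b)
  omega

private lemma pat_inj (m : ℕ) (hm : 5 ≤ m) (s s' : Bool) (t t' : ZMod m) (j j' : ZMod (m + 2))
    (h : pat m s t j = pat m s' t' j') : s = s' ∧ t = t' ∧ j = j' := by
  have hst : ∀ i, ((if s then 1 else -1) * (if j + i = 1 then -1 else 1) : ZMod m) =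
      (if s' then 1 else -1) * (if j' + i = 1 then -1 else 1) := by
    intro i
    rw [← pat_step m hm s t j i, ← pat_step m hm s' t' j' i, h]
  have hne := one_ne m hm
  have hne' : (-1 : ZMod m) ≠ 1 := hne.symm
  have hs : s = s' := by
    obtain ⟨i, h1, h2⟩ := exists_third m hm j j'
    have := hst i
    rw [if_neg h1, if_neg h2] at this
    cases s <;> cases s' <;> simp_all
  subst hs
  have hj : j = j' := by
    have := hst (1 - j)
    rw [if_pos (show j + (1 - j) = 1 by ring)] at this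
    by_contra hjj
    rw [if_neg (fun h5 : j' + (1 - j) = 1 => hjj (by linear_combination -h5))] at this
    cases s
    · simp at this
      first | exact hne this | exact hne' this
    · simp at this
      first | exact hne this | exact hne' this
  subst hj
  refine ⟨rfl, ?_, rfl⟩
  have := congrFun h 0
  simpa [pat] using this

/-- The walks. -/
private def wlk (n m q : ℕ) (h : m * q ≤ n) (hm : 5 ≤ m)
    (x : (Bool × ZMod m × ZMod (m + 2)) × (ZMod (m + 2) → Fin q)) (i : ZMod (m + 2)) : Fin n :=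
  ⟨(pat m x.1.1 x.1.2.1 x.1.2.2 i).val + m * (x.2 i : ℕ), by
    have : NeZero m := ⟨by omega⟩
    have h1 := ZMod.val_lt (pat m x.1.1 x.1.2.1 x.1.2.2 i)
    have h2 := (x.2 i).isLt
    have h3 : m * ((x.2 i : ℕ) + 1) ≤ m * q := Nat.mul_le_mul_left _ h2
    have h4 : m * ((x.2 i : ℕ) + 1) = m * (x.2 i : ℕ) + m := by ring
    omega⟩

private lemma wlk_cast (n m q : ℕ) (h : m * q ≤ n) (hm : 5 ≤ m)
    (x : (Bool × ZMod m × ZMod (m + 2)) × (ZMod (m + 2) → Fin q)) (i : ZMod (m + 2)) :
    ((wlk n m q h hm x i : ℕ) : ZMod m) = pat m x.1.1 x.1.2.1 x.1.2.2 i := by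
  have : NeZero m := ⟨by omega⟩
  have hz : ((m : ℕ) : ZMod m) = 0 := ZMod.natCast_self m
  simp only [wlk]
  rw [Nat.cast_add, Nat.cast_mul, hz, zero_mul, add_zero, ZMod.natCast_zmod_val]

private lemma wlk_inj (n m q : ℕ) (h : m * q ≤ n) (hm : 5 ≤ m) :
    Function.Injective (wlk n m q h hm) := by
  have : NeZero m := ⟨by omega⟩
  rintro ⟨⟨s, t, j⟩, g⟩ ⟨⟨s', t', j'⟩, g'⟩ he
  have h1 : pat m s t j = pat m s' t' j' := by
    funext i
    have := wlk_cast n m q h hm ⟨⟨s, t, j⟩, g⟩ i
    rw [he, wlk_cast] at this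
    exact this.symm
  obtain ⟨rfl, rfl, rfl⟩ := pat_inj m hm s s' t t' j j' h1
  have h2 : g = g' := by
    funext i
    have := congrArg Fin.val (congrFun he i)
    simp only [wlk] at this
    have h3 : m * (g i : ℕ) = m * (g' i : ℕ) := by omega
    exact Fin.ext (Nat.eq_of_mul_eq_mul_left (by omega) h3)
  rw [h2]

private lemma wlk_mem (n m q : ℕ) (h : m * q ≤ n) (hm : 5 ≤ m)
    (x : (Bool × ZMod m × ZMod (m + 2)) × (ZMod (m + 2) → Fin q)) :
    IsCl (BB n m) (m + 2) (wlk n m q h hm x) := by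
  intro i
  rw [BB, SimpleGraph.fromRel_adj, wlk_cast, wlk_cast]
  have hs := pat_step m hm x.1.1 x.1.2.1 x.1.2.2 i
  have hne := one_ne m hm
  have h10 : (1 : ZMod m) ≠ 0 := by
    intro h0
    apply hne
    rw [h0]; simp
  have hor : pat m x.1.1 x.1.2.1 x.1.2.2 (i + 1) - pat m x.1.1 x.1.2.1 x.1.2.2 i = 1 ∨
      pat m x.1.1 x.1.2.1 x.1.2.2 (i + 1) - pat m x.1.1 x.1.2.1 x.1.2.2 i = -1 := by
    rw [hs]
    split_ifs <;> simp
  constructor
  · intro he
    have h1 : pat m x.1.1 x.1.2.1 x.1.2.2 i = pat m x.1.1 x.1.2.1 x.1.2.2 (i + 1) := by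
      rw [← wlk_cast n m q h hm x i, ← wlk_cast n m q h hm x (i + 1), he]
    rw [h1, sub_self] at hor
    rcases hor with h2 | h2
    · exact h10 h2.symm
    · apply h10
      linear_combination h2
  · rcases hor with h2 | h2
    · left
      linear_combination h2
    · right
      linear_combination -h2

theorem BB_clos (n m q : ℕ) (hm : 5 ≤ m) (ho : Odd m) (h : m * q ≤ n) :
    2 * m * (m + 2) * q ^ (m + 2) ≤ #(clos (BB n m) (m + 2)) := by
  have : NeZero m := ⟨by omega⟩
  have hc : Fintype.card ((Bool × ZMod m × ZMod (m + 2)) × (ZMod (m + 2) → Fin q)) =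
      2 * m * (m + 2) * q ^ (m + 2) := by
    simp only [Fintype.card_prod, Fintype.card_bool, ZMod.card, Fintype.card_fun,
      Fintype.card_fin]
    ring
  rw [← hc, ← Finset.card_univ]
  refine Finset.card_le_card_of_injOn (wlk n m q h hm) ?_ ((wlk_inj n m q h hm).injOn)
  intro x _
  simp only [clos, Finset.coe_filter, Finset.mem_univ, true_and, Set.mem_ofPred_eq]
  exact wlk_mem n m q h hm x

end Pool.Agent.CycGT
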