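import Pool.Agent.W_1bfdb5_h19.Arc

/-!
# Closed walks and copies of cycles (counting copies)

* `copy_le`: for a subgraph isomorphic to `C_k` fix a copy `f` with that subgraph; the `2k`
  closed walks `i ↦ f (j + i)`, `i ↦ f (j - i)` are distinct and have the same subgraph.
* `inj_le`: an injective closed walk is a copy `f`; two copies with the same subgraph differ by an
  automorphism of `C_k`, which is `i ↦ j + i` or `i ↦ j - i`, so at most `2k` copies have a given
  subgraph.  See `SimpleGraph.copyCount_eq_card_image_copyToSubgraph`.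
-/

namespace Pool.Agent.CycGT

open Finset
open scoped Classical

variable {V : Type} [Fintype V]

/-- The cycle graph read on `ZMod`. -/
private lemma red5_adj (n : ℕ) (u v : ZMod (n + 3)) :
    (SimpleGraph.cycleGraph (n + 3)).Adj (u : Fin (n + 3)) (v : Fin (n + 3)) ↔
      u - v = 1 ∨ v - u = 1 := Iff.rfl

private lemma red5_ne (n : ℕ) : (1 + 1 : ZMod (n + 3)) ≠ 0 := by
  intro h
  have h1 : ((2 : ℕ) : ZMod (n + 3)) = 0 := by push_cast; rw [← h]; norm_num
  rw [ZMod.natCast_eq_zero_iff] at h1
  have := Nat.le_of_dvd (by norm_num) h1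
  omega

/-- A self map of the cycle which is injective and maps neighbours to neighbours. -/
private lemma red5_aut (n : ℕ) (σ : ZMod (n + 3) → ZMod (n + 3)) (hσ : Function.Injective σ)
    (h : ∀ i, σ (i + 1) - σ i = 1 ∨ σ i - σ (i + 1) = 1) :
    (∀ i, σ i = σ 0 + i) ∨ (∀ i, σ i = σ 0 - i) := by
  have key : ∀ e : ZMod (n + 3), (e = 1 ∨ e = -1) → σ (0 + 1) - σ 0 = e → ∀ i, σ i = σ 0 + e * i := by
    intro e he h0
    have hstep : ∀ m : ℕ, σ ((m : ZMod (n + 3)) + 1) - σ (m : ZMod (n + 3)) = e := by
      intro m
      induction m with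
      | zero => simpa using h0
      | succ m ih =>
        have h1 := h (((m : ℕ) : ZMod (n + 3)) + 1)
        have hne : σ ((m : ZMod (n + 3)) + 1 + 1) ≠ σ (m : ZMod (n + 3)) := by
          intro h2
          have h3 := hσ h2
          apply red5_ne n
          have h4 : ((m : ZMod (n + 3)) + (1 + 1)) = (m : ZMod (n + 3)) + 0 := by
            rw [add_zero, ← add_assoc]; exact h3
          exact add_left_cancel h4
        push_cast
        rcases h1 with h1 | h1
        · rcases he with rfl | rfl
          · exact h1
          · exfalso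
            apply hne
            linear_combination h1 + ih
        · rcases he with rfl | rfl
          · exfalso
            apply hne
            linear_combination -h1 + ih
          · linear_combination -h1
    have hall : ∀ m : ℕ, σ (m : ZMod (n + 3)) = σ 0 + e * (m : ZMod (n + 3)) := by
      intro m
      induction m with
      | zero => simp
      | succ m ih =>
        have h1 := hstep m
        push_cast
        linear_combination h1 + ih
    intro i
    have h1 := hall i.val
    rw [ZMod.natCast_zmod_val] at h1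
    exact h1
  rcases h 0 with h0 | h0
  · left
    intro i
    have := key 1 (Or.inl rfl) h0 i
    rw [this, one_mul]
  · right
    intro i
    have := key (-1) (Or.inr rfl) (by linear_combination -h0) i
    rw [this]; ring

/-- The signed shifts. -/
private def red5_sh (n : ℕ) (d : ZMod (n + 3) × Bool) (i : ZMod (n + 3)) : ZMod (n + 3) :=
  if d.2 then d.1 + i else d.1 - i

private lemma red5_sh_inj (n : ℕ) (d : ZMod (n + 3) × Bool) :
    Function.Injective (red5_sh n d) := by
  intro i j hij
  unfold red5_sh at hij
  split_ifs at hij with h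
  · exact add_left_cancel hij
  · exact sub_right_injective hij

private lemma red5_sh_surj (n : ℕ) (d : ZMod (n + 3) × Bool) :
    Function.Surjective (red5_sh n d) := by
  intro j
  unfold red5_sh
  split_ifs with h
  · exact ⟨j - d.1, by ring⟩
  · exact ⟨d.1 - j, by ring⟩

private lemma red5_sh_adj (n : ℕ) (d : ZMod (n + 3) × Bool) (i j : ZMod (n + 3)) :
    (red5_sh n d i - red5_sh n d j = 1 ∨ red5_sh n d j - red5_sh n d i = 1) ↔
      (i - j = 1 ∨ j - i = 1) := by
  unfold red5_sh
  split_ifs with h
  · have e1 : d.1 + i - (d.1 + j) = i - j := by ring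
    have e2 : d.1 + j - (d.1 + i) = j - i := by ring
    rw [e1, e2]
  · have e1 : d.1 - i - (d.1 - j) = j - i := by ring
    have e2 : d.1 - j - (d.1 - i) = i - j := by ring
    rw [e1, e2, or_comm]

private lemma red5_sh_ne (n : ℕ) (d d' : ZMod (n + 3) × Bool)
    (h : ∀ i, red5_sh n d i = red5_sh n d' i) : d = d' := by
  obtain ⟨a, b⟩ := d
  obtain ⟨a', b'⟩ := d'
  have h0 := h 0
  have h1 := h 1
  unfold red5_sh at h0 h1
  cases b <;> cases b' <;> simp at h0 h1 ⊢
  · exact h0
  · subst h0
    exfalso
    apply red5_ne n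
    linear_combination -h1
  · subst h0
    exfalso
    apply red5_ne n
    linear_combination h1
  · exact h0

/-- The copy `f` precomposed with a signed shift. -/
private def red5_act (n : ℕ) (G : SimpleGraph V) (f : (SimpleGraph.cycleGraph (n + 3)).Copy G)
    (d : ZMod (n + 3) × Bool) : (SimpleGraph.cycleGraph (n + 3)).Copy G where
  toHom := {
    toFun := fun i => f (red5_sh n d i : ZMod (n + 3))
    map_rel' := by
      intro a b hab
      apply f.toHom.map_rel'
      exact (red5_adj n _ _).2 ((red5_sh_adj n d a b).2 ((red5_adj n a b).1 hab)) }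
  injective' := by
    intro a b hab
    exact red5_sh_inj n d (f.injective hab)

private lemma red5_toSub (n : ℕ) (G : SimpleGraph V)
    (f g : (SimpleGraph.cycleGraph (n + 3)).Copy G) :
    f.toSubgraph = g.toSubgraph ↔ ∃ d, g = red5_act n G f d := by
  constructor
  · intro hfg
    have hv : ∀ i, ∃ j, f j = g i := by
      intro i
      have h1 : g i ∈ g.toSubgraph.verts := by
        simp only [SimpleGraph.Copy.toSubgraph, SimpleGraph.Subgraph.map_verts]
        exact ⟨i, Set.mem_univ _, rfl⟩
      rw [← hfg] at h1
      simp only [SimpleGraph.Copy.toSubgraph, SimpleGraph.Subgraph.map_verts] at h1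
      obtain ⟨j, -, hj⟩ := h1
      exact ⟨j, hj⟩
    choose σ hσ using hv
    have hinj : Function.Injective σ := by
      intro a b hab
      have : g a = g b := by rw [← hσ a, ← hσ b, hab]
      exact g.injective this
    have hadj : ∀ i j, (SimpleGraph.cycleGraph (n + 3)).Adj i j →
        (SimpleGraph.cycleGraph (n + 3)).Adj (σ i) (σ j) := by
      intro i j hij
      have h1 : g.toSubgraph.Adj (g i) (g j) := by
        simp only [SimpleGraph.Copy.toSubgraph, SimpleGraph.Subgraph.map_adj]
        exact ⟨i, j, hij, rfl, rfl⟩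
      rw [← hfg] at h1
      simp only [SimpleGraph.Copy.toSubgraph, SimpleGraph.Subgraph.map_adj] at h1
      obtain ⟨i', j', h2, h3, h4⟩ := h1
      have e1 : i' = σ i := f.injective (h3.trans (hσ i).symm)
      have e2 : j' = σ j := f.injective (h4.trans (hσ j).symm)
      rw [← e1, ← e2]
      exact h2
    have h1 := red5_aut n σ hinj (by
      intro i
      have h0 : (SimpleGraph.cycleGraph (n + 3)).Adj (i + 1 : ZMod (n + 3)) (i : ZMod (n + 3)) :=
        (red5_adj n _ _).2 (Or.inl (by ring))
      exact (red5_adj n _ _).1 (hadj _ _ h0))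
    rcases h1 with h1 | h1
    · refine ⟨(σ 0, true), ?_⟩
      apply SimpleGraph.Copy.ext
      intro i
      show g i = f (red5_sh n (σ 0, true) i)
      rw [← hσ i, h1 i]
      rfl
    · refine ⟨(σ 0, false), ?_⟩
      apply SimpleGraph.Copy.ext
      intro i
      show g i = f (red5_sh n (σ 0, false) i)
      rw [← hσ i, h1 i]
      rfl
  · rintro ⟨d, rfl⟩
    apply SimpleGraph.Subgraph.ext
    · simp only [SimpleGraph.Copy.toSubgraph, SimpleGraph.Subgraph.map_verts]
      ext x
      constructor
      · rintro ⟨i, -, rfl⟩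
        obtain ⟨j, hj⟩ := red5_sh_surj n d i
        refine ⟨j, Set.mem_univ _, ?_⟩
        show f (red5_sh n d j) = f i
        rw [hj]
      · rintro ⟨i, -, rfl⟩
        exact ⟨red5_sh n d i, Set.mem_univ _, rfl⟩
    · funext x y
      simp only [SimpleGraph.Copy.toSubgraph, SimpleGraph.Subgraph.map_adj]
      apply propext
      constructor
      · rintro ⟨i, j, hij, rfl, rfl⟩
        obtain ⟨i', hi⟩ := red5_sh_surj n d i
        obtain ⟨j', hj⟩ := red5_sh_surj n d j
        refine ⟨i', j', ?_, ?_, ?_⟩
        · show (SimpleGraph.cycleGraph (n + 3)).Adj i' j'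
          refine (red5_adj n _ _).2 ((red5_sh_adj n d _ _).1 ?_)
          rw [hi, hj]
          exact (red5_adj n _ _).1 hij
        · show f (red5_sh n d i') = f i
          rw [hi]
        · show f (red5_sh n d j') = f j
          rw [hj]
      · rintro ⟨i, j, hij, rfl, rfl⟩
        refine ⟨red5_sh n d i, red5_sh n d j, ?_, rfl, rfl⟩
        show (SimpleGraph.cycleGraph (n + 3)).Adj (red5_sh n d i) (red5_sh n d j)
        exact (red5_adj n _ _).2 ((red5_sh_adj n d _ _).2 ((red5_adj n _ _).1 hij))

private lemma red5_act_inj (n : ℕ) (G : SimpleGraph V)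
    (f : (SimpleGraph.cycleGraph (n + 3)).Copy G) : Function.Injective (red5_act n G f) := by
  intro d d' h
  apply red5_sh_ne n
  intro i
  apply f.injective
  have h1 : red5_act n G f d i = red5_act n G f d' i := by rw [h]
  exact h1

private lemma red5_card (n : ℕ) (G : SimpleGraph V) :
    2 * (n + 3) * G.copyCount (SimpleGraph.cycleGraph (n + 3)) =
      Fintype.card ((SimpleGraph.cycleGraph (n + 3)).Copy G) := by
  rw [SimpleGraph.copyCount_eq_card_image_copyToSubgraph]
  rw [← Finset.card_univ, Finset.card_eq_sum_card_image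
    (SimpleGraph.Copy.toSubgraph (A := SimpleGraph.cycleGraph (n + 3)) (B := G))]
  rw [Finset.sum_congr rfl (g := fun _ => 2 * (n + 3))]
  · rw [Finset.sum_const, smul_eq_mul, mul_comm]
  · intro S hS
    rw [Finset.mem_image] at hS
    obtain ⟨f, -, rfl⟩ := hS
    have e : (univ.filter (fun g : (SimpleGraph.cycleGraph (n + 3)).Copy G =>
        g.toSubgraph = f.toSubgraph)) = univ.image (red5_act n G f) := by
      ext g
      rw [Finset.mem_filter, Finset.mem_image]
      constructor
      · rintro ⟨-, h⟩
        obtain ⟨d, hd⟩ := (red5_toSub n G f g).1 h.symm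
        exact ⟨d, Finset.mem_univ _, hd.symm⟩
      · rintro ⟨d, -, hd⟩
        exact ⟨Finset.mem_univ _, ((red5_toSub n G f g).2 ⟨d, hd.symm⟩).symm⟩
    rw [e, Finset.card_image_of_injective _ (red5_act_inj n G f), Finset.card_univ,
      Fintype.card_prod, ZMod.card, Fintype.card_bool]
    ring

private lemma red5_card' (n : ℕ) (G : SimpleGraph V) :
    #((clos G (n + 3)).filter Function.Injective) =
      Fintype.card ((SimpleGraph.cycleGraph (n + 3)).Copy G) := by
  rw [← Finset.card_univ]
  symm
  apply Finset.card_bij (fun f _ => (fun i : ZMod (n + 3) => f i))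
  · intro f _
    rw [Finset.mem_filter]
    refine ⟨?_, f.injective⟩
    unfold clos
    rw [Finset.mem_filter]
    refine ⟨Finset.mem_univ _, ?_⟩
    intro i
    apply f.toHom.map_rel'
    exact (red5_adj n _ _).2 (Or.inr (by ring))
  · intro f _ g _ h
    apply SimpleGraph.Copy.ext
    intro i
    exact congrFun h i
  · intro c hc
    rw [Finset.mem_filter] at hc
    obtain ⟨h1, h2⟩ := hc
    unfold clos at h1
    rw [Finset.mem_filter] at h1
    refine ⟨⟨⟨fun i => c i, ?_⟩, ?_⟩, Finset.mem_univ _, rfl⟩
    · intro (a : ZMod (n + 3)) (b : ZMod (n + 3)) hab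
      rcases (red5_adj n a b).1 hab with h | h
      · have e : a = b + 1 := by linear_combination h
        subst e
        exact (h1.2 b).symm
      · have e : b = a + 1 := by linear_combination h
        subst e
        exact h1.2 a
    · exact h2

theorem copy_le (G : SimpleGraph V) (k : ℕ) [NeZero k] (hk : 3 ≤ k) :
    2 * k * G.copyCount (SimpleGraph.cycleGraph k) ≤ #(clos G k) := by
  obtain ⟨n, rfl⟩ : ∃ n, k = n + 3 := ⟨k - 3, by omega⟩
  rw [red5_card n G, ← red5_card' n G]
  exact Finset.card_le_card (Finset.filter_subset _ _)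

theorem inj_le (G : SimpleGraph V) (k : ℕ) [NeZero k] (hk : 3 ≤ k) :
    #((clos G k).filter Function.Injective) ≤
      2 * k * G.copyCount (SimpleGraph.cycleGraph k) := by
  obtain ⟨n, rfl⟩ : ∃ n, k = n + 3 := ⟨k - 3, by omega⟩
  rw [red5_card n G, ← red5_card' n G]

end Pool.Agent.CycGT
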