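import Pool.Agent.W_1bfdb5_h19.Red4
import Pool.Agent.W_1bfdb5_h19.Red5
import Pool.Agent.W_1bfdb5_h19.Low
import Pool.Agent.W_1bfdb5_h19.ExDef

/-!
# From closed walks to the generalized Turan number
-/

namespace Pool.Agent.CycGT

open Finset Filter Topology
open scoped Classical

lemma clos_split {V : Type} [Fintype V] (G : SimpleGraph V) (k : ℕ) [NeZero k] :
    #(clos G k) ≤ #((clos G k).filter Function.Injective) +
        #((univ : Finset (ZMod k → V)).filter (fun c => ¬ Function.Injective c)) := by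
  rw [← card_filter_add_card_filter_not (s := clos G k) Function.Injective]
  refine Nat.add_le_add_left (card_le_card ?_) _
  intro c hc
  rw [mem_filter] at hc ⊢
  exact ⟨mem_univ _, hc.2⟩

/-- Lower bound for the number of copies in the balanced blow-up. -/
lemma BB_copies (n m : ℕ) (hm : 5 ≤ m) (ho : Odd m) :
    (m : ℝ) * ((n : ℝ) / m - 1) ^ (m + 2) * (if (m : ℝ) ≤ n then 1 else 0) -
      (m + 2) * (n : ℝ) ^ (m + 1) ≤
      ((BB n m).copyCount (SimpleGraph.cycleGraph (m + 2)) : ℝ) := by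
  have hm0 : (0 : ℝ) < m := by exact_mod_cast (by omega : 0 < m)
  split_ifs with hmn
  · have hmn' : m ≤ n := by exact_mod_cast hmn
    set q := n / m with hq
    have h1 := BB_clos n m q hm ho (Nat.mul_div_le n m)
    have h2 := inj_le (BB n m) (m + 2) (by omega)
    have h3 := noninj_le (V := Fin n) (m + 2)
    rw [Fintype.card_fin] at h3
    have h4 := clos_split (BB n m) (m + 2)
    have h5 : 2 * m * (m + 2) * q ^ (m + 2) ≤
        2 * (m + 2) * (BB n m).copyCount (SimpleGraph.cycleGraph (m + 2)) +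
          (m + 2) ^ 2 * n ^ (m + 1) := by
      have e : m + 2 - 1 = m + 1 := by omega
      rw [e] at h3
      omega
    have h6 : (2 * m * (m + 2) * (q : ℝ) ^ (m + 2)) ≤
        2 * (m + 2) * ((BB n m).copyCount (SimpleGraph.cycleGraph (m + 2)) : ℝ) +
          (m + 2) ^ 2 * (n : ℝ) ^ (m + 1) := by exact_mod_cast h5
    have h7 : (n : ℝ) / m - 1 ≤ q := by
      have := Nat.lt_div_mul_add (a := n) (b := m) (by omega)
      have h' : (n : ℝ) < q * m + m := by rw [hq]; exact_mod_cast this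
      rw [sub_le_iff_le_add, div_le_iff₀ hm0]
      linarith
    have h8 : 0 ≤ (n : ℝ) / m - 1 := by
      rw [sub_nonneg, le_div_iff₀ hm0]; linarith
    have h9 : ((n : ℝ) / m - 1) ^ (m + 2) ≤ (q : ℝ) ^ (m + 2) := pow_le_pow_left₀ h8 h7 _
    have h10 : (0 : ℝ) < 2 * (m + 2) := by positivity
    have h11 : (0 : ℝ) ≤ (m + 2) ^ 2 * (n : ℝ) ^ (m + 1) := by positivity
    rw [mul_one]
    have h12 : 2 * ((m : ℝ) + 2) * (m * ((n : ℝ) / m - 1) ^ (m + 2) - (m + 2) * (n : ℝ) ^ (m + 1)) ≤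
        2 * (m + 2) * ((BB n m).copyCount (SimpleGraph.cycleGraph (m + 2)) : ℝ) := by
      have : 2 * ((m : ℝ) + 2) * (m * ((n : ℝ) / m - 1) ^ (m + 2)) ≤
          2 * m * (m + 2) * (q : ℝ) ^ (m + 2) := by
        calc _ = 2 * m * (m + 2) * ((n : ℝ) / m - 1) ^ (m + 2) := by ring
          _ ≤ _ := by gcongr
      nlinarith
    exact le_of_mul_le_mul_left h12 h10
  · have : (0 : ℝ) ≤ (m + 2) * (n : ℝ) ^ (m + 1) := by positivity
    have h2 : (0 : ℝ) ≤ ((BB n m).copyCount (SimpleGraph.cycleGraph (m + 2)) : ℝ) :=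
      Nat.cast_nonneg _
    linarith

theorem asym (r : ℕ) (hr : 1 ≤ r)
    (hB : ∀ (q : ℕ) (H : SimpleGraph (Fin q)), OddFree H (2 * r + 3) →
      (#(clos H (2 * r + 5)) : ℝ) * ((2 * r + 3 : ℕ) : ℝ) ^ (2 * r + 4) ≤
        2 * ((2 * r + 3 : ℕ) + 2) * (q : ℝ) ^ (2 * r + 5)) :
    Tendsto (fun n : ℕ => (exC n (2 * r + 5) (2 * r + 1) : ℝ) / (n : ℝ) ^ (2 * r + 5)) atTop
      (𝓝 (1 / ((2 * r + 3 : ℕ) : ℝ) ^ (2 * r + 4))) := by
  set m := 2 * r + 3 with hm
  have hm0 : (0 : ℝ) < (m : ℝ) := by exact_mod_cast (by omega : 0 < m)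
  have ho : Odd m := ⟨r + 1, by omega⟩
  set L : ℝ := 1 / (m : ℝ) ^ (2 * r + 4) with hL
  have hL0 : 0 ≤ L := by positivity
  have hk : (0 : ℝ) < 2 * ((m : ℝ) + 2) := by positivity
  have hB' : ∀ (q : ℕ) (H : SimpleGraph (Fin q)), OddFree H (2 * r + 3) →
      (#(clos H (2 * r + 5)) : ℝ) ≤ (2 * ((m : ℝ) + 2) * L) * (q : ℝ) ^ (2 * r + 5) := by
    intro q H hH
    have h := hB q H hH
    rw [hL]
    rw [← le_div_iff₀ (by positivity)] at h
    calc _ ≤ _ := h
      _ = _ := by ring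
  rw [Metric.tendsto_atTop]
  intro ε hε
  -- upper bound
  obtain ⟨N1, hN1⟩ := upper_asymp r hr (2 * ((m : ℝ) + 2) * L) (by positivity) hB'
    (2 * ((m : ℝ) + 2) * (ε / 2)) (by positivity)
  -- lower bound: a limit
  have hlim : Tendsto (fun n : ℕ => (m : ℝ) * (1 / m - 1 / (n : ℝ)) ^ (m + 2) -
      (m + 2) * (1 / (n : ℝ))) atTop (𝓝 ((m : ℝ) * (1 / m - 0) ^ (m + 2) - (m + 2) * 0)) := by
    have h0 : Tendsto (fun n : ℕ => 1 / (n : ℝ)) atTop (𝓝 0) := tendsto_one_div_atTop_nhds_zero_nat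
    exact ((tendsto_const_nhds.sub h0).pow _).const_mul _ |>.sub (h0.const_mul _)
  have hval : (m : ℝ) * (1 / m - 0) ^ (m + 2) - (m + 2) * 0 = L := by
    rw [hL]
    have : m + 2 = (2 * r + 4) + 1 := by omega
    rw [this, pow_succ, sub_zero, mul_zero, sub_zero, one_div_pow]
    field_simp
  rw [hval, Metric.tendsto_atTop] at hlim
  obtain ⟨N2, hN2⟩ := hlim ε hε
  refine ⟨max (max N1 N2) (m + 1), fun n hn => ?_⟩
  have hn1 : N1 ≤ n := le_trans (le_trans (le_max_left _ _) (le_max_left _ _)) hn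
  have hn2 : N2 ≤ n := le_trans (le_trans (le_max_right _ _) (le_max_left _ _)) hn
  have hn3 : m + 1 ≤ n := le_trans (le_max_right _ _) hn
  have hnR : (0 : ℝ) < n := by exact_mod_cast (by omega : 0 < n)
  have hpow : (0 : ℝ) < (n : ℝ) ^ (2 * r + 5) := by positivity
  rw [Real.dist_eq, abs_lt]
  constructor
  · -- lower
    have h1 : ((BB n m).copyCount (SimpleGraph.cycleGraph (m + 2))) ≤
        exC n (2 * r + 5) (2 * r + 1) := by
      have hf : (SimpleGraph.cycleGraph (2 * r + 1)).Free (BB n m) :=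
        BB_free n m (2 * r + 1) ⟨r, rfl⟩ (by omega) (by omega)
      exact le_sup (f := fun G : SimpleGraph (Fin n) =>
        G.copyCount (SimpleGraph.cycleGraph (2 * r + 5)))
        (mem_filter.2 ⟨mem_univ (BB n m), hf⟩)
    have h2 := BB_copies n m (by omega) ho
    rw [if_pos (by exact_mod_cast (by omega : m ≤ n)), mul_one] at h2
    have h3 := hN2 n hn2
    rw [Real.dist_eq, abs_lt] at h3
    have h4 : ((m : ℝ) * ((n : ℝ) / m - 1) ^ (m + 2) - (m + 2) * (n : ℝ) ^ (m + 1)) /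
        (n : ℝ) ^ (2 * r + 5) =
        (m : ℝ) * (1 / m - 1 / (n : ℝ)) ^ (m + 2) - (m + 2) * (1 / (n : ℝ)) := by
      have e1 : (n : ℝ) / m - 1 = n * (1 / m - 1 / (n : ℝ)) := by field_simp
      have e2 : 2 * r + 5 = m + 2 := by omega
      rw [e1, e2, mul_pow, pow_succ (n : ℝ) (m + 1)]
      field_simp
    have h5 : ((m : ℝ) * ((n : ℝ) / m - 1) ^ (m + 2) - (m + 2) * (n : ℝ) ^ (m + 1)) /
        (n : ℝ) ^ (2 * r + 5) ≤ (exC n (2 * r + 5) (2 * r + 1) : ℝ) / (n : ℝ) ^ (2 * r + 5) := by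
      refine div_le_div_of_nonneg_right (h2.trans ?_) hpow.le
      exact_mod_cast h1
    rw [h4] at h5
    linarith [h3.1]
  · -- upper
    have h1 : (exC n (2 * r + 5) (2 * r + 1) : ℝ) ≤ (L + ε / 2) * (n : ℝ) ^ (2 * r + 5) := by
      have hne : ((univ : Finset (SimpleGraph (Fin n))).filter
          (fun G => (SimpleGraph.cycleGraph (2 * r + 1)).Free G)).Nonempty :=
        ⟨BB n m, mem_filter.2 ⟨mem_univ _,
          BB_free n m (2 * r + 1) ⟨r, rfl⟩ (by omega) (by omega)⟩⟩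
      obtain ⟨G, hG, hGe⟩ := exists_mem_eq_sup _ hne
        (fun G : SimpleGraph (Fin n) => G.copyCount (SimpleGraph.cycleGraph (2 * r + 5)))
      rw [mem_filter] at hG
      have e : exC n (2 * r + 5) (2 * r + 1) =
          G.copyCount (SimpleGraph.cycleGraph (2 * r + 5)) := hGe
      rw [e]
      have h2 := hN1 n hn1 G hG.2
      have h3 := copy_le G (2 * r + 5) (by omega)
      have h4 : 2 * ((m : ℝ) + 2) * (G.copyCount (SimpleGraph.cycleGraph (2 * r + 5)) : ℝ) ≤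
          (#(clos G (2 * r + 5)) : ℝ) := by
        have : ((2 * (2 * r + 5) * G.copyCount (SimpleGraph.cycleGraph (2 * r + 5)) : ℕ) : ℝ) ≤
          (#(clos G (2 * r + 5)) : ℝ) := by exact_mod_cast h3
        refine le_trans (le_of_eq ?_) this
        rw [hm]; push_cast; ring
      have h5 : 2 * ((m : ℝ) + 2) * (G.copyCount (SimpleGraph.cycleGraph (2 * r + 5)) : ℝ) ≤
          2 * ((m : ℝ) + 2) * ((L + ε / 2) * (n : ℝ) ^ (2 * r + 5)) := by
        refine (h4.trans h2).trans_eq ?_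
        ring
      exact le_of_mul_le_mul_left h5 hk
    have h2 : (exC n (2 * r + 5) (2 * r + 1) : ℝ) / (n : ℝ) ^ (2 * r + 5) ≤ L + ε / 2 := by
      rw [div_le_iff₀ hpow]; exact h1
    linarith

end Pool.Agent.CycGT
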