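import Pool.Agent.W_1bfdb5_h19.Arc

/-!
# Counting around a closed walk of length m (part 2): the sets B3

Interchange the sums: the left side is the sum over `w` of
`f w = ∑ s ∈ QS w, (if s - 1 ∉ PS w then 1 else 0) + (if s + 1 ∉ PS w then 1 else 0)`
(`w ∈ B3 G (c j) (c s)` iff `s ∈ QS w` and `j ∉ PS w`, here `j = s - 1` or `j = s + 1`).
Since `t ∈ PS w` implies `t ± 1 ∈ QS w`, we get `f w = 2 #QS - 2 #PS`.
Three kinds of vertices:
* `PS w = {t - 1, t + 1}` (so `w` is counted in `cA t`): by `arc` with `r = 3` from both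
  positions, `QS w ⊆ {t - 2, t, t + 2}`, so `f w ≤ 2`;
* `PS w = {t}` (so `w` is counted in `cS t`): `QS w ⊆ {t - 3, t - 1, t + 1, t + 3}` and not both
  `t - 3` and `t + 3` (`arc` with `r = 4`, `nz`), so `f w ≤ 4`;
* `PS w = ∅` (counted in `cU`): `f w ≤ 2 * m`.
-/

namespace Pool.Agent.CycGT

open Finset
open scoped Classical

variable {V : Type} [Fintype V]

lemma CB3_mem_PS {G : SimpleGraph V} {m : ℕ} [NeZero m] {c : ZMod m → V} {w : V} {t : ZMod m} :
    t ∈ PS G c w ↔ G.Adj w (c t) := by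
  simp [PS]

lemma CB3_mem_QS {G : SimpleGraph V} {m : ℕ} [NeZero m] {c : ZMod m → V} {w : V} {t : ZMod m} :
    t ∈ QS G c w ↔ Wk G 2 w (c t) := by
  simp [QS]

lemma CB3_add {G : SimpleGraph V} {m : ℕ} [NeZero m] {c : ZMod m → V} (hc : IsCl G m c) (w : V) :
    #((QS G c w).filter (fun s => s - 1 ∉ PS G c w)) + #(PS G c w) = #(QS G c w) := by
  have h1 : #((QS G c w).filter (fun s => s - 1 ∈ PS G c w)) = #(PS G c w) := by
    refine Finset.card_bij (fun s _ => s - 1) ?_ ?_ ?_
    · intro s hs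
      exact (Finset.mem_filter.1 hs).2
    · intro a _ b _ hab
      exact sub_left_injective hab
    · intro t ht
      refine ⟨t + 1, ?_, by ring⟩
      rw [Finset.mem_filter, CB3_mem_QS, wk_two]
      refine ⟨⟨c t, CB3_mem_PS.1 ht, hc t⟩, by simpa using ht⟩
  have h2 := Finset.card_filter_add_card_filter_not (s := QS G c w)
    (fun s => s - 1 ∈ PS G c w)
  omega

lemma CB3_add' {G : SimpleGraph V} {m : ℕ} [NeZero m] {c : ZMod m → V} (hc : IsCl G m c) (w : V) :
    #((QS G c w).filter (fun s => s + 1 ∉ PS G c w)) + #(PS G c w) = #(QS G c w) := by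
  have h1 : #((QS G c w).filter (fun s => s + 1 ∈ PS G c w)) = #(PS G c w) := by
    refine Finset.card_bij (fun s _ => s + 1) ?_ ?_ ?_
    · intro s hs
      exact (Finset.mem_filter.1 hs).2
    · intro a _ b _ hab
      exact add_left_injective _ hab
    · intro t ht
      refine ⟨t - 1, ?_, by ring⟩
      rw [Finset.mem_filter, CB3_mem_QS, wk_two]
      refine ⟨⟨c t, CB3_mem_PS.1 ht, ?_⟩, by simpa using ht⟩
      have := hc (t - 1)
      rw [sub_add_cancel] at this
      exact this.symm
  have h2 := Finset.card_filter_add_card_filter_not (s := QS G c w)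
    (fun s => s + 1 ∈ PS G c w)
  omega

lemma CB3_left {G : SimpleGraph V} {m : ℕ} [NeZero m] {c : ZMod m → V} :
    ∑ j, #(B3 G (c j) (c (j + 1))) =
      ∑ w, #((QS G c w).filter (fun s => s - 1 ∉ PS G c w)) := by
  simp only [B3, QS, Finset.filter_filter, Finset.card_filter, CB3_mem_PS]
  rw [Finset.sum_comm]
  refine Finset.sum_congr rfl fun w _ => ?_
  conv_rhs => rw [← Equiv.sum_comp (Equiv.addRight (1 : ZMod m))]
  refine Finset.sum_congr rfl fun j _ => ?_
  simp

lemma CB3_right {G : SimpleGraph V} {m : ℕ} [NeZero m] {c : ZMod m → V} :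
    ∑ j, #(B3 G (c j) (c (j - 1))) =
      ∑ w, #((QS G c w).filter (fun s => s + 1 ∉ PS G c w)) := by
  simp only [B3, QS, Finset.filter_filter, Finset.card_filter, CB3_mem_PS]
  rw [Finset.sum_comm]
  refine Finset.sum_congr rfl fun w _ => ?_
  conv_rhs => rw [← Equiv.sum_comp (Equiv.subRight (1 : ZMod m))]
  refine Finset.sum_congr rfl fun j _ => ?_
  simp

lemma CB3_near {G : SimpleGraph V} {m : ℕ} [NeZero m] (hm : 7 ≤ m) (ho : Odd m)
    (hG : OddFree G m) {c : ZMod m → V} (hc : IsCl G m c) {w : V} {t s : ZMod m}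
    (ht : t ∈ PS G c w) (hs : s ∈ QS G c w) :
    s = t + 1 ∨ s = t - 1 ∨ s = t + 3 ∨ s = t - 3 := by
  have h1 : Wk G 3 (c t) (c s) := by
    have h2 := (wk_one.2 (CB3_mem_PS.1 ht)).symm.trans (CB3_mem_QS.1 hs)
    exact h2
  obtain ⟨e, he, hpar, hcase⟩ := arc (M := m) (h := 0) (by omega) ho hG hc h1
  have he3 : e ≤ 3 := by omega
  have : e = 1 ∨ e = 3 := by
    interval_cases e <;> omega
  rcases this with rfl | rfl <;> rcases hcase with h | h <;> simp at h <;> tauto

lemma CB3_case_A {G : SimpleGraph V} {m : ℕ} [NeZero m] (hm : 7 ≤ m) (ho : Odd m)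
    (hG : OddFree G m) {c : ZMod m → V} (hc : IsCl G m c) {w : V} {t : ZMod m}
    (h1 : t - 1 ∈ PS G c w) (h2 : t + 1 ∈ PS G c w) :
    #(QS G c w) ≤ 3 ∧ 2 ≤ #(PS G c w) := by
  have n2 : ((2 : ℕ) : ZMod m) ≠ 0 := nz hm ho (by omega)
  have n4 : ((4 : ℕ) : ZMod m) ≠ 0 := nz hm ho (by omega)
  have n6 : ((6 : ℕ) : ZMod m) ≠ 0 := nz hm ho (by omega)
  have n8 : ((8 : ℕ) : ZMod m) ≠ 0 := nz hm ho (by omega)
  push_cast at n2 n4 n6 n8
  constructor
  · have hsub : QS G c w ⊆ {t, t + 2, t - 2} := by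
      intro s hs
      have a := CB3_near hm ho hG hc h1 hs
      have b := CB3_near hm ho hG hc h2 hs
      simp only [Finset.mem_insert, Finset.mem_singleton]
      rcases a with a | a | a | a
      · left; rw [a]; ring
      · right; right; rw [a]; ring
      · right; left; rw [a]; ring
      · exfalso
        rcases b with b | b | b | b
        · apply n6
          have := a.symm.trans b
          linear_combination -this
        · apply n4
          have := a.symm.trans b
          linear_combination -this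
        · apply n8
          have := a.symm.trans b
          linear_combination -this
        · apply n2
          have := a.symm.trans b
          linear_combination -this
    exact (Finset.card_le_card hsub).trans Finset.card_le_three
  · have hsub : {t - 1, t + 1} ⊆ PS G c w := by
      intro s hs
      simp only [Finset.mem_insert, Finset.mem_singleton] at hs
      rcases hs with rfl | rfl
      · exact h1
      · exact h2
    have hne : t - 1 ≠ t + 1 := by
      intro h
      apply n2
      linear_combination -h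
    calc 2 = #({t - 1, t + 1} : Finset (ZMod m)) := (Finset.card_pair hne).symm
      _ ≤ _ := Finset.card_le_card hsub

lemma CB3_case_S {G : SimpleGraph V} {m : ℕ} [NeZero m] (hm : 7 ≤ m) (ho : Odd m)
    (hG : OddFree G m) {c : ZMod m → V} (hc : IsCl G m c) {w : V} {t : ZMod m}
    (h1 : t ∈ PS G c w) : #(QS G c w) ≤ 3 := by
  have nn : ∀ n : ℕ, (n = 2 ∨ n = 4 ∨ n = 6 ∨ n = 8 ∨ n = 10) → (n : ZMod m) ≠ 0 := by
    intro n hn
    exact nz hm ho (by omega)
  have hnot : ¬ (t + 3 ∈ QS G c w ∧ t - 3 ∈ QS G c w) := by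
    rintro ⟨a, b⟩
    have h2 : Wk G 4 (c (t - 3)) (c (t + 3)) := (CB3_mem_QS.1 b).symm.trans (CB3_mem_QS.1 a)
    obtain ⟨e, he, hpar, hcase⟩ := arc (M := m) (h := 0) (by omega) ho hG hc h2
    have he4 : e ≤ 4 := by omega
    rcases hcase with h | h
    · apply nn (6 - e) (by interval_cases e <;> omega)
      rw [Nat.cast_sub (by omega)]
      push_cast
      linear_combination h
    · apply nn (6 + e) (by interval_cases e <;> omega)
      push_cast
      linear_combination h
  by_cases h3 : t + 3 ∈ QS G c w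
  · have hsub : QS G c w ⊆ {t + 1, t - 1, t + 3} := by
      intro s hs
      have a := CB3_near hm ho hG hc h1 hs
      simp only [Finset.mem_insert, Finset.mem_singleton]
      rcases a with a | a | a | a
      · tauto
      · tauto
      · tauto
      · exact absurd ⟨h3, a ▸ hs⟩ hnot
    exact (Finset.card_le_card hsub).trans Finset.card_le_three
  · have hsub : QS G c w ⊆ {t + 1, t - 1, t - 3} := by
      intro s hs
      have a := CB3_near hm ho hG hc h1 hs
      simp only [Finset.mem_insert, Finset.mem_singleton]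
      rcases a with a | a | a | a
      · tauto
      · tauto
      · exact absurd (a ▸ hs) h3
      · tauto
    exact (Finset.card_le_card hsub).trans Finset.card_le_three

theorem F4 {G : SimpleGraph V} {m : ℕ} [NeZero m] (hm : 7 ≤ m) (ho : Odd m)
    (hG : OddFree G m) {c : ZMod m → V} (hc : IsCl G m c) :
    ∑ j, (#(B3 G (c j) (c (j + 1))) + #(B3 G (c j) (c (j - 1)))) ≤
      2 * ∑ t, cA G c t + 4 * ∑ t, cS G c t + 2 * m * cU G c := by
  have hA : ∑ t, cA G c t = ∑ w : V, #(univ.filter fun t : ZMod m =>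
      G.Adj w (c (t - 1)) ∧ G.Adj w (c (t + 1))) := by
    simp only [cA, Finset.card_filter]
    exact Finset.sum_comm
  have hS : ∑ t, cS G c t = ∑ w : V, #(univ.filter fun t : ZMod m =>
      G.Adj w (c t) ∧ ¬ G.Adj w (c (t - 2)) ∧ ¬ G.Adj w (c (t + 2))) := by
    simp only [cS, Finset.card_filter]
    exact Finset.sum_comm
  have hU : cU G c = ∑ w : V, if (∀ t, ¬ G.Adj w (c t)) then 1 else 0 := by
    simp only [cU, Finset.card_filter]
    refine Finset.sum_congr rfl fun w _ => ?_
    congr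
  rw [Finset.sum_add_distrib, CB3_left, CB3_right, hA, hS, hU, Finset.mul_sum, Finset.mul_sum,
    Finset.mul_sum, ← Finset.sum_add_distrib, ← Finset.sum_add_distrib, ← Finset.sum_add_distrib]
  refine Finset.sum_le_sum fun w _ => ?_
  have e1 := CB3_add hc w
  have e2 := CB3_add' hc w
  by_cases hP : ∀ t, ¬ G.Adj w (c t)
  · rw [if_pos hP]
    have h3 : #(QS G c w) ≤ m := by
      refine (Finset.card_le_univ _).trans ?_
      rw [ZMod.card]
    have h4 : 2 * m * 1 = 2 * m := by ring
    omega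
  · rw [if_neg hP]
    push Not at hP
    obtain ⟨t0, ht0⟩ := hP
    by_cases hAA : ∃ t : ZMod m, G.Adj w (c (t - 1)) ∧ G.Adj w (c (t + 1))
    · obtain ⟨t, h1, h2⟩ := hAA
      obtain ⟨h3, h4⟩ := CB3_case_A hm ho hG hc (CB3_mem_PS.2 h1) (CB3_mem_PS.2 h2)
      have h5 : 1 ≤ #(univ.filter fun t : ZMod m =>
          G.Adj w (c (t - 1)) ∧ G.Adj w (c (t + 1))) :=
        Finset.card_pos.2 ⟨t, by simp [h1, h2]⟩
      omega
    · have h5 : 1 ≤ #(univ.filter fun t : ZMod m =>
          G.Adj w (c t) ∧ ¬ G.Adj w (c (t - 2)) ∧ ¬ G.Adj w (c (t + 2))) := by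
        refine Finset.card_pos.2 ⟨t0, ?_⟩
        rw [Finset.mem_filter]
        refine ⟨Finset.mem_univ _, ht0, fun h => hAA ⟨t0 - 1, ?_, ?_⟩,
          fun h => hAA ⟨t0 + 1, ?_, ?_⟩⟩
        · rw [show t0 - 1 - 1 = t0 - 2 by ring]; exact h
        · rw [show t0 - 1 + 1 = t0 by ring]; exact ht0
        · rw [show t0 + 1 - 1 = t0 by ring]; exact ht0
        · rw [show t0 + 1 + 1 = t0 + 2 by ring]; exact h
      have h3 := CB3_case_S hm ho hG hc (CB3_mem_PS.2 ht0)
      have h6 : 1 ≤ #(PS G c w) := Finset.card_pos.2 ⟨t0, CB3_mem_PS.2 ht0⟩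
      omega

end Pool.Agent.CycGT
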