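import Pool.Agent.W_1bfdb5_h19.Arc

/-!
# Counting around a closed walk of length m (part 1)

`c` is a closed walk of length `m`, `m` odd, `m ≥ 7`, no closed walk of odd length `< m`.
For a vertex `w` two positions `t, t'` adjacent to `w` satisfy `t' = t` or `t' = t ± 2`
(`arc` with `r = 2`), so there are at most two of them (`nz` with 4 and 6).

F1: every neighbour of `c t` is in exactly one of the sets of `cS t`, `cA (t+1)`, `cA (t-1)`.
F2, F3: directly from the definitions (no hypothesis on `G`).
F5: every vertex is in at most one of the sets.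
-/

namespace Pool.Agent.CycGT

open Finset
open scoped Classical

variable {V : Type} [Fintype V]

omit [Fintype V] in
lemma CComb_pos {G : SimpleGraph V} {m : ℕ} (ho : Odd m)
    (hG : OddFree G m) {c : ZMod m → V} (hc : IsCl G m c) {w : V} {t t' : ZMod m}
    (h : G.Adj w (c t)) (h' : G.Adj w (c t')) : t' = t ∨ t' = t + 2 ∨ t' = t - 2 := by
  obtain ⟨e, he1, he2, he3⟩ := arc (M := m) (h := 0) (by omega) ho hG hc (r := 2)
    (wk_two.2 ⟨w, h.symm, h'⟩)
  have he : e = 0 ∨ e = 2 := by omega
  rcases he with rfl | rfl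
  · left
    rcases he3 with h3 | h3 <;> simpa using h3
  · right
    rcases he3 with h3 | h3
    · left; simpa using h3
    · right; simpa using h3

omit [Fintype V] in
lemma CComb_no4 {G : SimpleGraph V} {m : ℕ} (hm : 7 ≤ m) (ho : Odd m)
    (hG : OddFree G m) {c : ZMod m → V} (hc : IsCl G m c) {w : V} {t t' : ZMod m}
    (h : G.Adj w (c t)) (h' : G.Adj w (c t')) (e : t' = t + 4) : False := by
  have n2 : ((2 : ℕ) : ZMod m) ≠ 0 := nz hm ho (by omega)
  have n4 : ((4 : ℕ) : ZMod m) ≠ 0 := nz hm ho (by omega)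
  have n6 : ((6 : ℕ) : ZMod m) ≠ 0 := nz hm ho (by omega)
  push_cast at n2 n4 n6
  rcases CComb_pos ho hG hc h h' with h3 | h3 | h3
  · apply n4
    have : t + 4 = t := by rw [← e, h3]
    linear_combination this
  · apply n2
    have : t + 4 = t + 2 := by rw [← e, h3]
    linear_combination this
  · apply n6
    have : t + 4 = t - 2 := by rw [← e, h3]
    linear_combination this

theorem F1 {G : SimpleGraph V} {m : ℕ} [NeZero m] (hm : 7 ≤ m) (ho : Odd m)
    (hG : OddFree G m) {c : ZMod m → V} (hc : IsCl G m c) :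
    ∑ t, #(Nb G (c t)) = 2 * ∑ t, cA G c t + ∑ t, cS G c t := by
  have key : ∀ t, #(Nb G (c t)) = cS G c t + cA G c (t + 1) + cA G c (t - 1) := by
    intro t
    have e1 : t + 1 - 1 = t := by ring
    have e2 : t + 1 + 1 = t + 2 := by ring
    have e3 : t - 1 - 1 = t - 2 := by ring
    have e4 : t - 1 + 1 = t := by ring
    unfold cS cA Nb
    rw [e1, e2, e3, e4, ← card_union_of_disjoint, ← card_union_of_disjoint]
    · congr 1
      ext w
      simp only [mem_filter, mem_univ, true_and, mem_union]
      constructor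
      · intro h
        by_cases h1 : G.Adj w (c (t + 2))
        · exact Or.inl (Or.inr ⟨h, h1⟩)
        · by_cases h2 : G.Adj w (c (t - 2))
          · exact Or.inr ⟨h2, h⟩
          · exact Or.inl (Or.inl ⟨h, h2, h1⟩)
      · rintro ((h | h) | h)
        · exact h.1
        · exact h.1
        · exact h.2
    · rw [disjoint_left]
      intro w hw hw'
      simp only [mem_filter, mem_univ, true_and, mem_union] at hw hw'
      rcases hw with hw | hw
      · exact hw.2.1 hw'.1
      · exact CComb_no4 hm ho hG hc hw'.1 hw.2 (by ring)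
    · rw [disjoint_left]
      intro w hw hw'
      simp only [mem_filter, mem_univ, true_and] at hw hw'
      exact hw.2.2 hw'.2
  have e1 : ∑ t, cA G c (t + 1) = ∑ t, cA G c t := Equiv.sum_comp (Equiv.addRight (1 : ZMod m)) _
  have e2 : ∑ t, cA G c (t - 1) = ∑ t, cA G c t := Equiv.sum_comp (Equiv.subRight (1 : ZMod m)) _
  rw [sum_congr rfl (fun t _ => key t), sum_add_distrib, sum_add_distrib, e1, e2]
  ring

theorem F2a (G : SimpleGraph V) {m : ℕ} (c : ZMod m → V) (j : ZMod m) :
    #(B2 G (seqOf (rot c j) 1) (seqOf (rot c j) 3)) = cA G c (j + 2) := by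
  unfold B2 cA seqOf rot
  have e1 : j + ((1 : ℕ) : ZMod m) = j + 2 - 1 := by push_cast; ring
  have e2 : j + ((3 : ℕ) : ZMod m) = j + 2 + 1 := by push_cast; ring
  rw [e1, e2]

theorem F2b (G : SimpleGraph V) {m : ℕ} (c : ZMod m → V) (j : ZMod m) :
    #(B2 G (seqOf (rfl' c j) 1) (seqOf (rfl' c j) 3)) = cA G c (j - 2) := by
  unfold B2 cA seqOf rfl'
  have e1 : j - ((1 : ℕ) : ZMod m) = j - 2 + 1 := by push_cast; ring
  have e2 : j - ((3 : ℕ) : ZMod m) = j - 2 - 1 := by push_cast; ring
  rw [e1, e2]
  congr 1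
  ext w
  simp only [mem_filter, mem_univ, true_and]
  exact and_comm

theorem F3a (G : SimpleGraph V) {m : ℕ} (c : ZMod m → V) (j : ZMod m) {i : ℕ} (hi : 4 ≤ i) :
    #(stepSet G (seqOf (rot c j)) i) ≤ cA G c (j + i) + cS G c (j + i - 1) := by
  have e1 : j + ((i - 1 : ℕ) : ZMod m) = j + i - 1 := by
    rw [Nat.cast_sub (by omega)]; push_cast; ring
  have e3 : j + ((i - 3 : ℕ) : ZMod m) = j + i - 1 - 2 := by
    rw [Nat.cast_sub (by omega)]; push_cast; ring
  have e4 : j + i + 1 = j + i - 1 + 2 := by ring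
  unfold cA cS
  refine (card_le_card ?_).trans (card_union_le _ _)
  intro w hw
  unfold stepSet seqOf rot at hw
  simp only [mem_filter, mem_univ, true_and, mem_union] at hw ⊢
  rw [e1, e3] at hw
  rw [e4]
  by_cases h : G.Adj w (c (j + i - 1 + 2))
  · exact Or.inl ⟨hw.1, h⟩
  · exact Or.inr ⟨hw.1, hw.2.1, h⟩

theorem F3b (G : SimpleGraph V) {m : ℕ} (c : ZMod m → V) (j : ZMod m) {i : ℕ} (hi : 4 ≤ i) :
    #(stepSet G (seqOf (rfl' c j)) i) ≤ cA G c (j - i) + cS G c (j - i + 1) := by
  have e1 : j - ((i - 1 : ℕ) : ZMod m) = j - i + 1 := by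
    rw [Nat.cast_sub (by omega)]; push_cast; ring
  have e3 : j - ((i - 3 : ℕ) : ZMod m) = j - i + 1 + 2 := by
    rw [Nat.cast_sub (by omega)]; push_cast; ring
  have e4 : j - i - 1 = j - i + 1 - 2 := by ring
  unfold cA cS
  refine (card_le_card ?_).trans (card_union_le _ _)
  intro w hw
  unfold stepSet seqOf rfl' at hw
  simp only [mem_filter, mem_univ, true_and, mem_union] at hw ⊢
  rw [e1, e3] at hw
  rw [e4]
  by_cases h : G.Adj w (c (j - i + 1 - 2))
  · exact Or.inl ⟨h, hw.1⟩
  · exact Or.inr ⟨hw.1, h, hw.2.1⟩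

theorem F5 {G : SimpleGraph V} {m : ℕ} [NeZero m] (hm : 7 ≤ m) (ho : Odd m)
    (hG : OddFree G m) {c : ZMod m → V} (hc : IsCl G m c) :
    ∑ t, cA G c t + ∑ t, cS G c t + cU G c ≤ Fintype.card V := by
  have key : ∀ w : V,
      #(univ.filter (fun t : ZMod m => G.Adj w (c (t - 1)) ∧ G.Adj w (c (t + 1)))) +
      #(univ.filter (fun t : ZMod m =>
        G.Adj w (c t) ∧ ¬ G.Adj w (c (t - 2)) ∧ ¬ G.Adj w (c (t + 2)))) +
      (if ∀ t, ¬ G.Adj w (c t) then 1 else 0) ≤ 1 := by
    intro w
    set TA := univ.filter (fun t : ZMod m => G.Adj w (c (t - 1)) ∧ G.Adj w (c (t + 1))) with hTA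
    set TS := univ.filter (fun t : ZMod m =>
        G.Adj w (c t) ∧ ¬ G.Adj w (c (t - 2)) ∧ ¬ G.Adj w (c (t + 2))) with hTS
    have hA1 : #TA ≤ 1 := by
      rw [card_le_one]
      intro a ha b hb
      simp only [hTA, mem_filter, mem_univ, true_and] at ha hb
      rcases CComb_pos ho hG hc ha.1 hb.1 with h | h | h
      · have : b = a := by linear_combination h
        exact this.symm
      · exact (CComb_no4 hm ho hG hc ha.1 hb.2 (by linear_combination h)).elim
      · exact (CComb_no4 hm ho hG hc hb.1 ha.2 (by linear_combination -h)).elim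
    have hS1 : #TS ≤ 1 := by
      rw [card_le_one]
      intro a ha b hb
      simp only [hTS, mem_filter, mem_univ, true_and] at ha hb
      rcases CComb_pos ho hG hc ha.1 hb.1 with h | h | h
      · exact h.symm
      · exact (ha.2.2 (h ▸ hb.1)).elim
      · exact (ha.2.1 (h ▸ hb.1)).elim
    have hAS : ∀ a ∈ TA, ∀ b ∈ TS, False := by
      intro a ha b hb
      simp only [hTA, hTS, mem_filter, mem_univ, true_and] at ha hb
      rcases CComb_pos ho hG hc ha.2 hb.1 with h | h | h
      · apply hb.2.1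
        have : b - 2 = a - 1 := by rw [h]; ring
        rw [this]; exact ha.1
      · apply hb.2.1
        have : b - 2 = a + 1 := by rw [h]; ring
        rw [this]; exact ha.2
      · apply hb.2.2
        have : b + 2 = a + 1 := by rw [h]; ring
        rw [this]; exact ha.2
    by_cases hU : ∀ t, ¬ G.Adj w (c t)
    · have h1 : TA = ∅ := by
        rw [eq_empty_iff_forall_notMem]
        intro a ha
        simp only [hTA, mem_filter, mem_univ, true_and] at ha
        exact hU _ ha.1
      have h2 : TS = ∅ := by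
        rw [eq_empty_iff_forall_notMem]
        intro a ha
        simp only [hTS, mem_filter, mem_univ, true_and] at ha
        exact hU _ ha.1
      rw [h1, h2, if_pos hU]
      simp
    · rw [if_neg hU, add_zero]
      rcases TA.eq_empty_or_nonempty with h1 | ⟨a, ha⟩
      · rw [h1, card_empty, zero_add]
        exact hS1
      · have h2 : TS = ∅ := by
          rw [eq_empty_iff_forall_notMem]
          intro b hb
          exact hAS a ha b hb
        rw [h2, card_empty, add_zero]
        exact hA1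
  have eA : ∑ t, cA G c t =
      ∑ w : V, #(univ.filter (fun t : ZMod m => G.Adj w (c (t - 1)) ∧ G.Adj w (c (t + 1)))) := by
    simp only [cA, card_filter]
    exact sum_comm
  have eS : ∑ t, cS G c t =
      ∑ w : V, #(univ.filter (fun t : ZMod m =>
        G.Adj w (c t) ∧ ¬ G.Adj w (c (t - 2)) ∧ ¬ G.Adj w (c (t + 2)))) := by
    simp only [cS, card_filter]
    exact sum_comm
  have eU : cU G c = ∑ w : V, (if ∀ t, ¬ G.Adj w (c t) then 1 else 0) := by
    simp only [cU, card_filter]
    refine sum_congr rfl fun w _ => ?_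
    congr
  rw [eA, eS, eU, ← sum_add_distrib, ← sum_add_distrib]
  calc _ ≤ ∑ _w : V, 1 := sum_le_sum fun w _ => key w
    _ = Fintype.card V := by simp

end Pool.Agent.CycGT
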