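import Pool.Agent.W_1bfdb5_h19.Arc

/-!
# Counting around a closed walk of length m (part 3): the number TT

Fix `i`, and `x` adjacent to `c i`, `y` adjacent to `c (i+1)`, `x` adjacent to `y`.
`x` is in exactly one of: the set of `cS i` (`PS x = {i}`), of `cA (i+1)` (`PS x = {i, i+2}`),
of `cA (i-1)` (`PS x = {i-2, i}`).  `y` is in exactly one of: the set of `cS (i+1)`
(`PS y = {i+1}`), of `cA (i+2)` (`PS y = {i+1, i+3}`), of `cA i` (`PS y = {i-1, i+1}`).
The combination `x ∈ cA (i-1)`, `y ∈ cA (i+2)` is impossible (`arc` with `r = 3` for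
`c (i-2)`, `c (i+3)`, difference 5).  So the summand for `i` is at most
`s i s (i+1) + s i a (i+2) / 2 + s i a i / 2 + a (i+1) s (i+1) / 2 + a (i+1) a (i+2) / 3 +
a (i+1) a i / 3 + a (i-1) s (i+1) / 2 + a (i-1) a i / 3`; sum over `i` and shift the indices.
-/

namespace Pool.Agent.CycGT

open Finset
open scoped Classical

variable {V : Type} [Fintype V]

set_option linter.unusedSectionVars false

private noncomputable def ctA (G : SimpleGraph V) {M : ℕ} (c : ZMod M → V) (t : ZMod M)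
    (w : V) : ℝ := if G.Adj w (c (t - 1)) ∧ G.Adj w (c (t + 1)) then 1 else 0

private noncomputable def ctS (G : SimpleGraph V) {M : ℕ} (c : ZMod M → V) (t : ZMod M)
    (w : V) : ℝ :=
  if G.Adj w (c t) ∧ ¬ G.Adj w (c (t - 2)) ∧ ¬ G.Adj w (c (t + 2)) then 1 else 0

private theorem ct_sumA (G : SimpleGraph V) {M : ℕ} (c : ZMod M → V) (t : ZMod M) :
    ∑ w, ctA G c t w = cA G c t := by
  unfold ctA cA
  rw [Finset.sum_boole]

private theorem ct_sumS (G : SimpleGraph V) {M : ℕ} (c : ZMod M → V) (t : ZMod M) :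
    ∑ w, ctS G c t w = cS G c t := by
  unfold ctS cS
  rw [Finset.sum_boole]

private theorem ct_nnA (G : SimpleGraph V) {M : ℕ} (c : ZMod M → V) (t : ZMod M) (w : V) :
    0 ≤ ctA G c t w := by
  unfold ctA
  split_ifs <;> norm_num

private theorem ct_nnS (G : SimpleGraph V) {M : ℕ} (c : ZMod M → V) (t : ZMod M) (w : V) :
    0 ≤ ctS G c t w := by
  unfold ctS
  split_ifs <;> norm_num

private theorem ct_two {M : ℕ} [NeZero M] {P : Finset (ZMod M)} {i j : ZMod M} (hi : i ∈ P)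
    (hj : j ∈ P) (hne : i ≠ j) : 2 ≤ #P := by
  have h1 : ({i, j} : Finset (ZMod M)) ⊆ P := by
    intro t ht
    rw [Finset.mem_insert, Finset.mem_singleton] at ht
    rcases ht with rfl | rfl
    · exact hi
    · exact hj
  calc 2 = #({i, j} : Finset (ZMod M)) := (Finset.card_pair hne).symm
    _ ≤ _ := Finset.card_le_card h1

private theorem ct_typ (G : SimpleGraph V) {m : ℕ} [NeZero m] (hm : 7 ≤ m) (ho : Odd m)
    (c : ZMod m → V) (i : ZMod m) (x : V) (h : G.Adj x (c i)) :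
    (ctS G c i x = 1 ∧ 1 ≤ #(PS G c x)) ∨
      (ctA G c (i + 1) x = 1 ∧ 2 ≤ #(PS G c x) ∧ G.Adj x (c (i + 2))) ∨
      (ctA G c (i - 1) x = 1 ∧ 2 ≤ #(PS G c x) ∧ G.Adj x (c (i - 2))) := by
  have hmem : ∀ t, G.Adj x (c t) → t ∈ PS G c x := fun t ht => by
    unfold PS
    rw [Finset.mem_filter]
    exact ⟨Finset.mem_univ _, ht⟩
  have h2 : (2 : ZMod m) ≠ 0 := by
    have := nz hm ho (n := 2) (by omega)
    exact_mod_cast this
  by_cases h1 : G.Adj x (c (i + 2))
  · right
    left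
    refine ⟨?_, ct_two (hmem _ h) (hmem _ h1) ?_, h1⟩
    · unfold ctA
      rw [if_pos]
      have e1 : i + 1 - 1 = i := by ring
      have e2 : i + 1 + 1 = i + 2 := by ring
      rw [e1, e2]
      exact ⟨h, h1⟩
    · intro he
      exact h2 (left_eq_add.1 he)
  · by_cases h3 : G.Adj x (c (i - 2))
    · right
      right
      refine ⟨?_, ct_two (hmem _ h) (hmem _ h3) ?_, h3⟩
      · unfold ctA
        rw [if_pos]
        have e1 : i - 1 - 1 = i - 2 := by ring
        have e2 : i - 1 + 1 = i := by ring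
        rw [e1, e2]
        exact ⟨h3, h⟩
      · intro he
        apply h2
        linear_combination he
    · left
      refine ⟨?_, ?_⟩
      · unfold ctS
        rw [if_pos]
        exact ⟨h, h3, h1⟩
      · exact Finset.card_pos.2 ⟨i, hmem _ h⟩

private theorem ct_imp {G : SimpleGraph V} {m : ℕ} [NeZero m] (hm : 7 ≤ m) (ho : Odd m)
    (hG : OddFree G m) {c : ZMod m → V} (hc : IsCl G m c) {i : ZMod m} {x y : V}
    (hxy : G.Adj x y) (hx : G.Adj x (c (i - 2))) (hy : G.Adj y (c (i + 1 + 2))) : False := by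
  have h1 : Wk G (1 + (1 + 1)) (c (i - 2)) (c (i + 1 + 2)) :=
    (wk_one.2 hx.symm).trans ((wk_one.2 hxy).trans (wk_one.2 hy))
  obtain ⟨e, he1, he2, he3⟩ := arc (h := 0) (by omega) ho hG hc h1
  have he : e = 1 ∨ e = 3 := by omega
  have n2 : (2 : ZMod m) ≠ 0 := by
    have := nz hm ho (n := 2) (by omega)
    exact_mod_cast this
  have n4 : (4 : ZMod m) ≠ 0 := by
    have := nz hm ho (n := 4) (by omega)
    exact_mod_cast this
  have n6 : (6 : ZMod m) ≠ 0 := by
    have := nz hm ho (n := 6) (by omega)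
    exact_mod_cast this
  have n8 : (8 : ZMod m) ≠ 0 := by
    have := nz hm ho (n := 8) (by omega)
    exact_mod_cast this
  rcases he with rfl | rfl
  · rcases he3 with h | h
    · apply n4
      push_cast at h
      linear_combination h
    · apply n6
      push_cast at h
      linear_combination h
  · rcases he3 with h | h
    · apply n2
      push_cast at h
      linear_combination h
    · apply n8
      push_cast at h
      linear_combination h

private theorem ct_inv {a b k : ℕ} (ha : k + 1 ≤ a + b) (hk : 0 < k) :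
    ((a : ℝ) + b - 1)⁻¹ ≤ (k : ℝ)⁻¹ := by
  have h1 : (k : ℝ) + 1 ≤ a + b := by exact_mod_cast ha
  have h2 : (0 : ℝ) < k := by exact_mod_cast hk
  exact inv_anti₀ h2 (by linarith)

private theorem ct_point {G : SimpleGraph V} {m : ℕ} [NeZero m] (hm : 7 ≤ m) (ho : Odd m)
    (hG : OddFree G m) {c : ZMod m → V} (hc : IsCl G m c) (i : ZMod m) (x y : V) :
    (if G.Adj x (c i) ∧ G.Adj y (c (i + 1)) ∧ G.Adj x y then
      ((#(PS G c x) : ℝ) + #(PS G c y) - 1)⁻¹ else 0) ≤
    ctS G c i x * (ctS G c (i + 1) y + ctA G c (i + 1 + 1) y / 2 + ctA G c (i + 1 - 1) y / 2) +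
    ctA G c (i + 1) x *
      (ctS G c (i + 1) y / 2 + ctA G c (i + 1 + 1) y / 3 + ctA G c (i + 1 - 1) y / 3) +
    ctA G c (i - 1) x * (ctS G c (i + 1) y / 2 + ctA G c (i + 1 - 1) y / 3) := by
  have n1 := ct_nnS G c i x
  have n2 := ct_nnA G c (i + 1) x
  have n3 := ct_nnA G c (i - 1) x
  have m1 := ct_nnS G c (i + 1) y
  have m2 := ct_nnA G c (i + 1 + 1) y
  have m3 := ct_nnA G c (i + 1 - 1) y
  have p11 := mul_nonneg n1 m1
  have p12 := mul_nonneg n1 m2
  have p13 := mul_nonneg n1 m3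
  have p21 := mul_nonneg n2 m1
  have p22 := mul_nonneg n2 m2
  have p23 := mul_nonneg n2 m3
  have p31 := mul_nonneg n3 m1
  have p33 := mul_nonneg n3 m3
  split_ifs with h
  · obtain ⟨hx, hy, hxy⟩ := h
    rcases ct_typ G hm ho c i x hx with ⟨hx1, hx2⟩ | ⟨hx1, hx2, hx3⟩ | ⟨hx1, hx2, hx3⟩
    · rcases ct_typ G hm ho c (i + 1) y hy with ⟨hy1, hy2⟩ | ⟨hy1, hy2, hy3⟩ | ⟨hy1, hy2, hy3⟩
      · have h := ct_inv (k := 1) (a := #(PS G c x)) (b := #(PS G c y)) (by omega) one_pos
        rw [Nat.cast_one, inv_one] at h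
        rw [hx1, hy1] at *
        linarith
      · have h := ct_inv (k := 2) (a := #(PS G c x)) (b := #(PS G c y)) (by omega) two_pos
        rw [Nat.cast_ofNat] at h
        rw [hx1, hy1] at *
        linarith
      · have h := ct_inv (k := 2) (a := #(PS G c x)) (b := #(PS G c y)) (by omega) two_pos
        rw [Nat.cast_ofNat] at h
        rw [hx1, hy1] at *
        linarith
    · rcases ct_typ G hm ho c (i + 1) y hy with ⟨hy1, hy2⟩ | ⟨hy1, hy2, hy3⟩ | ⟨hy1, hy2, hy3⟩
      · have h := ct_inv (k := 2) (a := #(PS G c x)) (b := #(PS G c y)) (by omega) two_pos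
        rw [Nat.cast_ofNat] at h
        rw [hx1, hy1] at *
        linarith
      · have h := ct_inv (k := 3) (a := #(PS G c x)) (b := #(PS G c y)) (by omega) three_pos
        rw [Nat.cast_ofNat] at h
        rw [hx1, hy1] at *
        linarith
      · have h := ct_inv (k := 3) (a := #(PS G c x)) (b := #(PS G c y)) (by omega) three_pos
        rw [Nat.cast_ofNat] at h
        rw [hx1, hy1] at *
        linarith
    · rcases ct_typ G hm ho c (i + 1) y hy with ⟨hy1, hy2⟩ | ⟨hy1, hy2, hy3⟩ | ⟨hy1, hy2, hy3⟩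
      · have h := ct_inv (k := 2) (a := #(PS G c x)) (b := #(PS G c y)) (by omega) two_pos
        rw [Nat.cast_ofNat] at h
        rw [hx1, hy1] at *
        linarith
      · exact (ct_imp hm ho hG hc hxy hx3 hy3).elim
      · have h := ct_inv (k := 3) (a := #(PS G c x)) (b := #(PS G c y)) (by omega) three_pos
        rw [Nat.cast_ofNat] at h
        rw [hx1, hy1] at *
        linarith
  · linarith

private theorem ct_shift {m : ℕ} [NeZero m] (F : ZMod m → ℝ) (k : ZMod m) :
    ∑ t, F (t + k) = ∑ t, F t :=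
  Fintype.sum_equiv (Equiv.addRight k) _ _ (fun _ => rfl)

theorem F6 {G : SimpleGraph V} {m : ℕ} [NeZero m] (hm : 7 ≤ m) (ho : Odd m)
    (hG : OddFree G m) {c : ZMod m → V} (hc : IsCl G m c) :
    TT G c ≤ ∑ t, ((cA G c t : ℝ) * cA G c (t + 1) + (cA G c t : ℝ) * cS G c t +
      (cS G c t : ℝ) * (cA G c (t + 2) + cA G c (t - 2)) / 2 + (cS G c t : ℝ) * cS G c (t + 1)) := by
  obtain ⟨a, ha⟩ : ∃ a : ZMod m → ℝ, a = fun t => (cA G c t : ℝ) := ⟨_, rfl⟩
  obtain ⟨s, hs⟩ : ∃ s : ZMod m → ℝ, s = fun t => (cS G c t : ℝ) := ⟨_, rfl⟩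
  have hA : ∀ t, ∑ w, ctA G c t w = a t := fun t => by rw [ct_sumA, ha]
  have hS : ∀ t, ∑ w, ctS G c t w = s t := fun t => by rw [ct_sumS, hs]
  have ha' : ∀ t, (cA G c t : ℝ) = a t := fun t => by rw [ha]
  have hs' : ∀ t, (cS G c t : ℝ) = s t := fun t => by rw [hs]
  have h1 : TT G c ≤ ∑ i : ZMod m, (s i * (s (i + 1) + a (i + 1 + 1) / 2 + a (i + 1 - 1) / 2) +
      a (i + 1) * (s (i + 1) / 2 + a (i + 1 + 1) / 3 + a (i + 1 - 1) / 3) +
      a (i - 1) * (s (i + 1) / 2 + a (i + 1 - 1) / 3)) := by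
    unfold TT
    refine Finset.sum_le_sum fun i _ => ?_
    refine (Finset.sum_le_sum fun x _ => Finset.sum_le_sum fun y _ =>
      ct_point hm ho hG hc i x y).trans (le_of_eq ?_)
    simp only [Finset.sum_add_distrib, ← Finset.mul_sum, ← Finset.sum_mul, ← Finset.sum_div, hA,
      hS]
  refine h1.trans (le_of_eq ?_)
  simp only [ha', hs']
  have e1 : ∑ i, a (i + 1) * s (i + 1) = ∑ i, a i * s i := ct_shift (fun t => a t * s t) 1
  have e2 : ∑ i, a (i + 1) * a (i + 1 + 1) = ∑ i, a i * a (i + 1) :=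
    ct_shift (fun t => a t * a (t + 1)) 1
  have e3 : ∑ i, a (i - 1) * a i = ∑ i, a i * a (i + 1) := by
    have h := ct_shift (fun t => a t * a (t + 1)) (-1)
    rw [← h]
    refine Finset.sum_congr rfl fun i _ => ?_
    have e' : i + -1 = i - 1 := by ring
    simp only [e', sub_add_cancel]
  have e4 : ∑ i, s (i + 1) * a (i - 1) = ∑ i, s i * a (i - 2) := by
    have h := ct_shift (fun t => s t * a (t - 2)) 1
    rw [← h]
    refine Finset.sum_congr rfl fun i _ => ?_
    have e : i + 1 - 2 = i - 1 := by ring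
    simp only [e]
  have h2 : ∀ i : ZMod m, s i * (s (i + 1) + a (i + 1 + 1) / 2 + a (i + 1 - 1) / 2) +
      a (i + 1) * (s (i + 1) / 2 + a (i + 1 + 1) / 3 + a (i + 1 - 1) / 3) +
      a (i - 1) * (s (i + 1) / 2 + a (i + 1 - 1) / 3) =
      s i * s (i + 1) + s i * a (i + 2) / 2 + a i * s i / 2 + a (i + 1) * s (i + 1) / 2 +
      a (i + 1) * a (i + 1 + 1) / 3 + a i * a (i + 1) / 3 + s (i + 1) * a (i - 1) / 2 +
      a (i - 1) * a i / 3 := by
    intro i
    have e : i + 1 - 1 = i := by ring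
    have e' : i + 1 + 1 = i + 2 := by ring
    rw [e, e']
    ring
  have h3 : ∀ t : ZMod m, a t * a (t + 1) + a t * s t + s t * (a (t + 2) + a (t - 2)) / 2 +
      s t * s (t + 1) = s t * s (t + 1) + s t * a (t + 2) / 2 + a t * s t / 2 + a t * s t / 2 +
      a t * a (t + 1) / 3 + a t * a (t + 1) / 3 + s t * a (t - 2) / 2 +
      a t * a (t + 1) / 3 := by
    intro t
    ring
  rw [Finset.sum_congr rfl fun i _ => h2 i, Finset.sum_congr rfl fun i _ => h3 i]
  simp only [Finset.sum_add_distrib, ← Finset.sum_div, e1, e2, e3, e4]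

end Pool.Agent.CycGT
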