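import Mathlib

/-!
# Jensen type lemmas

`jensen3`: `∑ exp (- log z g) ≥ n exp (- mean of log z)` (`exp` convex, or weighted AM-GM for the
numbers `1 / z g`), `log (product) = sum of logs`, and `mean of log x ≤ log (mean of x)`.

`jensenK`: first AM-GM for the `n` factors of each `g` (`prod ≤ (sum / n)^n`), then convexity of
`x ↦ x^(-n)` (or Hoelder / power mean: `(mean x)^(-n) ≤ mean (x^(-n))`).
-/

namespace Pool.Agent.CycGT

open Finset

theorem jen_exp {ι : Type} (I : Finset ι) (hI : I.Nonempty) (L : ι → ℝ) :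
    (#I : ℝ) * Real.exp (-((∑ g ∈ I, L g) / #I)) ≤ ∑ g ∈ I, Real.exp (-L g) := by
  have hn : (0 : ℝ) < #I := by exact_mod_cast hI.card_pos
  have h := convexOn_exp.map_sum_le (t := I) (w := fun _ => (#I : ℝ)⁻¹) (p := fun g => -L g)
    (fun i _ => by positivity) (by simp [hn.ne']) (fun i _ => Set.mem_univ _)
  simp only [smul_eq_mul] at h
  rw [← Finset.mul_sum, ← Finset.mul_sum] at h
  have e : (#I : ℝ)⁻¹ * ∑ g ∈ I, -L g = -((∑ g ∈ I, L g) / #I) := by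
    rw [Finset.sum_neg_distrib]; ring
  rw [e] at h
  calc (#I : ℝ) * Real.exp (-((∑ g ∈ I, L g) / #I))
      ≤ #I * ((#I : ℝ)⁻¹ * ∑ g ∈ I, Real.exp (-L g)) := by gcongr
    _ = ∑ g ∈ I, Real.exp (-L g) := by field_simp

theorem jen_log {ι : Type} (I : Finset ι) (hI : I.Nonempty) (x : ι → ℝ)
    (hx : ∀ g ∈ I, 0 < x g) :
    (∑ g ∈ I, Real.log (x g)) / #I ≤ Real.log ((∑ g ∈ I, x g) / #I) := by
  have hn : (0 : ℝ) < #I := by exact_mod_cast hI.card_pos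
  have h := strictConcaveOn_log_Ioi.concaveOn.le_map_sum (t := I) (w := fun _ => (#I : ℝ)⁻¹)
    (p := x) (fun i _ => by positivity) (by simp [hn.ne']) (fun i hi => hx i hi)
  simp only [smul_eq_mul] at h
  rw [← Finset.mul_sum, ← Finset.mul_sum] at h
  calc (∑ g ∈ I, Real.log (x g)) / #I = (#I : ℝ)⁻¹ * ∑ g ∈ I, Real.log (x g) := by ring
    _ ≤ _ := h
    _ = _ := by congr 1; ring

theorem jensen3 {ι : Type} (I : Finset ι) (hI : I.Nonempty) (x1 x2 x3 y : ι → ℝ)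
    (h1 : ∀ g ∈ I, 0 < x1 g) (h2 : ∀ g ∈ I, 0 < x2 g) (h3 : ∀ g ∈ I, 0 < x3 g)
    (hy : ∀ g ∈ I, 0 < y g) :
    (#I : ℝ) * (((∑ g ∈ I, x1 g) / #I) * ((∑ g ∈ I, x2 g) / #I) * ((∑ g ∈ I, x3 g) / #I) *
      Real.exp ((∑ g ∈ I, Real.log (y g)) / #I))⁻¹ ≤
    ∑ g ∈ I, (x1 g * x2 g * x3 g * y g)⁻¹ := by
  have hn : (0 : ℝ) < #I := by exact_mod_cast hI.card_pos
  have p1 : 0 < (∑ g ∈ I, x1 g) / #I := div_pos (Finset.sum_pos h1 hI) hn
  have p2 : 0 < (∑ g ∈ I, x2 g) / #I := div_pos (Finset.sum_pos h2 hI) hn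
  have p3 : 0 < (∑ g ∈ I, x3 g) / #I := div_pos (Finset.sum_pos h3 hI) hn
  have e0 : ∀ g ∈ I, (x1 g * x2 g * x3 g * y g)⁻¹ =
      Real.exp (-(Real.log (x1 g) + Real.log (x2 g) + Real.log (x3 g) + Real.log (y g))) := by
    intro g hg
    rw [Real.exp_neg, Real.exp_add, Real.exp_add, Real.exp_add, Real.exp_log (h1 g hg),
      Real.exp_log (h2 g hg), Real.exp_log (h3 g hg), Real.exp_log (hy g hg)]
  rw [Finset.sum_congr rfl e0]
  refine le_trans ?_ (jen_exp I hI _)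
  refine mul_le_mul_of_nonneg_left ?_ hn.le
  have e1 : (((∑ g ∈ I, x1 g) / #I) * ((∑ g ∈ I, x2 g) / #I) * ((∑ g ∈ I, x3 g) / #I) *
      Real.exp ((∑ g ∈ I, Real.log (y g)) / #I))⁻¹ =
      Real.exp (-(Real.log ((∑ g ∈ I, x1 g) / #I) + Real.log ((∑ g ∈ I, x2 g) / #I) +
        Real.log ((∑ g ∈ I, x3 g) / #I) + (∑ g ∈ I, Real.log (y g)) / #I)) := by
    rw [Real.exp_neg, Real.exp_add, Real.exp_add, Real.exp_add, Real.exp_log p1,
      Real.exp_log p2, Real.exp_log p3]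
  rw [e1]
  apply Real.exp_le_exp.mpr
  have q1 := jen_log I hI x1 h1
  have q2 := jen_log I hI x2 h2
  have q3 := jen_log I hI x3 h3
  have e2 : (∑ g ∈ I, (Real.log (x1 g) + Real.log (x2 g) + Real.log (x3 g) +
      Real.log (y g))) / #I = (∑ g ∈ I, Real.log (x1 g)) / #I + (∑ g ∈ I, Real.log (x2 g)) / #I +
      (∑ g ∈ I, Real.log (x3 g)) / #I + (∑ g ∈ I, Real.log (y g)) / #I := by
    rw [Finset.sum_add_distrib, Finset.sum_add_distrib, Finset.sum_add_distrib]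
    ring
  rw [e2]
  linarith

theorem jensenK {ι κ : Type} (I : Finset ι) (hI : I.Nonempty) (J : Finset κ) (hJ : J.Nonempty)
    (x : ι → κ → ℝ) (hx : ∀ g ∈ I, ∀ i ∈ J, 0 < x g i) :
    (#I : ℝ) * ((#J : ℝ) * #I / ∑ g ∈ I, ∑ i ∈ J, x g i) ^ #J ≤
    ∑ g ∈ I, (∏ i ∈ J, x g i)⁻¹ := by
  have hn : (0 : ℝ) < #I := by exact_mod_cast hI.card_pos
  have hm : (0 : ℝ) < #J := by exact_mod_cast hJ.card_pos
  have hS : 0 < ∑ g ∈ I, ∑ i ∈ J, x g i :=
    Finset.sum_pos (fun g hg => Finset.sum_pos (hx g hg) hJ) hI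
  have e0 : ∀ g ∈ I, (∏ i ∈ J, x g i)⁻¹ = Real.exp (-∑ i ∈ J, Real.log (x g i)) := by
    intro g hg
    rw [Real.exp_neg, Real.exp_sum]
    congr 1
    exact Finset.prod_congr rfl fun i hi => (Real.exp_log (hx g hg i hi)).symm
  rw [Finset.sum_congr rfl e0]
  refine le_trans ?_ (jen_exp I hI _)
  refine mul_le_mul_of_nonneg_left ?_ hn.le
  set S := ∑ g ∈ I, ∑ i ∈ J, x g i with hSd
  have hq : 0 < S / (#I * #J) := by positivity
  have h1 : (∑ g ∈ I, ∑ i ∈ J, Real.log (x g i)) / (#I * #J) ≤ Real.log (S / (#I * #J)) := by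
    have h := jen_log (I ×ˢ J) (hI.product hJ) (fun q => x q.1 q.2) (by
      intro q hq
      rw [Finset.mem_product] at hq
      exact hx _ hq.1 _ hq.2)
    rw [Finset.sum_product, Finset.sum_product, Finset.card_product, Nat.cast_mul] at h
    exact h
  have h2 : ((#J : ℝ) * #I / S) ^ #J = Real.exp (-(#J * Real.log (S / (#I * #J)))) := by
    rw [Real.exp_neg, Real.exp_nat_mul, Real.exp_log hq, ← inv_pow]
    congr 1
    rw [inv_div]
    ring
  rw [h2]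
  apply Real.exp_le_exp.mpr
  apply neg_le_neg
  have h3 : (∑ g ∈ I, ∑ i ∈ J, Real.log (x g i)) / #I =
      #J * ((∑ g ∈ I, ∑ i ∈ J, Real.log (x g i)) / (#I * #J)) := by
    field_simp
  rw [h3]
  exact mul_le_mul_of_nonneg_left h1 hm.le

/-- The numerical inequality for closed walks of length `m + 2`.
`m = 7, ..., 10`: direct.  `m ≥ 11`:
`(2m+11) m / (2 (m+1) (m+2)) ≤ 1 + (5/2) / (m+1)`, and `(1 + (5/2)/(m+1))^(m+1) ≤ exp (5/2) ≤ 13`. -/
theorem k_num (m : ℕ) (hm : 7 ≤ m) :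
    (m : ℝ) ^ (m + 1) ≤ (m + 2) * (2 * (m + 1) * (m + 2) / (2 * m + 11)) ^ (m + 1) := by
  rcases Nat.lt_or_ge m 11 with h | h
  · interval_cases m <;> norm_num
  · have hm' : (11 : ℝ) ≤ m := by exact_mod_cast h
    have a1 : (m : ℝ) ≤ (1 + (5 / 2) / (m + 1)) * (2 * (m + 1) * (m + 2) / (2 * m + 11)) := by
      have : (1 + (5 / 2 : ℝ) / (m + 1)) * (2 * (m + 1) * (m + 2) / (2 * m + 11)) =
          (2 * m + 7) * (m + 2) / (2 * m + 11) := by
        field_simp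
        ring
      rw [this, le_div_iff₀ (by positivity)]
      nlinarith
    have a2 : (1 + (5 / 2 : ℝ) / (m + 1)) ^ (m + 1) ≤ Real.exp (5 / 2) := by
      have : (1 + (5 / 2 : ℝ) / (m + 1)) ≤ Real.exp ((5 / 2) / (m + 1)) := by
        have := Real.add_one_le_exp ((5 / 2 : ℝ) / (m + 1))
        linarith
      calc (1 + (5 / 2 : ℝ) / (m + 1)) ^ (m + 1) ≤ Real.exp ((5 / 2) / (m + 1)) ^ (m + 1) := by
            gcongr
        _ = Real.exp (5 / 2) := by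
            rw [← Real.exp_nat_mul]
            congr 1
            push_cast
            field_simp
    have a3 : Real.exp (5 / 2) ≤ 13 := by
      have e1 : Real.exp (5 / 2) ^ 2 = Real.exp 1 ^ 5 := by
        rw [← Real.exp_nat_mul, ← Real.exp_nat_mul]; norm_num
      have e2 : Real.exp 1 ≤ 2.7182818286 := Real.exp_one_lt_d9.le
      have e3 : Real.exp 1 ^ 5 ≤ (2.7182818286 : ℝ) ^ 5 := by gcongr
      have e4 : Real.exp (5 / 2) ^ 2 ≤ 13 ^ 2 := by
        rw [e1]; refine e3.trans ?_; norm_num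
      exact (pow_le_pow_iff_left₀ (Real.exp_pos _).le (by norm_num) (by norm_num)).mp e4
    calc (m : ℝ) ^ (m + 1)
        ≤ ((1 + (5 / 2) / (m + 1)) * (2 * (m + 1) * (m + 2) / (2 * m + 11))) ^ (m + 1) := by
          gcongr
      _ = (1 + (5 / 2 : ℝ) / (m + 1)) ^ (m + 1) *
          (2 * (m + 1) * (m + 2) / (2 * m + 11)) ^ (m + 1) := mul_pow _ _ _
      _ ≤ (m + 2) * (2 * (m + 1) * (m + 2) / (2 * m + 11)) ^ (m + 1) := by
          have : (1 + (5 / 2 : ℝ) / (m + 1)) ^ (m + 1) ≤ m + 2 := by linarith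
          gcongr

end Pool.Agent.CycGT
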