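import Pool.Agent.W_1bfdb5_h19.NumB

/-!
# The numerical inequality for the closed walks of length m

Steps (all sums over `t : ZMod m`, `M = ∑ b t = A + S`).
(a) Cyclic inequality: for `x ≥ 0` on `ZMod m`, `m ≥ 5`: `10 ∑ x t x (t+1) ≤ 3 (∑ x t)^2`.
    Proof: `0 ≤ ∑ (x t - x (t+1) + x (t+2))^2 = 3 r0 - 4 r1 + 2 r2` with
    `rk = ∑ x t x (t+k)`, and `(∑ x t)^2 ≥ r0 + 2 r1 + 2 r2` (the shifts `0, 1, -1, 2, -2` are
    distinct).
(b) If `β t > -1`, `∑ β t = 0`: `∑ β t β (t+1) ≤ (m-4) ∑ (β t - log (1 + β t))`.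
    Proof: `β = p - q`, `p = max β 0`, `q = max (-β) 0`, `P = ∑ p = ∑ q`.
    `∑ β t β (t+1) ≤ ∑ p t p (t+1) + ∑ q t q (t+1) ≤ 3/10 P^2 + ∑ q^2`, the first sum is `0`
    if at most one `β t` is positive.
    `x - log (1 + x) ≥ x^2 / 2` for `x ≤ 0`, `x - log (1 + x) ≥ x^2 / (2 (1 + x))` for `x ≥ 0`.
    Cauchy: `∑ q^2 ≥ P^2 / N`, `N` the number of negative `β t`; `∑ p^2 / (1 + p) ≥ P^2 / m`
    (as `P ≤ N`).  Finally `(m - 6) / (2 (m - 2)) + (m - 4) / (2 m) ≥ 3 / 10` for `m ≥ 7`.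
(c) With `∑ b t = M`: `exp (((m-4)/m) ∑ log (b t)) * ∑ b t b (t+1) ≤ M^(m-2) / m^(m-3)`
    (normalise `b t = (M/m) (1 + β t)`, `log x ≤ x - 1`, (b)).
(d) With `∑ b t = M`: `exp (((m-4)/m) ∑ log (b t)) * b u ≤ 2 (M/m)^(m-3)` for every `u`.
    Normalised: `log (1 + β) - ((m-4)/m) (β - log (1 + β) + β^2 / (2 (m-1))) ≤ log 2`;
    use `log (1 + β) ≤ log (5/2) - 3/5 + 2/5 β`.
(e) `T ≤ ∑ b t b (t+1) + (1/4) ∑ s t s (t+1)` (expand), and
    `∑ s t s (t+1) ≤ ∑ s t b t` (because `2 b t ≥ s (t-1) + s (t+1)`) `≤ S * max b`.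
(f) `(2A + S) (A + 2S) A ≤ 2 M^3 (1 - S/(2M))` and
    `(1 - S/(2M)) (T0 + S X / 4) ≤ T0/2 + M X / 4 + T0/2` in the form
    `≤ max T0 (T0/2 + M X / 4)`, where `T0 = ∑ b t b (t+1)`, `X = max b`; by (c), (d) both are fine.
(g) `U`: `A + 2S + mU ≤ (A + 2S) (1 + m U / M)` and `(1 + U/M)^(m+1) ≥ 1 + (m+1) U/M`.
-/

namespace Pool.Agent.CycGT

open Finset

private lemma num_shift {m : ℕ} [NeZero m] (f : ZMod m → ℝ) (c : ZMod m) :
    ∑ t, f (t + c) = ∑ t, f t :=
  Equiv.sum_comp (Equiv.addRight c) f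

/-- (e) -/
private lemma num_T (m : ℕ) [NeZero m] (a s b : ZMod m → ℝ)
    (hs : ∀ t, 0 ≤ s t) (ha : ∀ t, 0 < a t)
    (hb : ∀ t, b t = a t + (s (t - 1) + s (t + 1)) / 2) (u : ZMod m) (hu : ∀ t, b t ≤ b u) :
    (∑ t, (a t * a (t + 1) + a t * s t + s t * (a (t + 2) + a (t - 2)) / 2 +
        s t * s (t + 1))) ≤ ∑ t, b t * b (t + 1) + (∑ t, s t) * b u / 4 := by
  have e1 : ∀ t, b t * b (t + 1) = a t * a (t + 1) + (a t * s t) / 2 + (a t * s (t + 2)) / 2 +
      (s (t - 1) * a (t + 1)) / 2 + (a (t + 1) * s (t + 1)) / 2 + (s (t - 1) * s t) / 4 +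
      (s (t - 1) * s (t + 2)) / 4 + (s t * s (t + 1)) / 4 + (s (t + 1) * s (t + 2)) / 4 := by
    intro t
    rw [hb t, hb (t + 1)]
    have h1 : t + 1 - 1 = t := by ring
    have h2 : t + 1 + 1 = t + 2 := by ring
    rw [h1, h2]
    ring
  have s1 : ∑ t, a (t + 1) * s (t + 1) = ∑ t, a t * s t := num_shift (fun t => a t * s t) 1
  have s2 : ∑ t, a t * s (t + 2) = ∑ t, s t * a (t - 2) := by
    have := num_shift (fun t => s t * a (t - 2)) 2
    rw [← this]
    refine Finset.sum_congr rfl fun t _ => ?_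
    have h1 : t + 2 - 2 = t := by ring
    simp only [h1]
    ring
  have s3 : ∑ t, s (t - 1) * a (t + 1) = ∑ t, s t * a (t + 2) := by
    have := num_shift (fun t => s t * a (t + 2)) (-1)
    rw [← this]
    refine Finset.sum_congr rfl fun t _ => ?_
    have h1 : t + -1 = t - 1 := by ring
    have h2 : t - 1 + 2 = t + 1 := by ring
    simp only [h1, h2]
  have s4 : ∑ t, s (t - 1) * s t = ∑ t, s t * s (t + 1) := by
    have := num_shift (fun t => s t * s (t + 1)) (-1)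
    rw [← this]
    refine Finset.sum_congr rfl fun t _ => ?_
    have h1 : t + -1 = t - 1 := by ring
    have h2 : t - 1 + 1 = t := by ring
    simp only [h1, h2]
  have s5 : ∑ t, s (t + 1) * s (t + 2) = ∑ t, s t * s (t + 1) := by
    have := num_shift (fun t => s t * s (t + 1)) 1
    rw [← this]
    refine Finset.sum_congr rfl fun t _ => ?_
    have h2 : t + 1 + 1 = t + 2 := by ring
    simp only [h2]
  have s6 : 0 ≤ ∑ t, s (t - 1) * s (t + 2) :=
    Finset.sum_nonneg fun t _ => mul_nonneg (hs _) (hs _)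
  have hT0 : ∑ t, b t * b (t + 1) = ∑ t, a t * a (t + 1) + ∑ t, a t * s t +
      (∑ t, s t * a (t - 2)) / 2 + (∑ t, s t * a (t + 2)) / 2 +
      3 * (∑ t, s t * s (t + 1)) / 4 + (∑ t, s (t - 1) * s (t + 2)) / 4 := by
    rw [Finset.sum_congr rfl fun t _ => e1 t]
    simp only [Finset.sum_add_distrib, ← Finset.sum_div]
    rw [s1, s2, s3, s4, s5]
    ring
  have hT : (∑ t, (a t * a (t + 1) + a t * s t + s t * (a (t + 2) + a (t - 2)) / 2 +
        s t * s (t + 1))) = ∑ t, a t * a (t + 1) + ∑ t, a t * s t +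
      (∑ t, s t * a (t - 2)) / 2 + (∑ t, s t * a (t + 2)) / 2 +
      ∑ t, s t * s (t + 1) := by
    simp only [mul_add, add_div, Finset.sum_add_distrib, ← Finset.sum_div]
    ring
  have hr : ∑ t, s t * s (t + 1) ≤ (∑ t, s t) * b u := by
    have h1 : ∑ t, s t * s (t + 1) = ∑ t, s t * ((s (t - 1) + s (t + 1)) / 2) := by
      have h2 : ∀ t, s t * ((s (t - 1) + s (t + 1)) / 2) =
          (s (t - 1) * s t) / 2 + (s t * s (t + 1)) / 2 := fun t => by ring
      rw [Finset.sum_congr rfl fun t _ => h2 t]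
      simp only [Finset.sum_add_distrib, ← Finset.sum_div]
      rw [s4]
      ring
    rw [h1, Finset.sum_mul]
    refine Finset.sum_le_sum fun t _ => mul_le_mul_of_nonneg_left ?_ (hs t)
    refine le_trans ?_ (hu t)
    rw [hb t]
    linarith [ha t]
  rw [hT, hT0]
  linarith

/-- The numerical inequality. -/
theorem num_ineq (m : ℕ) [NeZero m] (hm : 7 ≤ m) (a s : ZMod m → ℝ) (U : ℝ)
    (ha : ∀ t, 0 < a t) (hs : ∀ t, 0 ≤ s t) (hU : 0 ≤ U) :
    (2 * (∑ t, a t) + ∑ t, s t) * ((∑ t, a t) + 2 * (∑ t, s t) + m * U) * (∑ t, a t) *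
      Real.exp (((m - 4 : ℝ) / m) * ∑ t, Real.log (a t + (s (t - 1) + s (t + 1)) / 2)) *
      (∑ t, (a t * a (t + 1) + a t * s t + s t * (a (t + 2) + a (t - 2)) / 2 +
        s t * s (t + 1))) ≤
    2 * ((∑ t, a t) + (∑ t, s t) + U) ^ (m + 1) / (m : ℝ) ^ (m - 3) := by
  obtain ⟨b, hb⟩ : ∃ b : ZMod m → ℝ, ∀ t, b t = a t + (s (t - 1) + s (t + 1)) / 2 :=
    ⟨_, fun t => rfl⟩
  have hb0 : ∀ t, 0 < b t := fun t => by
    rw [hb t]
    linarith [ha t, hs (t - 1), hs (t + 1)]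
  have hlog : ∑ t, Real.log (a t + (s (t - 1) + s (t + 1)) / 2) = ∑ t, Real.log (b t) :=
    Finset.sum_congr rfl fun t _ => by rw [hb t]
  rw [hlog]
  obtain ⟨u, -, hu⟩ := Finset.exists_max_image Finset.univ b ⟨0, Finset.mem_univ _⟩
  have hT := num_T m a s b hs ha hb u fun t => hu t (Finset.mem_univ t)
  have hc := gm_T m hm b hb0
  have hd := gm_b m hm b hb0 u
  have hM : ∑ t, b t = (∑ t, a t) + ∑ t, s t := by
    rw [Finset.sum_congr rfl fun t _ => hb t]
    simp only [Finset.sum_add_distrib, ← Finset.sum_div]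
    have h1 := num_shift s 1
    have h2 := num_shift s (-1)
    have h3 : ∑ t, s (t - 1) = ∑ t, s (t + -1) :=
      Finset.sum_congr rfl fun t _ => by rw [sub_eq_add_neg]
    rw [h3, h1, h2]
    ring
  rw [hM] at hc hd
  have hA : 0 < ∑ t, a t := Finset.sum_pos (fun t _ => ha t) ⟨0, Finset.mem_univ _⟩
  have hS : 0 ≤ ∑ t, s t := Finset.sum_nonneg fun t _ => hs t
  have hT0 : 0 ≤ ∑ t, (a t * a (t + 1) + a t * s t + s t * (a (t + 2) + a (t - 2)) / 2 +
        s t * s (t + 1)) := Finset.sum_nonneg fun t _ => by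
    have h1 := mul_pos (ha t) (ha (t + 1))
    have h2 := mul_nonneg (ha t).le (hs t)
    have h3 := mul_nonneg (hs t) (add_pos (ha (t + 2)) (ha (t - 2))).le
    have h4 := mul_nonneg (hs t) (hs (t + 1))
    linarith
  set A := ∑ t, a t
  set S := ∑ t, s t
  set T := ∑ t, (a t * a (t + 1) + a t * s t + s t * (a (t + 2) + a (t - 2)) / 2 +
        s t * s (t + 1))
  set T0 := ∑ t, b t * b (t + 1)
  set G := Real.exp (((m - 4 : ℝ) / m) * ∑ t, Real.log (b t))
  have hG : 0 < G := Real.exp_pos _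
  have hMp : 0 < A + S := by linarith
  have hm0 : (0 : ℝ) < m := by exact_mod_cast (by omega : 0 < m)
  -- `G * T ≤ Q (1 + σ / 2)`, `Q = M^(m-2) / m^(m-3)`
  have hQ : (A + S) * (2 * ((A + S) / m) ^ (m - 3)) = 2 * ((A + S) ^ (m - 2) / (m : ℝ) ^ (m - 3)) := by
    rw [div_pow, show m - 2 = (m - 3) + 1 by omega, pow_succ]
    ring
  have hQ0 : 0 ≤ (A + S) ^ (m - 2) / (m : ℝ) ^ (m - 3) := by positivity
  have hGT : (A + S) * (G * T) ≤ (A + S + S / 2) * ((A + S) ^ (m - 2) / (m : ℝ) ^ (m - 3)) := by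
    have h1 : G * T ≤ G * T0 + S * (G * b u) / 4 := by
      have := mul_le_mul_of_nonneg_left hT hG.le
      calc G * T ≤ G * (T0 + S * b u / 4) := this
        _ = _ := by ring
    have h2 : (A + S) * (G * b u) ≤ 2 * ((A + S) ^ (m - 2) / (m : ℝ) ^ (m - 3)) := by
      rw [← hQ]
      exact mul_le_mul_of_nonneg_left hd hMp.le
    calc (A + S) * (G * T) ≤ (A + S) * (G * T0 + S * (G * b u) / 4) :=
          mul_le_mul_of_nonneg_left h1 hMp.le
      _ = (A + S) * (G * T0) + S * ((A + S) * (G * b u)) / 4 := by ring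
      _ ≤ (A + S) * ((A + S) ^ (m - 2) / (m : ℝ) ^ (m - 3)) +
          S * (2 * ((A + S) ^ (m - 2) / (m : ℝ) ^ (m - 3))) / 4 := by
          have := mul_le_mul_of_nonneg_left hc hMp.le
          have := mul_le_mul_of_nonneg_left h2 hS
          linarith
      _ = _ := by ring
  have hU1 : A + 2 * S + m * U ≤ (A + 2 * S) * (1 + m * U / (A + S)) := by
    have h1 : (A + 2 * S) * (1 + m * U / (A + S)) =
        A + 2 * S + (A + 2 * S) / (A + S) * (m * U) := by ring
    rw [h1]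
    have h2 : 1 ≤ (A + 2 * S) / (A + S) := by
      rw [le_div_iff₀ hMp]
      linarith
    have h3 : 0 ≤ m * U := by positivity
    nlinarith
  have hU2 : (A + S) ^ (m + 1) * (1 + m * U / (A + S)) ≤ (A + S + U) ^ (m + 1) := by
    have h1 : A + S + U = (A + S) * (1 + U / (A + S)) := by
      field_simp
    have h2 : (0 : ℝ) ≤ U / (A + S) := by positivity
    have h3 := one_add_mul_le_pow (a := U / (A + S)) (by linarith) (m + 1)
    rw [h1, mul_pow]
    refine mul_le_mul_of_nonneg_left (le_trans ?_ h3) (by positivity)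
    push_cast
    have h4 : m * U / (A + S) = m * (U / (A + S)) := by ring
    rw [h4]
    linarith
  have hf : (2 * A + S) * (A + 2 * S) * A * (A + S + S / 2) ≤ 2 * (A + S) ^ 4 := by
    have h1 : 0 ≤ A * S := mul_nonneg hA.le hS
    have h2 : 2 * (A + S) ^ 4 - (2 * A + S) * (A + 2 * S) * A * (A + S + S / 2) =
      (2 * (A + S) ^ 4 - (2 * A + S) * (A + 2 * S) * A * (A + S + S / 2)) := rfl
    nlinarith [mul_nonneg h1 h1, mul_nonneg h1 (mul_nonneg hA.le hA.le),
      mul_nonneg h1 (mul_nonneg hS hS), mul_nonneg (mul_nonneg hS hS) (mul_nonneg hS hS),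
      mul_nonneg (mul_nonneg hA.le hA.le) (mul_nonneg hA.le hA.le)]
  have key : (2 * A + S) * (A + 2 * S) * A * (G * T) ≤
      2 * (A + S) ^ (m + 1) / (m : ℝ) ^ (m - 3) := by
    have h1 : (A + S) * ((2 * A + S) * (A + 2 * S) * A * (G * T)) ≤
        (A + S) * (2 * (A + S) ^ (m + 1) / (m : ℝ) ^ (m - 3)) := by
      calc (A + S) * ((2 * A + S) * (A + 2 * S) * A * (G * T))
          = ((2 * A + S) * (A + 2 * S) * A) * ((A + S) * (G * T)) := by ring
        _ ≤ ((2 * A + S) * (A + 2 * S) * A) *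
            ((A + S + S / 2) * ((A + S) ^ (m - 2) / (m : ℝ) ^ (m - 3))) :=
            mul_le_mul_of_nonneg_left hGT (by positivity)
        _ = ((2 * A + S) * (A + 2 * S) * A * (A + S + S / 2)) *
            ((A + S) ^ (m - 2) / (m : ℝ) ^ (m - 3)) := by ring
        _ ≤ (2 * (A + S) ^ 4) * ((A + S) ^ (m - 2) / (m : ℝ) ^ (m - 3)) :=
            mul_le_mul_of_nonneg_right hf hQ0
        _ = _ := by
            have h3 : (A + S) * (A + S) ^ (m + 1) = (A + S) ^ 4 * (A + S) ^ (m - 2) := by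
              rw [← pow_succ', ← pow_add]
              congr 1
              omega
            calc (2 * (A + S) ^ 4) * ((A + S) ^ (m - 2) / (m : ℝ) ^ (m - 3))
                = 2 * ((A + S) ^ 4 * (A + S) ^ (m - 2)) / (m : ℝ) ^ (m - 3) := by ring
              _ = 2 * ((A + S) * (A + S) ^ (m + 1)) / (m : ℝ) ^ (m - 3) := by rw [h3]
              _ = _ := by ring
    exact le_of_mul_le_mul_left h1 hMp
  calc (2 * A + S) * (A + 2 * S + m * U) * A * G * T
      ≤ (2 * A + S) * ((A + 2 * S) * (1 + m * U / (A + S))) * A * G * T := by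
        have : 0 ≤ A * G * T := by positivity
        have h5 := mul_le_mul_of_nonneg_left hU1 (by positivity : 0 ≤ 2 * A + S)
        have h6 := mul_le_mul_of_nonneg_right h5 this
        linarith
    _ = ((2 * A + S) * (A + 2 * S) * A * (G * T)) * (1 + m * U / (A + S)) := by ring
    _ ≤ (2 * (A + S) ^ (m + 1) / (m : ℝ) ^ (m - 3)) * (1 + m * U / (A + S)) :=
        mul_le_mul_of_nonneg_right key (by positivity)
    _ = 2 * ((A + S) ^ (m + 1) * (1 + m * U / (A + S))) / (m : ℝ) ^ (m - 3) := by ring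
    _ ≤ 2 * (A + S + U) ^ (m + 1) / (m : ℝ) ^ (m - 3) := by
        refine div_le_div_of_nonneg_right ?_ (by positivity)
        linarith

end Pool.Agent.CycGT
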