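import Pool.Agent.W_1bfdb5_h19.CValid
import Pool.Agent.W_1bfdb5_h19.CComb
import Pool.Agent.W_1bfdb5_h19.CB3
import Pool.Agent.W_1bfdb5_h19.CT
import Pool.Agent.W_1bfdb5_h19.Num
import Pool.Agent.W_1bfdb5_h19.Jensen

/-!
# The inequality for a closed walk of length m
-/

namespace Pool.Agent.CycGT

open Finset
open scoped Classical

variable {V : Type} [Fintype V]

lemma isCl_rot {G : SimpleGraph V} {M : ℕ} {c : ZMod M → V} (hc : IsCl G M c) (j : ZMod M) :
    IsCl G M (rot c j) := by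
  intro i
  have := hc (j + i)
  simpa [rot, add_assoc] using this

lemma isCl_rfl' {G : SimpleGraph V} {M : ℕ} {c : ZMod M → V} (hc : IsCl G M c) (j : ZMod M) :
    IsCl G M (rfl' c j) := by
  intro i
  have := (hc (j - (i + 1))).symm
  have e : j - (i + 1) + 1 = j - i := by ring
  rw [e] at this
  exact this

/-- The set of the `2M` rotations and reflections. -/
noncomputable def both {M : ℕ} (c : ZMod M → V) (g : ZMod M × Bool) : ℕ → V :=
  if g.2 then seqOf (rot c g.1) else seqOf (rfl' c g.1)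

lemma sum_both {M : ℕ} [NeZero M] (c : ZMod M → V) (F : (ℕ → V) → ℝ) :
    ∑ g : ZMod M × Bool, F (both c g) =
      ∑ j, (F (seqOf (rot c j)) + F (seqOf (rfl' c j))) := by
  rw [Fintype.sum_prod_type]
  refine sum_congr rfl fun j _ => ?_
  rw [Fintype.sum_bool]
  simp [both]

lemma both_valid {G : SimpleGraph V} {m : ℕ} [NeZero m] (hm : 7 ≤ m) (ho : Odd m)
    (hG : OddFree G m) {c : ZMod m → V} (hc : IsCl G m c) (g : ZMod m × Bool) :
    Valid G m (both c g) := by
  unfold both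
  split_ifs
  · exact (c_valid hm ho hG (isCl_rot hc _)).1
  · exact (c_valid hm ho hG (isCl_rfl' hc _)).1

lemma cpos {s : Finset V} {x : V} (h : x ∈ s) : (0 : ℝ) < #s := by
  exact_mod_cast card_pos.2 ⟨x, h⟩

lemma final_alg (m : ℕ) (hm : 7 ≤ m) (n R T : ℝ) (hn : 0 < n) (hR : 0 < R)
    (h : T * R ≤ 2 * n ^ (m + 1) / (m : ℝ) ^ (m - 3)) :
    (m : ℝ) ^ (m + 1) / n ^ (m + 2) * T ≤ n⁻¹ * (2 * m * (R / (m : ℝ) ^ 3)⁻¹) := by
  have hm0 : (0 : ℝ) < m := by exact_mod_cast (by omega : 0 < m)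
  have hm3 : (m : ℝ) ^ (m + 1) = (m : ℝ) ^ (m - 3) * (m : ℝ) ^ 4 := by
    rw [← pow_add]; congr 1; omega
  rw [le_div_iff₀ (by positivity)] at h
  have h1 : (m : ℝ) ^ (m + 1) * T * R ≤ 2 * (m : ℝ) ^ 4 * n ^ (m + 1) := by
    calc (m : ℝ) ^ (m + 1) * T * R = (T * R * (m : ℝ) ^ (m - 3)) * (m : ℝ) ^ 4 := by
          rw [hm3]; ring
      _ ≤ (2 * n ^ (m + 1)) * (m : ℝ) ^ 4 := mul_le_mul_of_nonneg_right h (by positivity)
      _ = _ := by ring
  have e1 : (m : ℝ) ^ (m + 1) / n ^ (m + 2) * T =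
      ((m : ℝ) ^ (m + 1) * T * R) * (R⁻¹ * (n ^ (m + 2))⁻¹) := by
    field_simp
  have e2 : n⁻¹ * (2 * m * (R / (m : ℝ) ^ 3)⁻¹) =
      (2 * (m : ℝ) ^ 4 * n ^ (m + 1)) * (R⁻¹ * (n ^ (m + 2))⁻¹) := by
    rw [pow_succ n (m + 1)]
    field_simp
  rw [e1, e2]
  exact mul_le_mul_of_nonneg_right h1 (by positivity)

/-- The main inequality for a closed walk of length `m`. -/
theorem c_ineq {G : SimpleGraph V} {m : ℕ} [NeZero m] (hm : 7 ≤ m) (ho : Odd m)
    (hG : OddFree G m) {c : ZMod m → V} (hc : IsCl G m c) :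
    (m : ℝ) ^ (m + 1) / (Fintype.card V : ℝ) ^ (m + 2) * TT G c ≤
      ∑ j, (wt G m (seqOf (rot c j)) + wt G m (seqOf (rfl' c j))) := by
  set n : ℝ := (Fintype.card V : ℝ) with hn
  have hn0 : 0 < n := by
    have : Nonempty V := ⟨c 0⟩
    rw [hn]; exact_mod_cast Fintype.card_pos
  have hmR : (7 : ℝ) ≤ m := by exact_mod_cast hm
  have hm0 : (0 : ℝ) < m := by linarith
  -- abbreviations
  set a : ZMod m → ℝ := fun t => (cA G c t : ℝ) with ha
  set s : ZMod m → ℝ := fun t => (cS G c t : ℝ) with hs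
  set U : ℝ := (cU G c : ℝ) with hU
  have hapos : ∀ t, 0 < a t := by
    intro t
    have h1 : G.Adj (c t) (c (t - 1)) := by
      have := hc (t - 1); rw [sub_add_cancel] at this; exact this.symm
    have h2 : G.Adj (c t) (c (t + 1)) := hc t
    exact cpos (x := c t) (by simp [h1, h2])
  have hspos : ∀ t, 0 ≤ s t := fun t => Nat.cast_nonneg _
  have hU0 : 0 ≤ U := Nat.cast_nonneg _
  -- sizes
  set x1 : ZMod m × Bool → ℝ := fun g => (#(Nb G (both c g 0)) : ℝ) with hx1
  set x2 : ZMod m × Bool → ℝ := fun g => (#(B3 G (both c g 0) (both c g 1)) : ℝ) with hx2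
  set x3 : ZMod m × Bool → ℝ := fun g => (#(B2 G (both c g 1) (both c g 3)) : ℝ) with hx3
  set y : ZMod m × Bool → ℝ := fun g => ∏ i ∈ Ico 4 m, (#(stepSet G (both c g) i) : ℝ) with hy
  have hv := fun g => both_valid hm ho hG hc g
  have p1 : ∀ g ∈ (univ : Finset (ZMod m × Bool)), 0 < x1 g := fun g _ => cpos (hv g).1
  have p2 : ∀ g ∈ (univ : Finset (ZMod m × Bool)), 0 < x2 g := fun g _ => cpos (hv g).2.1
  have p3 : ∀ g ∈ (univ : Finset (ZMod m × Bool)), 0 < x3 g := fun g _ => cpos (hv g).2.2.1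
  have py' : ∀ g, ∀ i ∈ Ico 4 m, (0 : ℝ) < #(stepSet G (both c g) i) :=
    fun g i hi => cpos ((hv g).2.2.2 i hi)
  have py : ∀ g ∈ (univ : Finset (ZMod m × Bool)), 0 < y g := fun g _ => prod_pos (py' g)
  have hcard : (#(univ : Finset (ZMod m × Bool)) : ℝ) = 2 * m := by
    rw [card_univ, Fintype.card_prod, ZMod.card, Fintype.card_bool]; push_cast; ring
  have J := jensen3 (univ : Finset (ZMod m × Bool)) univ_nonempty x1 x2 x3 y p1 p2 p3 py
  rw [hcard] at J
  -- the sums
  have S1 : ∑ g, x1 g = 2 * (2 * ∑ t, a t + ∑ t, s t) := by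
    have e : ∑ g, x1 g = ∑ j, (((#(Nb G (c j)) : ℝ)) + (#(Nb G (c j)) : ℝ)) := by
      rw [hx1, sum_both c (fun v => (#(Nb G (v 0)) : ℝ))]
      simp [seqOf, rot, rfl']
    rw [e, sum_add_distrib]
    have h := F1 hm ho hG hc
    have h' : (∑ t, (#(Nb G (c t)) : ℝ)) = 2 * ∑ t, a t + ∑ t, s t := by
      simp only [ha, hs]; exact_mod_cast h
    rw [h']; ring
  have S2 : ∑ g, x2 g ≤ 2 * (∑ t, a t + 2 * ∑ t, s t + m * U) := by
    have e : ∑ g, x2 g = ∑ j, (((#(B3 G (c j) (c (j + 1))) : ℝ)) +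
        (#(B3 G (c j) (c (j - 1))) : ℝ)) := by
      rw [hx2, sum_both c (fun v => (#(B3 G (v 0) (v 1)) : ℝ))]
      simp [seqOf, rot, rfl']
    rw [e]
    have h := F4 hm ho hG hc
    have h' : (∑ j, (((#(B3 G (c j) (c (j + 1))) : ℝ)) +
        (#(B3 G (c j) (c (j - 1))) : ℝ))) ≤ 2 * ∑ t, a t + 4 * ∑ t, s t + 2 * m * U := by
      simp only [ha, hs, hU]; exact_mod_cast h
    linarith
  have S3 : ∑ g, x3 g = 2 * ∑ t, a t := by
    have e : ∑ g, x3 g = ∑ j, (a (j + 2) + a (j - 2)) := by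
      rw [hx3, sum_both c (fun v => (#(B2 G (v 1) (v 3)) : ℝ))]
      refine sum_congr rfl fun j _ => ?_
      rw [F2a, F2b]
    rw [e, sum_add_distrib]
    have e1 : ∑ j, a (j + 2) = ∑ t, a t := Equiv.sum_comp (Equiv.addRight (2 : ZMod m)) a
    have e2 : ∑ j, a (j - 2) = ∑ t, a t := Equiv.sum_comp (Equiv.subRight (2 : ZMod m)) a
    rw [e1, e2]; ring
  set b : ZMod m → ℝ := fun t => a t + (s (t - 1) + s (t + 1)) / 2 with hb
  have hbpos : ∀ t, 0 < b t := by
    intro t
    have := hapos t; have := hspos (t - 1); have := hspos (t + 1)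
    simp only [hb]; linarith
  have S4 : (∑ g, Real.log (y g)) ≤ 2 * ((m : ℝ) - 4) * ∑ t, Real.log (b t) := by
    have e1 : ∀ g, Real.log (y g) =
        ∑ i ∈ Ico 4 m, Real.log (#(stepSet G (both c g) i) : ℝ) := by
      intro g
      exact Real.log_prod (fun i hi => (py' g i hi).ne')
    rw [sum_congr rfl fun g _ => e1 g, sum_comm]
    have key : ∀ i ∈ Ico 4 m, ∑ g, Real.log (#(stepSet G (both c g) i) : ℝ) ≤
        2 * ∑ t, Real.log (b t) := by
      intro i hi
      have hi4 : 4 ≤ i := (mem_Ico.1 hi).1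
      rw [sum_both c (fun v => Real.log (#(stepSet G v i) : ℝ)), sum_add_distrib]
      have q1 : ∀ j, Real.log (#(stepSet G (seqOf (rot c j)) i) : ℝ) ≤
          Real.log (a (j + i) + s (j + i - 1)) := by
        intro j
        have hp := py' (j, true) i hi
        simp only [both, if_true] at hp
        refine Real.log_le_log hp ?_
        have := F3a G c j hi4
        simp only [ha, hs]; exact_mod_cast this
      have q2 : ∀ j, Real.log (#(stepSet G (seqOf (rfl' c j)) i) : ℝ) ≤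
          Real.log (a (j - i) + s (j - i + 1)) := by
        intro j
        have hp := py' (j, false) i hi
        simp only [both] at hp
        refine Real.log_le_log hp ?_
        have := F3b G c j hi4
        simp only [ha, hs]; exact_mod_cast this
      have r1 : ∑ j, Real.log (#(stepSet G (seqOf (rot c j)) i) : ℝ) ≤
          ∑ t, Real.log (a t + s (t - 1)) := by
        refine (sum_le_sum fun j _ => q1 j).trans_eq ?_
        exact Equiv.sum_comp (Equiv.addRight (i : ZMod m)) (fun t => Real.log (a t + s (t - 1)))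
      have r2 : ∑ j, Real.log (#(stepSet G (seqOf (rfl' c j)) i) : ℝ) ≤
          ∑ t, Real.log (a t + s (t + 1)) := by
        refine (sum_le_sum fun j _ => q2 j).trans_eq ?_
        exact Equiv.sum_comp (Equiv.subRight (i : ZMod m)) (fun t => Real.log (a t + s (t + 1)))
      refine (add_le_add r1 r2).trans ?_
      rw [← sum_add_distrib, mul_sum]
      refine sum_le_sum fun t _ => ?_
      have h1 : 0 < a t + s (t - 1) := by have := hapos t; have := hspos (t - 1); linarith
      have h2 : 0 < a t + s (t + 1) := by have := hapos t; have := hspos (t + 1); linarith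
      rw [← Real.log_mul h1.ne' h2.ne', ← Real.log_rpow (hbpos t)]
      refine Real.log_le_log (mul_pos h1 h2) ?_
      rw [Real.rpow_two]
      simp only [hb]
      nlinarith [sq_nonneg (s (t - 1) - s (t + 1))]
    refine (sum_le_sum key).trans_eq ?_
    rw [sum_const, Nat.card_Ico, nsmul_eq_mul, Nat.cast_sub (by omega)]
    push_cast; ring
  -- conclusion
  have N := num_ineq m hm a s U hapos hspos hU0
  have T6 : TT G c ≤ ∑ t, (a t * a (t + 1) + a t * s t + s t * (a (t + 2) + a (t - 2)) / 2 +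
      s t * s (t + 1)) := F6 hm ho hG hc
  have H5 : (∑ t, a t) + (∑ t, s t) + U ≤ n := by
    have h := F5 hm ho hG hc
    simp only [ha, hs, hU, hn]; exact_mod_cast h
  -- lower bound for the sum of the weights
  have L1 : ∑ j, (wt G m (seqOf (rot c j)) + wt G m (seqOf (rfl' c j))) =
      n⁻¹ * ∑ g, (x1 g * x2 g * x3 g * y g)⁻¹ := by
    rw [← sum_both c (wt G m), mul_sum]
    refine sum_congr rfl fun g _ => ?_
    simp only [wt, hx1, hx2, hx3, hy, ← hn]
    rw [← mul_inv]
    congr 1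
    ring
  clear_value x1 x2 x3 y n
  set A : ℝ := ∑ t, a t with hA
  set S : ℝ := ∑ t, s t with hS
  set E : ℝ := Real.exp (((m - 4 : ℝ) / m) * ∑ t, Real.log (b t)) with hE
  have hApos : 0 < A := sum_pos (fun t _ => hapos t) univ_nonempty
  have hS0 : 0 ≤ S := sum_nonneg (fun t _ => hspos t)
  have hE0 : 0 < E := Real.exp_pos _
  have N2 : (2 * A + S) * (A + 2 * S + m * U) * A * E *
      (∑ t, (a t * a (t + 1) + a t * s t + s t * (a (t + 2) + a (t - 2)) / 2 +
        s t * s (t + 1))) ≤ 2 * (A + S + U) ^ (m + 1) / (m : ℝ) ^ (m - 3) := N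
  have hEdef : E = Real.exp (((m - 4 : ℝ) / m) * ∑ t, Real.log (b t)) := hE
  clear_value a s U b A S E
  rw [L1]
  have D : ((∑ g, x1 g) / (2 * m)) * ((∑ g, x2 g) / (2 * m)) * ((∑ g, x3 g) / (2 * m)) *
      Real.exp ((∑ g, Real.log (y g)) / (2 * m)) ≤
      (2 * A + S) * (A + 2 * S + m * U) * A * E / m ^ 3 := by
    have d1 : (∑ g, x1 g) / (2 * m) = (2 * A + S) / m := by rw [S1]; field_simp
    have d2 : (∑ g, x2 g) / (2 * m) ≤ (A + 2 * S + m * U) / m := by
      rw [div_le_div_iff₀ (by positivity) hm0]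
      nlinarith [S2]
    have d3 : (∑ g, x3 g) / (2 * m) = A / m := by rw [S3]; field_simp
    have d4 : Real.exp ((∑ g, Real.log (y g)) / (2 * m)) ≤ E := by
      rw [hEdef]
      refine Real.exp_le_exp.2 ?_
      rw [div_le_iff₀ (by positivity)]
      calc _ ≤ 2 * ((m : ℝ) - 4) * ∑ t, Real.log (b t) := S4
        _ = (m - 4 : ℝ) / m * (∑ t, Real.log (b t)) * (2 * m) := by field_simp
    rw [d1, d3]
    have hx2pos : 0 ≤ (∑ g, x2 g) / (2 * m) :=
      div_nonneg (sum_nonneg fun g hg => (p2 g hg).le) (by positivity)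
    calc (2 * A + S) / m * ((∑ g, x2 g) / (2 * m)) * (A / m) *
        Real.exp ((∑ g, Real.log (y g)) / (2 * m))
        ≤ (2 * A + S) / m * ((A + 2 * S + m * U) / m) * (A / m) * E := by
          refine mul_le_mul (mul_le_mul_of_nonneg_right (mul_le_mul_of_nonneg_left d2
            (by positivity)) (by positivity)) d4 (Real.exp_pos _).le (by positivity)
      _ = _ := by field_simp
  have hDpos : 0 < ((∑ g, x1 g) / (2 * m)) * ((∑ g, x2 g) / (2 * m)) *
      ((∑ g, x3 g) / (2 * m)) * Real.exp ((∑ g, Real.log (y g)) / (2 * m)) := by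
    have q1 := sum_pos p1 univ_nonempty
    have q2 := sum_pos p2 univ_nonempty
    have q3 := sum_pos p3 univ_nonempty
    have hm2 : (0 : ℝ) < 2 * m := by linarith
    exact mul_pos (mul_pos (mul_pos (div_pos q1 hm2) (div_pos q2 hm2)) (div_pos q3 hm2))
      (Real.exp_pos _)
  have hRpos : 0 < (2 * A + S) * (A + 2 * S + m * U) * A * E / m ^ 3 := by positivity
  have L2 : (2 * m : ℝ) * ((2 * A + S) * (A + 2 * S + m * U) * A * E / m ^ 3)⁻¹ ≤
      ∑ g, (x1 g * x2 g * x3 g * y g)⁻¹ := by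
    refine le_trans ?_ J
    exact mul_le_mul_of_nonneg_left (inv_anti₀ hDpos D) (by positivity)
  refine le_trans ?_ (mul_le_mul_of_nonneg_left L2 (inv_nonneg.2 hn0.le))
  set R : ℝ := (2 * A + S) * (A + 2 * S + m * U) * A * E with hR
  have hR0 : 0 < R := by positivity
  have hT : TT G c * R ≤ 2 * n ^ (m + 1) / m ^ (m - 3) := by
    calc TT G c * R ≤ (∑ t, (a t * a (t + 1) + a t * s t + s t * (a (t + 2) + a (t - 2)) / 2 +
          s t * s (t + 1))) * R := mul_le_mul_of_nonneg_right T6 hR0.le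
      _ = R * (∑ t, (a t * a (t + 1) + a t * s t + s t * (a (t + 2) + a (t - 2)) / 2 +
          s t * s (t + 1))) := mul_comm _ _
      _ ≤ 2 * (A + S + U) ^ (m + 1) / m ^ (m - 3) := N2
      _ ≤ 2 * n ^ (m + 1) / m ^ (m - 3) := by
          have : (A + S + U) ^ (m + 1) ≤ n ^ (m + 1) :=
            pow_le_pow_left₀ (by positivity) H5 _
          exact div_le_div_of_nonneg_right (by linarith) (by positivity)
  exact final_alg m hm n R _ hn0 hR0 hT

end Pool.Agent.CycGT
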