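import Pool.Agent.W_1bfdb5_h19.Arc

/-!
# Closed walks obey the rules of the process

All non-adjacencies come from `arc` with `r = 1` (`G.Adj w w'` is `Wk G 1 w w'`) and `nz`:
for `c` a closed walk of length `m`, `c i` and `c j` adjacent implies `j = i ± 1`;
for `k` a closed walk of length `m + 2`, `k i` and `k j` adjacent implies `j = i ± 1` or
`j = i ± 3`.
-/

namespace Pool.Agent.CycGT

open Finset
open scoped Classical

variable {V : Type} [Fintype V]

theorem CValid_ne {M : ℕ} (hM : 7 ≤ M) (ho : Odd M) (s : ZMod M) {a b : ℤ} {n : ℕ}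
    (hn : n = 1 ∨ n = 2 ∨ n = 3 ∨ n = 4 ∨ n = 5 ∨ n = 6 ∨ n = 8 ∨ n = 10 ∨ n = 12)
    (h : b = a + n) : s + (a : ZMod M) ≠ s + (b : ZMod M) := by
  intro h1
  have h2 := add_left_cancel h1
  apply nz hM ho hn
  rw [h] at h2
  push_cast at h2
  have h3 : (a : ZMod M) + (n : ZMod M) = (a : ZMod M) + 0 := by rw [← h2, add_zero]
  exact add_left_cancel h3

theorem CValid_gen {G : SimpleGraph V} {M : ℕ} (hM : 7 ≤ M) (ho : Odd M) {c : ZMod M → V}
    (hc : IsCl G M c) (hch : ∀ s t, G.Adj (c s) (c t) → t = s + 1 ∨ t = s - 1) (L : ℕ) :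
    Valid G L (seqOf c) := by
  have key : ∀ (s : ZMod M) (a : ℤ), (a = -3 ∨ a = -5) → ¬ G.Adj (c s) (c (s + (a : ZMod M))) := by
    intro s a ha h
    have e1 : s + ((1 : ℤ) : ZMod M) = s + 1 := by push_cast; rfl
    have e2 : s + ((-1 : ℤ) : ZMod M) = s - 1 := by push_cast; ring
    rcases hch _ _ h with h1 | h1
    · rw [← e1] at h1
      rcases ha with rfl | rfl
      · exact CValid_ne hM ho s (n := 4) (by omega) (by norm_num) h1
      · exact CValid_ne hM ho s (n := 6) (by omega) (by norm_num) h1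
    · rw [← e2] at h1
      rcases ha with rfl | rfl
      · exact CValid_ne hM ho s (n := 2) (by omega) (by norm_num) h1
      · exact CValid_ne hM ho s (n := 4) (by omega) (by norm_num) h1
  have hs : ∀ i : ℕ, G.Adj (seqOf c (i + 1)) (seqOf c i) := by
    intro i
    have h1 := hc (i : ZMod M)
    unfold seqOf
    push_cast
    exact h1.symm
  have hk : ∀ (i d : ℕ), (d = 3 ∨ d = 5) → ¬ G.Adj (seqOf c (i + d)) (seqOf c i) := by
    intro i d hd h
    have h1 := key ((i + d : ℕ) : ZMod M) (-(d : ℤ)) (by rcases hd with rfl | rfl <;> simp)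
    apply h1
    unfold seqOf at h
    have e : (((i + d : ℕ) : ZMod M) + ((-(d : ℤ) : ℤ) : ZMod M)) = (i : ZMod M) := by
      push_cast
      ring
    rw [e]
    exact h
  refine ⟨?_, ?_, ?_, ?_⟩
  · rw [Nb, mem_filter]
    exact ⟨mem_univ _, hs 0⟩
  · rw [B3, mem_filter]
    refine ⟨mem_univ _, ?_, hk 0 3 (Or.inl rfl)⟩
    rw [wk_two]
    exact ⟨seqOf c 2, hs 2, hs 1⟩
  · rw [B2, mem_filter]
    exact ⟨mem_univ _, hs 1, (hs 2).symm⟩
  · intro i hi
    rw [mem_Ico] at hi
    rw [stepSet, mem_filter]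
    refine ⟨mem_univ _, ?_, ?_, ?_⟩
    · have h1 := hs (i - 1)
      rwa [show i - 1 + 1 = i by omega] at h1
    · have h1 := hk (i - 3) 3 (Or.inl rfl)
      rwa [show i - 3 + 3 = i by omega] at h1
    · intro h5
      have h1 := hk (i - 5) 5 (Or.inr rfl)
      rwa [show i - 5 + 5 = i by omega] at h1

theorem c_valid {G : SimpleGraph V} {m : ℕ} [NeZero m] (hm : 7 ≤ m) (ho : Odd m)
    (hG : OddFree G m) {c : ZMod m → V} (hc : IsCl G m c) :
    Valid G m (seqOf c) ∧ G.Adj (seqOf c (m - 1)) (seqOf c 0) := by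
  refine ⟨CValid_gen hm ho hc ?_ m, ?_⟩
  · intro s t h
    obtain ⟨e, he1, he2, he3⟩ := arc (h := 0) (by omega) ho hG hc (wk_one.2 h)
    have he : e = 1 := by omega
    subst he
    simpa using he3
  · have h1 := hc ((m - 1 : ℕ) : ZMod m)
    have e : ((m - 1 : ℕ) : ZMod m) + 1 = 0 := by
      rw [Nat.cast_sub (by omega), ZMod.natCast_self]
      push_cast
      ring
    rw [e] at h1
    unfold seqOf
    rw [Nat.cast_zero]
    exact h1

theorem k_valid {G : SimpleGraph V} {m : ℕ} [NeZero m] (hm : 7 ≤ m) (ho : Odd m)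
    (hG : OddFree G m) {k : ZMod (m + 2) → V} (hk : IsCl G (m + 2) k) (hz : ZC G k) :
    Valid G (m + 1) (seqOf k) ∧ ¬ G.Adj (seqOf k (m - 1)) (seqOf k 0) ∧
      seqOf k (m + 1) ∈ B2 G (seqOf k m) (seqOf k 0) := by
  have ho2 : Odd (m + 2) := by
    obtain ⟨q, hq⟩ := ho
    exact ⟨q + 1, by omega⟩
  have hm2 : ((m + 2 : ℕ) : ZMod (m + 2)) = 0 := ZMod.natCast_self _
  refine ⟨CValid_gen (by omega) ho2 hk ?_ (m + 1), ?_, ?_⟩
  · intro s t h
    obtain ⟨e, he1, he2, he3⟩ := arc (M := m + 2) (h := 1) (by omega) ho hG hk (wk_one.2 h)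
    have he : e = 1 ∨ e = 3 := by omega
    rcases he with rfl | rfl
    · simpa using he3
    · exfalso
      rcases he3 with he3 | he3
      · apply hz s
        rw [he3] at h
        push_cast at h
        exact h
      · apply hz t
        have e3 : t + 3 = s := by
          rw [he3]
          push_cast
          ring
        rw [e3]
        exact h.symm
  · intro h
    apply hz ((m - 1 : ℕ) : ZMod (m + 2))
    have e : ((m - 1 : ℕ) : ZMod (m + 2)) + 3 = 0 := by
      have h1 : ((m - 1 : ℕ) : ZMod (m + 2)) + 3 = ((m - 1 + 3 : ℕ) : ZMod (m + 2)) := by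
        push_cast
        rfl
      rw [h1, show m - 1 + 3 = m + 2 by omega, hm2]
    rw [e]
    unfold seqOf at h
    rw [Nat.cast_zero] at h
    exact h
  · rw [B2, mem_filter]
    refine ⟨mem_univ _, ?_, ?_⟩
    · have h1 := hk (m : ZMod (m + 2))
      unfold seqOf
      push_cast
      exact h1.symm
    · have h1 := hk ((m + 1 : ℕ) : ZMod (m + 2))
      have e : ((m + 1 : ℕ) : ZMod (m + 2)) + 1 = 0 := by
        have h2 : ((m + 1 : ℕ) : ZMod (m + 2)) + 1 = ((m + 2 : ℕ) : ZMod (m + 2)) := by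
          push_cast
          ring
        rw [h2, hm2]
      rw [e] at h1
      unfold seqOf
      rw [Nat.cast_zero]
      exact h1

end Pool.Agent.CycGT
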