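import Pool.Agent.W_1bfdb5_h19.Arc

/-!
# Closed walks of length m + 2 with a chord

For `k ∈ clos G (m+2)` let `ch k = #{i : k i adjacent to k (i+3)}`.
`#{k : ch k > 0} = ∑ k ∑ i, [k i ~ k (i+3)] / ch k = (m+2) ∑ k, [k 0 ~ k 3] / ch k`
(rotation `k ↦ rot k i` preserves `clos` and `ch`).
A walk `k` with `k 0 ~ k 3` is the same as a closed walk `c = (k 0, k 3, k 4, ..., k (m+1))` of
length `m` with `x = k 1`, `y = k 2`, `x ~ c 0`, `x ~ y`, `y ~ c 1`, and
`ch k ≥ #(PS c x) + #(PS c y) - 1`: the positions `0`, and `1` (if `x ~ c 2`), `-2` (if `x ~ c (-2)`),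
`2` (if `y ~ c 3`), `-1` (if `y ~ c (-1)`) of `k` are chords, and `PS c x ⊆ {0, 2, -2}`,
`PS c y ⊆ {1, 3, -1}` by `arc` with `r = 2`.
Hence `(m+2) ∑ k [..] / ch k ≤ (m+2) ∑ c ∑ x ∑ y [x ~ c 0, y ~ c 1, x ~ y] / (#P x + #P y - 1)`
`= ((m+2)/m) ∑ c TT c` (rotation again).
-/

namespace Pool.Agent.CycGT

open Finset
open scoped Classical

variable {V : Type} [Fintype V]

private lemma Chord_isCl_rot {G : SimpleGraph V} {M : ℕ} {c : ZMod M → V} (hc : IsCl G M c)
    (j : ZMod M) : IsCl G M (rot c j) := fun i => by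
  have := hc (j + i)
  simpa [rot, add_assoc] using this

private lemma Chord_rot_sum {G : SimpleGraph V} {M : ℕ} [NeZero M] (f : (ZMod M → V) → ℝ)
    (j : ZMod M) : ∑ c ∈ clos G M, f (rot c j) = ∑ c ∈ clos G M, f c := by
  refine Finset.sum_nbij' (fun c => rot c j) (fun c => rot c (-j)) ?_ ?_ ?_ ?_ ?_
  · intro c hc
    simp only [clos, mem_filter, mem_univ, true_and] at hc ⊢
    exact Chord_isCl_rot hc j
  · intro c hc
    simp only [clos, mem_filter, mem_univ, true_and] at hc ⊢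
    exact Chord_isCl_rot hc (-j)
  · intro c _
    funext i
    simp [rot]
  · intro c _
    funext i
    simp [rot]
  · intro c _
    rfl

private lemma Chord_card_rot {M : ℕ} [NeZero M] (p : ZMod M → Prop) (j : ZMod M) :
    #(univ.filter (fun i => p (j + i))) = #(univ.filter p) := by
  refine Finset.card_nbij' (fun i => j + i) (fun i => -j + i) ?_ ?_ ?_ ?_
  · intro i hi
    simpa using hi
  · intro i hi
    simpa using hi
  · intro i _
    simp
  · intro i _
    simp

private noncomputable def Chord_ch (G : SimpleGraph V) {M : ℕ} [NeZero M] (k : ZMod M → V) : ℕ :=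
  #(univ.filter (fun i : ZMod M => G.Adj (k i) (k (i + 3))))

private lemma Chord_ch_rot {G : SimpleGraph V} {M : ℕ} [NeZero M] (k : ZMod M → V) (j : ZMod M) :
    Chord_ch G (rot k j) = Chord_ch G k := by
  unfold Chord_ch
  rw [← Chord_card_rot (fun i : ZMod M => G.Adj (k i) (k (i + 3))) j]
  simp only [rot, add_assoc]

private lemma Chord_PS_rot {G : SimpleGraph V} {M : ℕ} [NeZero M] (c : ZMod M → V) (j : ZMod M)
    (x : V) : #(PS G (rot c j) x) = #(PS G c x) := by
  unfold PS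
  rw [← Chord_card_rot (fun t : ZMod M => G.Adj x (c t)) j]
  simp only [rot]

private lemma Chord_three {α : Type} [Fintype α] (p : α → Prop) (a b d : α)
    (h : ∀ t, p t → t = a ∨ t = b ∨ t = d) :
    #(univ.filter p) ≤ (if p a then 1 else 0) + (if p b then 1 else 0) + (if p d then 1 else 0) := by
  have h1 : univ.filter p ⊆ ((if p a then {a} else ∅) ∪ (if p b then {b} else ∅)) ∪
      (if p d then {d} else ∅) := by
    intro t ht
    have ht' : p t := by simpa using ht
    rcases h t ht' with rfl | rfl | rfl <;> simp [ht']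
  refine (Finset.card_le_card h1).trans ?_
  refine (Finset.card_union_le _ _).trans ?_
  have h2 := Finset.card_union_le (if p a then {a} else ∅ : Finset α) (if p b then {b} else ∅)
  have h3 : ∀ e : α, #(if p e then {e} else ∅ : Finset α) = if p e then 1 else 0 := by
    intro e
    split_ifs <;> simp
  rw [h3, h3] at h2
  rw [h3]
  omega

private lemma Chord_five {α : Type} [Fintype α] (p : α → Prop) (a b c d e : α)
    (h1 : a ≠ b) (h2 : a ≠ c) (h3 : a ≠ d) (h4 : a ≠ e) (h5 : b ≠ c) (h6 : b ≠ d) (h7 : b ≠ e)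
    (h8 : c ≠ d) (h9 : c ≠ e) (h10 : d ≠ e) :
    (if p a then 1 else 0) + ((if p b then 1 else 0) + ((if p c then 1 else 0) +
      ((if p d then 1 else 0) + (if p e then 1 else 0)))) ≤ #(univ.filter p) := by
  rw [Finset.card_filter]
  have h := Finset.sum_le_sum_of_subset (f := fun i => if p i then 1 else 0)
    (Finset.subset_univ ({a, b, c, d, e} : Finset α))
  refine le_trans (le_of_eq ?_) h
  rw [Finset.sum_insert (by simp [h1, h2, h3, h4]), Finset.sum_insert (by simp [h5, h6, h7]),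
    Finset.sum_insert (by simp [h8, h9]), Finset.sum_insert (by simp [h10]), Finset.sum_singleton]

/-- the closed walk of length `m` -/
private def Chord_cOf {m : ℕ} (k : ZMod (m + 2) → V) : ZMod m → V :=
  fun t => if t = 0 then k 0 else k ((t.val + 2 : ℕ) : ZMod (m + 2))

omit [Fintype V] in
private lemma Chord_cOf_zero {m : ℕ} (k : ZMod (m + 2) → V) : Chord_cOf k 0 = k 0 := by
  simp [Chord_cOf]

omit [Fintype V] in
private lemma Chord_cOf_nat {m : ℕ} (k : ZMod (m + 2) → V) {n : ℕ} (h0 : 0 < n) (hn : n < m) :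
    Chord_cOf k (n : ZMod m) = k ((n + 2 : ℕ) : ZMod (m + 2)) := by
  have h1 : (n : ZMod m) ≠ 0 := by
    intro h
    rw [ZMod.natCast_eq_zero_iff] at h
    exact absurd (Nat.le_of_dvd h0 h) (by omega)
  have h2 : ((n : ℕ) : ZMod m).val = n := ZMod.val_natCast_of_lt hn
  unfold Chord_cOf
  rw [if_neg h1, h2]

omit [Fintype V] in
private lemma Chord_cOf_cl {G : SimpleGraph V} {m : ℕ} (hm : 7 ≤ m) {k : ZMod (m + 2) → V}
    (hk : IsCl G (m + 2) k) (h03 : G.Adj (k 0) (k 3)) : IsCl G m (Chord_cOf k) := by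
  have : NeZero m := ⟨by omega⟩
  intro i
  obtain ⟨n, hn, rfl⟩ : ∃ n : ℕ, n < m ∧ (n : ZMod m) = i :=
    ⟨i.val, ZMod.val_lt i, ZMod.natCast_zmod_val i⟩
  have e : (n : ZMod m) + 1 = ((n + 1 : ℕ) : ZMod m) := by push_cast; ring
  rcases Nat.eq_zero_or_pos n with h0 | h0
  · subst h0
    rw [e, Chord_cOf_nat k (n := 0 + 1) (by omega) (by omega)]
    rw [Nat.cast_zero, Chord_cOf_zero]
    norm_num
    exact h03
  · rw [Chord_cOf_nat k h0 hn]
    rcases Nat.lt_or_ge (n + 1) m with h1 | h1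
    · rw [e, Chord_cOf_nat k (by omega) h1]
      have h2 := hk ((n + 2 : ℕ) : ZMod (m + 2))
      have e2 : ((n + 2 : ℕ) : ZMod (m + 2)) + 1 = ((n + 1 + 2 : ℕ) : ZMod (m + 2)) := by
        push_cast; ring
      rwa [e2] at h2
    · have e3 : n + 1 = m := by omega
      rw [e, e3, ZMod.natCast_self, Chord_cOf_zero]
      have h2 := hk ((n + 2 : ℕ) : ZMod (m + 2))
      have e2 : ((n + 2 : ℕ) : ZMod (m + 2)) + 1 = 0 := by
        have h3 : ((n + 2 : ℕ) : ZMod (m + 2)) + 1 = ((n + 1 + 2 : ℕ) : ZMod (m + 2)) := by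
          push_cast; ring
        rw [h3, e3, ZMod.natCast_self]
      rwa [e2] at h2

omit [Fintype V] in
private lemma Chord_inj {m : ℕ} {k k' : ZMod (m + 2) → V}
    (h : Chord_cOf k = Chord_cOf k') (h1 : k 1 = k' 1) (h2 : k 2 = k' 2) : k = k' := by
  funext t
  obtain ⟨n, hn, rfl⟩ : ∃ n : ℕ, n < m + 2 ∧ (n : ZMod (m + 2)) = t :=
    ⟨t.val, ZMod.val_lt t, ZMod.natCast_zmod_val t⟩
  have hc : n = 0 ∨ n = 1 ∨ n = 2 ∨ 3 ≤ n := by omega
  rcases hc with rfl | rfl | rfl | h3
  · have h4 := congrFun h 0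
    rw [Chord_cOf_zero, Chord_cOf_zero] at h4
    simpa using h4
  · simpa using h1
  · simpa using h2
  · obtain ⟨l, rfl⟩ : ∃ l, n = l + 2 := ⟨n - 2, by omega⟩
    have h4 := congrFun h (l : ZMod m)
    rwa [Chord_cOf_nat k (by omega) (by omega), Chord_cOf_nat k' (by omega) (by omega)] at h4

private lemma Chord_bound {G : SimpleGraph V} {m : ℕ} [NeZero m] (hm : 7 ≤ m) (ho : Odd m)
    (hG : OddFree G m) {k : ZMod (m + 2) → V} (hk : IsCl G (m + 2) k)
    (h03 : G.Adj (k 0) (k 3)) :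
    #(PS G (Chord_cOf k) (k 1)) + #(PS G (Chord_cOf k) (k 2)) ≤ Chord_ch G k + 1 := by
  have hc := Chord_cOf_cl hm hk h03
  have ho2 : Odd (m + 2) := by
    obtain ⟨q, hq⟩ := ho
    exact ⟨q + 1, by omega⟩
  have hz : ∀ n : ℕ, (n = 1 ∨ n = 2 ∨ n = 3 ∨ n = 4 ∨ n = 5 ∨ n = 6 ∨ n = 8 ∨ n = 10 ∨ n = 12) →
      (n : ZMod (m + 2)) ≠ 0 := fun n hn => nz (by omega) ho2 hn
  have c0 : Chord_cOf k 0 = k 0 := Chord_cOf_zero k
  have c1 : Chord_cOf k 1 = k 3 := by
    have := Chord_cOf_nat k (n := 1) (by omega) (by omega)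
    simpa using this
  have c2 : Chord_cOf k 2 = k 4 := by
    have := Chord_cOf_nat k (n := 2) (by omega) (by omega)
    simpa using this
  have c3 : Chord_cOf k 3 = k 5 := by
    have := Chord_cOf_nat k (n := 3) (by omega) (by omega)
    simpa using this
  have hm2 : ((m : ℕ) : ZMod (m + 2)) = -2 := by
    have h1 : ((m + 2 : ℕ) : ZMod (m + 2)) = 0 := ZMod.natCast_self _
    push_cast at h1
    exact eq_neg_of_add_eq_zero_left h1
  have cm2 : Chord_cOf k (-2) = k (-2) := by
    have h1 := Chord_cOf_nat k (n := m - 2) (by omega) (by omega)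
    have h2 : ((m - 2 : ℕ) : ZMod m) = -2 := by
      rw [Nat.cast_sub (by omega), ZMod.natCast_self]
      simp
    have h3 : m - 2 + 2 = m := by omega
    rw [h2, h3, hm2] at h1
    exact h1
  have cm1 : Chord_cOf k (-1) = k (-1) := by
    have h1 := Chord_cOf_nat k (n := m - 1) (by omega) (by omega)
    have h2 : ((m - 1 : ℕ) : ZMod m) = -1 := by
      rw [Nat.cast_sub (by omega), ZMod.natCast_self]
      simp
    have h3 : m - 1 + 2 = m + 1 := by omega
    have h4 : ((m + 1 : ℕ) : ZMod (m + 2)) = -1 := by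
      push_cast
      rw [hm2]
      ring
    rw [h2, h3, h4] at h1
    exact h1
  have a01 : G.Adj (k 0) (k 1) := by simpa using hk 0
  have a12 : G.Adj (k 1) (k 2) := by
    have := hk 1
    rwa [show (1 : ZMod (m + 2)) + 1 = 2 by norm_num] at this
  have a23 : G.Adj (k 2) (k 3) := by
    have := hk 2
    rwa [show (2 : ZMod (m + 2)) + 1 = 3 by norm_num] at this
  have hx : #(PS G (Chord_cOf k) (k 1)) ≤ 1 + (if G.Adj (k 1) (k 4) then 1 else 0) +
      (if G.Adj (k (-2)) (k 1) then 1 else 0) := by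
    have h1 := Chord_three (fun t : ZMod m => G.Adj (k 1) (Chord_cOf k t)) 0 2 (-2) (by
      intro t ht
      have hw : Wk G 2 (Chord_cOf k 0) (Chord_cOf k t) := wk_two.2 ⟨k 1, by rw [c0]; exact a01, ht⟩
      obtain ⟨e, he, hpar, hor⟩ := arc (M := m) (m := m) (h := 0) (by omega) ho hG hc hw
      have : e = 0 ∨ e = 2 := by omega
      rcases this with rfl | rfl
      · left
        rcases hor with h | h <;> simpa using h
      · rcases hor with h | h
        · right; left; simpa using h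
        · right; right; simpa using h)
    have h2 : #(PS G (Chord_cOf k) (k 1)) =
      #(univ.filter (fun t : ZMod m => G.Adj (k 1) (Chord_cOf k t))) := rfl
    rw [h2]
    refine h1.trans ?_
    simp only [c0, c2, cm2, G.adj_comm (k 1) (k (-2))]
    have h3 : (if G.Adj (k 1) (k 0) then 1 else 0) ≤ 1 := by split_ifs <;> omega
    omega
  have hy : #(PS G (Chord_cOf k) (k 2)) ≤ 1 + (if G.Adj (k 2) (k 5) then 1 else 0) +
      (if G.Adj (k (-1)) (k 2) then 1 else 0) := by
    have h1 := Chord_three (fun t : ZMod m => G.Adj (k 2) (Chord_cOf k t)) 1 3 (-1) (by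
      intro t ht
      have hw : Wk G 2 (Chord_cOf k 1) (Chord_cOf k t) :=
        wk_two.2 ⟨k 2, by rw [c1]; exact a23.symm, ht⟩
      obtain ⟨e, he, hpar, hor⟩ := arc (M := m) (m := m) (h := 0) (by omega) ho hG hc hw
      have : e = 0 ∨ e = 2 := by omega
      rcases this with rfl | rfl
      · left
        rcases hor with h | h <;> simpa using h
      · rcases hor with h | h
        · right; left
          rw [h]; push_cast; norm_num
        · right; right
          rw [h]; push_cast; norm_num)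
    have h2 : #(PS G (Chord_cOf k) (k 2)) =
      #(univ.filter (fun t : ZMod m => G.Adj (k 2) (Chord_cOf k t))) := rfl
    rw [h2]
    refine h1.trans ?_
    simp only [c1, c3, cm1, G.adj_comm (k 2) (k (-1))]
    have h3 : (if G.Adj (k 2) (k 3) then 1 else 0) ≤ 1 := by split_ifs <;> omega
    omega
  have d : ∀ n : ℕ, (n = 1 ∨ n = 2 ∨ n = 3 ∨ n = 4 ∨ n = 5 ∨ n = 6 ∨ n = 8 ∨ n = 10 ∨ n = 12) →
      ∀ a b : ZMod (m + 2), b - a = n → a ≠ b := by
    intro n hn a b hab hne
    apply hz n hn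
    rw [← hab, hne, sub_self]
  have h5 := Chord_five (fun i : ZMod (m + 2) => G.Adj (k i) (k (i + 3))) 0 1 (-2) 2 (-1)
    (d 1 (by omega) _ _ (by push_cast; ring)) (d 2 (by omega) _ _ (by push_cast; ring)).symm
    (d 2 (by omega) _ _ (by push_cast; ring)) (d 1 (by omega) _ _ (by push_cast; ring)).symm
    (d 3 (by omega) _ _ (by push_cast; ring)).symm (d 1 (by omega) _ _ (by push_cast; ring))
    (d 2 (by omega) _ _ (by push_cast; ring)).symm (d 4 (by omega) _ _ (by push_cast; ring))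
    (d 1 (by omega) _ _ (by push_cast; ring)) (d 3 (by omega) _ _ (by push_cast; ring)).symm
  have e1 : (1 : ZMod (m + 2)) + 3 = 4 := by norm_num
  have e2 : (2 : ZMod (m + 2)) + 3 = 5 := by norm_num
  have e3 : (-2 : ZMod (m + 2)) + 3 = 1 := by norm_num
  have e4 : (-1 : ZMod (m + 2)) + 3 = 2 := by norm_num
  simp only [zero_add, e1, e2, e3, e4, if_pos h03] at h5
  have h6 : Chord_ch G k = #(univ.filter (fun i : ZMod (m + 2) => G.Adj (k i) (k (i + 3)))) := rfl
  omega

theorem chord_count {G : SimpleGraph V} {m : ℕ} [NeZero m] (hm : 7 ≤ m) (ho : Odd m)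
    (hG : OddFree G m) :
    (#((clos G (m + 2)).filter (fun k => ¬ ZC G k)) : ℝ) ≤
      ((m + 2 : ℝ) / m) * ∑ c ∈ clos G m, TT G c := by
  have h1 : (#((clos G (m + 2)).filter (fun k => ¬ ZC G k)) : ℝ) =
      ∑ k ∈ clos G (m + 2), ∑ i : ZMod (m + 2),
        if G.Adj (k i) (k (i + 3)) then ((Chord_ch G k : ℝ))⁻¹ else 0 := by
    rw [Finset.card_filter]
    push_cast
    refine Finset.sum_congr rfl fun k _ => ?_
    rw [← Finset.sum_filter, Finset.sum_const, nsmul_eq_mul]
    change _ = (Chord_ch G k : ℝ) * _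
    by_cases hz : ZC G k
    · have : Chord_ch G k = 0 := by
        unfold Chord_ch
        rw [Finset.card_eq_zero, Finset.filter_eq_empty_iff]
        intro i _
        exact hz i
      simp [hz, this]
    · have hne : Chord_ch G k ≠ 0 := by
        intro h0
        apply hz
        unfold Chord_ch at h0
        rw [Finset.card_eq_zero, Finset.filter_eq_empty_iff] at h0
        exact fun i => h0 (Finset.mem_univ i)
      have : (Chord_ch G k : ℝ) ≠ 0 := by exact_mod_cast hne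
      rw [if_pos hz, mul_inv_cancel₀ this]
  have h2 : ∀ i : ZMod (m + 2), ∑ k ∈ clos G (m + 2),
      (if G.Adj (k i) (k (i + 3)) then ((Chord_ch G k : ℝ))⁻¹ else 0) =
      ∑ k ∈ clos G (m + 2), (if G.Adj (k 0) (k 3) then ((Chord_ch G k : ℝ))⁻¹ else 0) := by
    intro i
    rw [← Chord_rot_sum (fun k => if G.Adj (k 0) (k 3) then ((Chord_ch G k : ℝ))⁻¹ else 0) i]
    refine Finset.sum_congr rfl fun k _ => ?_
    simp only [Chord_ch_rot]
    simp [rot]
  have h3 : (#((clos G (m + 2)).filter (fun k => ¬ ZC G k)) : ℝ) =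
      (m + 2 : ℝ) * ∑ k ∈ clos G (m + 2),
        (if G.Adj (k 0) (k 3) then ((Chord_ch G k : ℝ))⁻¹ else 0) := by
    rw [h1, Finset.sum_comm, Finset.sum_congr rfl fun i _ => h2 i, Finset.sum_const,
      Finset.card_univ, ZMod.card, nsmul_eq_mul]
    push_cast
    ring
  have h4 : ∑ c ∈ clos G m, TT G c = (m : ℝ) * ∑ c ∈ clos G m, ∑ x : V, ∑ y : V,
      (if G.Adj x (c 0) ∧ G.Adj y (c 1) ∧ G.Adj x y then
        ((#(PS G c x) : ℝ) + #(PS G c y) - 1)⁻¹ else 0) := by
    unfold TT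
    rw [Finset.sum_comm]
    have h5 : ∀ i : ZMod m, ∑ c ∈ clos G m, ∑ x : V, ∑ y : V,
        (if G.Adj x (c i) ∧ G.Adj y (c (i + 1)) ∧ G.Adj x y then
          ((#(PS G c x) : ℝ) + #(PS G c y) - 1)⁻¹ else 0) =
        ∑ c ∈ clos G m, ∑ x : V, ∑ y : V,
        (if G.Adj x (c 0) ∧ G.Adj y (c 1) ∧ G.Adj x y then
          ((#(PS G c x) : ℝ) + #(PS G c y) - 1)⁻¹ else 0) := by
      intro i
      rw [← Chord_rot_sum (fun c => ∑ x : V, ∑ y : V,
        (if G.Adj x (c 0) ∧ G.Adj y (c 1) ∧ G.Adj x y then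
          ((#(PS G c x) : ℝ) + #(PS G c y) - 1)⁻¹ else 0)) i]
      refine Finset.sum_congr rfl fun c _ => ?_
      simp only [Chord_PS_rot]
      simp [rot]
    rw [Finset.sum_congr rfl fun i _ => h5 i, Finset.sum_const, Finset.card_univ, ZMod.card,
      nsmul_eq_mul]
  have hm0 : (0 : ℝ) < m := by
    have : 0 < m := by omega
    exact_mod_cast this
  rw [h3, h4]
  have h6 : ((m + 2 : ℝ) / m) * ((m : ℝ) * ∑ c ∈ clos G m, ∑ x : V, ∑ y : V,
      (if G.Adj x (c 0) ∧ G.Adj y (c 1) ∧ G.Adj x y then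
        ((#(PS G c x) : ℝ) + #(PS G c y) - 1)⁻¹ else 0)) = (m + 2 : ℝ) *
      ∑ c ∈ clos G m, ∑ x : V, ∑ y : V,
      (if G.Adj x (c 0) ∧ G.Adj y (c 1) ∧ G.Adj x y then
        ((#(PS G c x) : ℝ) + #(PS G c y) - 1)⁻¹ else 0) := by
    field_simp
  rw [h6]
  refine mul_le_mul_of_nonneg_left ?_ (by positivity)
  -- the injection
  set g : (ZMod m → V) × V × V → ℝ := fun q =>
    if G.Adj q.2.1 (q.1 0) ∧ G.Adj q.2.2 (q.1 1) ∧ G.Adj q.2.1 q.2.2 then
      ((#(PS G q.1 q.2.1) : ℝ) + #(PS G q.1 q.2.2) - 1)⁻¹ else 0 with hg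
  have hPS : ∀ (c : ZMod m → V) (x : V) (i : ZMod m), G.Adj x (c i) → 1 ≤ #(PS G c x) := by
    intro c x i hx
    rw [Nat.one_le_iff_ne_zero, Finset.card_ne_zero]
    exact ⟨i, by simp [PS, hx]⟩
  have hg0 : ∀ q, 0 ≤ g q := by
    intro q
    simp only [hg]
    split_ifs with hq
    · have e1 := hPS q.1 q.2.1 0 hq.1
      have e2 := hPS q.1 q.2.2 1 hq.2.1
      have e3 : (1 : ℝ) ≤ #(PS G q.1 q.2.1) := by exact_mod_cast e1
      have e4 : (1 : ℝ) ≤ #(PS G q.1 q.2.2) := by exact_mod_cast e2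
      exact inv_nonneg.2 (by linarith)
    · exact le_rfl
  have h7 : ∑ c ∈ clos G m, ∑ x : V, ∑ y : V,
      (if G.Adj x (c 0) ∧ G.Adj y (c 1) ∧ G.Adj x y then
        ((#(PS G c x) : ℝ) + #(PS G c y) - 1)⁻¹ else 0) =
      ∑ q ∈ (clos G m) ×ˢ ((univ : Finset V) ×ˢ (univ : Finset V)), g q := by
    rw [Finset.sum_product]
    refine Finset.sum_congr rfl fun c _ => ?_
    rw [Finset.sum_product]
  rw [h7, ← Finset.sum_filter]
  set A := (clos G (m + 2)).filter (fun k => G.Adj (k 0) (k 3)) with hA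
  set φ : (ZMod (m + 2) → V) → (ZMod m → V) × V × V := fun k => (Chord_cOf k, k 1, k 2) with hφ
  have hmem : ∀ k ∈ A, IsCl G (m + 2) k ∧ G.Adj (k 0) (k 3) := by
    intro k hk
    simpa [hA, clos] using hk
  have hinj : Set.InjOn φ A := by
    intro k _ k' _ hkk
    simp only [hφ, Prod.mk.injEq] at hkk
    exact Chord_inj hkk.1 hkk.2.1 hkk.2.2
  calc ∑ k ∈ A, ((Chord_ch G k : ℝ))⁻¹ ≤ ∑ k ∈ A, g (φ k) := by
        refine Finset.sum_le_sum fun k hk => ?_
        obtain ⟨hcl, h03⟩ := hmem k hk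
        have a01 : G.Adj (k 0) (k 1) := by simpa using hcl 0
        have a12 : G.Adj (k 1) (k 2) := by
          have := hcl 1
          rwa [show (1 : ZMod (m + 2)) + 1 = 2 by norm_num] at this
        have a23 : G.Adj (k 2) (k 3) := by
          have := hcl 2
          rwa [show (2 : ZMod (m + 2)) + 1 = 3 by norm_num] at this
        have c1 : Chord_cOf k 1 = k 3 := by
          have := Chord_cOf_nat k (n := 1) (by omega) (by omega)
          simpa using this
        have q1 : G.Adj (k 1) (Chord_cOf k 0) := by rw [Chord_cOf_zero]; exact a01.symm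
        have q2 : G.Adj (k 2) (Chord_cOf k 1) := by rw [c1]; exact a23
        have hb := Chord_bound hm ho hG hcl h03
        have e1 := hPS _ _ 0 q1
        have e2 := hPS _ _ 1 q2
        simp only [hg, hφ]
        rw [if_pos ⟨q1, q2, a12⟩]
        have e3 : (1 : ℝ) ≤ #(PS G (Chord_cOf k) (k 1)) := by exact_mod_cast e1
        have e4 : (1 : ℝ) ≤ #(PS G (Chord_cOf k) (k 2)) := by exact_mod_cast e2
        have e5 : (#(PS G (Chord_cOf k) (k 1)) : ℝ) + #(PS G (Chord_cOf k) (k 2)) ≤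
            (Chord_ch G k : ℝ) + 1 := by exact_mod_cast hb
        exact inv_anti₀ (by linarith) (by linarith)
    _ = ∑ q ∈ A.image φ, g q := by
        rw [Finset.sum_image hinj]
    _ ≤ ∑ q ∈ (clos G m) ×ˢ ((univ : Finset V) ×ˢ (univ : Finset V)), g q := by
        refine Finset.sum_le_sum_of_subset_of_nonneg ?_ fun q _ _ => hg0 q
        intro q hq
        rw [Finset.mem_image] at hq
        obtain ⟨k, hk, rfl⟩ := hq
        obtain ⟨hcl, h03⟩ := hmem k hk
        simp only [Finset.mem_product, Finset.mem_univ, and_true, clos, Finset.mem_filter,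
          true_and, hφ]
        exact Chord_cOf_cl hm hcl h03

end Pool.Agent.CycGT
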