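import Pool.Agent.W_1bfdb5_h19.FlData

/-!
# The finite check
-/

namespace Pool.Agent.CycGT

theorem chk_main : (reps7.all fun g =>
    decide (62500 * totw g + (tys.map fun T => tot T g).sum ≤ 282240)) = true := by
  decide +kernel

end Pool.Agent.CycGT
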