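import Pool.Agent.W_1bfdb5_h19.FlTh

/-!
# Classification of the triangle-free graphs on seven vertices

`reps k` has a code for each triangle-free graph on `k` vertices up to isomorphism.  The entry
number `m` of the row of `g` in `tabs k` describes the graph obtained from `g` by a new vertex `k`
with neighbours given by the bits of `m`: three bits for each value of a permutation, then the
position of the code of the isomorphic graph in `reps (k + 1)`.
-/

namespace Pool.Agent.CycGT

open Finset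

/-- The permutation in an entry. -/
def pd (e i : ℕ) : ℕ := (e >>> (3 * i)) % 8

/-- Adjacency in the graph `g` on `0, ..., k - 1` with a new vertex `k`. -/
def ext (k g m i j : ℕ) : Bool :=
  bif Nat.beq i k then !(Nat.beq j k) && Nat.testBit m j
  else bif Nat.beq j k then Nat.testBit m i else ad g i j

/-- Some edge of `g` has both ends in the set of bits of `m`. -/
def tri (k g m : ℕ) : Bool :=
  (List.range k).any fun i => Nat.testBit m i &&
    ((List.range k).any fun j => Nat.testBit m j && ad g i j)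

/-- The entry `e` is correct. -/
def chkE (k g m e : ℕ) : Bool :=
  tri k g m || (Nat.blt (e >>> 21) (reps (k + 1)).length &&
    (List.range (k + 1)).all fun i => Nat.blt (pd e i) (k + 1) &&
      (List.range (k + 1)).all fun j => (Nat.beq i j || !(Nat.beq (pd e i) (pd e j))) &&
        (ext k g m (pd e i) (pd e j) == ad ((reps (k + 1)).getD (e >>> 21) 0) i j))

def chkC (k : ℕ) : Bool :=
  (List.range (reps k).length).all fun a => (List.range (2 ^ k)).all fun m =>
    chkE k ((reps k).getD a 0) m (((tabs k).getD a []).getD m 0)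

theorem chkC_all : ((List.range 7).all chkC) = true := by decide +kernel

private theorem FlCls_beq_ne {i k : ℕ} (h : i ≠ k) : Nat.beq i k = false :=
  Bool.eq_false_iff.mpr fun h' => h (Nat.eq_of_beq_eq_true h')

private theorem FlCls_step (k : ℕ) (hC : chkC k = true)
    (IH : ∀ A : Fin k → Fin k → Bool, (∀ i j, A i j = A j i) → (∀ i, A i i = false) →
      (∀ i j l, ¬ (A i j = true ∧ A j l = true ∧ A i l = true)) →
      ∃ g ∈ reps k, ∃ a : Fin k → Fin k, Function.Injective a ∧ ∀ i j, A (a i) (a j) = ad g i j)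
    (A : Fin (k + 1) → Fin (k + 1) → Bool) (hs : ∀ i j, A i j = A j i) (hi : ∀ i, A i i = false)
    (ht : ∀ i j l, ¬ (A i j = true ∧ A j l = true ∧ A i l = true)) :
    ∃ g ∈ reps (k + 1), ∃ a : Fin (k + 1) → Fin (k + 1), Function.Injective a ∧
      ∀ i j, A (a i) (a j) = ad g i j := by
  obtain ⟨g, hg, a, ha, hA⟩ := IH (fun i j => A i.castSucc j.castSucc) (fun i j => hs _ _)
    (fun i => hi _) (fun i j l => ht _ _ _)
  obtain ⟨x, hx, hgx⟩ := List.getElem_of_mem hg
  have hgD : (reps k).getD x 0 = g := by rw [List.getD_eq_getElem _ _ hx, hgx]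
  obtain ⟨m, hmlt, hmb⟩ : ∃ m, m < 2 ^ k ∧
      ∀ i (h : i < k), m.testBit i = A (a ⟨i, h⟩).castSucc (Fin.last k) :=
    ⟨Nat.ofBits (fun i : Fin k => A (a i).castSucc (Fin.last k)), Nat.ofBits_lt_two_pow _,
      fun i h => Nat.testBit_ofBits_lt _ _ h⟩
  obtain ⟨e, h1⟩ : ∃ e, chkE k g m e = true := by
    refine ⟨((tabs k).getD x []).getD m 0, ?_⟩
    unfold chkC at hC
    rw [List.all_eq_true] at hC
    have h2 := hC x (List.mem_range.mpr hx)
    rw [List.all_eq_true] at h2
    have h3 := h2 m (List.mem_range.mpr hmlt)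
    rwa [hgD] at h3
  let b : ℕ → Fin (k + 1) := fun i => if h : i < k then (a ⟨i, h⟩).castSucc else Fin.last k
  have hb1 : ∀ i (h : i < k), b i = (a ⟨i, h⟩).castSucc := fun i h => dif_pos h
  have hb2 : b k = Fin.last k := dif_neg (lt_irrefl k)
  have hbinj : ∀ i j, i ≤ k → j ≤ k → b i = b j → i = j := by
    intro i j hi' hj' hij
    rcases Nat.lt_or_eq_of_le hi' with h | rfl
    · rcases Nat.lt_or_eq_of_le hj' with h' | rfl
      · rw [hb1 i h, hb1 j h'] at hij
        have h4 := ha (Fin.castSucc_injective _ hij)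
        exact congrArg Fin.val h4
      · rw [hb1 i h, hb2] at hij
        exact absurd hij (Fin.castSucc_lt_last _).ne
    · rcases Nat.lt_or_eq_of_le hj' with h' | rfl
      · rw [hb1 j h', hb2] at hij
        exact absurd hij.symm (Fin.castSucc_lt_last _).ne
      · rfl
  have hext : ∀ i j, i ≤ k → j ≤ k → ext k g m i j = A (b i) (b j) := by
    intro i j hi' hj'
    unfold ext
    rcases Nat.lt_or_eq_of_le hi' with h | rfl
    · rw [FlCls_beq_ne (ne_of_lt h), cond_false, hb1 i h]
      rcases Nat.lt_or_eq_of_le hj' with h' | rfl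
      · rw [FlCls_beq_ne (ne_of_lt h'), cond_false, hb1 j h']
        exact (hA ⟨i, h⟩ ⟨j, h'⟩).symm
      · rw [Nat.beq_refl, cond_true, hb2]
        exact hmb i h
    · rw [Nat.beq_refl, cond_true, hb2]
      rcases Nat.lt_or_eq_of_le hj' with h' | rfl
      · rw [FlCls_beq_ne (ne_of_lt h'), hb1 j h', hmb j h', hs (Fin.last i)]
        rfl
      · rw [Nat.beq_refl, hb2, hi]
        rfl
  have htri : tri k g m = false := by
    rw [Bool.eq_false_iff]
    intro h
    unfold tri at h
    rw [List.any_eq_true] at h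
    obtain ⟨i, hi', h⟩ := h
    rw [Bool.and_eq_true, List.any_eq_true] at h
    obtain ⟨h2, j, hj', h⟩ := h
    rw [Bool.and_eq_true] at h
    rw [List.mem_range] at hi' hj'
    rw [hmb i hi'] at h2
    rw [hmb j hj'] at h
    have h5 : A (a ⟨i, hi'⟩).castSucc (a ⟨j, hj'⟩).castSucc = true :=
      (hA ⟨i, hi'⟩ ⟨j, hj'⟩).trans h.2
    exact ht _ _ _ ⟨h5, h.1, h2⟩
  unfold chkE at h1
  rw [htri, Bool.false_or, Bool.and_eq_true, List.all_eq_true] at h1
  obtain ⟨h2, h3⟩ := h1
  have h2' : e >>> 21 < (reps (k + 1)).length := by rwa [Nat.blt_eq] at h2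
  have h4 : ∀ i, i < k + 1 → pd e i < k + 1 ∧ ∀ j, j < k + 1 →
      (i = j ∨ pd e i ≠ pd e j) ∧
        ext k g m (pd e i) (pd e j) = ad ((reps (k + 1)).getD (e >>> 21) 0) i j := by
    intro i hik
    have h5 := h3 i (List.mem_range.mpr hik)
    rw [Bool.and_eq_true, List.all_eq_true, Nat.blt_eq] at h5
    refine ⟨h5.1, fun j hjk => ?_⟩
    have h6 := h5.2 j (List.mem_range.mpr hjk)
    rw [Bool.and_eq_true, Bool.or_eq_true, Nat.beq_eq, beq_iff_eq] at h6
    refine ⟨h6.1.imp_right fun h7 h8 => ?_, h6.2⟩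
    rw [h8, Nat.beq_refl] at h7
    exact absurd h7 (by decide)
  refine ⟨(reps (k + 1)).getD (e >>> 21) 0, ?_, fun i => b (pd e i), ?_, ?_⟩
  · rw [List.getD_eq_getElem _ _ h2']
    exact List.getElem_mem h2'
  · intro i j hij
    have h5 := h4 i i.2
    have h6 := h4 j j.2
    have h7 := hbinj _ _ (Nat.lt_succ_iff.mp h5.1) (Nat.lt_succ_iff.mp h6.1) hij
    rcases (h5.2 j j.2).1 with h8 | h8
    · exact Fin.ext h8
    · exact absurd h7 h8
  · intro i j
    have h5 := h4 i i.2
    have h6 := h4 j j.2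
    rw [← (h5.2 j j.2).2]
    exact (hext _ _ (Nat.lt_succ_iff.mp h5.1) (Nat.lt_succ_iff.mp h6.1)).symm

private theorem FlCls_all (k : ℕ) (hk : k ≤ 7) (A : Fin k → Fin k → Bool)
    (hs : ∀ i j, A i j = A j i) (hi : ∀ i, A i i = false)
    (ht : ∀ i j l, ¬ (A i j = true ∧ A j l = true ∧ A i l = true)) :
    ∃ g ∈ reps k, ∃ a : Fin k → Fin k, Function.Injective a ∧
      ∀ i j, A (a i) (a j) = ad g i j := by
  induction k with
  | zero =>
    exact ⟨0, List.mem_singleton.mpr rfl, fun i => i, fun i => i.elim0, fun i => i.elim0⟩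
  | succ k ih =>
    refine FlCls_step k ?_ (fun A' hs' hi' ht' => ih (by omega) A' hs' hi' ht') A hs hi ht
    have h := chkC_all
    rw [List.all_eq_true] at h
    exact h k (List.mem_range.mpr (by omega))

theorem classify (A : Fin 7 → Fin 7 → Bool) (hs : ∀ i j, A i j = A j i)
    (hi : ∀ i, A i i = false) (ht : ∀ i j k, ¬ (A i j = true ∧ A j k = true ∧ A i k = true)) :
    ∃ g ∈ reps7, ∃ τ : Equiv.Perm (Fin 7), ∀ i j, A (τ i) (τ j) = ad g i j := by
  obtain ⟨g, hg, a, ha, hA⟩ := FlCls_all 7 le_rfl A hs hi ht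
  exact ⟨g, hg, Equiv.ofBijective a (Finite.injective_iff_bijective.mp ha), hA⟩

end Pool.Agent.CycGT
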