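import Pool.Agent.W_1bfdb5_h19.FlSum

/-!
# The number of closed walks through all seven vertices

For a nonempty list `l = y :: _` of distinct elements of `range 7`, with last element `a` (the
first chosen vertex), `dfw g (col g a) k (col g y) (∑ x ∈ l, 128 * 256 ^ x)` with
`k + 1 + l.length = 7` is the sum over all lists `w` of distinct elements which extend `l` by
`k + 1` elements at the head, each adjacent to the next one, the head being adjacent to `a`.
The byte number `x` of `col g y + U` is `(ad g x y).toNat + (if x ∈ l then 128 else 0)`, by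
`clean g` (digits in base 256).
-/

namespace Pool.Agent.CycGT

open Finset

private theorem dfw_byte_add (N x z : ℕ) (hx : x < 7) (hz : z < 7) (h : byte N z < 128) :
    byte (N + 128 * 256 ^ z) x = byte N x + (if x = z then 128 else 0) := by
  unfold byte at h ⊢
  rw [Nat.shiftRight_eq_div_pow] at h
  rw [Nat.shiftRight_eq_div_pow, Nat.shiftRight_eq_div_pow]
  interval_cases x <;> interval_cases z <;> norm_num at h ⊢ <;> omega

private def dfwU (l : List ℕ) : ℕ := (l.map fun z => 128 * 256 ^ z).sum

private theorem dfw_byte_U (N : ℕ) : ∀ l : List ℕ, l.Nodup → (∀ z ∈ l, z < 7) →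
    (∀ z ∈ l, byte N z < 128) → ∀ x < 7,
      byte (N + dfwU l) x = byte N x + (if x ∈ l then 128 else 0) := by
  intro l
  induction l with
  | nil => intro _ _ _ x _; simp [dfwU]
  | cons z l ih =>
    intro hn h7 hb x hx
    rw [List.nodup_cons] at hn
    have h1 := ih hn.2 (fun w hw => h7 w (List.mem_cons_of_mem _ hw))
      (fun w hw => hb w (List.mem_cons_of_mem _ hw))
    have h2 : dfwU (z :: l) = dfwU l + 128 * 256 ^ z := by simp [dfwU, add_comm]
    have hz7 : z < 7 := h7 z (by simp)
    have h3 : byte (N + dfwU l) z < 128 := by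
      rw [h1 z hz7, if_neg hn.1]
      simpa using hb z (by simp)
    rw [h2, ← add_assoc, dfw_byte_add _ x z hx hz7 h3, h1 x hx]
    by_cases hxz : x = z
    · subst hxz
      simp [hn.1]
    · simp [hxz]

private def dfwC (r : ℕ → ℕ → Bool) : List ℕ → Bool
  | x :: y :: t => r x y && dfwC r (y :: t)
  | _ => true

private theorem dfw_wv (r : ℕ → ℕ → Bool) (l : List ℕ) (hl : l.length = 7) (h0 : l ≠ []) :
    wv r l = if (dfwC r l && r (l.head h0) (l.getLast h0)) = true then 1 else 0 := by
  match l, hl with
  | [a, b, c, d, e, f, g], _ =>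
    simp [wv, dfwC, Bool.and_assoc]

private theorem dfw_s7 (f : ℕ → ℤ) : s7 f = ∑ x ∈ range 7, f x := by
  simp only [s7, Finset.sum_range_succ, Finset.sum_range_zero]
  ring

private def dfwF (r : ℕ → ℕ → Bool) (l : List ℕ) : ℤ := if l.Nodup then wv r l else 0

private theorem dfw_zero (r : ℕ → ℕ → Bool) : ∀ (k : ℕ) (l : List ℕ), l.length + k = 7 →
    ¬ (l.Nodup ∧ dfwC r l = true) → sumL k l (dfwF r) = 0 := by
  intro k
  induction k with
  | zero =>
    intro l hl h
    simp only [sumL, dfwF]
    split_ifs with hn
    · have h1 : dfwC r l = false := by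
        by_contra hc
        exact h ⟨hn, by simpa using hc⟩
      have h0 : l ≠ [] := by
        rintro rfl
        simp at hl
      rw [dfw_wv r l (by simpa using hl) h0, h1]
      simp
    · rfl
  | succ k ih =>
    intro l hl h
    simp only [sumL]
    apply Finset.sum_eq_zero
    intro x _
    apply ih
    · simp only [List.length_cons]; omega
    · rintro ⟨h1, h2⟩
      apply h
      refine ⟨(List.nodup_cons.1 h1).2, ?_⟩
      cases l with
      | nil => rfl
      | cons y t =>
        simp only [dfwC, Bool.and_eq_true] at h2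
        exact h2.2

private theorem dfw_clean (g : ℕ) (hg : clean g = true) (x y : ℕ) (hx : x < 7) (hy : y < 7) :
    byte (col g y) x = (ad g x y).toNat := by
  unfold clean at hg
  rw [List.all_eq_true] at hg
  have h1 := hg y (List.mem_range.2 hy)
  rw [List.all_eq_true] at h1
  exact Nat.eq_of_beq_eq_true (h1 x (List.mem_range.2 hx))

private theorem dfw_main (g : ℕ) (hg : clean g = true) : ∀ (k : ℕ) (y : ℕ) (t : List ℕ),
    t.length + 1 + (k + 1) = 7 → (y :: t).Nodup → (∀ z ∈ y :: t, z < 7) →
    dfwC (ad g) (y :: t) = true →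
      sumL (k + 1) (y :: t) (dfwF (ad g)) =
        dfw g (col g ((y :: t).getLast (by simp))) k (col g y) (dfwU (y :: t)) := by
  intro k
  induction k with
  | zero =>
    intro y t hl hn h7 hc
    have hy : y < 7 := h7 y (by simp)
    have hb : ∀ x < 7, byte (col g y + dfwU (y :: t)) x =
        (ad g x y).toNat + (if x ∈ y :: t then 128 else 0) := by
      intro x hx
      rw [dfw_byte_U _ _ hn h7 _ x hx, dfw_clean g hg x y hx hy]
      intro z hz
      rw [dfw_clean g hg z y (h7 z hz) hy]
      cases ad g z y <;> simp
    have ha : (y :: t).getLast (by simp) < 7 := h7 _ (List.getLast_mem _)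
    simp only [sumL, dfw]
    rw [dfw_s7]
    apply Finset.sum_congr rfl
    intro x hx
    have hx7 : x < 7 := Finset.mem_range.1 hx
    rw [hb x hx7, dfw_clean g hg x _ hx7 ha]
    simp only [dfwF]
    by_cases hm : x ∈ y :: t
    · rw [if_neg (by rw [List.nodup_cons]; tauto), if_pos hm]
      cases ad g x y <;> rfl
    · rw [if_pos (List.nodup_cons.2 ⟨hm, hn⟩), if_neg hm,
        dfw_wv _ _ (by simp only [List.length_cons]; omega) (by simp)]
      simp only [List.head_cons, List.getLast_cons_cons, dfwC, hc]
      cases ad g x y <;> cases ad g x ((y :: t).getLast (by simp)) <;> rfl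
  | succ k ih =>
    intro y t hl hn h7 hc
    have hy : y < 7 := h7 y (by simp)
    have hb : ∀ x < 7, byte (col g y + dfwU (y :: t)) x =
        (ad g x y).toNat + (if x ∈ y :: t then 128 else 0) := by
      intro x hx
      rw [dfw_byte_U _ _ hn h7 _ x hx, dfw_clean g hg x y hx hy]
      intro z hz
      rw [dfw_clean g hg z y (h7 z hz) hy]
      cases ad g z y <;> simp
    rw [sumL]
    simp only [dfw]
    rw [dfw_s7]
    apply Finset.sum_congr rfl
    intro x hx
    have hx7 : x < 7 := Finset.mem_range.1 hx
    rw [hb x hx7]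
    by_cases hm : x ∈ y :: t
    · rw [dfw_zero _ _ _ (by simp only [List.length_cons]; omega)
        (by rw [List.nodup_cons]; tauto), if_pos hm]
      cases ad g x y <;> rfl
    · rw [if_neg hm]
      cases hxy : ad g x y with
      | false =>
        rw [dfw_zero _ _ _ (by simp only [List.length_cons]; omega)
          (by simp [dfwC, hxy])]
        rfl
      | true =>
        rw [ih x (y :: t) (by simp only [List.length_cons]; omega)
          (List.nodup_cons.2 ⟨hm, hn⟩) (by
            intro z hz
            rcases List.mem_cons.1 hz with rfl | hz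
            · exact hx7
            · exact h7 z hz) (by simp [dfwC, hxy, hc])]
        have h2 : dfwU (x :: y :: t) = dfwU (y :: t) + 128 * 256 ^ x := by
          simp only [dfwU, List.map_cons, List.sum_cons]
          ring
        rw [h2, List.getLast_cons_cons]
        rfl

theorem totw_eq (g : ℕ) (hg : clean g = true) :
    ∑ π : Equiv.Perm (Fin 7), wv (ad g) (List.ofFn fun i => (π i : ℕ)) = totw g := by
  rw [perm_sum]
  have h1 : (fun l : List ℕ => if l.Nodup then wv (ad g) l else 0) = dfwF (ad g) := rfl
  rw [h1, sumL]
  unfold totw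
  rw [dfw_s7]
  apply Finset.sum_congr rfl
  intro x hx
  have hx7 : x < 7 := Finset.mem_range.1 hx
  rw [dfw_main g hg 5 x [] (by simp) (by simp) (by simpa using hx7) rfl]
  simp [dfwU]

end Pool.Agent.CycGT
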