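import Pool.Agent.W_1bfdb5_h19.FlTh

/-!
# Sums of squares

For each type, `sc * Q a b = ∑ c v_a v_b` over the list `sq` (checked by the kernel).  For fixed
`t : Fin 5 → V` the sum over `y, z` of `Q (I (mkw r y t)) (I (mkw r z t))` is, up to the factor
`sc`, the sum of `c * (∑ y, v (I (mkw r y t))) ^ 2`.
-/

namespace Pool.Agent.CycGT

open Finset

/-- The matrix of the type is the given sum of squares. -/
def chkS (T : Ty) (L : ℕ) (sq : List (ℕ × List ℤ)) : Bool :=
  Nat.blt 0 L && ((List.range 32).all fun a => Nat.blt (T.I a) T.n) &&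
  (List.range T.n).all fun a => (List.range T.n).all fun b =>
    decide ((L : ℤ) * T.Q a b = (sq.map fun p => (p.1 : ℤ) * p.2.getD a 0 * p.2.getD b 0).sum)

theorem chkS0 : chkS ty0 sc0 sq0 = true := by decide +kernel
theorem chkS1 : chkS ty1 sc1 sq1 = true := by decide +kernel
theorem chkS2 : chkS ty2 sc2 sq2 = true := by decide +kernel
theorem chkS3 : chkS ty3 sc3 sq3 = true := by decide +kernel
theorem chkS4 : chkS ty4 sc4 sq4 = true := by decide +kernel
theorem chkS5 : chkS ty5 sc5 sq5 = true := by decide +kernel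

theorem sos_mkw_lt {α : Type} (r : α → α → Bool) (x : α) (l : List α) :
    mkw r x l < 2 ^ l.length := by
  induction l with
  | nil => simp [mkw]
  | cons y l ih =>
    simp only [mkw, List.length_cons]
    have h1 : (r x y).toNat ≤ 1 := Bool.toNat_le _
    have h2 : 2 ^ l.length * (r x y).toNat ≤ 2 ^ l.length * 1 := Nat.mul_le_mul_left _ h1
    rw [pow_succ]
    omega

theorem sos_list {V : Type} [Fintype V] (g : V → ℕ) (sq : List (ℕ × List ℤ)) :
    0 ≤ ∑ z : V, ∑ y : V,
      (sq.map fun p => (p.1 : ℤ) * p.2.getD (g y) 0 * p.2.getD (g z) 0).sum := by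
  induction sq with
  | nil => simp
  | cons p sq ih =>
    have e : ∑ z : V, ∑ y : V,
        ((p :: sq).map fun p => (p.1 : ℤ) * p.2.getD (g y) 0 * p.2.getD (g z) 0).sum =
        (p.1 : ℤ) * (∑ y : V, p.2.getD (g y) 0) ^ 2 + ∑ z : V, ∑ y : V,
          (sq.map fun p => (p.1 : ℤ) * p.2.getD (g y) 0 * p.2.getD (g z) 0).sum := by
      simp only [List.map_cons, List.sum_cons, Finset.sum_add_distrib]
      congr 1
      rw [pow_two, Finset.sum_mul_sum, Finset.sum_comm, Finset.mul_sum]
      refine Finset.sum_congr rfl fun y _ => ?_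
      rw [Finset.mul_sum]
      refine Finset.sum_congr rfl fun z _ => ?_
      ring
    rw [e]
    have h1 : (0 : ℤ) ≤ (p.1 : ℤ) * (∑ y : V, p.2.getD (g y) 0) ^ 2 :=
      mul_nonneg (Int.natCast_nonneg _) (sq_nonneg _)
    exact add_nonneg h1 ih

theorem sos_inner {V : Type} [Fintype V] (T : Ty) (L : ℕ) (sq : List (ℕ × List ℤ))
    (h : chkS T L sq = true) (r : V → V → Bool) (t : List V) (ht : t.length = 5) :
    0 ≤ ∑ z : V, ∑ y : V, val T r (z :: y :: t) := by
  unfold chkS at h
  rw [Bool.and_eq_true, Bool.and_eq_true] at h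
  obtain ⟨⟨hL, hI⟩, hQ⟩ := h
  have hL' : 0 < L := by simpa [Nat.blt_eq] using hL
  have hI' : ∀ a, a < 32 → T.I a < T.n := by
    intro a ha
    rw [List.all_eq_true] at hI
    simpa [Nat.blt_eq] using hI a (List.mem_range.2 ha)
  have hQ' : ∀ a b, a < T.n → b < T.n →
      (L : ℤ) * T.Q a b = (sq.map fun p => (p.1 : ℤ) * p.2.getD a 0 * p.2.getD b 0).sum := by
    intro a b ha hb
    rw [List.all_eq_true] at hQ
    have h1 := hQ a (List.mem_range.2 ha)
    rw [List.all_eq_true] at h1
    exact of_decide_eq_true (h1 b (List.mem_range.2 hb))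
  have hm : ∀ x : V, mkw r x t < 32 := by
    intro x
    have := sos_mkw_lt r x t
    rwa [ht] at this
  by_cases hmt : mt r T.sg.reverse t = true
  · simp only [val, hmt, if_true]
    have h1 : (L : ℤ) * ∑ z : V, ∑ y : V, T.Q (T.I (mkw r y t)) (T.I (mkw r z t)) =
        ∑ z : V, ∑ y : V, (sq.map fun p => (p.1 : ℤ) * p.2.getD (T.I (mkw r y t)) 0 *
          p.2.getD (T.I (mkw r z t)) 0).sum := by
      rw [Finset.mul_sum]
      refine Finset.sum_congr rfl fun z _ => ?_
      rw [Finset.mul_sum]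
      refine Finset.sum_congr rfl fun y _ => ?_
      exact hQ' _ _ (hI' _ (hm y)) (hI' _ (hm z))
    have h2 := sos_list (fun x : V => T.I (mkw r x t)) sq
    rw [← h1] at h2
    have hL2 : (0 : ℤ) < (L : ℤ) := by exact_mod_cast hL'
    exact nonneg_of_mul_nonneg_right h2 hL2
  · simp [val, hmt]

theorem val_nonneg {V : Type} [Fintype V] (T : Ty) (L : ℕ) (sq : List (ℕ × List ℤ))
    (h : chkS T L sq = true) (hT : T.sg.length = 5) (r : V → V → Bool) :
    0 ≤ ∑ φ : Fin 7 → V, val T r (List.ofFn φ) := by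
  have e : ∑ φ : Fin 7 → V, val T r (List.ofFn φ) =
      ∑ t : Fin 5 → V, ∑ z : V, ∑ y : V, val T r (z :: y :: List.ofFn t) := by
    rw [← (Fin.consEquiv (fun _ : Fin 7 => V)).sum_comp, Fintype.sum_prod_type,
      Finset.sum_comm (s := (Finset.univ : Finset (Fin 5 → V)))]
    refine Finset.sum_congr rfl fun z _ => ?_
    rw [← (Fin.consEquiv (fun _ : Fin 6 => V)).sum_comp, Fintype.sum_prod_type, Finset.sum_comm]
    refine Finset.sum_congr rfl fun t _ => Finset.sum_congr rfl fun y _ => ?_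
    congr 1
  rw [e]
  exact Finset.sum_nonneg fun t _ => sos_inner T L sq h r _ (by simp)

end Pool.Agent.CycGT
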