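import Pool.Agent.W_1bfdb5_h19.FlDft
import Pool.Agent.W_1bfdb5_h19.FlDfw
import Pool.Agent.W_1bfdb5_h19.FlCls
import Pool.Agent.W_1bfdb5_h19.FlSos
import Pool.Agent.W_1bfdb5_h19.FlChk
import Pool.Agent.W_1bfdb5_h19.Arc

/-!
# Closed walks of length seven in triangle-free graphs
-/

namespace Pool.Agent.CycGT

open Finset
open scoped Classical

lemma mkw_map {α β : Type} (r : β → β → Bool) (f : α → β) (x : α) (l : List α) :
    mkw r (f x) (l.map f) = mkw (fun i j => r (f i) (f j)) x l := by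
  induction l with
  | nil => rfl
  | cons y l ih => simp [mkw, ih]

lemma mt_map {α β : Type} (r : β → β → Bool) (f : α → β) (ms : List ℕ) (l : List α) :
    mt r ms (l.map f) = mt (fun i j => r (f i) (f j)) ms l := by
  induction l generalizing ms with
  | nil => cases ms <;> rfl
  | cons y l ih =>
    cases ms with
    | nil => rfl
    | cons m ms => simp only [List.map_cons, mt, mkw_map, ih]

lemma val_map {α β : Type} (T : Ty) (r : β → β → Bool) (f : α → β) (l : List α) :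
    val T r (l.map f) = val T (fun i j => r (f i) (f j)) l := by
  match l with
  | [] => rfl
  | [_] => rfl
  | z :: y :: t => simp only [List.map_cons, val, mkw_map, mt_map]

lemma wv_map {α β : Type} (r : β → β → Bool) (f : α → β) (l : List α) :
    wv r (l.map f) = wv (fun i j => r (f i) (f j)) l := by
  match l with
  | [] => rfl
  | [_] => rfl
  | [_, _] => rfl
  | [_, _, _] => rfl
  | [_, _, _, _] => rfl
  | [_, _, _, _, _] => rfl
  | [_, _, _, _, _, _] => rfl
  | [_, _, _, _, _, _, _] => rfl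
  | _ :: _ :: _ :: _ :: _ :: _ :: _ :: _ :: _ => rfl

/-- The total functional. -/
def Fv {α : Type} (r : α → α → Bool) (l : List α) : ℤ :=
  62500 * wv r l + (tys.map fun T => val T r l).sum

lemma Fv_map {α β : Type} (r : β → β → Bool) (f : α → β) (l : List α) :
    Fv r (l.map f) = Fv (fun i j => r (f i) (f j)) l := by
  simp only [Fv, wv_map, val_map]

lemma sum_Fv {ι α : Type} [Fintype ι] (r : α → α → Bool) (l : ι → List α) :
    ∑ i, Fv r (l i) = 62500 * ∑ i, wv r (l i) + (tys.map fun T => ∑ i, val T r (l i)).sum := by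
  simp only [Fv, sum_add_distrib, ← mul_sum]
  congr 1
  simp only [tys, List.map_cons, List.map_nil, List.sum_cons, List.sum_nil, sum_add_distrib,
    sum_const_zero]

lemma sg_lt : (tys.all fun T => T.sg.all fun m => Nat.blt m 32) = true := by decide +kernel

/-- The inequality for one graph on seven vertices. -/
lemma Fv_le (A : Fin 7 → Fin 7 → Bool) (hs : ∀ i j, A i j = A j i)
    (hi : ∀ i, A i i = false) (ht : ∀ i j k, ¬ (A i j = true ∧ A j k = true ∧ A i k = true)) :
    ∑ π : Equiv.Perm (Fin 7), Fv A (List.ofFn π) ≤ 282240 := by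
  obtain ⟨g, hg, τ, hτ⟩ := classify A hs hi ht
  have h1 : ∑ π : Equiv.Perm (Fin 7), Fv A (List.ofFn π) =
      ∑ π : Equiv.Perm (Fin 7), Fv (ad g) (List.ofFn fun i => (π i : ℕ)) := by
    rw [← Equiv.sum_comp (Equiv.mulLeft τ)]
    refine sum_congr rfl fun π _ => ?_
    have e1 : List.ofFn (⇑((Equiv.mulLeft τ) π)) = (List.ofFn ⇑π).map τ := by
      rw [List.map_ofFn]; rfl
    have e2 : (List.ofFn fun i => (π i : ℕ)) = (List.ofFn ⇑π).map (fun i : Fin 7 => (i : ℕ)) := by
      rw [List.map_ofFn]; rfl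
    rw [e1, e2, Fv_map, Fv_map]
    congr 1
    funext i j
    exact hτ i j
  rw [h1, sum_Fv]
  have hc : clean g = true := List.all_eq_true.1 clean_reps g hg
  rw [totw_eq g hc]
  have h2 : (tys.map fun T => ∑ π : Equiv.Perm (Fin 7),
      val T (ad g) (List.ofFn fun i => (π i : ℕ))) = tys.map fun T => tot T g := by
    refine List.map_congr_left fun T hT => ?_
    refine tot_eq T ?_ ?_ g hc
    · exact Nat.eq_of_beq_eq_true (List.all_eq_true.1 sg_length T hT)
    · intro m hm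
      have := List.all_eq_true.1 (List.all_eq_true.1 sg_lt T hT) m hm
      simpa [Nat.blt_eq] using this
  rw [h2]
  have h3 := List.all_eq_true.1 chk_main g hg
  exact of_decide_eq_true h3

variable {V : Type} [Fintype V]

lemma sum_val_nonneg (r : V → V → Bool) :
    0 ≤ (tys.map fun T => ∑ φ : Fin 7 → V, val T r (List.ofFn φ)).sum := by
  simp only [tys, List.map_cons, List.map_nil, List.sum_cons, List.sum_nil]
  have h0 := val_nonneg ty0 sc0 sq0 chkS0 rfl r
  have h1 := val_nonneg ty1 sc1 sq1 chkS1 rfl r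
  have h2 := val_nonneg ty2 sc2 sq2 chkS2 rfl r
  have h3 := val_nonneg ty3 sc3 sq3 chkS3 rfl r
  have h4 := val_nonneg ty4 sc4 sq4 chkS4 rfl r
  have h5 := val_nonneg ty5 sc5 sq5 chkS5 rfl r
  linarith

lemma sum_wv (G : SimpleGraph V) :
    ∑ φ : Fin 7 → V, wv (fun x y => decide (G.Adj x y)) (List.ofFn φ) = #(clos G 7) := by
  have e : #(clos G 7) = ∑ c : ZMod 7 → V, if IsCl G 7 c then 1 else 0 := by
    rw [clos, card_filter]
  rw [e]
  push_cast
  refine Fintype.sum_equiv (Equiv.refl _) _ _ fun φ => ?_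
  have h : (IsCl G 7 φ) ↔ ((decide (G.Adj (φ 0) (φ 1)) && decide (G.Adj (φ 1) (φ 2)) &&
      decide (G.Adj (φ 2) (φ 3)) && decide (G.Adj (φ 3) (φ 4)) && decide (G.Adj (φ 4) (φ 5)) &&
      decide (G.Adj (φ 5) (φ 6)) && decide (G.Adj (φ 0) (φ 6))) = true) := by
    simp only [Bool.and_eq_true, decide_eq_true_eq]
    constructor
    · intro h
      exact ⟨⟨⟨⟨⟨⟨h 0, h 1⟩, h 2⟩, h 3⟩, h 4⟩, h 5⟩, (h 6).symm⟩
    · rintro ⟨⟨⟨⟨⟨⟨h0, h1⟩, h2⟩, h3⟩, h4⟩, h5⟩, h6⟩ i
      fin_cases i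
      · exact h0
      · exact h1
      · exact h2
      · exact h3
      · exact h4
      · exact h5
      · exact h6.symm
  have e2 : List.ofFn φ = [φ 0, φ 1, φ 2, φ 3, φ 4, φ 5, φ 6] := rfl
  rw [e2]
  simp only [wv, Equiv.refl_apply]
  by_cases hc : IsCl G 7 φ
  · rw [if_pos (h.1 hc), if_pos hc]
  · rw [if_neg (fun hh => hc (h.2 hh)), if_neg hc]

theorem main5 (G : SimpleGraph V) (hG : OddFree G 5) :
    (#(clos G 7) : ℝ) * 5 ^ 6 ≤ 14 * (Fintype.card V : ℝ) ^ 7 := by
  set r : V → V → Bool := fun x y => decide (G.Adj x y) with hr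
  have htri : ∀ x y z, ¬ (G.Adj x y ∧ G.Adj y z ∧ G.Adj x z) := by
    rintro x y z ⟨h1, h2, h3⟩
    refine hG 3 (by norm_num) (by decide) x ⟨.cons h1 (.cons h2 (.cons h3.symm .nil)), rfl⟩
  have h1 : ∀ φ : Fin 7 → V, ∑ π : Equiv.Perm (Fin 7), Fv r (List.ofFn (φ ∘ π)) ≤ 282240 := by
    intro φ
    have e : ∀ π : Equiv.Perm (Fin 7), Fv r (List.ofFn (φ ∘ π)) =
        Fv (fun i j => r (φ i) (φ j)) (List.ofFn π) := by
      intro π
      rw [← Fv_map, List.map_ofFn]
    rw [sum_congr rfl fun π _ => e π]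
    refine Fv_le _ ?_ ?_ ?_
    · intro i j
      simp only [hr, G.adj_comm]
    · intro i
      simp [hr]
    · intro i j k
      simp only [hr, decide_eq_true_eq]
      exact htri _ _ _
  have h2 : ∑ φ : Fin 7 → V, ∑ π : Equiv.Perm (Fin 7), Fv r (List.ofFn (φ ∘ π)) =
      5040 * ∑ φ : Fin 7 → V, Fv r (List.ofFn φ) := by
    rw [sum_comm]
    have : ∀ π : Equiv.Perm (Fin 7), ∑ φ : Fin 7 → V, Fv r (List.ofFn (φ ∘ π)) =
        ∑ φ : Fin 7 → V, Fv r (List.ofFn φ) := by
      intro π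
      exact (Equiv.arrowCongr π.symm (Equiv.refl V)).sum_comp
        (fun φ : Fin 7 → V => Fv r (List.ofFn φ))
    rw [sum_congr rfl fun π _ => this π, sum_const, card_univ, Fintype.card_perm,
      Fintype.card_fin]
    simp [Nat.factorial]
  have h3 : ∑ φ : Fin 7 → V, ∑ π : Equiv.Perm (Fin 7), Fv r (List.ofFn (φ ∘ π)) ≤
      282240 * (Fintype.card V : ℤ) ^ 7 := by
    refine (sum_le_sum fun φ _ => h1 φ).trans_eq ?_
    rw [sum_const, card_univ, Fintype.card_fun, Fintype.card_fin]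
    simp [mul_comm]
  rw [h2, sum_Fv, sum_wv] at h3
  have h4 := sum_val_nonneg r
  have h5 : 5040 * (62500 * (#(clos G 7) : ℤ)) ≤ 282240 * (Fintype.card V : ℤ) ^ 7 := by
    linarith
  have h6 : (5040 * (62500 * (#(clos G 7) : ℝ))) ≤ 282240 * (Fintype.card V : ℝ) ^ 7 := by
    exact_mod_cast h5
  linarith

/-- The bound for closed walks in the form used by `asym`. -/
theorem main5' (G : SimpleGraph V) (hG : OddFree G (2 * 1 + 3)) :
    (#(clos G (2 * 1 + 5)) : ℝ) * ((2 * 1 + 3 : ℕ) : ℝ) ^ (2 * 1 + 4) ≤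
      2 * ((2 * 1 + 3 : ℕ) + 2) * (Fintype.card V : ℝ) ^ (2 * 1 + 5) := by
  have h := main5 G hG
  refine le_trans (le_of_eq ?_) (h.trans (le_of_eq ?_))
  · norm_num
  · norm_num

end Pool.Agent.CycGT
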