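import Pool.Agent.W_1bfdb5_h19.Exact
import Pool.Agent.W_1bfdb5_h19.FlMain

/-!
# The theorem for all odd l
-/

namespace Pool.Agent.CycGT

open Finset Filter Topology
open scoped Classical

lemma cKL_four (l : ℕ) : cKL (l + 4) l = 1 / ((l : ℝ) + 2) ^ (l + 3) := by
  have h : (range (l + 4 + 1)).filter (fun j => Odd j ∧ j * (l + 2) ≤ l + 4) = {1} := by
    ext j
    simp only [mem_filter, mem_range, mem_singleton]
    constructor
    · rintro ⟨_, ⟨i, rfl⟩, h2⟩
      rcases Nat.eq_zero_or_pos i with h0 | h0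
      · omega
      · exfalso
        have : 3 * (l + 2) ≤ (2 * i + 1) * (l + 2) := Nat.mul_le_mul_right _ (by omega)
        omega
    · rintro rfl
      exact ⟨by omega, by decide, by omega⟩
  unfold cKL
  rw [h, sum_singleton]
  have h2 : (l + 4 - 1 * (l + 2)) / 2 = 1 := by omega
  rw [h2, Nat.choose_one_right]
  have h3 : (0 : ℝ) < (l : ℝ) + 2 := by positivity
  have h4 : (0 : ℝ) < ((l + 4 : ℕ) : ℝ) := by positivity
  rw [show l + 4 = (l + 3) + 1 from rfl, pow_succ]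
  field_simp

lemma main_all {V : Type} [Fintype V] {r : ℕ} (hr : 1 ≤ r) (G : SimpleGraph V)
    (hG : OddFree G (2 * r + 3)) :
    (#(clos G (2 * r + 5)) : ℝ) * ((2 * r + 3 : ℕ) : ℝ) ^ (2 * r + 4) ≤
      2 * ((2 * r + 3 : ℕ) + 2) * (Fintype.card V : ℝ) ^ (2 * r + 5) := by
  rcases Nat.lt_or_ge 1 r with h | h
  · exact main7' h G hG
  · obtain rfl : r = 1 := by omega
    exact main5' G hG

lemma hom_le_clos {V : Type} [Fintype V] (G : SimpleGraph V) (k : ℕ) [NeZero k] (hk : 2 ≤ k) :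
    Nat.card (SimpleGraph.cycleGraph k →g G) ≤ #(clos G k) := by
  obtain ⟨n, rfl⟩ : ∃ n, k = n + 2 := ⟨k - 2, by omega⟩
  rw [← Fintype.card_coe, ← Nat.card_eq_fintype_card]
  refine Nat.card_le_card_of_injective
    (fun f : SimpleGraph.cycleGraph (n + 2) →g G =>
      (⟨fun i : ZMod (n + 2) => f (i : Fin (n + 2)), ?_⟩ : ↥(clos G (n + 2)))) ?_
  · rw [clos, mem_filter]
    refine ⟨mem_univ _, fun i => ?_⟩
    have h : ∀ j : Fin (n + 2), (SimpleGraph.cycleGraph (n + 2)).Adj j (j + 1) := by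
      intro j
      rw [SimpleGraph.cycleGraph_adj]
      exact Or.inr (add_sub_cancel_left _ _)
    exact f.map_adj (h i)
  · intro f g hfg
    have := congrArg Subtype.val hfg
    exact RelHom.ext fun x => congrFun this x

theorem all_odd (l : ℕ) (hl : Odd l) (h3 : 3 ≤ l) :
    Tendsto (fun n : ℕ => (exC n (l + 4) l : ℝ) / (n : ℝ) ^ (l + 4)) atTop
      (𝓝 (cKL (l + 4) l)) := by
  obtain ⟨r, rfl⟩ := hl
  have h := asym r (by omega) fun q H hH => by
    have := main_all (r := r) (by omega) H hH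
    rwa [Fintype.card_fin] at this
  rw [cKL_four]
  have e : (((2 * r + 1 : ℕ) : ℝ) + 2) = ((2 * r + 3 : ℕ) : ℝ) := by push_cast; ring
  rw [e]
  exact h

theorem all_exact (l : ℕ) (hl : Odd l) (h3 : 3 ≤ l) {V : Type} [Fintype V] (G : SimpleGraph V)
    (hG : ∀ j, Odd j → 3 ≤ j → j ≤ l → (SimpleGraph.cycleGraph j).Free G) :
    Nat.card (SimpleGraph.cycleGraph (l + 4) →g G) * (l + 2) ^ (l + 3) ≤
      2 * (l + 4) * Fintype.card V ^ (l + 4) ∧
    G.copyCount (SimpleGraph.cycleGraph (l + 4)) * (l + 2) ^ (l + 3) ≤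
      Fintype.card V ^ (l + 4) := by
  obtain ⟨r, rfl⟩ := hl
  have hm := main_all (r := r) (by omega) G
  refine ⟨?_, exact_of r G hG hm⟩
  have h1 := hm (oddFree_of_free G r fun i hi => hG _ ⟨i + 1, by omega⟩ (by omega) (by omega))
  have h2 : #(clos G (2 * r + 5)) * (2 * r + 3) ^ (2 * r + 4) ≤
      2 * (2 * r + 5) * Fintype.card V ^ (2 * r + 5) := by
    have e : (2 * ((2 * r + 3 : ℕ) + 2) : ℝ) = 2 * (2 * r + 5) := by push_cast; ring
    rw [e] at h1
    exact_mod_cast h1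
  exact (Nat.mul_le_mul_right _ (hom_le_clos G (2 * r + 5) (by omega))).trans h2

end Pool.Agent.CycGT
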