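import Mathlib

/-!
# Odd cycles of length m + 2 in graphs without odd cycles shorter than m

Common definitions.  `m` is odd, `7 ≤ m`; closed walks of length `M` are functions `ZMod M → V`.
-/

namespace Pool.Agent.CycGT

open Finset
open scoped Classical

variable {V : Type} [Fintype V]

/-- There is a walk of length `r` from `u` to `v`. -/
def Wk (G : SimpleGraph V) (r : ℕ) (u v : V) : Prop := ∃ p : G.Walk u v, p.length = r

/-- No closed walk of odd length smaller than `m`. -/
def OddFree (G : SimpleGraph V) (m : ℕ) : Prop := ∀ r, r < m → Odd r → ∀ v, ¬ Wk G r v v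

/-- `c` is a closed walk of length `M`. -/
def IsCl (G : SimpleGraph V) (M : ℕ) (c : ZMod M → V) : Prop := ∀ i, G.Adj (c i) (c (i + 1))

/-- The set of closed walks of length `M`. -/
noncomputable def clos (G : SimpleGraph V) (M : ℕ) [NeZero M] : Finset (ZMod M → V) :=
  univ.filter (IsCl G M)

/-- Neighbourhood as a finset. -/
noncomputable def Nb (G : SimpleGraph V) (x : V) : Finset V := univ.filter (fun w => G.Adj w x)

/-- Candidates for `v 3`, given `v 0 = x` and `v 1 = y`. -/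
noncomputable def B3 (G : SimpleGraph V) (x y : V) : Finset V :=
  univ.filter (fun w => Wk G 2 w y ∧ ¬ G.Adj w x)

/-- Common neighbours. -/
noncomputable def B2 (G : SimpleGraph V) (x y : V) : Finset V :=
  univ.filter (fun w => G.Adj w x ∧ G.Adj w y)

/-- Candidates for `v i`, `i ≥ 4`. -/
noncomputable def stepSet (G : SimpleGraph V) (v : ℕ → V) (i : ℕ) : Finset V :=
  univ.filter (fun w => G.Adj w (v (i - 1)) ∧ ¬ G.Adj w (v (i - 3)) ∧
    (5 ≤ i → ¬ G.Adj w (v (i - 5))))

/-- The sequence `v 0, ..., v (L-1)` obeys the rules of the random process. -/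
def Valid (G : SimpleGraph V) (L : ℕ) (v : ℕ → V) : Prop :=
  v 1 ∈ Nb G (v 0) ∧ v 3 ∈ B3 G (v 0) (v 1) ∧ v 2 ∈ B2 G (v 1) (v 3) ∧
    ∀ i ∈ Ico 4 L, v i ∈ stepSet G v i

/-- Probability of the sequence `v 0, ..., v (L-1)`. -/
noncomputable def wt (G : SimpleGraph V) (L : ℕ) (v : ℕ → V) : ℝ :=
  ((Fintype.card V : ℝ) * (#(Nb G (v 0)) : ℝ) * (#(B3 G (v 0) (v 1)) : ℝ) *
    (#(B2 G (v 1) (v 3)) : ℝ) * ∏ i ∈ Ico 4 L, (#(stepSet G v i) : ℝ))⁻¹

/-- Probability of a sequence of length `m + 2`, the last step closes the walk. -/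
noncomputable def wtK (G : SimpleGraph V) (m : ℕ) (v : ℕ → V) : ℝ :=
  wt G (m + 1) v * (#(B2 G (v m) (v 0)) : ℝ)⁻¹

/-- The walk `c` read as a sequence. -/
def seqOf {M : ℕ} (c : ZMod M → V) : ℕ → V := fun i => c (i : ZMod M)

/-- Rotation. -/
def rot {M : ℕ} (c : ZMod M → V) (j : ZMod M) : ZMod M → V := fun i => c (j + i)

/-- Rotated reflection. -/
def rfl' {M : ℕ} (c : ZMod M → V) (j : ZMod M) : ZMod M → V := fun i => c (j - i)

/-- Number of vertices adjacent to both `c (t-1)` and `c (t+1)`. -/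
noncomputable def cA (G : SimpleGraph V) {M : ℕ} (c : ZMod M → V) (t : ZMod M) : ℕ :=
  #(univ.filter (fun w => G.Adj w (c (t - 1)) ∧ G.Adj w (c (t + 1))))

/-- Number of vertices adjacent to `c t`, but not to `c (t-2)` or `c (t+2)`. -/
noncomputable def cS (G : SimpleGraph V) {M : ℕ} (c : ZMod M → V) (t : ZMod M) : ℕ :=
  #(univ.filter (fun w => G.Adj w (c t) ∧ ¬ G.Adj w (c (t - 2)) ∧ ¬ G.Adj w (c (t + 2))))

/-- Number of vertices adjacent to no `c t`. -/
noncomputable def cU (G : SimpleGraph V) {M : ℕ} (c : ZMod M → V) : ℕ :=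
  #(univ.filter (fun w => ∀ t, ¬ G.Adj w (c t)))

/-- The positions of `c` adjacent to `w`. -/
noncomputable def PS (G : SimpleGraph V) {M : ℕ} [NeZero M] (c : ZMod M → V) (w : V) :
    Finset (ZMod M) := univ.filter (fun t => G.Adj w (c t))

/-- The positions of `c` joined to `w` by a walk of length two. -/
noncomputable def QS (G : SimpleGraph V) {M : ℕ} [NeZero M] (c : ZMod M → V) (w : V) :
    Finset (ZMod M) := univ.filter (fun t => Wk G 2 w (c t))

/-- Weighted number of edges `x y` with `x` adjacent to `c i` and `y` adjacent to `c (i+1)`. -/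
noncomputable def TT (G : SimpleGraph V) {M : ℕ} [NeZero M] (c : ZMod M → V) : ℝ :=
  ∑ i : ZMod M, ∑ x : V, ∑ y : V,
    if G.Adj x (c i) ∧ G.Adj y (c (i + 1)) ∧ G.Adj x y then
      ((#(PS G c x) : ℝ) + #(PS G c y) - 1)⁻¹ else 0

/-- `k` has no chord of the form `k i, k (i+3)`. -/
def ZC (G : SimpleGraph V) {M : ℕ} (k : ZMod M → V) : Prop := ∀ i, ¬ G.Adj (k i) (k (i + 3))

end Pool.Agent.CycGT
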