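import Pool.Agent.W_1bfdb5_h19.Main7
import Pool.Agent.W_1bfdb5_h19.Asym

/-!
# The exact bound for graphs without shorter odd cycles
-/

namespace Pool.Agent.CycGT

open Finset Filter Topology
open scoped Classical

private lemma Exact_min {W : Type} (H : SimpleGraph W) (r : ℕ) (h : ¬ OddFree H (2 * r + 3)) :
    ∃ i, i < r ∧ ∃ c : ZMod (2 * i + 3) → W, Function.Injective c ∧ IsCl H (2 * i + 3) c := by
  unfold OddFree at h
  push Not at h
  obtain ⟨s0, hs0, hodd0, v0, hv0⟩ := h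
  have hex : ∃ s, Odd s ∧ ∃ v, Wk H s v v := ⟨s0, hodd0, v0, hv0⟩
  obtain ⟨s, ⟨hodd, v, hv⟩, hmin⟩ : ∃ s, (Odd s ∧ ∃ v, Wk H s v v) ∧
      ∀ t, (Odd t ∧ ∃ v, Wk H t v v) → s ≤ t :=
    ⟨Nat.find hex, Nat.find_spec hex, fun t ht => Nat.find_min' hex ht⟩
  have hss : s ≤ s0 := hmin s0 ⟨hodd0, v0, hv0⟩
  obtain ⟨k, hk⟩ := hodd
  have hk0 : k ≠ 0 := by
    rintro rfl
    have h1 : s = 1 := by omega
    rw [h1] at hv
    exact H.irrefl (wk_one.1 hv)
  obtain ⟨i, rfl⟩ : ∃ i, k = i + 1 := ⟨k - 1, by omega⟩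
  obtain rfl : s = 2 * i + 3 := by omega
  refine ⟨i, by omega, ?_⟩
  obtain ⟨p, hp⟩ := hv
  have hval : ∀ t : ZMod (2 * i + 3), (t + 1).val = (t.val + 1) % (2 * i + 3) := by
    intro t
    rw [ZMod.val_add, ZMod.val_one_eq_one_mod, Nat.add_mod_mod]
  have hcl : IsCl H (2 * i + 3) (fun t => p.getVert t.val) := by
    intro t
    show H.Adj (p.getVert t.val) (p.getVert (t + 1).val)
    have ht : t.val < 2 * i + 3 := ZMod.val_lt t
    have h1 := p.adj_getVert_succ (i := t.val) (by omega)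
    rw [hval]
    by_cases h2 : t.val + 1 < 2 * i + 3
    · rw [Nat.mod_eq_of_lt h2]
      exact h1
    · have h3 : t.val + 1 = 2 * i + 3 := by omega
      rw [h3] at h1 ⊢
      rw [Nat.mod_self]
      have h4 : p.getVert (2 * i + 3) = v := by
        rw [← hp]
        exact p.getVert_length
      rw [h4] at h1
      rw [p.getVert_zero]
      exact h1
  refine ⟨fun t => p.getVert t.val, ?_, hcl⟩
  have key : ∀ a b : ZMod (2 * i + 3), a.val < b.val → p.getVert a.val ≠ p.getVert b.val := by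
    intro a b hab he
    have hb : b.val < 2 * i + 3 := ZMod.val_lt b
    have e1 : b = a + ((b.val - a.val : ℕ) : ZMod (2 * i + 3)) := by
      rw [Nat.cast_sub hab.le, ZMod.natCast_zmod_val, ZMod.natCast_zmod_val]
      ring
    have e2 : b + ((2 * i + 3 - (b.val - a.val) : ℕ) : ZMod (2 * i + 3)) = a := by
      rw [Nat.cast_sub (by omega), ZMod.natCast_self, Nat.cast_sub hab.le, ZMod.natCast_zmod_val,
        ZMod.natCast_zmod_val]
      ring
    have w1 := hcl.along a (b.val - a.val)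
    rw [← e1] at w1
    have w2 := hcl.along b (2 * i + 3 - (b.val - a.val))
    rw [e2] at w2
    rw [← he] at w1 w2
    rcases Nat.even_or_odd (b.val - a.val) with h5 | h5
    · have h6 : Odd (2 * i + 3 - (b.val - a.val)) := by
        obtain ⟨m, hm⟩ := h5
        exact ⟨i + 1 - m, by omega⟩
      have h7 := hmin _ ⟨h6, _, w2⟩
      omega
    · have h7 := hmin _ ⟨h5, _, w1⟩
      omega
  intro a b hab
  beta_reduce at hab
  rcases lt_trichotomy a.val b.val with h1 | h1 | h1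
  · exact absurd hab (key a b h1)
  · exact ZMod.val_injective _ h1
  · exact absurd hab.symm (key b a h1)


/-- A graph without cycles of odd length at most `2 r + 1` has no closed walk of odd length
at most `2 r + 1`. -/
theorem oddFree_of_free {W : Type} (H : SimpleGraph W) (r : ℕ)
    (h : ∀ i, i < r → (SimpleGraph.cycleGraph (2 * i + 3)).Free H) : OddFree H (2 * r + 3) := by
  by_contra hcon
  obtain ⟨i, hi, c, hinj, hc⟩ := Exact_min H r hcon
  refine h i hi ⟨⟨⟨fun j : Fin (2 * i + 1 + 2) => c j, ?_⟩, hinj⟩⟩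
  intro u v huv
  rw [SimpleGraph.cycleGraph_adj] at huv
  rcases huv with huv | huv
  · have e : u = v + 1 := by rw [← huv, add_sub_cancel]
    rw [e]
    exact (hc v).symm
  · have e : v = u + 1 := by rw [← huv, add_sub_cancel]
    rw [e]
    exact hc u

/-- The exact bound for copies, from the bound for closed walks. -/
theorem exact_of {V : Type} [Fintype V] (r : ℕ) (G : SimpleGraph V)
    (hG : ∀ j, Odd j → 3 ≤ j → j ≤ 2 * r + 1 → (SimpleGraph.cycleGraph j).Free G)
    (hB : OddFree G (2 * r + 3) →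
      (#(clos G (2 * r + 5)) : ℝ) * ((2 * r + 3 : ℕ) : ℝ) ^ (2 * r + 4) ≤
        2 * ((2 * r + 3 : ℕ) + 2) * (Fintype.card V : ℝ) ^ (2 * r + 5)) :
    G.copyCount (SimpleGraph.cycleGraph (2 * r + 5)) * (2 * r + 3) ^ (2 * r + 4) ≤
      Fintype.card V ^ (2 * r + 5) := by
  have h1 := hB (oddFree_of_free G r fun i hi => hG _ ⟨i + 1, by omega⟩ (by omega) (by omega))
  have h2 := copy_le G (2 * r + 5) (by omega)
  have h3 : #(clos G (2 * r + 5)) * (2 * r + 3) ^ (2 * r + 4) ≤
      2 * (2 * r + 5) * Fintype.card V ^ (2 * r + 5) := by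
    have e : (2 * ((2 * r + 3 : ℕ) + 2) : ℝ) = 2 * (2 * r + 5) := by push_cast; ring
    rw [e] at h1
    exact_mod_cast h1
  have h4 : 2 * (2 * r + 5) * (G.copyCount (SimpleGraph.cycleGraph (2 * r + 5)) *
      (2 * r + 3) ^ (2 * r + 4)) ≤ 2 * (2 * r + 5) * Fintype.card V ^ (2 * r + 5) := by
    calc _ = 2 * (2 * r + 5) * G.copyCount (SimpleGraph.cycleGraph (2 * r + 5)) *
          (2 * r + 3) ^ (2 * r + 4) := by ring
      _ ≤ #(clos G (2 * r + 5)) * (2 * r + 3) ^ (2 * r + 4) := Nat.mul_le_mul_right _ h2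
      _ ≤ _ := h3
  exact Nat.le_of_mul_le_mul_left h4 (by omega)

/-- The bound for closed walks in the form used by `asym`. -/
theorem main7' {V : Type} [Fintype V] {r : ℕ} (hr : 2 ≤ r) (G : SimpleGraph V)
    (hG : OddFree G (2 * r + 3)) :
    (#(clos G (2 * r + 5)) : ℝ) * ((2 * r + 3 : ℕ) : ℝ) ^ (2 * r + 4) ≤
      2 * ((2 * r + 3 : ℕ) + 2) * (Fintype.card V : ℝ) ^ (2 * r + 5) :=
  main7 (m := 2 * r + 3) (by omega) ⟨r + 1, by omega⟩ hG

end Pool.Agent.CycGT
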