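import Mathlib

/-!
# Closed walks of length seven in triangle-free graphs: definitions for the computation

Graphs on the vertices `0, ..., 6` are coded by numbers: bit `56 j + 8 i` of the code tells whether
`i` and `j` are adjacent.
-/

namespace Pool.Agent.CycGT

/-- Adjacency in the graph with code `g`. -/
def ad (g i j : ℕ) : Bool := Nat.testBit g (56 * j + 8 * i)

/-- Column `y` of the adjacency matrix, one byte for each vertex. -/
def col (g y : ℕ) : ℕ := (g >>> (56 * y)) % 72057594037927936

/-- The adjacencies of `x` to the elements of a list, as a binary number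
(the head of the list gives the highest bit). -/
def mkw {α : Type} (r : α → α → Bool) (x : α) : List α → ℕ
  | [] => 0
  | y :: l => mkw r x l + 2 ^ l.length * (r x y).toNat

/-- A type with five labelled vertices: `sg` gives the adjacencies of the `k`-th vertex to the
previous ones, `ix` is a table (five bits each) which sends the adjacencies of a further vertex to
the index of a flag, `n` is the number of flags, and `q` is the table of an `n × n` matrix
(entries of 32 bits, shifted by `2 ^ 31`). -/
structure Ty where
  sg : List ℕ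
  ix : ℕ
  n : ℕ
  q : ℕ

/-- The index of a flag. -/
def Ty.I (T : Ty) (a : ℕ) : ℕ := (T.ix >>> (5 * a)) % 32

/-- The entry of the matrix. -/
def Ty.Q (T : Ty) (i j : ℕ) : ℤ :=
  ((T.q >>> (32 * (T.n * i + j))) % 4294967296 : ℕ) - (2147483648 : ℕ)

/-- Sum over `0, ..., 6`. -/
def s7 (f : ℕ → ℤ) : ℤ := f 0 + (f 1 + (f 2 + (f 3 + (f 4 + (f 5 + f 6)))))

/-- The byte number `x` of `P`. -/
def byte (P x : ℕ) : ℕ := (P >>> (8 * x)) % 256

/-- Sum over the pairs of unused vertices. -/
def leafT (T : Ty) (P : ℕ) : ℤ :=
  s7 fun y => bif Nat.blt (byte P y) 128 then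
    s7 fun z => bif Nat.blt (byte P z) 128 && !(Nat.beq y z) then
      T.Q (T.I (byte P y)) (T.I (byte P z)) else 0
    else 0

/-- Sum over all embeddings of a type. The byte number `x` of `P` contains the adjacencies of `x`
to the vertices chosen so far, plus `128` if `x` is itself chosen. -/
def dft (g : ℕ) (leaf : ℕ → ℤ) : List ℕ → ℕ → ℕ → ℤ
  | [], P, _ => leaf P
  | m :: ms, P, w => s7 fun x => bif Nat.beq (byte P x) m then
      dft g leaf ms (P + w * col g x + 128 * 256 ^ x) (2 * w) else 0

/-- Total of a type. -/
def tot (T : Ty) (g : ℕ) : ℤ := dft g (leafT T) T.sg 0 1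

/-- Paths: `F` is the column of the first vertex, `L` that of the last one, `U` the used ones. -/
def dfw (g F : ℕ) : ℕ → ℕ → ℕ → ℤ
  | 0, L, U => s7 fun x => bif Nat.beq (byte (L + U) x) 1 && Nat.beq (byte F x) 1 then 1 else 0
  | k + 1, L, U => s7 fun x => bif Nat.beq (byte (L + U) x) 1 then
      dfw g F k (col g x) (U + 128 * 256 ^ x) else 0

/-- Number of closed walks through all vertices. -/
def totw (g : ℕ) : ℤ := s7 fun x => dfw g (col g x) 5 (col g x) (128 * 256 ^ x)

end Pool.Agent.CycGT
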