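import Pool.Agent.W_1bfdb5_h19.FlSum

/-!
# The sum over the embeddings of a type

Put `B l x = mkw (ad g) x l + (if x ∈ l then 128 else 0)` and `Pk l = ∑ x ∈ range 7, B l x * 256 ^ x`.
For a list `l` of at most five distinct elements of `range 7`:
* `B l x < 256`, so `byte (Pk l) x = B l x` for `x < 7` (digits in base 256; the sum has seven
  explicit terms, `omega` works after `Nat.shiftRight_eq_div_pow`);
* `clean g` gives `col g x = ∑ y ∈ range 7, (ad g y x).toNat * 256 ^ y` (again digits), hence
  `Pk (x :: l) = Pk l + 2 ^ l.length * col g x + 128 * 256 ^ x` if `x ∉ l`, `x < 7`;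
* `byte (Pk l) x = m` with `m < 32` holds iff `x ∉ l` and `mkw (ad g) x l = m`
  (the elements of `T.sg` are `< 32`: hypothesis `hm`).
Induction on `ms` (with `l.length + ms.length = 5`, `l` without repetitions, elements `< 7`):
`dft g leaf ms (Pk l) (2 ^ l.length) = sumL ms.length l
  (fun w => if w.Nodup ∧ mt' ... then leaf (Pk w) else 0)`, where the condition says that the new
vertices have the adjacencies `ms`; if it fails at the first new vertex, the iterated sum is zero.
For five vertices `t`, `leafT T (Pk t)` is the sum over the pairs of further vertices.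
-/

namespace Pool.Agent.CycGT

open Finset

private def fdB (g : ℕ) (l : List ℕ) (x : ℕ) : ℕ := mkw (ad g) x l + (if x ∈ l then 128 else 0)

private def fdP (g : ℕ) (l : List ℕ) : ℕ := ∑ x ∈ range 7, fdB g l x * 256 ^ x

private lemma fd_mkw_lt {α : Type} (r : α → α → Bool) (x : α) (l : List α) :
    mkw r x l < 2 ^ l.length := by
  induction l with
  | nil => simp [mkw]
  | cons y l ih =>
    rw [mkw, List.length_cons, pow_succ]
    have h : (r x y).toNat ≤ 1 := Bool.toNat_le _
    have h2 : 2 ^ l.length * (r x y).toNat ≤ 2 ^ l.length * 1 := Nat.mul_le_mul_left _ h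
    omega

private lemma fd_B_lt (g : ℕ) (l : List ℕ) (hl : l.length ≤ 5) (x : ℕ) : fdB g l x < 256 := by
  have h1 := fd_mkw_lt (ad g) x l
  have h2 : 2 ^ l.length ≤ 2 ^ 5 := Nat.pow_le_pow_right (by norm_num) hl
  unfold fdB
  split_ifs <;> omega

private lemma fd_byte_sum (b : ℕ → ℕ) (hb : ∀ x, b x < 256) (y : ℕ) (hy : y < 7) :
    byte (∑ x ∈ range 7, b x * 256 ^ x) y = b y := by
  have h0 := hb 0
  have h1 := hb 1
  have h2 := hb 2
  have h3 := hb 3
  have h4 := hb 4
  have h5 := hb 5
  have h6 := hb 6
  unfold byte
  rw [Nat.shiftRight_eq_div_pow]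
  simp only [Finset.sum_range_succ, Finset.sum_range_zero]
  interval_cases y <;> norm_num <;> omega

private lemma fd_digits (c : ℕ) (hc : c < 72057594037927936) :
    c = ∑ x ∈ range 7, byte c x * 256 ^ x := by
  unfold byte
  simp only [Finset.sum_range_succ, Finset.sum_range_zero, Nat.shiftRight_eq_div_pow]
  norm_num
  omega

private lemma fd_col (g : ℕ) (hg : clean g = true) (y : ℕ) (hy : y < 7) :
    col g y = ∑ x ∈ range 7, (ad g x y).toNat * 256 ^ x := by
  have h1 : col g y < 72057594037927936 := Nat.mod_lt _ (by norm_num)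
  rw [fd_digits (col g y) h1]
  refine Finset.sum_congr rfl fun x hx => ?_
  unfold clean at hg
  rw [List.all_eq_true] at hg
  have h2 := hg y (List.mem_range.2 hy)
  rw [List.all_eq_true] at h2
  have h3 := h2 x (List.mem_range.2 (Finset.mem_range.1 hx))
  rw [Nat.eq_of_beq_eq_true h3]

private lemma fd_P_cons (g : ℕ) (hg : clean g = true) (l : List ℕ) (x : ℕ) (hx : x < 7)
    (hxl : x ∉ l) : fdP g (x :: l) = fdP g l + 2 ^ l.length * col g x + 128 * 256 ^ x := by
  have h1 : ∀ y ∈ range 7, fdB g (x :: l) y * 256 ^ y =
      fdB g l y * 256 ^ y + 2 ^ l.length * ((ad g y x).toNat * 256 ^ y) +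
        (if y = x then 128 * 256 ^ x else 0) := by
    intro y _
    unfold fdB
    rw [mkw]
    by_cases hyx : y = x
    · subst hyx
      have : y ∉ l := hxl
      simp [this]
      ring
    · by_cases hyl : y ∈ l
      · simp [hyx, hyl]
        ring
      · simp [hyx, hyl]
        ring
  unfold fdP
  rw [Finset.sum_congr rfl h1, Finset.sum_add_distrib, Finset.sum_add_distrib, ← Finset.mul_sum,
    ← fd_col g hg x hx, Finset.sum_ite_eq' (range 7) x, if_pos (Finset.mem_range.2 hx)]

private lemma fd_byte_P (g : ℕ) (l : List ℕ) (hl : l.length ≤ 5) (y : ℕ) (hy : y < 7) :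
    byte (fdP g l) y = fdB g l y :=
  fd_byte_sum _ (fd_B_lt g l hl) y hy

private lemma fd_P_nil (g : ℕ) : fdP g [] = 0 := by
  unfold fdP fdB
  simp [mkw]

private lemma fd_s7 (f : ℕ → ℤ) : s7 f = ∑ x ∈ range 7, f x := by
  unfold s7
  simp only [Finset.sum_range_succ, Finset.sum_range_zero]
  ring

private lemma fd_sumL_congr (f h : List ℕ → ℤ) (k : ℕ) : ∀ l : List ℕ,
    (∀ v : List ℕ, v.length = k → (∀ x ∈ v, x < 7) → f (v ++ l) = h (v ++ l)) →
    sumL k l f = sumL k l h := by
  induction k with
  | zero =>
    intro l hv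
    exact hv [] rfl (by simp)
  | succ k ih =>
    intro l hv
    rw [sumL, sumL]
    refine Finset.sum_congr rfl fun x hx => ?_
    refine ih (x :: l) fun v hvl hv7 => ?_
    have h1 := hv (v ++ [x]) (by simp [hvl]) (by
      intro y hy
      rw [List.mem_append] at hy
      rcases hy with hy | hy
      · exact hv7 y hy
      · rw [List.mem_singleton] at hy
        rw [hy]
        exact Finset.mem_range.1 hx)
    simpa using h1

private lemma fd_sumL_zero (k : ℕ) : ∀ l : List ℕ, sumL k l (fun _ => 0) = 0 := by
  induction k with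
  | zero => intro l; rfl
  | succ k ih =>
    intro l
    rw [sumL]
    exact Finset.sum_eq_zero fun x _ => ih _

private lemma fd_sumL_add (f : List ℕ → ℤ) (j k : ℕ) : ∀ l : List ℕ,
    sumL (j + k) l f = sumL j l (fun t => sumL k t f) := by
  induction j with
  | zero =>
    intro l
    rw [Nat.zero_add]
    rfl
  | succ j ih =>
    intro l
    have h : j + 1 + k = (j + k) + 1 := by omega
    rw [h, sumL, sumL]
    exact Finset.sum_congr rfl fun x _ => ih _

private lemma fd_mt_append {α : Type} (r : α → α → Bool) (b : List ℕ) (l : List α) :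
    ∀ (a : List ℕ) (v : List α), v.length = a.length → mt r (a ++ b) (v ++ l) = true →
      mt r b l = true := by
  intro a
  induction a with
  | nil =>
    intro v hv h
    have : v = [] := List.length_eq_zero_iff.1 hv
    subst this
    exact h
  | cons m a ih =>
    intro v hv h
    cases v with
    | nil => simp at hv
    | cons x v =>
      rw [List.cons_append, List.cons_append, mt, Bool.and_eq_true] at h
      exact ih v (by simpa using hv) h.2

private lemma fd_main (g : ℕ) (hg : clean g = true) (leaf : ℕ → ℤ) (ms : List ℕ) :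
    ∀ (l done : List ℕ), mt (ad g) done l = true → l.Nodup → (∀ y ∈ l, y < 7) →
      l.length + ms.length ≤ 5 → (∀ m ∈ ms, m < 32) →
      dft g leaf ms (fdP g l) (2 ^ l.length) = sumL ms.length l
        (fun w => if w.Nodup ∧ mt (ad g) (ms.reverse ++ done) w = true then leaf (fdP g w) else 0) := by
  induction ms with
  | nil =>
    intro l done h1 h2 _ _ _
    rw [dft]
    show _ = sumL 0 l _
    rw [sumL]
    simp [h1, h2]
  | cons m ms ih =>
    intro l done h1 h2 h3 h4 h5
    rw [dft, fd_s7, List.length_cons, sumL]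
    refine Finset.sum_congr rfl fun x hx => ?_
    have hx7 : x < 7 := Finset.mem_range.1 hx
    have hl5 : l.length ≤ 5 := by
      simp only [List.length_cons] at h4
      omega
    have hm := h5 m List.mem_cons_self
    rw [fd_byte_P g l hl5 x hx7]
    by_cases hc : x ∉ l ∧ mkw (ad g) x l = m
    · have hB : fdB g l x = m := by
        unfold fdB
        rw [if_neg hc.1, hc.2, Nat.add_zero]
      rw [hB, Nat.beq_refl, cond_true, ← fd_P_cons g hg l x hx7 hc.1]
      have h6 : 2 * 2 ^ l.length = 2 ^ (x :: l).length := by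
        rw [List.length_cons, pow_succ]
        ring
      rw [h6, ih (x :: l) (m :: done) (by rw [mt, h1, hc.2, Nat.beq_refl]; rfl)
        (List.nodup_cons.2 ⟨hc.1, h2⟩)
        (by
          intro y hy
          rcases List.mem_cons.1 hy with hy | hy
          · rw [hy]; exact hx7
          · exact h3 y hy)
        (by simp only [List.length_cons] at h4 ⊢; omega)
        (fun m' hm' => h5 m' (List.mem_cons_of_mem _ hm'))]
      simp only [List.reverse_cons, List.append_assoc, List.singleton_append]
    · have hB : Nat.beq (fdB g l x) m = false := by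
        rw [Bool.eq_false_iff]
        intro hb
        apply hc
        have hb' := Nat.eq_of_beq_eq_true hb
        unfold fdB at hb'
        by_cases hxl : x ∈ l
        · rw [if_pos hxl] at hb'
          omega
        · rw [if_neg hxl, Nat.add_zero] at hb'
          exact ⟨hxl, hb'⟩
      rw [hB, cond_false]
      symm
      refine (fd_sumL_congr _ (fun _ => 0) _ _ fun v hv _ => ?_).trans (fd_sumL_zero ms.length (x :: l))
      apply if_neg
      rintro ⟨hn, hmt⟩
      apply hc
      rw [List.reverse_cons, List.append_assoc, List.singleton_append] at hmt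
      have h6 := fd_mt_append (ad g) (m :: done) (x :: l) ms.reverse v
        (by rw [List.length_reverse, hv]) hmt
      rw [mt, Bool.and_eq_true] at h6
      exact ⟨(List.nodup_cons.1 (List.Nodup.of_append_right hn)).1, Nat.eq_of_beq_eq_true h6.1⟩

private lemma fd_lt (g : ℕ) (t : List ℕ) (ht : t.length = 5) (y : ℕ) (hy : y < 7) :
    (Nat.blt (byte (fdP g t) y) 128 = true ↔ y ∉ t) ∧
      (y ∉ t → byte (fdP g t) y = mkw (ad g) y t) := by
  rw [fd_byte_P g t ht.le y hy]
  have h1 := fd_mkw_lt (ad g) y t
  rw [ht] at h1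
  unfold fdB
  constructor
  · rw [Nat.blt_eq]
    by_cases h : y ∈ t
    · simp [h]
    · simp only [h, if_false, not_false_eq_true, iff_true]
      omega
  · intro h
    simp [h]

theorem tot_eq (T : Ty) (hT : T.sg.length = 5) (hm : ∀ m ∈ T.sg, m < 32) (g : ℕ)
    (hg : clean g = true) :
    ∑ π : Equiv.Perm (Fin 7), val T (ad g) (List.ofFn fun i => (π i : ℕ)) = tot T g := by
  rw [perm_sum]
  have h7 : (7 : ℕ) = 5 + 2 := rfl
  rw [show sumL 7 [] (fun l => if l.Nodup then val T (ad g) l else 0) =
    sumL (5 + 2) [] (fun l => if l.Nodup then val T (ad g) l else 0) from rfl, fd_sumL_add]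
  have h1 := fd_main g hg (leafT T) T.sg [] [] rfl List.nodup_nil (by simp)
    (by rw [hT]; simp) hm
  rw [fd_P_nil, List.length_nil, pow_zero, hT, List.append_nil] at h1
  unfold tot
  rw [h1]
  refine fd_sumL_congr _ _ _ _ fun t ht ht7 => ?_
  rw [List.append_nil]
  by_cases hc : t.Nodup ∧ mt (ad g) T.sg.reverse t = true
  · rw [if_pos hc]
    unfold leafT
    rw [fd_s7]
    show ∑ y ∈ range 7, ∑ z ∈ range 7, _ = _
    refine Finset.sum_congr rfl fun y hy => ?_
    have hy7 := Finset.mem_range.1 hy
    obtain ⟨hyb, hye⟩ := fd_lt g t ht y hy7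
    by_cases hyt : y ∈ t
    · have h2 : Nat.blt (byte (fdP g t) y) 128 = false := by
        rw [Bool.eq_false_iff]
        intro h
        exact hyb.1 h hyt
      rw [h2, cond_false]
      refine Finset.sum_eq_zero fun z _ => if_neg fun hn => ?_
      exact (List.nodup_cons.1 (List.nodup_cons.1 hn).2).1 hyt
    · rw [hyb.2 hyt, cond_true, fd_s7]
      refine Finset.sum_congr rfl fun z hz => ?_
      have hz7 := Finset.mem_range.1 hz
      obtain ⟨hzb, hze⟩ := fd_lt g t ht z hz7
      by_cases hzc : z ∉ t ∧ y ≠ z
      · rw [hzb.2 hzc.1, Bool.true_and]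
        have h3 : Nat.beq y z = false := by
          rw [Bool.eq_false_iff]
          intro h
          exact hzc.2 (Nat.eq_of_beq_eq_true h)
        rw [h3, Bool.not_false, cond_true, hye hyt, hze hzc.1]
        have h4 : (z :: y :: t).Nodup := by
          rw [List.nodup_cons, List.nodup_cons, List.mem_cons]
          refine ⟨?_, hyt, hc.1⟩
          rintro (h | h)
          · exact hzc.2 h.symm
          · exact hzc.1 h
        show (if (z :: y :: t).Nodup then val T (ad g) (z :: y :: t) else 0) = _
        rw [if_pos h4]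
        show (if mt (ad g) T.sg.reverse t = true then _ else _) = _
        rw [if_pos hc.2]
      · have h3 : (Nat.blt (byte (fdP g t) z) 128 && !(Nat.beq y z)) = false := by
          rw [Bool.eq_false_iff]
          intro h
          rw [Bool.and_eq_true, Bool.not_eq_true'] at h
          apply hzc
          refine ⟨hzb.1 h.1, fun hyz => ?_⟩
          have h4 := h.2
          rw [hyz, Nat.beq_refl] at h4
          exact Bool.noConfusion h4
        rw [h3, cond_false]
        refine if_neg fun hn => hzc ?_
        rw [List.nodup_cons, List.mem_cons] at hn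
        exact ⟨fun h => hn.1 (Or.inr h), fun h => hn.1 (Or.inl h.symm)⟩
  · rw [if_neg hc]
    show ∑ y ∈ range 7, ∑ z ∈ range 7, _ = _
    refine Finset.sum_eq_zero fun y _ => Finset.sum_eq_zero fun z _ => ?_
    show (if (z :: y :: t).Nodup then val T (ad g) (z :: y :: t) else 0) = _
    by_cases hn : (z :: y :: t).Nodup
    · rw [if_pos hn]
      show (if mt (ad g) T.sg.reverse t = true then _ else _) = _
      apply if_neg
      intro hmt
      exact hc ⟨(List.nodup_cons.1 (List.nodup_cons.1 hn).2).2, hmt⟩
    · exact if_neg hn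

end Pool.Agent.CycGT
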