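import Pool.Agent.W_1bfdb5_h19.FlTh

/-!
# Sums over permutations as iterated sums

`sumL k l f = ∑ a : Fin k → Fin 7, f ((List.ofFn fun i => (a i : ℕ)) ++ l)` by induction on `k`
(use `Fin.snocEquiv` or `Fin.consEquiv` and commute; only the lists of all `k` elements matter), and
`(List.ofFn a).Nodup ↔ Function.Injective a` (`List.nodup_ofFn`); an injective map `Fin 7 → Fin 7`
is a permutation.
-/

namespace Pool.Agent.CycGT

open Finset

private lemma flsum_aux (f : List ℕ → ℤ) (k : ℕ) : ∀ l : List ℕ,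
    sumL k l f = ∑ a : Fin k → Fin 7, f ((List.ofFn fun i => (a i : ℕ)) ++ l) := by
  induction k with
  | zero =>
    intro l
    simp [sumL]
  | succ k ih =>
    intro l
    have h1 : sumL (k + 1) l f = ∑ x : Fin 7, sumL k ((x : ℕ) :: l) f := by
      rw [sumL, Finset.sum_range]
    rw [h1]
    have h2 : ∀ x : Fin 7, sumL k ((x : ℕ) :: l) f =
        ∑ a : Fin k → Fin 7, f ((List.ofFn fun i => (a i : ℕ)) ++ ((x : ℕ) :: l)) :=
      fun x => ih _
    rw [Finset.sum_congr rfl (fun x _ => h2 x), ← Fintype.sum_prod_type'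
      (f := fun (x : Fin 7) (a : Fin k → Fin 7) =>
        f ((List.ofFn fun i => (a i : ℕ)) ++ ((x : ℕ) :: l)))]
    refine Fintype.sum_equiv (Fin.snocEquiv (fun _ => Fin 7)) _ _ ?_
    rintro ⟨x, a⟩
    congr 1
    have h3 : (List.ofFn fun i => (((Fin.snocEquiv (fun _ => Fin 7)) (x, a) :
        Fin (k + 1) → Fin 7) i : ℕ)) = (List.ofFn fun i => (a i : ℕ)) ++ [(x : ℕ)] := by
      rw [List.ofFn_succ_last]
      simp [Fin.snocEquiv]
    rw [h3]
    simp

theorem perm_sum (f : List ℕ → ℤ) :
    ∑ π : Equiv.Perm (Fin 7), f (List.ofFn fun i => (π i : ℕ)) =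
      sumL 7 [] (fun l => if l.Nodup then f l else 0) := by
  rw [flsum_aux]
  refine Fintype.sum_of_injective (fun π : Equiv.Perm (Fin 7) => (π : Fin 7 → Fin 7))
    DFunLike.coe_injective _ _ ?_ ?_
  · intro a ha
    rw [List.append_nil]
    apply if_neg
    intro h
    apply ha
    rw [List.nodup_ofFn] at h
    have h1 : Function.Injective a := by
      intro i j hij
      apply h
      show (a i : ℕ) = (a j : ℕ)
      rw [hij]
    exact ⟨Equiv.ofBijective a (Finite.injective_iff_bijective.1 h1), rfl⟩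
  · intro π
    rw [List.append_nil]
    symm
    apply if_pos
    rw [List.nodup_ofFn]
    intro i j hij
    exact π.injective (Fin.ext hij)

end Pool.Agent.CycGT
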