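import Pool.Agent.W_1bfdb5_h19.FlData

/-!
# Closed walks of length seven in triangle-free graphs: definitions for the theory

Lists of vertices have the last chosen vertex at the head.
-/

namespace Pool.Agent.CycGT

open Finset

/-- The vertices of the list have the adjacencies given by `ms` (the last vertex first). -/
def mt {α : Type} (r : α → α → Bool) : List ℕ → List α → Bool
  | [], [] => true
  | m :: ms, x :: l => Nat.beq (mkw r x l) m && mt r ms l
  | _, _ => false

/-- Contribution of a list of seven vertices to a type. -/
def val {α : Type} (T : Ty) (r : α → α → Bool) : List α → ℤ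
  | z :: y :: t => if mt r T.sg.reverse t = true then
      T.Q (T.I (mkw r y t)) (T.I (mkw r z t)) else 0
  | _ => 0

/-- Indicator of a closed walk of length seven. -/
def wv {α : Type} (r : α → α → Bool) : List α → ℤ
  | [a, b, c, d, e, f, g] =>
      if (r a b && r b c && r c d && r d e && r e f && r f g && r a g) = true then 1 else 0
  | _ => 0

/-- Every byte of the columns of the code is zero or one. -/
def clean (g : ℕ) : Bool :=
  (List.range 7).all fun y => (List.range 7).all fun x => Nat.beq (byte (col g y) x) (ad g x y).toNat

theorem clean_reps : (reps7.all clean) = true := by decide +kernel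

theorem sg_length : (tys.all fun T => Nat.beq T.sg.length 5) = true := by decide +kernel

/-- Sum over all lists of `k` further elements of `0, ..., 6`. -/
def sumL : ℕ → List ℕ → (List ℕ → ℤ) → ℤ
  | 0, l, f => f l
  | k + 1, l, f => ∑ x ∈ range 7, sumL k (x :: l) f

end Pool.Agent.CycGT
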