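import Pool.Agent.W_1bfdb5_h19.Arc

/-!
# Counting around a closed walk of length m + 2

Interchange the sums: every vertex `w` contributes at most `2m + 11`.
Let `P = PS k w`, `Q = QS k w`, `pr = #{t ∈ P, t + 2 ∈ P}`.
Facts (`arc` with `h = 1`, `nz` for `M = m + 2 ≥ 9`):
* two elements of `P` differ by `0, ±2, ±4` (`r = 2`); so with a fixed `t ∈ P`, `P - t` is a
  subset of `{-4, -2, 0, 2, 4}` not containing `-4, 2` together, nor `-4, 4`, nor `-2, 4`
  (differences 6, 8); hence `#P ≤ 3` and `pr ≤ 2`.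
* if `t ∈ P` then `Q ⊆ {t ± 1, t ± 3, t ± 5}` (`r = 3`), so `#Q ≤ 6`; and `t ± 1 ∈ Q`.
* `#{t ∈ P : t - 2 ∉ P, t - 4 ∉ P} ≤ 1`, same with `+`.
Contributions of `w`:
* half of `Nb`: `#P` in total (both directions);
* `B3`: `2 #Q - 2 #P`  (pairs `s ∈ Q`, `s ± 1 ∉ P`);
* the two `B2`: `4 pr`;
* `stepSet` for `i = 4`: `2 (#P - pr)`;
* `stepSet` for `5 ≤ i ≤ m`: at most `2` for each `i`, and `0` if `P = ∅`.
Total: `2 #Q + #P + 2 pr - #P + ... `, precisely
`#P + 2 #Q - 2 #P + 4 pr + 2 (#P - pr) + 2 (m - 4) = 2 #Q + #P + 2 pr + 2 (m - 4)`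
`≤ 12 + 3 + 4 + 2 m - 8 = 2 m + 11`; and if `P = ∅` it is `2 #Q ≤ 2 (m + 2)`.
-/

namespace Pool.Agent.CycGT

open Finset
open scoped Classical

variable {V : Type} [Fintype V]

/-- Sum of the sizes of the candidate sets (the first one halved). -/
noncomputable def totK (G : SimpleGraph V) (m : ℕ) (v : ℕ → V) : ℝ :=
  (#(Nb G (v 0)) : ℝ) / 2 + #(B3 G (v 0) (v 1)) + #(B2 G (v 1) (v 3)) +
    (∑ i ∈ Ico 4 (m + 1), (#(stepSet G v i) : ℝ)) + #(B2 G (v m) (v 0))

section

variable {G : SimpleGraph V} {m : ℕ} {k : ZMod (m + 2) → V}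

omit [Fintype V] in
private lemma KComb_pos (ho : Odd m) (hG : OddFree G m) (hk : IsCl G (m + 2) k) {w : V}
    {t t' : ZMod (m + 2)} (h : G.Adj w (k t)) (h' : G.Adj w (k t')) :
    t' = t ∨ t' = t + 2 ∨ t' = t - 2 ∨ t' = t + 4 ∨ t' = t - 4 := by
  obtain ⟨e, he1, he2, he3⟩ := arc (M := m + 2) (h := 1) (by omega) ho hG hk (r := 2)
    (wk_two.2 ⟨w, h.symm, h'⟩)
  have he : e = 0 ∨ e = 2 ∨ e = 4 := by omega
  rcases he with rfl | rfl | rfl
  · left
    rcases he3 with h3 | h3 <;> simpa using h3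
  · rcases he3 with h3 | h3
    · right; left; simpa using h3
    · right; right; left; simpa using h3
  · rcases he3 with h3 | h3
    · right; right; right; left; simpa using h3
    · right; right; right; right; simpa using h3

omit [Fintype V] in
private lemma KComb_no6 (hm : 7 ≤ m) (ho : Odd m) (hG : OddFree G m) (hk : IsCl G (m + 2) k)
    {w : V} {t t' : ZMod (m + 2)} (h : G.Adj w (k t)) (h' : G.Adj w (k t')) (e : t' = t + 6) :
    False := by
  have hM : 7 ≤ m + 2 := by omega
  have hMo : Odd (m + 2) := by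
    obtain ⟨q, hq⟩ := ho
    exact ⟨q + 1, by omega⟩
  have n2 : ((2 : ℕ) : ZMod (m + 2)) ≠ 0 := nz hM hMo (by omega)
  have n4 : ((4 : ℕ) : ZMod (m + 2)) ≠ 0 := nz hM hMo (by omega)
  have n6 : ((6 : ℕ) : ZMod (m + 2)) ≠ 0 := nz hM hMo (by omega)
  have n8 : ((8 : ℕ) : ZMod (m + 2)) ≠ 0 := nz hM hMo (by omega)
  have n10 : ((10 : ℕ) : ZMod (m + 2)) ≠ 0 := nz hM hMo (by omega)
  push_cast at n2 n4 n6 n8 n10
  rcases KComb_pos ho hG hk h h' with h3 | h3 | h3 | h3 | h3
  · exact n6 (by linear_combination h3 - e)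
  · exact n4 (by linear_combination h3 - e)
  · exact n8 (by linear_combination h3 - e)
  · exact n2 (by linear_combination h3 - e)
  · exact n10 (by linear_combination h3 - e)

omit [Fintype V] in
private lemma KComb_no8 (hm : 7 ≤ m) (ho : Odd m) (hG : OddFree G m) (hk : IsCl G (m + 2) k)
    {w : V} {t t' : ZMod (m + 2)} (h : G.Adj w (k t)) (h' : G.Adj w (k t')) (e : t' = t + 8) :
    False := by
  have hM : 7 ≤ m + 2 := by omega
  have hMo : Odd (m + 2) := by
    obtain ⟨q, hq⟩ := ho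
    exact ⟨q + 1, by omega⟩
  have n4 : ((4 : ℕ) : ZMod (m + 2)) ≠ 0 := nz hM hMo (by omega)
  have n6 : ((6 : ℕ) : ZMod (m + 2)) ≠ 0 := nz hM hMo (by omega)
  have n8 : ((8 : ℕ) : ZMod (m + 2)) ≠ 0 := nz hM hMo (by omega)
  have n10 : ((10 : ℕ) : ZMod (m + 2)) ≠ 0 := nz hM hMo (by omega)
  have n12 : ((12 : ℕ) : ZMod (m + 2)) ≠ 0 := nz hM hMo (by omega)
  push_cast at n4 n6 n8 n10 n12
  rcases KComb_pos ho hG hk h h' with h3 | h3 | h3 | h3 | h3
  · exact n8 (by linear_combination h3 - e)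
  · exact n6 (by linear_combination h3 - e)
  · exact n10 (by linear_combination h3 - e)
  · exact n4 (by linear_combination h3 - e)
  · exact n12 (by linear_combination h3 - e)

omit [Fintype V] in
/-- all positions are in one window `u, u + 2, u + 4` -/
private lemma KComb_win (hm : 7 ≤ m) (ho : Odd m) (hG : OddFree G m) (hk : IsCl G (m + 2) k)
    {w : V} {t : ZMod (m + 2)} (h : G.Adj w (k t)) :
    ∃ u, ∀ t', G.Adj w (k t') → t' = u ∨ t' = u + 2 ∨ t' = u + 4 := by
  by_cases h4 : G.Adj w (k (t + 4))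
  · refine ⟨t, fun t' ht' => ?_⟩
    rcases KComb_pos ho hG hk h ht' with h3 | h3 | h3 | h3 | h3
    · exact Or.inl h3
    · exact Or.inr (Or.inl h3)
    · exact (KComb_no6 hm ho hG hk ht' h4 (by rw [h3]; ring)).elim
    · exact Or.inr (Or.inr h3)
    · exact (KComb_no8 hm ho hG hk ht' h4 (by rw [h3]; ring)).elim
  · by_cases h5 : G.Adj w (k (t - 4))
    · refine ⟨t - 4, fun t' ht' => ?_⟩
      rcases KComb_pos ho hG hk h ht' with h3 | h3 | h3 | h3 | h3
      · right; right; rw [h3]; ring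
      · exact (KComb_no6 hm ho hG hk h5 ht' (by rw [h3]; ring)).elim
      · right; left; rw [h3]; ring
      · exact (h4 (h3 ▸ ht')).elim
      · exact Or.inl h3
    · refine ⟨t - 2, fun t' ht' => ?_⟩
      rcases KComb_pos ho hG hk h ht' with h3 | h3 | h3 | h3 | h3
      · right; left; rw [h3]; ring
      · right; right; rw [h3]; ring
      · exact Or.inl h3
      · exact (h4 (h3 ▸ ht')).elim
      · exact (h5 (h3 ▸ ht')).elim

private lemma KComb_dc {M : ℕ} [NeZero M] (R : V → ZMod M → Prop) [∀ w j, Decidable (R w j)] :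
    ∑ j, #(univ.filter (fun w => R w j)) = ∑ w, #(univ.filter (fun j => R w j)) := by
  simp only [card_filter]
  exact sum_comm

private lemma KComb_sh {M : ℕ} [NeZero M] (p : ZMod M → Prop) [DecidablePred p] (a : ZMod M) :
    #(univ.filter (fun j => p (j + a))) = #(univ.filter p) := by
  simp only [card_filter]
  exact Equiv.sum_comp (Equiv.addRight a) (fun j => if p j then 1 else 0)

omit [Fintype V] in
/-- the contribution of one vertex -/
private lemma KComb_w (hm : 7 ≤ m) (ho : Odd m) (hG : OddFree G m) (hk : IsCl G (m + 2) k)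
    (w : V) :
    #(univ.filter (fun j => G.Adj w (k j))) +
      2 * #(univ.filter (fun j => Wk G 2 w (k (j + 1)) ∧ ¬ G.Adj w (k j))) +
      2 * #(univ.filter (fun j => G.Adj w (k (j + 1)) ∧ G.Adj w (k (j + 3)))) +
      2 * ∑ i ∈ Ico 4 (m + 1), #(univ.filter (fun j : ZMod (m + 2) =>
        G.Adj w (k (j + ((i - 1 : ℕ) : ZMod (m + 2)))) ∧
        ¬ G.Adj w (k (j + ((i - 3 : ℕ) : ZMod (m + 2)))) ∧
        (5 ≤ i → ¬ G.Adj w (k (j + ((i - 5 : ℕ) : ZMod (m + 2))))))) +
      2 * #(univ.filter (fun j => G.Adj w (k (j + (m : ZMod (m + 2)))) ∧ G.Adj w (k j))) ≤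
      2 * m + 11 := by
  set P := univ.filter (fun j => G.Adj w (k j)) with hP
  set Q := univ.filter (fun j => Wk G 2 w (k j)) with hQ
  set R := univ.filter (fun j => G.Adj w (k j) ∧ G.Adj w (k (j + 2))) with hR
  have hmc : (m : ZMod (m + 2)) = -2 := by
    have := ZMod.natCast_self (m + 2)
    push_cast at this
    linear_combination this
  -- B3
  have e1 : #(univ.filter (fun j => Wk G 2 w (k (j + 1)) ∧ ¬ G.Adj w (k j))) + #P = #Q := by
    have h1 := KComb_sh (fun j => Wk G 2 w (k j)) (1 : ZMod (m + 2))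
    rw [← hQ] at h1
    rw [← h1, hP, ← card_union_of_disjoint]
    · congr 1
      ext j
      simp only [mem_union, mem_filter, mem_univ, true_and]
      constructor
      · rintro (h | h)
        · exact h.1
        · exact wk_two.2 ⟨k j, h, hk j⟩
      · intro h
        by_cases h2 : G.Adj w (k j)
        · exact Or.inr h2
        · exact Or.inl ⟨h, h2⟩
    · rw [disjoint_left]
      intro j hj hj'
      simp only [mem_filter, mem_univ, true_and] at hj hj'
      exact hj.2 hj'
  -- B2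
  have e2 : #(univ.filter (fun j => G.Adj w (k (j + 1)) ∧ G.Adj w (k (j + 3)))) = #R := by
    rw [hR, ← KComb_sh (fun j => G.Adj w (k j) ∧ G.Adj w (k (j + 2))) (1 : ZMod (m + 2))]
    congr 1
    ext j
    have : j + 1 + 2 = j + 3 := by ring
    simp only [mem_filter, mem_univ, true_and, this]
  have e3 : #(univ.filter (fun j => G.Adj w (k (j + (m : ZMod (m + 2)))) ∧ G.Adj w (k j))) =
      #R := by
    rw [hR, ← KComb_sh (fun j => G.Adj w (k j) ∧ G.Adj w (k (j + 2))) (m : ZMod (m + 2))]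
    congr 1
    ext j
    have : j + (m : ZMod (m + 2)) + 2 = j := by rw [hmc]; ring
    simp only [mem_filter, mem_univ, true_and, this]
  -- i = 4
  have e4 : #(univ.filter (fun j : ZMod (m + 2) =>
        G.Adj w (k (j + ((4 - 1 : ℕ) : ZMod (m + 2)))) ∧
        ¬ G.Adj w (k (j + ((4 - 3 : ℕ) : ZMod (m + 2)))) ∧
        (5 ≤ 4 → ¬ G.Adj w (k (j + ((4 - 5 : ℕ) : ZMod (m + 2))))))) + #R = #P := by
    have h1 := KComb_sh (fun j => G.Adj w (k j)) (3 : ZMod (m + 2))
    rw [← hP] at h1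
    rw [← h1, ← e2, ← card_union_of_disjoint]
    · congr 1
      ext j
      have a1 : ((4 - 1 : ℕ) : ZMod (m + 2)) = 3 := by norm_num
      have a3 : ((4 - 3 : ℕ) : ZMod (m + 2)) = 1 := by norm_num
      simp only [mem_union, mem_filter, mem_univ, true_and, a1, a3]
      constructor
      · rintro (h | h)
        · exact h.1
        · exact h.2
      · intro h
        by_cases h2 : G.Adj w (k (j + 1))
        · exact Or.inr ⟨h2, h⟩
        · exact Or.inl ⟨h, h2, by omega⟩
    · rw [disjoint_left]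
      intro j hj hj'
      have a3 : ((4 - 3 : ℕ) : ZMod (m + 2)) = 1 := by norm_num
      simp only [mem_filter, mem_univ, true_and, a3] at hj hj'
      exact hj.2.1 hj'.1
  rcases P.eq_empty_or_nonempty with hE | ⟨t, ht⟩
  · -- no position
    have hno : ∀ j, ¬ G.Adj w (k j) := by
      intro j hj
      have : j ∈ P := by simp [hP, hj]
      rw [hE] at this
      simp at this
    have hR0 : #R = 0 := by
      rw [card_eq_zero, eq_empty_iff_forall_notMem]
      intro j hj
      simp only [hR, mem_filter, mem_univ, true_and] at hj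
      exact hno _ hj.1
    have hS : ∑ i ∈ Ico 4 (m + 1), #(univ.filter (fun j : ZMod (m + 2) =>
        G.Adj w (k (j + ((i - 1 : ℕ) : ZMod (m + 2)))) ∧
        ¬ G.Adj w (k (j + ((i - 3 : ℕ) : ZMod (m + 2)))) ∧
        (5 ≤ i → ¬ G.Adj w (k (j + ((i - 5 : ℕ) : ZMod (m + 2))))))) = 0 := by
      refine sum_eq_zero fun i _ => ?_
      rw [card_eq_zero, eq_empty_iff_forall_notMem]
      intro j hj
      simp only [mem_filter, mem_univ, true_and] at hj
      exact hno _ hj.1
    have hQc : #Q ≤ m + 2 := by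
      have := card_le_univ Q
      rwa [ZMod.card] at this
    have hP0 : #P = 0 := by rw [hE, card_empty]
    rw [hS, e2, e3, hR0, hP0]
    omega
  · simp only [hP, mem_filter, mem_univ, true_and] at ht
    -- #Q ≤ 6
    have hQ6 : #Q ≤ 6 := by
      have hsub : Q ⊆ {t + 1, t - 1, t + 3, t - 3, t + 5, t - 5} := by
        intro s hs
        simp only [hQ, mem_filter, mem_univ, true_and] at hs
        have h3 : Wk G (1 + 2) (k t) (k s) := (wk_one.2 ht.symm).trans hs
        obtain ⟨e, he1, he2, he3⟩ := arc (M := m + 2) (h := 1) (by omega) ho hG hk h3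
        have he : e = 1 ∨ e = 3 ∨ e = 5 := by omega
        simp only [mem_insert, mem_singleton]
        rcases he with rfl | rfl | rfl <;> push_cast at he3 <;> tauto
      refine (card_le_card hsub).trans ?_
      exact card_le_six
    -- window
    obtain ⟨u, hu⟩ := KComb_win hm ho hG hk ht
    have hP3 : #P ≤ 3 := by
      have hsub : P ⊆ {u, u + 2, u + 4} := by
        intro s hs
        simp only [hP, mem_filter, mem_univ, true_and] at hs
        simpa using hu s hs
      exact (card_le_card hsub).trans card_le_three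
    have hR2 : #R ≤ 2 := by
      have hsub : R ⊆ {u, u + 2} := by
        intro s hs
        simp only [hR, mem_filter, mem_univ, true_and] at hs
        simp only [mem_insert, mem_singleton]
        rcases hu s hs.1 with h | h | h
        · exact Or.inl h
        · exact Or.inr h
        · exfalso
          have hM : 7 ≤ m + 2 := by omega
          have hMo : Odd (m + 2) := by
            obtain ⟨q, hq⟩ := ho
            exact ⟨q + 1, by omega⟩
          have n2 : ((2 : ℕ) : ZMod (m + 2)) ≠ 0 := nz hM hMo (by omega)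
          have n4 : ((4 : ℕ) : ZMod (m + 2)) ≠ 0 := nz hM hMo (by omega)
          have n6 : ((6 : ℕ) : ZMod (m + 2)) ≠ 0 := nz hM hMo (by omega)
          push_cast at n2 n4 n6
          rcases hu _ hs.2 with h' | h' | h'
          · exact n6 (by linear_combination h' - h)
          · exact n4 (by linear_combination h' - h)
          · exact n2 (by linear_combination h' - h)
      exact (card_le_card hsub).trans card_le_two
    -- steps
    have hS1 : ∀ i ∈ Ico 5 (m + 1), #(univ.filter (fun j : ZMod (m + 2) =>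
        G.Adj w (k (j + ((i - 1 : ℕ) : ZMod (m + 2)))) ∧
        ¬ G.Adj w (k (j + ((i - 3 : ℕ) : ZMod (m + 2)))) ∧
        (5 ≤ i → ¬ G.Adj w (k (j + ((i - 5 : ℕ) : ZMod (m + 2))))))) ≤ 1 := by
      intro i hi
      rw [mem_Ico] at hi
      rw [card_le_one]
      intro a ha b hb
      simp only [mem_filter, mem_univ, true_and] at ha hb
      have c1 : ((i - 1 : ℕ) : ZMod (m + 2)) = i - 1 := by
        rw [Nat.cast_sub (by omega)]; push_cast; ring
      have c3 : ((i - 3 : ℕ) : ZMod (m + 2)) = i - 3 := by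
        rw [Nat.cast_sub (by omega)]; push_cast; ring
      have c5 : ((i - 5 : ℕ) : ZMod (m + 2)) = i - 5 := by
        rw [Nat.cast_sub (by omega)]; push_cast; ring
      rw [c1, c3, c5] at ha hb
      obtain ⟨ha1, ha3, ha5⟩ := ha
      obtain ⟨hb1, hb3, hb5⟩ := hb
      have ha5 := ha5 hi.1
      have hb5 := hb5 hi.1
      rcases KComb_pos ho hG hk ha1 hb1 with h | h | h | h | h
      · linear_combination -h
      · exfalso
        apply hb3
        have : b + ((i : ZMod (m + 2)) - 3) = a + (i - 1) := by linear_combination h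
        rw [this]; exact ha1
      · exfalso
        apply ha3
        have : a + ((i : ZMod (m + 2)) - 3) = b + (i - 1) := by linear_combination -h
        rw [this]; exact hb1
      · exfalso
        apply hb5
        have : b + ((i : ZMod (m + 2)) - 5) = a + (i - 1) := by linear_combination h
        rw [this]; exact ha1
      · exfalso
        apply ha5
        have : a + ((i : ZMod (m + 2)) - 5) = b + (i - 1) := by linear_combination -h
        rw [this]; exact hb1
    have hS : ∑ i ∈ Ico 5 (m + 1), #(univ.filter (fun j : ZMod (m + 2) =>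
        G.Adj w (k (j + ((i - 1 : ℕ) : ZMod (m + 2)))) ∧
        ¬ G.Adj w (k (j + ((i - 3 : ℕ) : ZMod (m + 2)))) ∧
        (5 ≤ i → ¬ G.Adj w (k (j + ((i - 5 : ℕ) : ZMod (m + 2))))))) ≤ m - 4 := by
      refine (sum_le_sum hS1).trans ?_
      simp
    rw [sum_eq_sum_Ico_succ_bot (by omega : 4 < m + 1), show (4 + 1 : ℕ) = 5 from rfl]
    rw [e2, e3]
    omega

private lemma KComb_half (hm : 7 ≤ m) (ho : Odd m) (hG : OddFree G m)
    (hk : IsCl G (m + 2) k) :
    2 * ∑ j, totK G m (seqOf (rot k j)) ≤ (2 * m + 11) * Fintype.card V := by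
  have hj : ∀ j, 2 * totK G m (seqOf (rot k j)) =
      ((#(univ.filter (fun w => G.Adj w (k j))) +
      2 * #(univ.filter (fun w => Wk G 2 w (k (j + 1)) ∧ ¬ G.Adj w (k j))) +
      2 * #(univ.filter (fun w => G.Adj w (k (j + 1)) ∧ G.Adj w (k (j + 3)))) +
      2 * ∑ i ∈ Ico 4 (m + 1), #(univ.filter (fun w : V =>
        G.Adj w (k (j + ((i - 1 : ℕ) : ZMod (m + 2)))) ∧
        ¬ G.Adj w (k (j + ((i - 3 : ℕ) : ZMod (m + 2)))) ∧
        (5 ≤ i → ¬ G.Adj w (k (j + ((i - 5 : ℕ) : ZMod (m + 2))))))) +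
      2 * #(univ.filter (fun w => G.Adj w (k (j + (m : ZMod (m + 2)))) ∧ G.Adj w (k j))) : ℕ) :
        ℝ) := by
    intro j
    unfold totK Nb B3 B2 stepSet seqOf rot
    have e0 : j + ((0 : ℕ) : ZMod (m + 2)) = j := by push_cast; ring
    have e1 : j + ((1 : ℕ) : ZMod (m + 2)) = j + 1 := by push_cast; ring
    have e3 : j + ((3 : ℕ) : ZMod (m + 2)) = j + 3 := by push_cast; ring
    rw [e0, e1, e3]
    push_cast
    ring
  rw [mul_sum, sum_congr rfl fun j _ => hj j, ← Nat.cast_sum]
  have hsum : ∑ j : ZMod (m + 2), (#(univ.filter (fun w => G.Adj w (k j))) +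
      2 * #(univ.filter (fun w => Wk G 2 w (k (j + 1)) ∧ ¬ G.Adj w (k j))) +
      2 * #(univ.filter (fun w => G.Adj w (k (j + 1)) ∧ G.Adj w (k (j + 3)))) +
      2 * ∑ i ∈ Ico 4 (m + 1), #(univ.filter (fun w : V =>
        G.Adj w (k (j + ((i - 1 : ℕ) : ZMod (m + 2)))) ∧
        ¬ G.Adj w (k (j + ((i - 3 : ℕ) : ZMod (m + 2)))) ∧
        (5 ≤ i → ¬ G.Adj w (k (j + ((i - 5 : ℕ) : ZMod (m + 2))))))) +
      2 * #(univ.filter (fun w => G.Adj w (k (j + (m : ZMod (m + 2)))) ∧ G.Adj w (k j)))) ≤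
      (2 * m + 11) * Fintype.card V := by
    have d1 := KComb_dc (fun w j => G.Adj w (k j))
    have d2 := KComb_dc (fun w j => Wk G 2 w (k (j + 1)) ∧ ¬ G.Adj w (k j))
    have d3 := KComb_dc (fun w j => G.Adj w (k (j + 1)) ∧ G.Adj w (k (j + 3)))
    have d5 := KComb_dc (fun w j => G.Adj w (k (j + (m : ZMod (m + 2)))) ∧ G.Adj w (k j))
    have d4 : ∑ j : ZMod (m + 2), ∑ i ∈ Ico 4 (m + 1), #(univ.filter (fun w : V =>
        G.Adj w (k (j + ((i - 1 : ℕ) : ZMod (m + 2)))) ∧
        ¬ G.Adj w (k (j + ((i - 3 : ℕ) : ZMod (m + 2)))) ∧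
        (5 ≤ i → ¬ G.Adj w (k (j + ((i - 5 : ℕ) : ZMod (m + 2))))))) =
        ∑ w : V, ∑ i ∈ Ico 4 (m + 1), #(univ.filter (fun j : ZMod (m + 2) =>
        G.Adj w (k (j + ((i - 1 : ℕ) : ZMod (m + 2)))) ∧
        ¬ G.Adj w (k (j + ((i - 3 : ℕ) : ZMod (m + 2)))) ∧
        (5 ≤ i → ¬ G.Adj w (k (j + ((i - 5 : ℕ) : ZMod (m + 2))))))) := by
      rw [sum_comm, sum_comm (s := (univ : Finset V))]
      exact sum_congr rfl fun i _ => KComb_dc (fun w j =>
        G.Adj w (k (j + ((i - 1 : ℕ) : ZMod (m + 2)))) ∧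
        ¬ G.Adj w (k (j + ((i - 3 : ℕ) : ZMod (m + 2)))) ∧
        (5 ≤ i → ¬ G.Adj w (k (j + ((i - 5 : ℕ) : ZMod (m + 2))))))
    rw [sum_add_distrib, sum_add_distrib, sum_add_distrib, sum_add_distrib, ← mul_sum, ← mul_sum,
      ← mul_sum, ← mul_sum, d1, d2, d3, d4, d5, mul_sum, mul_sum, mul_sum, mul_sum,
      ← sum_add_distrib, ← sum_add_distrib, ← sum_add_distrib, ← sum_add_distrib]
    calc _ ≤ ∑ _w : V, (2 * m + 11) := sum_le_sum fun w _ => KComb_w hm ho hG hk w
      _ = (2 * m + 11) * Fintype.card V := by simp [mul_comm]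
  exact_mod_cast hsum

end

theorem k_tot {G : SimpleGraph V} {m : ℕ} [NeZero m] (hm : 7 ≤ m) (ho : Odd m)
    (hG : OddFree G m) {k : ZMod (m + 2) → V} (hk : IsCl G (m + 2) k) :
    ∑ j, (totK G m (seqOf (rot k j)) + totK G m (seqOf (rfl' k j))) ≤
      (2 * m + 11) * Fintype.card V := by
  have hk' : IsCl G (m + 2) (fun t => k (-t)) := by
    intro t
    have h := (hk (-t - 1)).symm
    have e : -t - 1 + 1 = -t := by ring
    have e' : -(t + 1) = -t - 1 := by ring
    rw [e] at h
    show G.Adj (k (-t)) (k (-(t + 1)))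
    rw [e']
    exact h
  have h1 := KComb_half hm ho hG hk
  have h2 := KComb_half hm ho hG hk'
  have h3 : ∑ j, totK G m (seqOf (rfl' k j)) =
      ∑ j, totK G m (seqOf (rot (fun t => k (-t)) j)) := by
    rw [← Equiv.sum_comp (Equiv.neg (ZMod (m + 2)))
      (fun j => totK G m (seqOf (rot (fun t => k (-t)) j)))]
    refine sum_congr rfl fun j _ => ?_
    congr 2
    funext i
    show k (j - i) = k (-(-j + i))
    congr 1
    ring
  rw [sum_add_distrib, h3]
  linarith

end Pool.Agent.CycGT
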