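import Pool.Agent.W_1bfdb5_h19.CIneq
import Pool.Agent.W_1bfdb5_h19.KComb

/-!
# The inequality for a closed walk of length m + 2 without chords
-/

namespace Pool.Agent.CycGT

open Finset
open scoped Classical

variable {V : Type} [Fintype V]

/-- The factors. -/
noncomputable def fac (G : SimpleGraph V) (m : ℕ) (v : ℕ → V) (i : ℕ) : ℝ :=
  if i = 1 then (#(Nb G (v 0)) : ℝ) / 2 else if i = 2 then (#(B3 G (v 0) (v 1)) : ℝ)
  else if i = 3 then (#(B2 G (v 1) (v 3)) : ℝ)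
  else if i = m + 1 then (#(B2 G (v m) (v 0)) : ℝ) else (#(stepSet G v i) : ℝ)

lemma sum_fac (G : SimpleGraph V) (m : ℕ) (hm : 7 ≤ m) (v : ℕ → V) :
    ∑ i ∈ Ico 1 (m + 2), fac G m v i = totK G m v := by
  have h1 : ∑ i ∈ Ico 4 (m + 1), fac G m v i = ∑ i ∈ Ico 4 (m + 1), (#(stepSet G v i) : ℝ) := by
    refine sum_congr rfl fun i hi => ?_
    have := mem_Ico.1 hi
    simp only [fac]
    rw [if_neg (by omega), if_neg (by omega), if_neg (by omega), if_neg (by omega)]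
  rw [sum_Ico_succ_top (by omega), sum_eq_sum_Ico_succ_bot (by omega),
    sum_eq_sum_Ico_succ_bot (by omega), sum_eq_sum_Ico_succ_bot (by omega), h1]
  have e1 : fac G m v 1 = (#(Nb G (v 0)) : ℝ) / 2 := by simp [fac]
  have e2 : fac G m v (1 + 1) = (#(B3 G (v 0) (v 1)) : ℝ) := by simp [fac]
  have e3 : fac G m v (1 + 1 + 1) = (#(B2 G (v 1) (v 3)) : ℝ) := by simp [fac]
  have e4 : fac G m v (m + 1) = (#(B2 G (v m) (v 0)) : ℝ) := by
    simp only [fac]
    rw [if_neg (by omega), if_neg (by omega), if_neg (by omega)]; simp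
  rw [e1, e2, e3, e4]
  simp only [totK]
  ring

lemma prod_fac (G : SimpleGraph V) (m : ℕ) (hm : 7 ≤ m) (v : ℕ → V) :
    ∏ i ∈ Ico 1 (m + 2), fac G m v i = (#(Nb G (v 0)) : ℝ) / 2 * #(B3 G (v 0) (v 1)) *
      #(B2 G (v 1) (v 3)) * (∏ i ∈ Ico 4 (m + 1), (#(stepSet G v i) : ℝ)) *
      #(B2 G (v m) (v 0)) := by
  have h1 : ∏ i ∈ Ico 4 (m + 1), fac G m v i = ∏ i ∈ Ico 4 (m + 1), (#(stepSet G v i) : ℝ) := by
    refine prod_congr rfl fun i hi => ?_
    have := mem_Ico.1 hi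
    simp only [fac]
    rw [if_neg (by omega), if_neg (by omega), if_neg (by omega), if_neg (by omega)]
  rw [prod_Ico_succ_top (by omega), prod_eq_prod_Ico_succ_bot (by omega),
    prod_eq_prod_Ico_succ_bot (by omega), prod_eq_prod_Ico_succ_bot (by omega), h1]
  have e1 : fac G m v 1 = (#(Nb G (v 0)) : ℝ) / 2 := by simp [fac]
  have e2 : fac G m v (1 + 1) = (#(B3 G (v 0) (v 1)) : ℝ) := by simp [fac]
  have e3 : fac G m v (1 + 1 + 1) = (#(B2 G (v 1) (v 3)) : ℝ) := by simp [fac]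
  have e4 : fac G m v (m + 1) = (#(B2 G (v m) (v 0)) : ℝ) := by
    simp only [fac]
    rw [if_neg (by omega), if_neg (by omega), if_neg (by omega)]; simp
  rw [e1, e2, e3, e4]
  ring

lemma zc_rot {G : SimpleGraph V} {M : ℕ} {k : ZMod M → V} (h : ZC G k) (j : ZMod M) :
    ZC G (rot k j) := by
  intro i
  have := h (j + i)
  simpa [rot, add_assoc] using this

lemma zc_rfl' {G : SimpleGraph V} {M : ℕ} {k : ZMod M → V} (h : ZC G k) (j : ZMod M) :
    ZC G (rfl' k j) := by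
  intro i hh
  have := h (j - (i + 3))
  have e : j - (i + 3) + 3 = j - i := by ring
  rw [e] at this
  exact this hh.symm

lemma both_kvalid {G : SimpleGraph V} {m : ℕ} [NeZero m] (hm : 7 ≤ m) (ho : Odd m)
    (hG : OddFree G m) {k : ZMod (m + 2) → V} (hk : IsCl G (m + 2) k) (hz : ZC G k)
    (g : ZMod (m + 2) × Bool) :
    Valid G (m + 1) (both k g) ∧ both k g (m + 1) ∈ B2 G (both k g m) (both k g 0) := by
  unfold both
  split_ifs
  · have := k_valid hm ho hG (isCl_rot hk g.1) (zc_rot hz g.1)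
    exact ⟨this.1, this.2.2⟩
  · have := k_valid hm ho hG (isCl_rfl' hk g.1) (zc_rfl' hz g.1)
    exact ⟨this.1, this.2.2⟩

lemma k_alg (m : ℕ) (hm : 7 ≤ m) (n X : ℝ) (hn : 0 < n) (hX0 : 0 < X)
    (hX : X ≤ (2 * m + 11) * n) :
    (m : ℝ) ^ (m + 1) / n ^ (m + 2) ≤
      (2 * n)⁻¹ * ((2 * (m + 2)) * (((m : ℝ) + 1) * (2 * (m + 2)) / X) ^ (m + 1)) := by
  have h := k_num m hm
  have h2 : (2 * ((m : ℝ) + 1) * (m + 2) / (2 * m + 11)) / n ≤
      ((m : ℝ) + 1) * (2 * (m + 2)) / X := by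
    rw [div_div, div_le_div_iff₀ (by positivity) hX0]
    nlinarith [mul_pos (by positivity : (0 : ℝ) < (m : ℝ) + 1) (by positivity : (0:ℝ) < (m:ℝ) + 2)]
  have h3 : ((2 * ((m : ℝ) + 1) * (m + 2) / (2 * m + 11)) / n) ^ (m + 1) ≤
      (((m : ℝ) + 1) * (2 * (m + 2)) / X) ^ (m + 1) := pow_le_pow_left₀ (by positivity) h2 _
  have e1 : (m : ℝ) ^ (m + 1) / n ^ (m + 2) = (2 * n)⁻¹ * (2 * ((m : ℝ) ^ (m + 1) / n ^ (m + 1))) := by
    rw [pow_succ n (m + 1)]; field_simp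
  rw [e1]
  refine mul_le_mul_of_nonneg_left ?_ (by positivity)
  calc 2 * ((m : ℝ) ^ (m + 1) / n ^ (m + 1))
      ≤ 2 * (((m + 2) * (2 * (m + 1) * (m + 2) / (2 * m + 11)) ^ (m + 1)) / n ^ (m + 1)) := by
        gcongr
    _ = (2 * (m + 2)) * ((2 * ((m : ℝ) + 1) * (m + 2) / (2 * m + 11)) / n) ^ (m + 1) := by
        rw [div_pow _ n]; ring
    _ ≤ _ := by gcongr

/-- The main inequality for a closed walk of length `m + 2` without chords. -/
theorem k_ineq {G : SimpleGraph V} {m : ℕ} [NeZero m] (hm : 7 ≤ m) (ho : Odd m)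
    (hG : OddFree G m) {k : ZMod (m + 2) → V} (hk : IsCl G (m + 2) k) (hz : ZC G k) :
    (m : ℝ) ^ (m + 1) / (Fintype.card V : ℝ) ^ (m + 2) ≤
      ∑ j, (wtK G m (seqOf (rot k j)) + wtK G m (seqOf (rfl' k j))) := by
  set n : ℝ := (Fintype.card V : ℝ) with hn
  have hn0 : 0 < n := by
    have : Nonempty V := ⟨k 0⟩
    rw [hn]; exact_mod_cast Fintype.card_pos
  have hv := fun g => both_kvalid hm ho hG hk hz g
  have hfac : ∀ g ∈ (univ : Finset (ZMod (m + 2) × Bool)), ∀ i ∈ Ico 1 (m + 2),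
      0 < fac G m (both k g) i := by
    intro g _ i hi
    obtain ⟨⟨v1, v2, v3, v4⟩, v5⟩ := hv g
    have hi' := mem_Ico.1 hi
    simp only [fac]
    split_ifs with a1 a2 a3 a4
    · have := cpos v1; linarith
    · exact cpos v2
    · exact cpos v3
    · exact cpos v5
    · exact cpos (v4 i (mem_Ico.2 ⟨by omega, by omega⟩))
  have J := jensenK (univ : Finset (ZMod (m + 2) × Bool)) univ_nonempty (Ico 1 (m + 2))
    ⟨1, mem_Ico.2 ⟨le_rfl, by omega⟩⟩ (fun g i => fac G m (both k g) i) hfac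
  have hcard : (#(univ : Finset (ZMod (m + 2) × Bool)) : ℝ) = 2 * (m + 2) := by
    rw [card_univ, Fintype.card_prod, ZMod.card, Fintype.card_bool]; push_cast; ring
  have hcJ : #(Ico 1 (m + 2)) = m + 1 := by simp
  rw [hcard, hcJ] at J
  have hX : (∑ g, ∑ i ∈ Ico 1 (m + 2), fac G m (both k g) i) ≤ (2 * m + 11) * n := by
    rw [sum_congr rfl fun g _ => sum_fac G m hm (both k g), sum_both k (totK G m)]
    exact k_tot hm ho hG hk
  have hX0 : 0 < ∑ g, ∑ i ∈ Ico 1 (m + 2), fac G m (both k g) i := by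
    refine sum_pos (fun g hg => sum_pos (hfac g hg) ⟨1, mem_Ico.2 ⟨le_rfl, by omega⟩⟩)
      univ_nonempty
  have L : ∑ j, (wtK G m (seqOf (rot k j)) + wtK G m (seqOf (rfl' k j))) =
      (2 * n)⁻¹ * ∑ g, (∏ i ∈ Ico 1 (m + 2), fac G m (both k g) i)⁻¹ := by
    rw [← sum_both k (wtK G m), mul_sum]
    refine sum_congr rfl fun g _ => ?_
    rw [prod_fac G m hm]
    simp only [wtK, wt, ← hn]
    rw [← mul_inv, ← mul_inv]
    congr 1
    ring
  rw [L]
  refine (k_alg m hm n _ hn0 hX0 hX).trans ?_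
  refine mul_le_mul_of_nonneg_left ?_ (by positivity)
  push_cast at J
  exact J

end Pool.Agent.CycGT
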