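import Pool.Agent.W_1bfdb5_h19.Defs

/-!
# The random process: total probability at most one

Proof.  For `L ≥ 4` let `S L` be the sum of `wt G L (ext f)` over all `f : Fin L → V` with
`Valid G L (ext f)`, where `ext f : ℕ → V` extends `f` in any way.  `S 4 ≤ 1` (sum over `v 2` first,
then `v 3`, then `v 1`, then `v 0`), and `S (L+1) ≤ S L` because `stepSet G v L`, `Valid G L v`,
`wt G L v` depend only on `v 0, ..., v (L-1)` and the sum over `v L ∈ stepSet G v L` of
`1 / #(stepSet G v L)` is at most `1` (it is `0` when the set is empty).  Hence `S m ≤ 1`.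
Split `S m` according to whether `v (m-1)` is adjacent to `v 0`; in the second case
continue with `v m ∈ stepSet G v m` and `v (m+1) ∈ B2 G (v m) (v 0)`.
-/

namespace Pool.Agent.CycGT

open Finset
open scoped Classical

variable {V : Type} [Fintype V]

/-- extension of a finite sequence by a default value -/
private def ex (v0 : V) {n : ℕ} (f : Fin n → V) : ℕ → V := fun i => if h : i < n then f ⟨i, h⟩ else v0

private lemma ex_snoc (v0 : V) {n : ℕ} (g : Fin n → V) (x : V) :
    ex v0 (Fin.snoc g x : Fin (n + 1) → V) = Function.update (ex v0 g) n x := by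
  funext i
  by_cases h : i < n
  · rw [Function.update_of_ne (ne_of_lt h)]
    unfold ex
    rw [dif_pos h, dif_pos (by omega)]
    have : (⟨i, by omega⟩ : Fin (n + 1)) = Fin.castSucc ⟨i, h⟩ := rfl
    rw [this, Fin.snoc_castSucc (α := fun _ => V)]
  · by_cases h' : i = n
    · subst h'
      rw [Function.update_self]
      unfold ex
      rw [dif_pos (by omega)]
      have : (⟨i, by omega⟩ : Fin (i + 1)) = Fin.last i := rfl
      rw [this, Fin.snoc_last (α := fun _ => V)]
    · rw [Function.update_of_ne h']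
      unfold ex
      rw [dif_neg h, dif_neg (by omega)]

private lemma sum_ex (v0 : V) (n : ℕ) (F : (ℕ → V) → ℝ) :
    ∑ f : Fin (n + 1) → V, F (ex v0 f) =
      ∑ g : Fin n → V, ∑ x : V, F (Function.update (ex v0 g) n x) := by
  rw [← (Fin.snocEquiv (fun _ : Fin (n + 1) => V)).sum_comp, Fintype.sum_prod_type,
    Finset.sum_comm]
  refine Finset.sum_congr rfl fun g _ => Finset.sum_congr rfl fun x _ => ?_
  rw [← ex_snoc]
  rfl

private lemma pk (S : Finset V) (r : ℝ) (hr : 0 ≤ r) :
    ∑ x : V, (if x ∈ S then r * (#S : ℝ)⁻¹ else 0) ≤ r := by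
  rw [Finset.sum_ite_mem, Finset.univ_inter, Finset.sum_const, nsmul_eq_mul]
  by_cases h : (#S : ℝ) = 0
  · rw [h, zero_mul]
    exact hr
  · rw [mul_comm r, ← mul_assoc, mul_inv_cancel₀ h, one_mul]

private noncomputable def WW (G : SimpleGraph V) (n : ℕ) (v : ℕ → V) : ℝ :=
  if Valid G n v then wt G n v else 0

private lemma wt_nonneg (G : SimpleGraph V) (n : ℕ) (v : ℕ → V) : 0 ≤ wt G n v := by
  unfold wt
  positivity

private lemma WW_nonneg (G : SimpleGraph V) (n : ℕ) (v : ℕ → V) : 0 ≤ WW G n v := by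
  unfold WW
  split_ifs
  · exact wt_nonneg G n v
  · exact le_rfl

private lemma stepSet_congr (G : SimpleGraph V) {v v' : ℕ → V} {n : ℕ} (hn : 4 ≤ n)
    (h : ∀ i < n, v i = v' i) : stepSet G v n = stepSet G v' n := by
  unfold stepSet
  rw [h (n - 1) (by omega), h (n - 3) (by omega)]
  by_cases h5 : 5 ≤ n
  · rw [h (n - 5) (by omega)]
  · simp only [h5, false_imp_iff]

private lemma Valid_congr (G : SimpleGraph V) {v v' : ℕ → V} {n : ℕ} (hn : 4 ≤ n)
    (h : ∀ i < n, v i = v' i) : Valid G n v ↔ Valid G n v' := by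
  unfold Valid
  rw [h 0 (by omega), h 1 (by omega), h 2 (by omega), h 3 (by omega)]
  have e : (∀ i ∈ Ico 4 n, v i ∈ stepSet G v i) ↔ ∀ i ∈ Ico 4 n, v' i ∈ stepSet G v' i := by
    refine forall₂_congr fun i hi => ?_
    rw [Finset.mem_Ico] at hi
    rw [h i hi.2, stepSet_congr G hi.1 fun j hj => h j (by omega)]
  rw [e]

private lemma wt_congr (G : SimpleGraph V) {v v' : ℕ → V} {n : ℕ} (hn : 4 ≤ n)
    (h : ∀ i < n, v i = v' i) : wt G n v = wt G n v' := by
  unfold wt
  rw [h 0 (by omega), h 1 (by omega), h 3 (by omega)]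
  have e : ∏ i ∈ Ico 4 n, (#(stepSet G v i) : ℝ) = ∏ i ∈ Ico 4 n, (#(stepSet G v' i) : ℝ) := by
    refine Finset.prod_congr rfl fun i hi => ?_
    rw [Finset.mem_Ico] at hi
    rw [stepSet_congr G hi.1 fun j hj => h j (by omega)]
  rw [e]

private lemma WW_congr (G : SimpleGraph V) {v v' : ℕ → V} {n : ℕ} (hn : 4 ≤ n)
    (h : ∀ i < n, v i = v' i) : WW G n v = WW G n v' := by
  unfold WW
  rw [wt_congr G hn h]
  simp only [Valid_congr G hn h]

private lemma WW_succ (G : SimpleGraph V) {n : ℕ} (hn : 4 ≤ n) (v : ℕ → V) (x : V) :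
    WW G (n + 1) (Function.update v n x) =
      if x ∈ stepSet G v n then WW G n v * (#(stepSet G v n) : ℝ)⁻¹ else 0 := by
  set v' := Function.update v n x with hv'
  have hag : ∀ i < n, v' i = v i := fun i hi => Function.update_of_ne (ne_of_lt hi) _ _
  have hn' : v' n = x := Function.update_self _ _ _
  have hS : stepSet G v' n = stepSet G v n := stepSet_congr G hn hag
  have hV : Valid G (n + 1) v' ↔ Valid G n v ∧ x ∈ stepSet G v n := by
    rw [← Valid_congr G hn hag, ← hS]
    unfold Valid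
    constructor
    · rintro ⟨h1, h2, h3, h4⟩
      refine ⟨⟨h1, h2, h3, fun i hi => h4 i ?_⟩, ?_⟩
      · rw [Finset.mem_Ico] at hi ⊢
        omega
      · have := h4 n (by rw [Finset.mem_Ico]; omega)
        rwa [hn'] at this
    · rintro ⟨⟨h1, h2, h3, h4⟩, h5⟩
      refine ⟨h1, h2, h3, fun i hi => ?_⟩
      rw [Finset.mem_Ico] at hi
      by_cases hin : i = n
      · subst hin
        rw [hn']
        exact h5
      · exact h4 i (by rw [Finset.mem_Ico]; omega)
  have hW : wt G (n + 1) v' = wt G n v * (#(stepSet G v n) : ℝ)⁻¹ := by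
    rw [← wt_congr G hn hag, ← hS]
    unfold wt
    rw [Finset.prod_Ico_succ_top hn, ← mul_assoc, mul_inv]
  unfold WW
  rw [hW]
  by_cases h1 : Valid G n v
  · by_cases h2 : x ∈ stepSet G v n
    · rw [if_pos (hV.2 ⟨h1, h2⟩), if_pos h1, if_pos h2]
    · rw [if_neg (fun h => h2 (hV.1 h).2), if_neg h2]
  · rw [if_neg (fun h => h1 (hV.1 h).1), if_neg h1, zero_mul, ite_self]

private lemma WW_step (G : SimpleGraph V) {n : ℕ} (hn : 4 ≤ n) (v : ℕ → V) :
    ∑ x : V, WW G (n + 1) (Function.update v n x) ≤ WW G n v := by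
  simp only [WW_succ G hn v]
  exact pk _ _ (WW_nonneg G n v)

private lemma base (G : SimpleGraph V) (v0 : V) : ∑ f : Fin 4 → V, WW G 4 (ex v0 f) ≤ 1 := by
  rw [sum_ex v0 3 (fun w => WW G 4 w),
    sum_ex v0 2 (fun w => ∑ d : V, WW G 4 (Function.update w 3 d)),
    sum_ex v0 1 (fun w => ∑ c : V, ∑ d : V, WW G 4 (Function.update (Function.update w 2 c) 3 d)),
    sum_ex v0 0 (fun w => ∑ b : V, ∑ c : V, ∑ d : V, WW G 4 (Function.update
      (Function.update (Function.update w 1 b) 2 c) 3 d)), Fintype.sum_unique]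
  set N : ℝ := (Fintype.card V : ℝ) with hN
  have key : ∀ a b c d : V, ∀ w : ℕ → V, WW G 4 (Function.update (Function.update
      (Function.update (Function.update w 0 a) 1 b) 2 c) 3 d) =
      if b ∈ Nb G a then (if d ∈ B3 G a b then (if c ∈ B2 G b d then
        ((N⁻¹ * (#(Nb G a) : ℝ)⁻¹) * (#(B3 G a b) : ℝ)⁻¹) * (#(B2 G b d) : ℝ)⁻¹ else 0)
        else 0) else 0 := by
    intro a b c d w
    unfold WW Valid wt
    simp only [Function.update_apply, Finset.Ico_self, Finset.notMem_empty, Finset.prod_empty]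
    norm_num
    by_cases h1 : b ∈ Nb G a
    · by_cases h2 : d ∈ B3 G a b
      · by_cases h3 : c ∈ B2 G b d
        · simp only [h1, h2, h3, true_and, if_true]
          ring
        · simp [h1, h2, h3]
      · simp [h1, h2]
    · simp [h1]
  simp only [key]
  have hN0 : 0 ≤ N⁻¹ := by positivity
  calc ∑ a : V, ∑ b : V, ∑ c : V, ∑ d : V, (if b ∈ Nb G a then (if d ∈ B3 G a b then
        (if c ∈ B2 G b d then ((N⁻¹ * (#(Nb G a) : ℝ)⁻¹) * (#(B3 G a b) : ℝ)⁻¹) *
          (#(B2 G b d) : ℝ)⁻¹ else 0) else 0) else 0)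
      ≤ ∑ a : V, ∑ b : V, ∑ d : V, (if b ∈ Nb G a then (if d ∈ B3 G a b then
        ((N⁻¹ * (#(Nb G a) : ℝ)⁻¹) * (#(B3 G a b) : ℝ)⁻¹) else 0) else 0) := by
        refine Finset.sum_le_sum fun a _ => Finset.sum_le_sum fun b _ => ?_
        rw [Finset.sum_comm]
        refine Finset.sum_le_sum fun d _ => ?_
        by_cases h1 : b ∈ Nb G a
        · by_cases h2 : d ∈ B3 G a b
          · simp only [h1, h2, if_true]
            exact pk _ _ (by positivity)
          · simp [h1, h2]
        · simp [h1]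
    _ ≤ ∑ a : V, ∑ b : V, (if b ∈ Nb G a then N⁻¹ * (#(Nb G a) : ℝ)⁻¹ else 0) := by
        refine Finset.sum_le_sum fun a _ => Finset.sum_le_sum fun b _ => ?_
        by_cases h1 : b ∈ Nb G a
        · simp only [h1, if_true]
          exact pk _ _ (by positivity)
        · simp [h1]
    _ ≤ ∑ a : V, N⁻¹ := Finset.sum_le_sum fun a _ => pk _ _ hN0
    _ = N * N⁻¹ := by
        rw [Finset.sum_const, Finset.card_univ, nsmul_eq_mul]
    _ ≤ 1 := mul_inv_le_one

private lemma WW_sum (G : SimpleGraph V) (v0 : V) (n : ℕ) (hn : 4 ≤ n) :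
    ∑ f : Fin n → V, WW G n (ex v0 f) ≤ 1 := by
  induction n, hn using Nat.le_induction with
  | base => exact base G v0
  | succ n hn ih =>
    rw [sum_ex]
    exact (Finset.sum_le_sum fun g _ => WW_step G hn _).trans ih

private lemma seqOf_ex (v0 : V) {M : ℕ} (c : Fin (M + 1) → V) (i : ℕ) (hi : i < M + 1) :
    seqOf (M := M + 1) c i = ex v0 c i := by
  unfold seqOf ex
  rw [dif_pos hi]
  congr 1
  have h1 : ((i : ℕ) : ZMod (M + 1)).val = i := by rw [ZMod.val_natCast, Nat.mod_eq_of_lt hi]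
  exact Fin.ext h1

theorem proc (G : SimpleGraph V) (m : ℕ) [NeZero m] (hm : 5 ≤ m) :
    (∑ c ∈ (univ : Finset (ZMod m → V)).filter (fun c => Valid G m (seqOf c) ∧
        G.Adj (seqOf c (m - 1)) (seqOf c 0)), wt G m (seqOf c)) +
    (∑ k ∈ (univ : Finset (ZMod (m + 2) → V)).filter (fun k => Valid G (m + 1) (seqOf k) ∧
        ¬ G.Adj (seqOf k (m - 1)) (seqOf k 0) ∧ seqOf k (m + 1) ∈ B2 G (seqOf k m) (seqOf k 0)),
        wtK G m (seqOf k)) ≤ 1 := by
  rcases isEmpty_or_nonempty V with hV | ⟨⟨v0⟩⟩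
  · have h1 : IsEmpty (ZMod m → V) := ⟨fun f => hV.false (f 0)⟩
    have h2 : IsEmpty (ZMod (m + 2) → V) := ⟨fun f => hV.false (f 0)⟩
    rw [Finset.univ_eq_empty, Finset.univ_eq_empty, Finset.filter_empty, Finset.filter_empty,
      Finset.sum_empty, Finset.sum_empty]
    norm_num
  obtain ⟨M, rfl⟩ : ∃ M, m = M + 1 := ⟨m - 1, by omega⟩
  set m := M + 1 with hmM
  let A : (ℕ → V) → ℝ := fun v => if G.Adj (v (m - 1)) (v 0) then WW G m v else 0
  let B : (ℕ → V) → ℝ := fun v => if G.Adj (v (m - 1)) (v 0) then 0 else WW G m v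
  let E : (ℕ → V) → ℝ := fun v => if G.Adj (v (m - 1)) (v 0) then 0 else WW G (m + 1) v
  let D : (ℕ → V) → ℝ := fun v => if v (m + 1) ∈ B2 G (v m) (v 0) then
    E v * (#(B2 G (v m) (v 0)) : ℝ)⁻¹ else 0
  have hE0 : ∀ v, 0 ≤ E v := by
    intro v
    simp only [E]
    split_ifs
    · exact le_rfl
    · exact WW_nonneg G _ _
  -- first sum
  have h1 : (∑ c ∈ (univ : Finset (ZMod m → V)).filter (fun c => Valid G m (seqOf c) ∧
      G.Adj (seqOf c (m - 1)) (seqOf c 0)), wt G m (seqOf c)) =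
      ∑ f : Fin m → V, A (ex v0 f) := by
    rw [Finset.sum_filter]
    refine Fintype.sum_equiv (Equiv.refl _) _ _ fun c => ?_
    have hc : ∀ i < m, seqOf (M := m) c i = ex v0 (n := m) c i := fun i hi =>
      seqOf_ex v0 (M := M) c i hi
    simp only [A, WW, Equiv.refl_apply]
    rw [← wt_congr G (by omega) hc, ← hc (m - 1) (by omega), ← hc 0 (by omega)]
    have hv := Valid_congr G (show 4 ≤ m by omega) hc
    by_cases h1 : Valid G m (seqOf (M := m) c)
    · by_cases h2 : G.Adj (seqOf (M := m) c (m - 1)) (seqOf (M := m) c 0)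
      · rw [if_pos ⟨h1, h2⟩, if_pos h2, if_pos (hv.1 h1)]
      · rw [if_neg (fun h => h2 h.2), if_neg h2]
    · rw [if_neg (fun h => h1 h.1), if_neg (fun h => h1 (hv.2 h)), ite_self]
  -- second sum
  have h2 : (∑ k ∈ (univ : Finset (ZMod (m + 2) → V)).filter (fun k => Valid G (m + 1) (seqOf k) ∧
      ¬ G.Adj (seqOf k (m - 1)) (seqOf k 0) ∧ seqOf k (m + 1) ∈ B2 G (seqOf k m) (seqOf k 0)),
      wtK G m (seqOf k)) = ∑ f : Fin (m + 2) → V, D (ex v0 f) := by
    rw [Finset.sum_filter]
    refine Fintype.sum_equiv (Equiv.refl _) _ _ fun c => ?_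
    have hc : ∀ i < m + 2, seqOf (M := m + 2) c i = ex v0 (n := m + 2) c i := fun i hi =>
      seqOf_ex v0 (M := m + 1) c i hi
    have hc' : ∀ i < m + 1, seqOf (M := m + 2) c i = ex v0 (n := m + 2) c i := fun i hi =>
      hc i (by omega)
    simp only [D, E, WW, wtK, Equiv.refl_apply]
    rw [← wt_congr G (by omega) hc', ← hc (m - 1) (by omega), ← hc 0 (by omega),
      ← hc m (by omega), ← hc (m + 1) (by omega)]
    have hv := Valid_congr G (show 4 ≤ m + 1 by omega) hc'
    by_cases h1 : Valid G (m + 1) (seqOf (M := m + 2) c)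
    · by_cases h2 : G.Adj (seqOf (M := m + 2) c (m - 1)) (seqOf (M := m + 2) c 0)
      · rw [if_neg (fun h => h.2.1 h2), if_pos h2, zero_mul, ite_self]
      · by_cases h3 : seqOf (M := m + 2) c (m + 1) ∈
          B2 G (seqOf (M := m + 2) c m) (seqOf (M := m + 2) c 0)
        · rw [if_pos ⟨h1, h2, h3⟩, if_pos h3, if_neg h2, if_pos (hv.1 h1)]
        · rw [if_neg (fun h => h3 h.2.2), if_neg h3]
    · rw [if_neg (fun h => h1 h.1), if_neg (fun h => h1 (hv.2 h)), ite_self, zero_mul, ite_self]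
  -- last two steps
  have h3 : ∑ f : Fin (m + 2) → V, D (ex v0 f) ≤ ∑ g : Fin (m + 1) → V, E (ex v0 g) := by
    rw [sum_ex v0 (m + 1) D]
    refine Finset.sum_le_sum fun g _ => ?_
    set w := ex v0 g
    have e : ∀ x, D (Function.update w (m + 1) x) = if x ∈ B2 G (w m) (w 0) then
        E w * (#(B2 G (w m) (w 0)) : ℝ)⁻¹ else 0 := by
      intro x
      have u : ∀ i < m + 1, Function.update w (m + 1) x i = w i := fun i hi =>
        Function.update_of_ne (ne_of_lt hi) _ _
      simp only [D, E]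
      rw [Function.update_self, u m (by omega), u 0 (by omega), u (m - 1) (by omega),
        WW_congr G (by omega) u]
    simp only [e]
    exact pk _ _ (hE0 w)
  have h4 : ∑ g : Fin (m + 1) → V, E (ex v0 g) ≤ ∑ g : Fin m → V, B (ex v0 g) := by
    rw [sum_ex v0 m E]
    refine Finset.sum_le_sum fun g _ => ?_
    set w := ex v0 g
    have u : ∀ x, ∀ i < m, Function.update w m x i = w i := fun x i hi =>
      Function.update_of_ne (ne_of_lt hi) _ _
    have e : ∀ x, E (Function.update w m x) = if G.Adj (w (m - 1)) (w 0) then 0 else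
        WW G (m + 1) (Function.update w m x) := by
      intro x
      simp only [E]
      rw [u x 0 (by omega), u x (m - 1) (by omega)]
    simp only [e, B]
    by_cases h : G.Adj (w (m - 1)) (w 0)
    · simp [h]
    · simp only [h, if_false]
      exact WW_step G (by omega) w
  have h5 : ∑ f : Fin m → V, A (ex v0 f) + ∑ g : Fin m → V, B (ex v0 g) =
      ∑ f : Fin m → V, WW G m (ex v0 f) := by
    rw [← Finset.sum_add_distrib]
    refine Finset.sum_congr rfl fun f _ => ?_
    simp only [A, B]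
    split_ifs
    · rw [add_zero]
    · rw [zero_add]
  rw [h1, h2]
  calc _ ≤ ∑ f : Fin m → V, A (ex v0 f) + ∑ g : Fin m → V, B (ex v0 g) :=
        add_le_add le_rfl (h3.trans h4)
    _ = _ := h5
    _ ≤ 1 := WW_sum G v0 m (by omega)

end Pool.Agent.CycGT
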