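import Pool.Agent.W_1bfdb5_h19.KIneq
import Pool.Agent.W_1bfdb5_h19.Proc
import Pool.Agent.W_1bfdb5_h19.Chord

/-!
# Closed walks of length m + 2 in graphs without odd closed walks shorter than m, m ≥ 7
-/

namespace Pool.Agent.CycGT

open Finset
open scoped Classical

variable {V : Type} [Fintype V]

lemma mem_clos {G : SimpleGraph V} {M : ℕ} [NeZero M] {c : ZMod M → V} :
    c ∈ clos G M ↔ IsCl G M c := by simp [clos]

/-- Averaging over rotations and reflections. -/
lemma clos_avg (G : SimpleGraph V) (M : ℕ) [NeZero M] (S : Finset (ZMod M → V))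
    (hrot : ∀ c ∈ S, ∀ j, rot c j ∈ S) (hrfl : ∀ c ∈ S, ∀ j, rfl' c j ∈ S)
    (F : (ZMod M → V) → ℝ) :
    ∑ c ∈ S, ∑ j, (F (rot c j) + F (rfl' c j)) = (2 * M : ℝ) * ∑ c ∈ S, F c := by
  rw [sum_comm]
  have h1 : ∀ j : ZMod M, ∑ c ∈ S, F (rot c j) = ∑ c ∈ S, F c := by
    intro j
    refine sum_bij' (fun c _ => rot c j) (fun c _ => rot c (-j)) (fun c hc => hrot c hc j)
      (fun c hc => hrot c hc (-j)) ?_ ?_ (fun _ _ => rfl)
    · intro c _; funext i; simp [rot]
    · intro c _; funext i; simp [rot]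
  have h2 : ∀ j : ZMod M, ∑ c ∈ S, F (rfl' c j) = ∑ c ∈ S, F c := by
    intro j
    refine sum_bij' (fun c _ => rfl' c j) (fun c _ => rfl' c j) (fun c hc => hrfl c hc j)
      (fun c hc => hrfl c hc j) ?_ ?_ (fun _ _ => rfl)
    · intro c _; funext i; simp [rfl']
    · intro c _; funext i; simp [rfl']
  have : ∀ j : ZMod M, ∑ c ∈ S, (F (rot c j) + F (rfl' c j)) = 2 * ∑ c ∈ S, F c := by
    intro j
    rw [sum_add_distrib, h1, h2]; ring
  rw [sum_congr rfl fun j _ => this j, sum_const, card_univ, ZMod.card, nsmul_eq_mul]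
  ring

lemma wt_nonneg (G : SimpleGraph V) (L : ℕ) (v : ℕ → V) : 0 ≤ wt G L v := by
  unfold wt; positivity

lemma wtK_nonneg (G : SimpleGraph V) (L : ℕ) (v : ℕ → V) : 0 ≤ wtK G L v := by
  unfold wtK; have := wt_nonneg G (L + 1) v; positivity

/-- The total probability, restricted to closed walks. -/
lemma proc' {G : SimpleGraph V} {m : ℕ} [NeZero m] (hm : 7 ≤ m) (ho : Odd m)
    (hG : OddFree G m) :
    ∑ c ∈ clos G m, wt G m (seqOf c) +
      ∑ k ∈ (clos G (m + 2)).filter (fun k => ZC G k), wtK G m (seqOf k) ≤ 1 := by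
  refine le_trans ?_ (proc G m (by omega))
  refine add_le_add ?_ ?_
  · refine sum_le_sum_of_subset_of_nonneg ?_ (fun _ _ _ => wt_nonneg _ _ _)
    intro c hc
    rw [mem_filter]
    exact ⟨mem_univ _, c_valid hm ho hG (mem_clos.1 hc)⟩
  · refine sum_le_sum_of_subset_of_nonneg ?_ (fun _ _ _ => wtK_nonneg _ _ _)
    intro k hk
    rw [mem_filter] at hk ⊢
    exact ⟨mem_univ _, k_valid hm ho hG (mem_clos.1 hk.1) hk.2⟩

theorem main7 {G : SimpleGraph V} {m : ℕ} [NeZero m] (hm : 7 ≤ m) (ho : Odd m)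
    (hG : OddFree G m) :
    (#(clos G (m + 2)) : ℝ) * (m : ℝ) ^ (m + 1) ≤
      2 * (m + 2) * (Fintype.card V : ℝ) ^ (m + 2) := by
  rcases isEmpty_or_nonempty V with hV | hV
  · have : clos G (m + 2) = ∅ := by
      rw [eq_empty_iff_forall_notMem]
      intro c _
      exact hV.false (c 0)
    rw [this]
    simp only [card_empty, CharP.cast_eq_zero, zero_mul]
    positivity
  set n : ℝ := (Fintype.card V : ℝ) with hn
  have hn0 : 0 < n := by rw [hn]; exact_mod_cast Fintype.card_pos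
  have hm0 : (0 : ℝ) < m := by exact_mod_cast (by omega : 0 < m)
  set β : ℝ := (m : ℝ) ^ (m + 1) / n ^ (m + 2) with hβ
  have hβ0 : 0 < β := by positivity
  -- the walks of length m
  have c1 : β * ∑ c ∈ clos G m, TT G c ≤ (2 * m : ℝ) * ∑ c ∈ clos G m, wt G m (seqOf c) := by
    rw [← clos_avg G m (clos G m) (fun c hc j => mem_clos.2 (isCl_rot (mem_clos.1 hc) j))
      (fun c hc j => mem_clos.2 (isCl_rfl' (mem_clos.1 hc) j)) (fun c => wt G m (seqOf c)),
      mul_sum]
    exact sum_le_sum fun c hc => c_ineq hm ho hG (mem_clos.1 hc)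
  -- the walks of length m + 2 without chords
  set Z := (clos G (m + 2)).filter (fun k => ZC G k) with hZ
  have c2 : β * #Z ≤ (2 * (m + 2 : ℕ) : ℝ) * ∑ k ∈ Z, wtK G m (seqOf k) := by
    rw [← clos_avg G (m + 2) Z ?_ ?_ (fun c => wtK G m (seqOf c))]
    · rw [mul_comm, ← nsmul_eq_mul, ← sum_const]
      refine sum_le_sum fun k hk => ?_
      rw [hZ, mem_filter] at hk
      exact k_ineq hm ho hG (mem_clos.1 hk.1) hk.2
    · intro k hk j
      rw [hZ, mem_filter] at hk ⊢
      exact ⟨mem_clos.2 (isCl_rot (mem_clos.1 hk.1) j), zc_rot hk.2 j⟩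
    · intro k hk j
      rw [hZ, mem_filter] at hk ⊢
      exact ⟨mem_clos.2 (isCl_rfl' (mem_clos.1 hk.1) j), zc_rfl' hk.2 j⟩
  -- the walks with chords
  have c3 := chord_count (G := G) hm ho hG
  have c4 := proc' (G := G) hm ho hG
  have c5 : (#(clos G (m + 2)) : ℝ) = #Z + #((clos G (m + 2)).filter (fun k => ¬ ZC G k)) := by
    rw [hZ]; exact_mod_cast (card_filter_add_card_filter_not _).symm
  set W := ∑ c ∈ clos G m, wt G m (seqOf c)
  set W' := ∑ k ∈ Z, wtK G m (seqOf k)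
  set T := ∑ c ∈ clos G m, TT G c
  push_cast at c2
  have c6 : β * #((clos G (m + 2)).filter (fun k => ¬ ZC G k)) ≤ 2 * (m + 2) * W := by
    calc β * #((clos G (m + 2)).filter (fun k => ¬ ZC G k)) ≤ β * ((m + 2 : ℝ) / m * T) :=
          mul_le_mul_of_nonneg_left c3 hβ0.le
      _ = (m + 2 : ℝ) / m * (β * T) := by ring
      _ ≤ (m + 2 : ℝ) / m * (2 * m * W) := by gcongr
      _ = _ := by field_simp
  have c7 : β * #(clos G (m + 2)) ≤ 2 * (m + 2) := by
    rw [c5, mul_add]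
    calc β * #Z + β * #((clos G (m + 2)).filter (fun k => ¬ ZC G k))
        ≤ 2 * (m + 2) * W' + 2 * (m + 2) * W := add_le_add c2 c6
      _ = 2 * (m + 2) * (W + W') := by ring
      _ ≤ 2 * (m + 2) * 1 := by gcongr
      _ = _ := by ring
  rw [hβ, div_mul_eq_mul_div, div_le_iff₀ (by positivity)] at c7
  linarith

end Pool.Agent.CycGT
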