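import Pool.Agent.W_1bfdb5_h19.NegA

/-!
# The weighted blow-up of C_m with two large adjacent classes

* `HG_clos`: base pattern `p0 i = cl (i.val)`: classes `0, 1, 0, 1, ..., 0, 1, 2, 3, ..., m - 1`
  (with `j + 1` pairs `0, 1`).  The `2k` patterns `i ↦ p0 (t + i)`, `i ↦ p0 (t - i)`
  (`t : ZMod k`, `k = m + 2 j` odd) are patterns, they are pairwise distinct (the classes 2 and 3 appear
  exactly once in `p0`, at consecutive positions; `m ≥ 5`), and each has the product
  `(1 + j) ^ (2 j + 2)`.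

Use `cls_clos` of NegA.lean (it may be assumed): the sum over all patterns is at least the sum over
these `2k` patterns; `#{x | cl m j x = t}` is `1 + j` for `t = 0, 1` and `1` for the other `t`.
-/

namespace Pool.Agent.CycGT

open Finset
open scoped Classical

/-- Classes of the vertices `0, ..., m + 2 j - 1`: `j + 1` vertices in each of the classes 0, 1. -/
def cl (m j : ℕ) (i : Fin (m + 2 * j)) : ZMod m :=
  if (i : ℕ) < 2 * j + 2 then (((i : ℕ) % 2 : ℕ) : ZMod m) else (((i : ℕ) - 2 * j : ℕ) : ZMod m)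

/-- The weighted blow-up of `C_m` with two large adjacent classes. -/
def HG (m j : ℕ) : SimpleGraph (Fin (m + 2 * j)) := CG (cl m j)

/-- the base pattern -/
private def p0 (m j : ℕ) [NeZero (m + 2 * j)] (i : ZMod (m + 2 * j)) : ZMod m :=
  cl m j ⟨i.val, ZMod.val_lt i⟩

private lemma p0_lt (m j : ℕ) [NeZero (m + 2 * j)] (i : ZMod (m + 2 * j)) (h : i.val < 2 * j + 2) :
    p0 m j i = ((i.val % 2 : ℕ) : ZMod m) := by
  unfold p0 cl
  exact if_pos h

private lemma p0_ge (m j : ℕ) [NeZero (m + 2 * j)] (i : ZMod (m + 2 * j))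
    (h : ¬ i.val < 2 * j + 2) : p0 m j i = ((i.val - 2 * j : ℕ) : ZMod m) := by
  unfold p0 cl
  exact if_neg h

private lemma val_succ (m j : ℕ) [NeZero (m + 2 * j)] (hm : 5 ≤ m) (i : ZMod (m + 2 * j)) :
    (i.val + 1 < m + 2 * j ∧ (i + 1).val = i.val + 1) ∨
      (i.val + 1 = m + 2 * j ∧ (i + 1).val = 0) := by
  have h1 : (1 : ZMod (m + 2 * j)).val = 1 := by
    rw [ZMod.val_one'' (by omega)]
  have h2 := ZMod.val_lt i
  have h3 := ZMod.val_add i 1
  rw [h1] at h3
  rcases Nat.lt_or_ge (i.val + 1) (m + 2 * j) with h4 | h4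
  · exact Or.inl ⟨h4, by rw [h3, Nat.mod_eq_of_lt h4]⟩
  · have h5 : i.val + 1 = m + 2 * j := by omega
    exact Or.inr ⟨h5, by rw [h3, h5, Nat.mod_self]⟩

private lemma p0_step (m j : ℕ) [NeZero (m + 2 * j)] (hm : 5 ≤ m) (i : ZMod (m + 2 * j)) :
    p0 m j (i + 1) = p0 m j i + 1 ∨ p0 m j i = p0 m j (i + 1) + 1 := by
  rcases val_succ m j hm i with ⟨h1, h2⟩ | ⟨h1, h2⟩
  · by_cases h3 : i.val + 1 < 2 * j + 2
    · rw [p0_lt m j i (by omega), p0_lt m j (i + 1) (by omega), h2]
      rcases Nat.mod_two_eq_zero_or_one i.val with h4 | h4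
      · left
        have h5 : (i.val + 1) % 2 = 1 := by omega
        rw [h4, h5]
        simp
      · right
        have h5 : (i.val + 1) % 2 = 0 := by omega
        rw [h4, h5]
        simp
    · left
      rw [p0_ge m j (i + 1) (by omega), h2]
      by_cases h4 : i.val < 2 * j + 2
      · rw [p0_lt m j i h4]
        have h5 : i.val % 2 = 1 := by omega
        have h6 : i.val + 1 - 2 * j = 2 := by omega
        rw [h5, h6]
        push_cast
        norm_num
      · rw [p0_ge m j i h4]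
        have h6 : i.val + 1 - 2 * j = (i.val - 2 * j) + 1 := by omega
        rw [h6]
        push_cast
        ring
  · left
    rw [p0_lt m j (i + 1) (by omega), p0_ge m j i (by omega), h2]
    have h6 : i.val - 2 * j = m - 1 := by omega
    rw [h6, Nat.cast_sub (by omega)]
    simp

private lemma cast_inj (m a b : ℕ) (ha : a < m) (hb : b < m) (h : (a : ZMod m) = (b : ZMod m)) :
    a = b := by
  rw [ZMod.natCast_eq_natCast_iff] at h
  exact Nat.ModEq.eq_of_lt_of_lt h ha hb

private lemma p0_two (m j : ℕ) [NeZero (m + 2 * j)] (hm : 5 ≤ m) (i : ZMod (m + 2 * j))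
    (h : p0 m j i = ((2 : ℕ) : ZMod m)) : i.val = 2 * j + 2 := by
  by_cases h3 : i.val < 2 * j + 2
  · rw [p0_lt m j i h3] at h
    have := cast_inj m _ _ (by omega) (by omega) h
    omega
  · rw [p0_ge m j i h3] at h
    have h4 := ZMod.val_lt i
    have := cast_inj m _ _ (by omega) (by omega) h
    omega

private lemma p0_at (m j : ℕ) [NeZero (m + 2 * j)] (hm : 5 ≤ m) (n : ℕ) (hn : n < m + 2 * j) :
    ((n : ℕ) : ZMod (m + 2 * j)).val = n := ZMod.val_cast_of_lt hn

/-- the `2k` patterns -/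
private def fam (m j : ℕ) [NeZero (m + 2 * j)] (b : Bool × ZMod (m + 2 * j)) :
    ZMod (m + 2 * j) → ZMod m :=
  fun i => if b.1 then p0 m j (b.2 + i) else p0 m j (b.2 - i)

private lemma fam_t (m j : ℕ) [NeZero (m + 2 * j)] (t i : ZMod (m + 2 * j)) :
    fam m j (true, t) i = p0 m j (t + i) := by
  unfold fam
  simp

private lemma fam_f (m j : ℕ) [NeZero (m + 2 * j)] (t i : ZMod (m + 2 * j)) :
    fam m j (false, t) i = p0 m j (t - i) := by
  unfold fam
  simp

private lemma p0_a2 (m j : ℕ) [NeZero (m + 2 * j)] (hm : 5 ≤ m) :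
    p0 m j ((2 * j + 2 : ℕ) : ZMod (m + 2 * j)) = ((2 : ℕ) : ZMod m) := by
  have h1 := p0_at m j hm (2 * j + 2) (by omega)
  rw [p0_ge m j _ (by omega), h1]
  have : 2 * j + 2 - 2 * j = 2 := by omega
  rw [this]

private lemma p0_a3 (m j : ℕ) [NeZero (m + 2 * j)] (hm : 5 ≤ m) :
    p0 m j ((2 * j + 3 : ℕ) : ZMod (m + 2 * j)) = ((3 : ℕ) : ZMod m) := by
  have h1 := p0_at m j hm (2 * j + 3) (by omega)
  rw [p0_ge m j _ (by omega), h1]
  have : 2 * j + 3 - 2 * j = 3 := by omega
  rw [this]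

private lemma p0_a1 (m j : ℕ) [NeZero (m + 2 * j)] (hm : 5 ≤ m) :
    p0 m j ((2 * j + 1 : ℕ) : ZMod (m + 2 * j)) = ((1 : ℕ) : ZMod m) := by
  have h1 := p0_at m j hm (2 * j + 1) (by omega)
  rw [p0_lt m j _ (by omega), h1]
  have : (2 * j + 1) % 2 = 1 := by omega
  rw [this]

private lemma p0_uniq (m j : ℕ) [NeZero (m + 2 * j)] (hm : 5 ≤ m) (i : ZMod (m + 2 * j))
    (h : p0 m j i = ((2 : ℕ) : ZMod m)) : i = ((2 * j + 2 : ℕ) : ZMod (m + 2 * j)) := by
  have h1 := p0_two m j hm i h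
  rw [← h1, ZMod.natCast_zmod_val]

private lemma fam_cross (m j : ℕ) [NeZero (m + 2 * j)] (hm : 5 ≤ m) (t s : ZMod (m + 2 * j))
    (h : fam m j (true, t) = fam m j (false, s)) : False := by
  have h1 := congrFun h (((2 * j + 2 : ℕ) : ZMod (m + 2 * j)) - t)
  rw [fam_t, fam_f, add_sub_cancel, p0_a2 m j hm] at h1
  have h2 := p0_uniq m j hm _ h1.symm
  have h3 := congrFun h (((2 * j + 3 : ℕ) : ZMod (m + 2 * j)) - t)
  rw [fam_t, fam_f, add_sub_cancel, p0_a3 m j hm] at h3
  have h4 : s - (((2 * j + 3 : ℕ) : ZMod (m + 2 * j)) - t) = ((2 * j + 1 : ℕ) : ZMod (m + 2 * j)) := by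
    have h5 : s - (((2 * j + 3 : ℕ) : ZMod (m + 2 * j)) - t)
        = (s - (((2 * j + 2 : ℕ) : ZMod (m + 2 * j)) - t)) - 1 := by
      push_cast
      ring
    rw [h5, h2]
    push_cast
    ring
  rw [h4, p0_a1 m j hm] at h3
  have := cast_inj m _ _ (by omega) (by omega) h3
  omega

private lemma fam_inj (m j : ℕ) [NeZero (m + 2 * j)] (hm : 5 ≤ m) :
    Function.Injective (fam m j) := by
  rintro ⟨a, t⟩ ⟨b, s⟩ h
  cases a <;> cases b
  · have h1 := congrFun h (t - ((2 * j + 2 : ℕ) : ZMod (m + 2 * j)))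
    rw [fam_f, fam_f, sub_sub_cancel, p0_a2 m j hm] at h1
    have h2 := p0_uniq m j hm _ h1.symm
    have h3 : s = t := by
      linear_combination h2
    rw [h3]
  · exact (fam_cross m j hm s t h.symm).elim
  · exact (fam_cross m j hm t s h).elim
  · have h1 := congrFun h (((2 * j + 2 : ℕ) : ZMod (m + 2 * j)) - t)
    rw [fam_t, fam_t, add_sub_cancel, p0_a2 m j hm] at h1
    have h2 := p0_uniq m j hm _ h1.symm
    have h3 : s = t := by
      linear_combination h2
    rw [h3]

private lemma fam_mem (m j : ℕ) [NeZero m] [NeZero (m + 2 * j)] (hm : 5 ≤ m)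
    (b : Bool × ZMod (m + 2 * j)) : fam m j b ∈ pats (m + 2 * j) m := by
  obtain ⟨b, t⟩ := b
  rw [pats, mem_filter]
  refine ⟨mem_univ _, fun i => ?_⟩
  cases b
  · rw [fam_f, fam_f]
    have h1 := p0_step m j hm (t - (i + 1))
    have h2 : t - (i + 1) + 1 = t - i := by ring
    rw [h2] at h1
    exact h1.symm
  · rw [fam_t, fam_t]
    have h1 := p0_step m j hm (t + i)
    rw [add_assoc] at h1
    exact h1

private lemma cnt_one (m j : ℕ) [NeZero (m + 2 * j)] (i : ZMod (m + 2 * j)) :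
    1 ≤ #((univ : Finset (Fin (m + 2 * j))).filter (fun x => cl m j x = p0 m j i)) := by
  rw [Nat.one_le_iff_ne_zero, Finset.card_ne_zero]
  exact ⟨⟨i.val, ZMod.val_lt i⟩, by rw [mem_filter]; exact ⟨mem_univ _, rfl⟩⟩

private lemma cnt_big (m j : ℕ) [NeZero (m + 2 * j)] (hm : 5 ≤ m) (i : ZMod (m + 2 * j))
    (h : i.val < 2 * j + 2) :
    1 + j ≤ #((univ : Finset (Fin (m + 2 * j))).filter (fun x => cl m j x = p0 m j i)) := by
  have hj : 1 + j = #(univ : Finset (Fin (j + 1))) := by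
    rw [card_univ, Fintype.card_fin, add_comm]
  rw [hj]
  refine card_le_card_of_injOn
    (fun a : Fin (j + 1) => (⟨2 * a.val + i.val % 2, by have := a.2; omega⟩ : Fin (m + 2 * j)))
    ?_ ?_
  · intro a _
    have h2 := a.2
    rw [mem_coe, mem_filter]
    refine ⟨mem_univ _, ?_⟩
    rw [p0_lt m j i h]
    unfold cl
    have h3 : (2 * a.val + i.val % 2) < 2 * j + 2 := by omega
    have h4 : (2 * a.val + i.val % 2) % 2 = i.val % 2 := by omega
    simp only [h3, if_true, h4]
  · intro a _ b _ hab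
    have h3 := congrArg (fun x : Fin (m + 2 * j) => x.val) hab
    simp only at h3
    apply Fin.ext
    omega

private lemma prod_ge (m j : ℕ) [NeZero (m + 2 * j)] (hm : 5 ≤ m) :
    (1 + j) ^ (2 * j + 2) ≤ ∏ i : ZMod (m + 2 * j),
      #((univ : Finset (Fin (m + 2 * j))).filter (fun x => cl m j x = p0 m j i)) := by
  set S : Finset (ZMod (m + 2 * j)) := univ.filter (fun i => i.val < 2 * j + 2) with hS
  have hc : 2 * j + 2 ≤ #S := by
    have hj : 2 * j + 2 = #(range (2 * j + 2)) := by rw [card_range]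
    rw [hj]
    refine card_le_card_of_injOn (fun n : ℕ => (n : ZMod (m + 2 * j))) ?_ ?_
    · intro n hn
      rw [mem_coe, mem_range] at hn
      rw [mem_coe, hS, mem_filter]
      refine ⟨mem_univ _, ?_⟩
      rw [p0_at m j hm n (by omega)]
      exact hn
    · intro a ha b hb hab
      rw [mem_coe, mem_range] at ha hb
      exact cast_inj (m + 2 * j) a b (by omega) (by omega) hab
  calc (1 + j) ^ (2 * j + 2) ≤ (1 + j) ^ (#S) := Nat.pow_le_pow_right (by omega) hc
    _ = ∏ _i ∈ S, (1 + j) := by rw [prod_const]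
    _ ≤ ∏ i ∈ S, #((univ : Finset (Fin (m + 2 * j))).filter (fun x => cl m j x = p0 m j i)) := by
        refine prod_le_prod' fun i hi => ?_
        rw [hS, mem_filter] at hi
        exact cnt_big m j hm i hi.2
    _ ≤ _ := by
        refine prod_le_prod_of_subset_of_one_le' (subset_univ _) ?_
        intro i _ _
        exact cnt_one m j i

private lemma prod_fam (m j : ℕ) [NeZero (m + 2 * j)] (hm : 5 ≤ m)
    (b : Bool × ZMod (m + 2 * j)) :
    (1 + j) ^ (2 * j + 2) ≤ ∏ i : ZMod (m + 2 * j),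
      #((univ : Finset (Fin (m + 2 * j))).filter (fun x => cl m j x = fam m j b i)) := by
  refine (prod_ge m j hm).trans (le_of_eq ?_)
  obtain ⟨b, t⟩ := b
  cases b
  · refine Eq.symm ?_
    refine Fintype.prod_equiv (Equiv.subLeft t) _ _ fun i => ?_
    rw [fam_f, Equiv.subLeft_apply]
  · refine Eq.symm ?_
    refine Fintype.prod_equiv (Equiv.addLeft t) _ _ fun i => ?_
    rw [fam_t, Equiv.coe_addLeft]

theorem HG_clos (m j : ℕ) [NeZero (m + 2 * j)] (hm : 5 ≤ m) (ho : Odd m) :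
    2 * (m + 2 * j) * (1 + j) ^ (2 * j + 2) ≤ #(clos (HG m j) (m + 2 * j)) := by
  haveI : NeZero m := ⟨by omega⟩
  have h1 := cls_clos (k := m + 2 * j) (m := m) (by omega) (cl m j)
  unfold HG
  rw [h1]
  have h2 : (univ.image (fam m j)) ⊆ pats (m + 2 * j) m := by
    intro p hp
    rw [mem_image] at hp
    obtain ⟨b, _, rfl⟩ := hp
    exact fam_mem m j hm b
  refine le_trans ?_ (sum_le_sum_of_subset h2)
  rw [sum_image (fun a _ b _ h => fam_inj m j hm h)]
  have h3 : 2 * (m + 2 * j) * (1 + j) ^ (2 * j + 2)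
      = ∑ _b : Bool × ZMod (m + 2 * j), (1 + j) ^ (2 * j + 2) := by
    rw [sum_const, card_univ, Fintype.card_prod, Fintype.card_bool, ZMod.card, smul_eq_mul]
  rw [h3]
  exact sum_le_sum fun b _ => prod_fam m j hm b

end Pool.Agent.CycGT
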