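import Pool.Agent.W_1bfdb5_h19.NegB

/-! See the comment at the head of NegB.lean. -/

namespace Pool.Agent.CycGT

/-- `e n^(n+1) ≤ (n+1)^(n+1)`. -/
private theorem pps_low (n : ℕ) (hn : 1 ≤ n) :
    Real.exp 1 * ((n : ℝ) * (n : ℝ) ^ n) ≤ ((n : ℝ) + 1) ^ (n + 1) := by
  have hnR : (0 : ℝ) < n := by exact_mod_cast hn
  have h1 : Real.exp (1 / ((n : ℝ) + 1)) ≤ ((n : ℝ) + 1) / n := by
    have h2 : Real.log ((n : ℝ) / (n + 1)) ≤ (n : ℝ) / (n + 1) - 1 :=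
      Real.log_le_sub_one_of_pos (by positivity)
    have h3 : 1 / ((n : ℝ) + 1) ≤ Real.log (((n : ℝ) + 1) / n) := by
      have h5 : Real.log (((n : ℝ) + 1) / n) = -Real.log ((n : ℝ) / (n + 1)) := by
        rw [← Real.log_inv, inv_div]
      rw [h5]
      have h4 : (n : ℝ) / (n + 1) - 1 = -(1 / ((n : ℝ) + 1)) := by
        field_simp
        ring
      rw [h4] at h2
      linarith
    calc Real.exp (1 / ((n : ℝ) + 1)) ≤ Real.exp (Real.log (((n : ℝ) + 1) / n)) :=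
          Real.exp_le_exp.2 h3
      _ = ((n : ℝ) + 1) / n := Real.exp_log (by positivity)
  have h5 : Real.exp 1 ≤ (((n : ℝ) + 1) / n) ^ (n + 1) := by
    calc Real.exp 1 = Real.exp (1 / ((n : ℝ) + 1)) ^ (n + 1) := by
          rw [← Real.exp_nat_mul]
          congr 1
          push_cast
          field_simp
      _ ≤ (((n : ℝ) + 1) / n) ^ (n + 1) := pow_le_pow_left₀ (Real.exp_pos _).le h1 _
  calc Real.exp 1 * ((n : ℝ) * (n : ℝ) ^ n) = Real.exp 1 * (n : ℝ) ^ (n + 1) := by ring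
    _ ≤ (((n : ℝ) + 1) / n) ^ (n + 1) * (n : ℝ) ^ (n + 1) :=
        mul_le_mul_of_nonneg_right h5 (by positivity)
    _ = ((n : ℝ) + 1) ^ (n + 1) := by
        rw [← mul_pow]
        congr 1
        field_simp

/-- `(k+2)^k ≤ e^2 k^k`. -/
private theorem pps_up (k : ℕ) (hk : 1 ≤ k) :
    ((k : ℝ) + 2) ^ k ≤ Real.exp 1 ^ 2 * (k : ℝ) ^ k := by
  have hkR : (0 : ℝ) < k := by exact_mod_cast hk
  have h1 : ((k : ℝ) + 2) / k ≤ Real.exp (2 / k) := by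
    have := Real.add_one_le_exp (2 / (k : ℝ))
    have h2 : ((k : ℝ) + 2) / k = 2 / k + 1 := by
      field_simp
      ring
    rw [h2]
    exact this
  have h3 : (((k : ℝ) + 2) / k) ^ k ≤ Real.exp 1 ^ 2 := by
    calc (((k : ℝ) + 2) / k) ^ k ≤ Real.exp (2 / k) ^ k :=
          pow_le_pow_left₀ (by positivity) h1 _
      _ = Real.exp 1 ^ 2 := by
          rw [← Real.exp_nat_mul, ← Real.exp_nat_mul]
          congr 1
          field_simp
          norm_num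
  calc ((k : ℝ) + 2) ^ k = (((k : ℝ) + 2) / k) ^ k * (k : ℝ) ^ k := by
        rw [← mul_pow]
        congr 1
        field_simp
    _ ≤ Real.exp 1 ^ 2 * (k : ℝ) ^ k := mul_le_mul_of_nonneg_right h3 (by positivity)

theorem PP_step (m j : ℕ) (hm : 1 ≤ m) (hj : 1 ≤ j)
    (h : (m + 2 * j + 2) ^ 4 ≤ (j + 1) ^ 2 * j * m ^ 2 * (m + j)) (hP : PP m j) :
    PP m (j + 1) := by
  unfold PP at hP ⊢
  have hmR : (0 : ℝ) < (m : ℝ) := by exact_mod_cast hm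
  have hjR : (0 : ℝ) < (j : ℝ) := by exact_mod_cast hj
  have A1 := pps_low (j + 1) (by omega)
  have A2 := pps_low j hj
  have A3 := pps_low (m + j) (by omega)
  have A4 := pps_up (m + 2 * j) (by omega)
  have hR : ((m : ℝ) + 2 * j + 2) ^ 4 ≤ ((j : ℝ) + 1) ^ 2 * j * m ^ 2 * (m + j) := by
    exact_mod_cast h
  have hPR : ((m : ℝ) + 2 * j) ^ (2 * (m + 2 * j)) <
      (1 + (j : ℝ)) ^ (2 * j + 2) * (j : ℝ) ^ j * (m : ℝ) ^ (m + 2 * j) *
        ((m : ℝ) + j) ^ (m + j) := by exact_mod_cast hP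
  push_cast at A1 A2 A3 A4
  set e : ℝ := Real.exp 1 with he
  have he0 : 0 < e := Real.exp_pos 1
  set a : ℝ := ((j : ℝ) + 1) ^ (j + 1) with ha
  set b : ℝ := ((j : ℝ) + 1 + 1) ^ (j + 1 + 1) with hb
  set c : ℝ := (j : ℝ) ^ j with hc
  set p : ℝ := ((m : ℝ) + j) ^ (m + j) with hp
  set q : ℝ := ((m : ℝ) + j + 1) ^ (m + j + 1) with hq
  set M : ℝ := (m : ℝ) ^ (m + 2 * j) with hM
  set K : ℝ := ((m : ℝ) + 2 * j) ^ (m + 2 * j) with hK
  set K' : ℝ := ((m : ℝ) + 2 * j + 2) ^ (m + 2 * j) with hK'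
  have ha0 : 0 < a := by positivity
  have hb0 : 0 < b := by positivity
  have hc0 : 0 < c := by positivity
  have hp0 : 0 < p := by positivity
  have hq0 : 0 < q := by positivity
  have hM0 : 0 < M := by positivity
  have hK0 : 0 < K := by positivity
  have hK'0 : 0 < K' := by positivity
  have e1 : ((m : ℝ) + 2 * j) ^ (2 * (m + 2 * j)) = K ^ 2 := by
    rw [hK, ← pow_mul]; congr 1; ring
  have e2 : (1 + (j : ℝ)) ^ (2 * j + 2) = a ^ 2 := by
    rw [ha, ← pow_mul, add_comm (1 : ℝ) (j : ℝ)]; congr 1; ring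
  rw [e1, e2] at hPR
  have key : ((m : ℝ) + 2 * (j + 1)) ^ (2 * (m + 2 * (j + 1))) <
      (1 + ((j : ℝ) + 1)) ^ (2 * (j + 1) + 2) * ((j : ℝ) + 1) ^ (j + 1) *
        (m : ℝ) ^ (m + 2 * (j + 1)) * ((m : ℝ) + (j + 1)) ^ (m + (j + 1)) := by
    have f1 : ((m : ℝ) + 2 * (j + 1)) ^ (2 * (m + 2 * (j + 1))) =
        ((m : ℝ) + 2 * j + 2) ^ 4 * K' ^ 2 := by
      rw [hK', ← pow_mul, ← pow_add]
      have : (m : ℝ) + 2 * (j + 1) = (m : ℝ) + 2 * j + 2 := by ring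
      rw [this]
      congr 1
      ring
    have f2 : (1 + ((j : ℝ) + 1)) ^ (2 * (j + 1) + 2) = b ^ 2 := by
      rw [hb, ← pow_mul]
      have : 1 + ((j : ℝ) + 1) = (j : ℝ) + 1 + 1 := by ring
      rw [this]
      congr 1
      ring
    have f3 : (m : ℝ) ^ (m + 2 * (j + 1)) = M * m ^ 2 := by
      rw [hM, ← pow_add]
      congr 1
    have f4 : ((m : ℝ) + (j + 1)) ^ (m + (j + 1)) = q := by
      rw [hq]
      have : (m : ℝ) + (j + 1) = (m : ℝ) + j + 1 := by ring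
      rw [this]
      congr 1
    rw [f1, f2, f3, f4]
    have g1 : K' ^ 2 ≤ (e ^ 2 * K) ^ 2 := pow_le_pow_left₀ hK'0.le A4 2
    have g2 : (e * ((j + 1) * a)) ^ 2 ≤ b ^ 2 := by
      refine pow_le_pow_left₀ (by positivity) ?_ 2
      exact A1
    have hk4 : 0 < ((m : ℝ) + 2 * j + 2) ^ 4 := by positivity
    calc ((m : ℝ) + 2 * j + 2) ^ 4 * K' ^ 2
        ≤ ((m : ℝ) + 2 * j + 2) ^ 4 * (e ^ 2 * K) ^ 2 := mul_le_mul_of_nonneg_left g1 hk4.le
      _ = (((m : ℝ) + 2 * j + 2) ^ 4 * e ^ 4) * K ^ 2 := by ring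
      _ < (((m : ℝ) + 2 * j + 2) ^ 4 * e ^ 4) * (a ^ 2 * c * M * p) :=
          mul_lt_mul_of_pos_left hPR (by positivity)
      _ = ((m : ℝ) + 2 * j + 2) ^ 4 * (e ^ 4 * (a ^ 2 * c * M * p)) := by ring
      _ ≤ (((j : ℝ) + 1) ^ 2 * j * m ^ 2 * (m + j)) * (e ^ 4 * (a ^ 2 * c * M * p)) :=
          mul_le_mul_of_nonneg_right hR (by positivity)
      _ = (e * ((j + 1) * a)) ^ 2 * (e * (j * c)) * (M * m ^ 2) * (e * ((m + j) * p)) := by ring
      _ ≤ b ^ 2 * a * (M * m ^ 2) * q := by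
          gcongr
  exact_mod_cast key

end Pool.Agent.CycGT
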