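import Pool.Agent.W_1bfdb5_h19.NegB2
import Pool.Agent.W_1bfdb5_h19.NegB3

/-! See the comment at the head of NegB.lean. -/

namespace Pool.Agent.CycGT

/-- Induction on `j` from a starting value. -/
private theorem ppa_ind (m j₀ : ℕ) (hm : 1 ≤ m)
    (h₀ : 7 ≤ m ∧ 27 * (m + 2 * j₀) ≤ j₀ ^ 3 ∧ 33 ≤ m + 2 * j₀ ∨ m = 5 ∧ 27 ≤ j₀)
    (hP : PP m j₀) (j : ℕ) (hj : j₀ ≤ j) : PP m j := by
  have key : (7 ≤ m ∧ 27 * (m + 2 * j) ≤ j ^ 3 ∧ 33 ≤ m + 2 * j ∨ m = 5 ∧ 27 ≤ j) ∧ PP m j := by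
    induction j, hj using Nat.le_induction with
    | base => exact ⟨h₀, hP⟩
    | succ n _ ih =>
      obtain ⟨h, hPn⟩ := ih
      have hn : 4 ≤ n := by
        rcases h with ⟨h1, h2, _⟩ | ⟨_, h2⟩
        · by_contra hcon
          have h3 : n ≤ 3 := by omega
          have h4 : n ^ 3 ≤ 3 ^ 3 := Nat.pow_le_pow_left h3 3
          omega
        · omega
      refine ⟨?_, PP_step m n hm (by omega) (poly_ineq m n h) hPn⟩
      rcases h with ⟨h1, h2, h3⟩ | ⟨h1, h2⟩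
      · refine Or.inl ⟨h1, ?_, by omega⟩
        have h4 : 4 * n ≤ n * n := Nat.mul_le_mul_right _ hn
        have h5 : (n + 1) ^ 3 = n ^ 3 + 3 * (n * n) + 3 * n + 1 := by ring
        rw [h5]
        omega
      · exact Or.inr ⟨h1, by omega⟩
  exact key.2

/-- The base conditions at `j`. -/
private def ppa_ok (m j : ℕ) : Bool := decide (27 * (m + 2 * j) ≤ j ^ 3) && decide (33 ≤ m + 2 * j)

private def ppa_test (m j : ℕ) : Bool := ppa_ok m j &&
    decide ((m + 2 * j) ^ (2 * (m + 2 * j)) <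
        (1 + j) ^ (2 * j + 2) * j ^ j * m ^ (m + 2 * j) * (m + j) ^ (m + j)) &&
      (List.range j).all fun i => !ppa_ok m i

/-- The finite base check. -/
private theorem ppa_base : ((List.range 45).all fun i =>
    (List.range 17).any fun j => ppa_test (2 * i + 7) j) = true := by
  decide +kernel

private theorem ppa_base' (m : ℕ) (ho : m % 2 = 1) (h7 : 7 ≤ m) (h : m < 96) :
    ∃ j₀, (27 * (m + 2 * j₀) ≤ j₀ ^ 3 ∧ 33 ≤ m + 2 * j₀) ∧ PP m j₀ ∧
      ∀ j < j₀, ¬ (27 * (m + 2 * j) ≤ j ^ 3 ∧ 33 ≤ m + 2 * j) := by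
  have h1 := List.all_eq_true.1 ppa_base ((m - 7) / 2) (List.mem_range.2 (by omega))
  obtain ⟨j, _, hj⟩ := List.any_eq_true.1 h1
  have h2 : 2 * ((m - 7) / 2) + 7 = m := by omega
  rw [h2] at hj
  unfold ppa_test ppa_ok at hj
  simp only [Bool.and_eq_true, decide_eq_true_eq, List.all_eq_true, List.mem_range,
    Bool.not_eq_true', Bool.and_eq_false_iff, decide_eq_false_iff_not] at hj
  obtain ⟨⟨h3, h4⟩, h5⟩ := hj
  refine ⟨j, h3, h4, fun i hi hcon => ?_⟩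
  rcases h5 i hi with h6 | h6
  · exact h6 hcon.1
  · exact h6 hcon.2

private theorem ppa_five : (5 + 2 * 27) ^ (2 * (5 + 2 * 27)) <
    (1 + 27) ^ (2 * 27 + 2) * 27 ^ 27 * 5 ^ (5 + 2 * 27) * (5 + 27) ^ (5 + 27) := by
  decide +kernel

theorem PP_all (m j : ℕ) (ho : Odd m)
    (h : 7 ≤ m ∧ 27 * (m + 2 * j) ≤ j ^ 3 ∧ 33 ≤ m + 2 * j ∨ m = 5 ∧ 27 ≤ j) : PP m j := by
  rcases h with ⟨h1, h2, h3⟩ | ⟨rfl, h2⟩
  · rcases lt_or_ge m 96 with hm | hm
    · obtain ⟨j₀, ⟨ha, hb⟩, hP, hmin⟩ := ppa_base' m (Nat.odd_iff.1 ho) h1 hm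
      refine ppa_ind m j₀ (by omega) (Or.inl ⟨h1, ha, hb⟩) hP j ?_
      by_contra hcon
      exact hmin j (by omega) ⟨h2, h3⟩
    · rcases le_or_gt (8 * j) (m + 2 * j) with h4 | h4
      · exact PP_far m j h2 h4 (by omega)
      · obtain ⟨i, hi⟩ : ∃ i, m / 6 = i := ⟨_, rfl⟩
        have hi16 : 16 ≤ i := by omega
        have h5 : 27 * (m + 2 * i) ≤ i ^ 3 := by
          have h6 : m ≤ 6 * i + 5 := by omega
          have h7 : 256 * i ≤ i ^ 3 := by
            have h8 : 16 * 16 ≤ i * i := Nat.mul_le_mul hi16 hi16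
            calc 256 * i = (16 * 16) * i := by norm_num
              _ ≤ (i * i) * i := Nat.mul_le_mul_right _ h8
              _ = i ^ 3 := by ring
          omega
        exact ppa_ind m i (by omega) (Or.inl ⟨h1, h5, by omega⟩)
          (PP_far m i h5 (by omega) (by omega)) j (by omega)
  · exact ppa_ind 5 27 (by omega) (Or.inr ⟨rfl, le_rfl⟩) ppa_five j h2

end Pool.Agent.CycGT
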