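import Mathlib

/-!
# The inequality behind the failure of the balanced blow-up

`PP m j`: `(m + 2j)^(2(m + 2j)) < (1 + j)^(2j+2) j^j m^(m+2j) (m + j)^(m+j)`.
Write `k = m + 2 j`.

* `PP_far` (`8 j ≤ k`, `27 k ≤ j^3`): take logarithms, divide by `j`, `t = j / k ≤ 1/8`:
  `(2j+2) log (1+j) + j log j - j log k ≥ j log (j^3 / k) ≥ j log 27`,
  `k log (1 - 2t) ≥ - j (2 + 2t + (8/3) t^2 / (1 - 2t))`,
  `(k - j) log (1 - t) ≥ - j (1 - t/2)`, the sum of the last two is at least `- 3.2434 j`, and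
  `log 27 = 3.29...` (it is enough that `log 3 > 1.0812`).
* `PP_step`: by `(1 + 1/n)^(n+1) ≥ e ≥ (1 + 1/n)^n` the quotient of the right sides is at least
  `e^4 (j+1)^2 j m^2 (m + j)` and the quotient of the left sides is at most `e^4 (m + 2j + 2)^4`.
* `poly_ineq`: for `j ≤ m` use `j^3 ≥ 27 k`, `27 m^2 (m + j) ≥ 2 k^3` and `(1 + 2/k)^4 ≤ 2`; for `j > m`
  compare with `m = 7` (all terms are explicit polynomials; for `m = 5` it is a polynomial in `j`).
* `PP_base`: for odd `m` between 7 and 95 let `j` be the smallest number with `27 (m + 2j) ≤ j^3`,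
  `33 ≤ m + 2j`: `PP m j` by evaluation (`decide +kernel` on natural numbers).
* `PP_all`: for `m ≤ 95` induction from the base.  For `m ≥ 97`: if `8 j ≤ k`, `PP_far`; otherwise
  `m < 6 j`, induction from `j₁ = m / 6`, which satisfies `27 (m + 2 j₁) ≤ j₁^3`, `8 j₁ ≤ m + 2 j₁`.
-/

namespace Pool.Agent.CycGT

/-- The inequality. -/
def PP (m j : ℕ) : Prop :=
  (m + 2 * j) ^ (2 * (m + 2 * j)) <
    (1 + j) ^ (2 * j + 2) * j ^ j * m ^ (m + 2 * j) * (m + j) ^ (m + j)

private theorem ppf_log3 : (3.29 : ℝ) < Real.log 27 := by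
  have h1 : Real.log ((2 : ℝ) ^ 19) < Real.log ((3 : ℝ) ^ 12) :=
    Real.log_lt_log (by norm_num) (by norm_num)
  rw [Real.log_pow, Real.log_pow] at h1
  have h2 := Real.log_two_gt_d9
  have h3 : Real.log 27 = 3 * Real.log 3 := by
    rw [show (27 : ℝ) = 3 ^ 3 by norm_num, Real.log_pow]
    norm_num
  rw [h3]
  push_cast at h1
  linarith

/-- Lower bound of `log (1 - x)`. -/
private theorem ppf_log (x : ℝ) (h0 : 0 ≤ x) (h1 : x < 1) :
    -(x + x ^ 2 / 2 + x ^ 3 / 3) - x ^ 4 / (1 - x) ≤ Real.log (1 - x) := by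
  have h := Real.abs_log_sub_add_sum_range_le (x := x) (by rw [abs_of_nonneg h0]; exact h1) 3
  rw [abs_of_nonneg h0] at h
  have h2 := (abs_le.1 h).1
  have h3 : (∑ i ∈ Finset.range 3, x ^ (i + 1) / ((i : ℝ) + 1)) = x + x ^ 2 / 2 + x ^ 3 / 3 := by
    simp only [Finset.sum_range_succ, Finset.sum_range_zero]
    norm_num
  rw [h3] at h2
  linarith

theorem PP_far (m j : ℕ) (h1 : 27 * (m + 2 * j) ≤ j ^ 3) (h2 : 8 * j ≤ m + 2 * j)
    (hm : 0 < m) : PP m j := by
  have hj : 0 < j := by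
    rcases Nat.eq_zero_or_pos j with h | h
    · subst h
      simp at h1
      omega
    · exact h
  have hmR : (0 : ℝ) < (m : ℝ) := by exact_mod_cast hm
  have hjR : (0 : ℝ) < (j : ℝ) := by exact_mod_cast hj
  have hkR : (0 : ℝ) < (m : ℝ) + 2 * j := by positivity
  have e1 : 27 * ((m : ℝ) + 2 * j) ≤ (j : ℝ) ^ 3 := by exact_mod_cast h1
  have e2 : 8 * (j : ℝ) ≤ (m : ℝ) + 2 * j := by exact_mod_cast h2
  unfold PP
  have key : ((m : ℝ) + 2 * j) ^ (2 * (m + 2 * j)) <
      (1 + (j : ℝ)) ^ (2 * j + 2) * (j : ℝ) ^ j * (m : ℝ) ^ (m + 2 * j) *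
        ((m : ℝ) + j) ^ (m + j) := by
    rw [← Real.log_lt_log_iff (by positivity) (by positivity)]
    rw [Real.log_mul (by positivity) (by positivity), Real.log_mul (by positivity) (by positivity),
      Real.log_mul (by positivity) (by positivity), Real.log_pow, Real.log_pow, Real.log_pow,
      Real.log_pow, Real.log_pow]
    push_cast
    -- notation
    set K : ℝ := (m : ℝ) + 2 * j with hK
    set t : ℝ := (j : ℝ) / K with ht
    have htK : K * t = j := by rw [ht]; field_simp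
    have ht0 : 0 < t := by positivity
    have ht8 : t ≤ 1 / 8 := by
      rw [ht, div_le_iff₀ hkR]
      linarith
    have hm' : (m : ℝ) = K * (1 - 2 * t) := by
      have : K * (1 - 2 * t) = K - 2 * (K * t) := by ring
      rw [this, htK, hK]; ring
    have hmj : (m : ℝ) + j = K * (1 - t) := by
      have : K * (1 - t) = K - K * t := by ring
      rw [this, htK, hK]; ring
    have l1 : Real.log (m : ℝ) = Real.log K + Real.log (1 - 2 * t) := by
      rw [hm', Real.log_mul hkR.ne' (by linarith)]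
    have l2 : Real.log ((m : ℝ) + j) = Real.log K + Real.log (1 - t) := by
      rw [hmj, Real.log_mul hkR.ne' (by linarith)]
    have l3 : Real.log (j : ℝ) ≤ Real.log (1 + (j : ℝ)) :=
      Real.log_le_log hjR (by linarith)
    have l3' : 0 < Real.log (1 + (j : ℝ)) := Real.log_pos (by linarith)
    have l4 : 3.29 + Real.log K ≤ 3 * Real.log (j : ℝ) := by
      have h := Real.log_le_log (by positivity) e1
      rw [Real.log_mul (by norm_num) hkR.ne', Real.log_pow] at h
      have := ppf_log3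
      push_cast at h
      linarith
    have g1 := ppf_log (2 * t) (by linarith) (by linarith)
    have g2 := ppf_log t (by linarith) (by linarith)
    have g1' : -(2 * t + 2 * t ^ 2 + (8 / 3) * t ^ 3 + (64 / 3) * t ^ 4) ≤ Real.log (1 - 2 * t) := by
      have : (2 * t) ^ 4 / (1 - 2 * t) ≤ (64 / 3) * t ^ 4 := by
        rw [div_le_iff₀ (by linarith)]
        have h4 : 0 ≤ t ^ 4 := by positivity
        nlinarith
      nlinarith
    have g2' : -t + t ^ 2 / 2 ≤ (1 - t) * Real.log (1 - t) := by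
      have h := mul_le_mul_of_nonneg_left g2 (show (0 : ℝ) ≤ 1 - t by linarith)
      have h5 : (1 - t) * (-(t + t ^ 2 / 2 + t ^ 3 / 3) - t ^ 4 / (1 - t)) =
          -t + t ^ 2 / 2 + t ^ 3 / 6 - 2 / 3 * t ^ 4 := by
        have : (1 - t) ≠ 0 := by linarith
        field_simp
        ring
      rw [h5] at h
      have h6 : 0 ≤ t ^ 3 * (1 / 6 - 2 / 3 * t) := by
        apply mul_nonneg (by positivity); linarith
      nlinarith
    -- main
    have A1 : -(j : ℝ) * (2 + 2 * t + 8 / 3 * t ^ 2 + 64 / 3 * t ^ 3) ≤ K * Real.log (1 - 2 * t) := by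
      have h := mul_le_mul_of_nonneg_left g1' hkR.le
      have h7 : K * -(2 * t + 2 * t ^ 2 + (8 / 3) * t ^ 3 + (64 / 3) * t ^ 4) =
          -(K * t) * (2 + 2 * t + 8 / 3 * t ^ 2 + 64 / 3 * t ^ 3) := by ring
      rw [h7, htK] at h
      exact h
    have A2 : -(j : ℝ) * (1 - t / 2) ≤ ((m : ℝ) + j) * Real.log (1 - t) := by
      have h := mul_le_mul_of_nonneg_left g2' hkR.le
      have h8 : K * (-t + t ^ 2 / 2) = -(K * t) * (1 - t / 2) := by ring
      rw [h8, htK] at h
      rw [hmj]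
      calc -(j : ℝ) * (1 - t / 2) ≤ K * ((1 - t) * Real.log (1 - t)) := h
        _ = K * (1 - t) * Real.log (1 - t) := by ring
    have B : 2 + 2 * t + 8 / 3 * t ^ 2 + 64 / 3 * t ^ 3 + (1 - t / 2) ≤ 3.28 := by
      have b2 : t ^ 2 ≤ 1 / 64 := by nlinarith
      have b3 : t ^ 3 ≤ 1 / 512 := by
        have : t ^ 3 = t * t ^ 2 := by ring
        rw [this]; nlinarith [sq_nonneg t]
      norm_num
      linarith
    have C : 3.29 * (j : ℝ) + (j : ℝ) * Real.log K ≤ 3 * ((j : ℝ) * Real.log (j : ℝ)) := by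
      have h := mul_le_mul_of_nonneg_left l4 hjR.le
      linarith
    have D : 2 * ((j : ℝ) * Real.log (j : ℝ)) ≤ 2 * ((j : ℝ) * Real.log (1 + (j : ℝ))) := by
      have h := mul_le_mul_of_nonneg_left l3 hjR.le
      linarith
    have E : (j : ℝ) * (2 + 2 * t + 8 / 3 * t ^ 2 + 64 / 3 * t ^ 3 + (1 - t / 2)) ≤ 3.28 * j := by
      have h := mul_le_mul_of_nonneg_left B hjR.le
      linarith
    rw [l1, l2]
    have F : (m : ℝ) + j = K - j := by rw [hK]; ring
    have G : ((m : ℝ) + j) * (Real.log K + Real.log (1 - t)) =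
        K * Real.log K - j * Real.log K + ((m : ℝ) + j) * Real.log (1 - t) := by
      rw [mul_add]
      nth_rewrite 1 [F]
      ring
    rw [G]
    nlinarith
  exact_mod_cast key

end Pool.Agent.CycGT
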