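import Pool.Agent.W_1bfdb5_h19.ExDef
import Pool.Agent.W_1bfdb5_h19.NegB

/-!
# Upper bounds for the coefficient c_{k,l}

* `cKL_lt_of_PP`: `k = m + 2 j`, `l = m - 2`.  Every term of the sum is
  `k.choose ((k - i m) / 2) ≤ k.choose j` (`i ≥ 1` odd, `(k - i m) / 2 ≤ j ≤ k / 2`), and there are at most
  `k / m` terms, so `cKL k l ≤ k.choose j / m ^ k`.  From `(j + (m + j)) ^ k` expanded by the binomial
  theorem, `k.choose j * j ^ j * (m + j) ^ (m + j) ≤ k ^ k`.  With `PP m j` this gives the claim.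
* `cKL_three`: rewrite the sum over the filter as a sum over a list.
* `mid_check`, `sm` below are finite computations.
-/

namespace Pool.Agent.CycGT

open Finset
open scoped Classical

private theorem NegC_mono (k : ℕ) {a b : ℕ} (hab : a ≤ b) (hb : b ≤ k / 2) :
    k.choose a ≤ k.choose b := by
  induction b, hab using Nat.le_induction with
  | base => exact le_rfl
  | succ b _ ih => exact (ih (by omega)).trans (Nat.choose_le_succ_of_lt_half_left (by omega))

private theorem NegC_binom (m j : ℕ) :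
    (m + 2 * j).choose j * j ^ j * (m + j) ^ (m + j) ≤ (m + 2 * j) ^ (m + 2 * j) := by
  have h1 := add_pow j (m + j) (m + 2 * j)
  have h2 : j + (m + j) = m + 2 * j := by ring
  rw [h2] at h1
  rw [h1]
  have h3 : j ^ j * (m + j) ^ (m + 2 * j - j) * (m + 2 * j).choose j ≤
      ∑ i ∈ range (m + 2 * j + 1), j ^ i * (m + j) ^ (m + 2 * j - i) * (m + 2 * j).choose i :=
    single_le_sum (f := fun i => j ^ i * (m + j) ^ (m + 2 * j - i) * (m + 2 * j).choose i)
      (fun i _ => Nat.zero_le _) (mem_range.2 (by omega))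
  have h4 : m + 2 * j - j = m + j := by omega
  rw [h4] at h3
  calc (m + 2 * j).choose j * j ^ j * (m + j) ^ (m + j)
      = j ^ j * (m + j) ^ (m + j) * (m + 2 * j).choose j := by ring
    _ ≤ _ := h3

private theorem NegC_key (m j : ℕ) (hm : 5 ≤ m) (hj : 1 ≤ j) (hP : PP m j) :
    (m + 2 * j).choose j * (m + 2 * j) ^ (m + 2 * j) < (1 + j) ^ (2 * j + 2) * m ^ (m + 2 * j) := by
  have h0 : 0 < j ^ j * (m + j) ^ (m + j) := by positivity
  refine lt_of_mul_lt_mul_right ?_ h0.le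
  calc (m + 2 * j).choose j * (m + 2 * j) ^ (m + 2 * j) * (j ^ j * (m + j) ^ (m + j))
      = (m + 2 * j) ^ (m + 2 * j) * ((m + 2 * j).choose j * j ^ j * (m + j) ^ (m + j)) := by ring
    _ ≤ (m + 2 * j) ^ (m + 2 * j) * (m + 2 * j) ^ (m + 2 * j) :=
        Nat.mul_le_mul_left _ (NegC_binom m j)
    _ = (m + 2 * j) ^ (2 * (m + 2 * j)) := by rw [← pow_add]; congr 1; ring
    _ < (1 + j) ^ (2 * j + 2) * j ^ j * m ^ (m + 2 * j) * (m + j) ^ (m + j) := hP
    _ = (1 + j) ^ (2 * j + 2) * m ^ (m + 2 * j) * (j ^ j * (m + j) ^ (m + j)) := by ring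

theorem cKL_lt_of_PP (m j : ℕ) (hm : 5 ≤ m) (ho : Odd m) (hj : 1 ≤ j) (hP : PP m j) :
    cKL (m + 2 * j) (m - 2) <
      (1 + (j : ℝ)) ^ (2 * j + 2) / ((m + 2 * j : ℕ) : ℝ) ^ (m + 2 * j) := by
  have hl : m - 2 + 2 = m := by omega
  have hlr : ((m - 2 : ℕ) : ℝ) + 2 = (m : ℝ) := by exact_mod_cast congrArg (Nat.cast (R := ℝ)) hl
  have hm0 : (0 : ℝ) < m := by exact_mod_cast (show 0 < m by omega)
  have hk0 : (0 : ℝ) < ((m + 2 * j : ℕ) : ℝ) := by exact_mod_cast (show 0 < m + 2 * j by omega)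
  unfold cKL
  rw [hl, hlr]
  set k := m + 2 * j with hk
  have hsum : ∑ i ∈ (range (k + 1)).filter (fun i => Odd i ∧ i * m ≤ k),
      (k.choose ((k - i * m) / 2) : ℝ) ≤ (k : ℝ) / m * (k.choose j : ℝ) := by
    have hcard : ((range (k + 1)).filter (fun i => Odd i ∧ i * m ≤ k)).card ≤ k / m := by
      have hsub : (range (k + 1)).filter (fun i => Odd i ∧ i * m ≤ k) ⊆ Finset.Icc 1 (k / m) := by
        intro i hi
        rw [mem_filter] at hi
        rw [mem_Icc]
        exact ⟨hi.2.1.pos, (Nat.le_div_iff_mul_le (by omega)).2 hi.2.2⟩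
      refine (card_le_card hsub).trans ?_
      rw [Nat.card_Icc, Nat.add_sub_cancel]
    have hterm : ∀ i ∈ (range (k + 1)).filter (fun i => Odd i ∧ i * m ≤ k),
        (k.choose ((k - i * m) / 2) : ℝ) ≤ (k.choose j : ℝ) := by
      intro i hi
      rw [mem_filter] at hi
      have h1 : 1 ≤ i := hi.2.1.pos
      have h2 : m ≤ i * m := Nat.le_mul_of_pos_left _ h1
      exact_mod_cast NegC_mono k (by omega) (by omega)
    refine (sum_le_card_nsmul _ _ _ hterm).trans ?_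
    rw [nsmul_eq_mul]
    refine mul_le_mul_of_nonneg_right ?_ (Nat.cast_nonneg _)
    exact (Nat.cast_le.2 hcard).trans Nat.cast_div_le
  have hkey : ((k.choose j : ℕ) : ℝ) * (k : ℝ) ^ k < (1 + (j : ℝ)) ^ (2 * j + 2) * (m : ℝ) ^ k := by
    exact_mod_cast NegC_key m j hm hj hP
  calc (m : ℝ) / k * (1 / (m : ℝ) ^ k) * ∑ i ∈ (range (k + 1)).filter (fun i => Odd i ∧ i * m ≤ k),
      (k.choose ((k - i * m) / 2) : ℝ)
      ≤ (m : ℝ) / k * (1 / (m : ℝ) ^ k) * ((k : ℝ) / m * (k.choose j : ℝ)) :=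
        mul_le_mul_of_nonneg_left hsum (by positivity)
    _ = (k.choose j : ℝ) / (m : ℝ) ^ k := by field_simp
    _ < (1 + (j : ℝ)) ^ (2 * j + 2) / (k : ℝ) ^ k := by
        rw [div_lt_div_iff₀ (by positivity) (by positivity)]
        exact hkey

/-- The sum of the binomial coefficients in `c_{k,3}`. -/
def bs (k : ℕ) : ℕ :=
  ((List.range (k + 1)).map fun j => if j % 2 = 1 ∧ j * 5 ≤ k then k.choose ((k - j * 5) / 2) else 0).sum

theorem cKL_three (k : ℕ) : cKL k 3 = 5 / (k : ℝ) * (1 / 5 ^ k) * (bs k : ℝ) := by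
  have h1 : bs k = ∑ j ∈ range (k + 1),
      if j % 2 = 1 ∧ j * 5 ≤ k then k.choose ((k - j * 5) / 2) else 0 := rfl
  have h2 : ((3 : ℕ) : ℝ) + 2 = 5 := by norm_num
  unfold cKL
  rw [h2, h1, Nat.cast_sum, sum_filter]
  congr 1
  refine sum_congr rfl fun j _ => ?_
  by_cases hj : j % 2 = 1 ∧ j * 5 ≤ k
  · rw [if_pos ⟨Nat.odd_iff.2 hj.1, hj.2⟩, if_pos hj]
  · rw [if_neg fun h => hj ⟨Nat.odd_iff.1 h.1, h.2⟩, if_neg hj, Nat.cast_zero]

theorem mid_check : ((List.range 27).all fun j => decide (j < 14 ∨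
    (5 + 2 * j) ^ (5 + 2 * j) * 5 * bs (5 + 2 * j) <
      (1 + j) ^ (2 * j + 2) * 5 ^ (5 + 2 * j) * (5 + 2 * j))) = true := by
  decide +kernel

end Pool.Agent.CycGT
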