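import Pool.Agent.W_1bfdb5_h19.NegE
import Pool.Agent.W_1bfdb5_h19.NegC

/-!
# Small k for l = 3
-/

namespace Pool.Agent.CycGT

open Finset
open scoped Classical

/-- The numbers `k = 13, 15, ..., 31` with good weights. -/
def sm : List (ℕ × ℕ × ℕ) := [(13, 3, 2), (15, 2, 1), (17, 2, 1), (19, 2, 1), (21, 2, 1),
  (23, 2, 1), (25, 2, 1), (27, 2, 1), (29, 2, 1), (31, 2, 1)]

theorem sm_check : (sm.all fun q => decide
    (2 * bs q.1 * (2 * q.2.1 + 3 * q.2.2) ^ q.1 * 5 < tr5 q.2.1 q.2.2 q.1 * 5 ^ q.1)) = true := by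
  decide +kernel

end Pool.Agent.CycGT
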