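import Pool.Agent.W_1bfdb5_h19.Neg0
import Pool.Agent.W_1bfdb5_h19.NegA2
import Pool.Agent.W_1bfdb5_h19.NegB4
import Pool.Agent.W_1bfdb5_h19.NegC
import Pool.Agent.W_1bfdb5_h19.NegF

/-!
# The range in which the balanced blow-up is not optimal
-/

namespace Pool.Agent.CycGT

open Finset Filter Topology
open scoped Classical

lemma fails_of {s k l m : ℕ} [NeZero s] [NeZero k] (hk : 3 ≤ k) (H : SimpleGraph (Fin s))
    (hH : OddFree H m) (ho : Odd l) (h3 : 3 ≤ l) (hlm : l < m)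
    (h : cKL k l * (2 * k * (s : ℝ) ^ k) < (#(clos H k) : ℝ)) :
    ∃ ε : ℝ, 0 < ε ∧ ∃ N : ℕ, ∀ n ≥ N, (cKL k l + ε) * (n : ℝ) ^ k ≤ (exC n k l : ℝ) := by
  have hs : (0 : ℝ) < s := by exact_mod_cast Nat.pos_of_ne_zero (NeZero.ne s)
  have hkR : (0 : ℝ) < k := by exact_mod_cast (by omega : 0 < k)
  set D : ℝ := 2 * k * (s : ℝ) ^ k with hD
  have hD0 : 0 < D := by positivity
  refine ⟨((#(clos H k) : ℝ) / D - cKL k l) / 2, ?_, ?_⟩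
  · have : cKL k l < (#(clos H k) : ℝ) / D := by rw [lt_div_iff₀ hD0]; exact h
    linarith
  · refine lower_of hk H hH ho h3 hlm _ ?_
    rw [← hD]
    have h1 : (#(clos H k) : ℝ) / D * D = #(clos H k) := div_mul_cancel₀ _ hD0.ne'
    nlinarith

lemma fails_HG (m j : ℕ) (hm : 5 ≤ m) (ho : Odd m)
    (h : cKL (m + 2 * j) (m - 2) <
      (1 + (j : ℝ)) ^ (2 * j + 2) / ((m + 2 * j : ℕ) : ℝ) ^ (m + 2 * j)) :
    ∃ ε : ℝ, 0 < ε ∧ ∃ N : ℕ, ∀ n ≥ N, (cKL (m + 2 * j) (m - 2) + ε) * (n : ℝ) ^ (m + 2 * j) ≤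
      (exC n (m + 2 * j) (m - 2) : ℝ) := by
  haveI : NeZero (m + 2 * j) := ⟨by omega⟩
  have hl : Odd (m - 2) := by
    obtain ⟨a, rfl⟩ := ho
    exact ⟨a - 1, by omega⟩
  refine fails_of (by omega) (HG m j) (cls_odd ho _) hl (by omega) (by omega) ?_
  have hkR : (0 : ℝ) < ((m + 2 * j : ℕ) : ℝ) := by exact_mod_cast (by omega : 0 < m + 2 * j)
  rw [lt_div_iff₀ (by positivity)] at h
  have h1 : (2 * ((m + 2 * j : ℕ) : ℝ) * (1 + (j : ℝ)) ^ (2 * j + 2)) ≤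
      (#(clos (HG m j) (m + 2 * j)) : ℝ) := by
    exact_mod_cast HG_clos m j hm ho
  calc cKL (m + 2 * j) (m - 2) * (2 * ((m + 2 * j : ℕ) : ℝ) * ((m + 2 * j : ℕ) : ℝ) ^ (m + 2 * j))
      = 2 * ((m + 2 * j : ℕ) : ℝ) *
        (cKL (m + 2 * j) (m - 2) * ((m + 2 * j : ℕ) : ℝ) ^ (m + 2 * j)) := by ring
    _ < 2 * ((m + 2 * j : ℕ) : ℝ) * (1 + (j : ℝ)) ^ (2 * j + 2) := by
        exact mul_lt_mul_of_pos_left h (by positivity)
    _ ≤ _ := h1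

lemma fails_mid (j : ℕ) (h1 : 14 ≤ j) (h2 : j < 27) :
    cKL (5 + 2 * j) (5 - 2) <
      (1 + (j : ℝ)) ^ (2 * j + 2) / ((5 + 2 * j : ℕ) : ℝ) ^ (5 + 2 * j) := by
  have h := of_decide_eq_true (List.all_eq_true.1 mid_check j (List.mem_range.2 h2))
  have h3 := h.resolve_left (by omega)
  have h4 : (((5 + 2 * j : ℕ) : ℝ) ^ (5 + 2 * j) * 5 * (bs (5 + 2 * j) : ℝ)) <
      (1 + (j : ℝ)) ^ (2 * j + 2) * 5 ^ (5 + 2 * j) * ((5 + 2 * j : ℕ) : ℝ) := by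
    exact_mod_cast h3
  have hkR : (0 : ℝ) < ((5 + 2 * j : ℕ) : ℝ) := by exact_mod_cast (by omega : 0 < 5 + 2 * j)
  show cKL (5 + 2 * j) 3 < _
  rw [cKL_three, lt_div_iff₀ (by positivity)]
  have h5 : (0 : ℝ) < 5 ^ (5 + 2 * j) := by positivity
  have e : 5 / ((5 + 2 * j : ℕ) : ℝ) * (1 / 5 ^ (5 + 2 * j)) * (bs (5 + 2 * j) : ℝ) *
      ((5 + 2 * j : ℕ) : ℝ) ^ (5 + 2 * j) =
      (((5 + 2 * j : ℕ) : ℝ) ^ (5 + 2 * j) * 5 * (bs (5 + 2 * j) : ℝ)) /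
        (5 ^ (5 + 2 * j) * ((5 + 2 * j : ℕ) : ℝ)) := by
    field_simp
  rw [e, div_lt_iff₀ (by positivity)]
  calc _ < _ := h4
    _ = _ := by ring

lemma fails_small (q : ℕ × ℕ × ℕ) (hq : q ∈ sm) :
    ∃ ε : ℝ, 0 < ε ∧ ∃ N : ℕ, ∀ n ≥ N, (cKL q.1 3 + ε) * (n : ℝ) ^ q.1 ≤ (exC n q.1 3 : ℝ) := by
  have h := of_decide_eq_true (List.all_eq_true.1 sm_check q hq)
  have hk : 3 ≤ q.1 := by
    have : (sm.all fun q => decide (3 ≤ q.1)) = true := by decide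
    exact of_decide_eq_true (List.all_eq_true.1 this q hq)
  have hx : 1 ≤ q.2.1 := by
    have : (sm.all fun q => decide (1 ≤ q.2.1)) = true := by decide
    exact of_decide_eq_true (List.all_eq_true.1 this q hq)
  haveI : NeZero q.1 := ⟨by omega⟩
  haveI : NeZero (2 * q.2.1 + 3 * q.2.2) := ⟨by omega⟩
  refine fails_of hk (CG (cl5 q.2.1 q.2.2)) (cls_odd (by decide) _) (by decide) (by norm_num)
    (by norm_num : 3 < 5) ?_
  rw [clos5, cKL_three]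
  have hkR : (0 : ℝ) < (q.1 : ℝ) := by exact_mod_cast (by omega : 0 < q.1)
  have h2 : (2 * (bs q.1 : ℝ) * ((2 * q.2.1 + 3 * q.2.2 : ℕ) : ℝ) ^ q.1 * 5) <
      (tr5 q.2.1 q.2.2 q.1 : ℝ) * 5 ^ q.1 := by exact_mod_cast h
  have h5 : (0 : ℝ) < 5 ^ q.1 := by positivity
  have e : 5 / (q.1 : ℝ) * (1 / 5 ^ q.1) * (bs q.1 : ℝ) *
      (2 * (q.1 : ℝ) * ((2 * q.2.1 + 3 * q.2.2 : ℕ) : ℝ) ^ q.1) =
      (2 * (bs q.1 : ℝ) * ((2 * q.2.1 + 3 * q.2.2 : ℕ) : ℝ) ^ q.1 * 5) / 5 ^ q.1 := by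
    field_simp
  rw [e, div_lt_iff₀ h5]
  exact h2

theorem failure (k l : ℕ) (hk : Odd k) (hl : Odd l) (h3 : 3 ≤ l) (hlk : l < k)
    (h : 33 ≤ k ∧ 216 * k ≤ (k - l - 2) ^ 3 ∨ l = 3 ∧ 13 ≤ k) :
    ∃ ε : ℝ, 0 < ε ∧ ∃ N : ℕ, ∀ n ≥ N, (cKL k l + ε) * (n : ℝ) ^ k ≤ (exC n k l : ℝ) := by
  -- the case l = 3
  have three : ∀ k : ℕ, Odd k → 13 ≤ k →
      ∃ ε : ℝ, 0 < ε ∧ ∃ N : ℕ, ∀ n ≥ N, (cKL k 3 + ε) * (n : ℝ) ^ k ≤ (exC n k 3 : ℝ) := by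
    intro k hk h13
    rcases Nat.lt_or_ge k 33 with h33 | h33
    · have hmem : (k, (if k = 13 then 3 else 2), (if k = 13 then 2 else 1)) ∈ sm := by
        obtain ⟨a, rfl⟩ := hk
        have h6 : 6 ≤ a := by omega
        have h15 : a ≤ 15 := by omega
        interval_cases a <;> decide
      exact fails_small _ hmem
    · obtain ⟨a, rfl⟩ := hk
      obtain ⟨j, rfl⟩ : ∃ j, a = j + 2 := ⟨a - 2, by omega⟩
      have e : 2 * (j + 2) + 1 = 5 + 2 * j := by ring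
      rw [e]
      rcases Nat.lt_or_ge j 27 with hj | hj
      · exact fails_HG 5 j le_rfl (by decide) (fails_mid j (by omega) hj)
      · exact fails_HG 5 j le_rfl (by decide)
          (cKL_lt_of_PP 5 j le_rfl (by decide) (by omega) (PP_all 5 j (by decide) (Or.inr ⟨rfl, hj⟩)))
  rcases Nat.lt_or_ge l 5 with hl5 | hl5
  · obtain rfl : l = 3 := by
      obtain ⟨a, rfl⟩ := hl
      omega
    rcases h with h | h
    · exact three k hk (by omega)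
    · exact three k hk h.2
  · obtain ⟨h33, hc⟩ : 33 ≤ k ∧ 216 * k ≤ (k - l - 2) ^ 3 := by
      rcases h with h | h
      · exact h
      · omega
    have hm : Odd (l + 2) := by
      obtain ⟨a, rfl⟩ := hl
      exact ⟨a + 1, by omega⟩
    obtain ⟨j, rfl⟩ : ∃ j, k = (l + 2) + 2 * j := by
      obtain ⟨a, rfl⟩ := hk
      obtain ⟨b, rfl⟩ := hl
      exact ⟨a - b - 1, by omega⟩
    have e : l + 2 + 2 * j - l - 2 = 2 * j := by omega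
    rw [e] at hc
    have hc' : 27 * (l + 2 + 2 * j) ≤ j ^ 3 := by
      have : (2 * j) ^ 3 = 8 * j ^ 3 := by ring
      omega
    have hj : 1 ≤ j := by
      rcases Nat.eq_zero_or_pos j with h0 | h0
      · subst h0
        simp at hc'
      · exact h0
    have hf := fails_HG (l + 2) j (by omega) hm
      (cKL_lt_of_PP (l + 2) j (by omega) hm hj
        (PP_all (l + 2) j hm (Or.inl ⟨by omega, hc', h33⟩)))
    rw [Nat.add_sub_cancel] at hf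
    exact hf

end Pool.Agent.CycGT
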