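import Pool.Agent.W_1bfdb5_h19.Asym

/-!
# Lower bounds for the generalized Turan number by blow-ups of a fixed graph
-/

namespace Pool.Agent.CycGT

open Finset Filter Topology
open scoped Classical

/-- The residue modulo `s`. -/
def resd (s : ℕ) [NeZero s] {n : ℕ} (x : Fin n) : Fin s :=
  ⟨x % s, Nat.mod_lt _ (Nat.pos_of_ne_zero (NeZero.ne s))⟩

/-- The blow-up of `H` on `n` vertices: `x` belongs to the class `x mod s`. -/
def Bl (n : ℕ) {s : ℕ} [NeZero s] (H : SimpleGraph (Fin s)) : SimpleGraph (Fin n) :=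
  H.comap (resd s)

lemma Bl_odd (n : ℕ) {s m : ℕ} [NeZero s] {H : SimpleGraph (Fin s)} (hH : OddFree H m) :
    OddFree (Bl n H) m := by
  rintro r hr ho v ⟨p, hp⟩
  refine hH r hr ho (resd s v) ⟨p.map ⟨resd s, fun {a b} h => h⟩, ?_⟩
  rw [SimpleGraph.Walk.length_map]
  exact hp

lemma free_of_oddFree {V : Type} {G : SimpleGraph V} {m l : ℕ} (hG : OddFree G m) (ho : Odd l)
    (h3 : 3 ≤ l) (hl : l < m) : (SimpleGraph.cycleGraph l).Free G := by
  rintro ⟨f⟩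
  obtain ⟨n, rfl⟩ : ∃ n, l = n + 2 := ⟨l - 2, by omega⟩
  have hc : IsCl G (n + 2) (fun i : ZMod (n + 2) => f (i : Fin (n + 2))) := by
    intro i
    have h : ∀ j : Fin (n + 2), (SimpleGraph.cycleGraph (n + 2)).Adj j (j + 1) := by
      intro j
      rw [SimpleGraph.cycleGraph_adj]
      exact Or.inr (add_sub_cancel_left _ _)
    exact f.toHom.map_adj (h i)
  have h1 := hc.along 0 (n + 2)
  rw [ZMod.natCast_self, add_zero] at h1
  exact hG _ hl ho _ h1

lemma Bl_clos (n : ℕ) {s : ℕ} [NeZero s] (H : SimpleGraph (Fin s)) (k : ℕ) [NeZero k] :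
    #(clos H k) * (n / s) ^ k ≤ #(clos (Bl n H) k) := by
  have hs : 0 < s := Nat.pos_of_ne_zero (NeZero.ne s)
  have hlt : ∀ (a : Fin s) (g : Fin (n / s)), (a : ℕ) + s * g < n := by
    intro a g
    have h1 : (a : ℕ) < s := a.2
    have h2 : (g : ℕ) + 1 ≤ n / s := g.2
    have h3 : s * ((g : ℕ) + 1) ≤ s * (n / s) := Nat.mul_le_mul_left _ h2
    have h4 := Nat.mul_div_le n s
    rw [Nat.mul_add] at h3
    omega
  have hcard : #(clos H k) * (n / s) ^ k =
      #((clos H k) ×ˢ (univ : Finset (ZMod k → Fin (n / s)))) := by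
    rw [card_product, card_univ, Fintype.card_fun, Fintype.card_fin, ZMod.card]
  rw [hcard]
  refine card_le_card_of_injOn
    (fun q => fun i => (⟨(q.1 i : ℕ) + s * (q.2 i : ℕ), hlt _ _⟩ : Fin n)) ?_ ?_
  · intro q hq
    rw [mem_coe, mem_product] at hq
    rw [mem_coe, clos, mem_filter]
    have h1 := (mem_filter.1 hq.1).2
    refine ⟨mem_univ _, fun i => ?_⟩
    have h2 : ∀ i, resd s (⟨(q.1 i : ℕ) + s * (q.2 i : ℕ), hlt _ _⟩ : Fin n) = q.1 i := by
      intro i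
      apply Fin.ext
      show ((q.1 i : ℕ) + s * (q.2 i : ℕ)) % s = q.1 i
      rw [Nat.add_mul_mod_self_left, Nat.mod_eq_of_lt (q.1 i).2]
    show H.Adj _ _
    rw [h2, h2]
    exact h1 i
  · intro q _ q' _ h
    have h1 : ∀ i, (q.1 i : ℕ) + s * (q.2 i : ℕ) = (q'.1 i : ℕ) + s * (q'.2 i : ℕ) := by
      intro i
      have := congrFun h i
      exact congrArg Fin.val this
    have h2 : ∀ i, (q.1 i : ℕ) = q'.1 i := by
      intro i
      have h3 := congrArg (· % s) (h1 i)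
      simp only [Nat.add_mul_mod_self_left, Nat.mod_eq_of_lt (q.1 i).2,
        Nat.mod_eq_of_lt (q'.1 i).2] at h3
      exact h3
    refine Prod.ext (funext fun i => Fin.ext (h2 i)) (funext fun i => Fin.ext ?_)
    have h3 := h1 i
    rw [h2 i] at h3
    exact Nat.eq_of_mul_eq_mul_left hs (Nat.add_left_cancel h3)

/-- Lower bound from a fixed graph without short odd closed walks. -/
theorem lower_of {s k l m : ℕ} [NeZero s] [NeZero k] (hk : 3 ≤ k) (H : SimpleGraph (Fin s))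
    (hH : OddFree H m) (ho : Odd l) (h3 : 3 ≤ l) (hlm : l < m) (x : ℝ)
    (hx : x * (2 * k * (s : ℝ) ^ k) < (#(clos H k) : ℝ)) :
    ∃ N : ℕ, ∀ n ≥ N, x * (n : ℝ) ^ k ≤ (exC n k l : ℝ) := by
  have hs : 0 < s := Nat.pos_of_ne_zero (NeZero.ne s)
  have hsR : (0 : ℝ) < s := by exact_mod_cast hs
  have hkR : (0 : ℝ) < k := by exact_mod_cast (by omega : 0 < k)
  set C : ℝ := (#(clos H k) : ℝ) with hC
  have hC0 : 0 ≤ C := Nat.cast_nonneg _
  have hlim : Tendsto (fun n : ℕ => C * (1 / s - 1 / (n : ℝ)) ^ k - k ^ 2 * (1 / (n : ℝ))) atTop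
      (𝓝 (C * (1 / s - 0) ^ k - k ^ 2 * 0)) := by
    have h0 : Tendsto (fun n : ℕ => 1 / (n : ℝ)) atTop (𝓝 0) := tendsto_one_div_atTop_nhds_zero_nat
    exact ((tendsto_const_nhds.sub h0).pow _).const_mul _ |>.sub (h0.const_mul _)
  have hlt : 2 * k * x < C * (1 / s - 0) ^ k - k ^ 2 * 0 := by
    rw [sub_zero, mul_zero, sub_zero, one_div_pow, mul_one_div, lt_div_iff₀ (by positivity)]
    linarith
  have hev := hlim.eventually (lt_mem_nhds hlt)
  rw [eventually_atTop] at hev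
  obtain ⟨N, hN⟩ := hev
  refine ⟨max N (s + 1), fun n hn => ?_⟩
  have hn1 : N ≤ n := le_trans (le_max_left _ _) hn
  have hn2 : s + 1 ≤ n := le_trans (le_max_right _ _) hn
  have hnR : (0 : ℝ) < n := by exact_mod_cast (by omega : 0 < n)
  have h1 := hN n hn1
  have h2 := Bl_clos n H k
  have h4 := clos_split (Bl n H) k
  have h5 := inj_le (Bl n H) k hk
  have h6 := noninj_le (V := Fin n) k
  rw [Fintype.card_fin] at h6
  have hfree : (SimpleGraph.cycleGraph l).Free (Bl n H) :=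
    free_of_oddFree (Bl_odd n hH) ho h3 hlm
  have h7 : (Bl n H).copyCount (SimpleGraph.cycleGraph k) ≤ exC n k l :=
    le_sup (f := fun G : SimpleGraph (Fin n) => G.copyCount (SimpleGraph.cycleGraph k))
      (mem_filter.2 ⟨mem_univ _, hfree⟩)
  have h8 : #(clos H k) * (n / s) ^ k ≤ 2 * k * exC n k l + k ^ 2 * n ^ (k - 1) := by
    have : 2 * k * (Bl n H).copyCount (SimpleGraph.cycleGraph k) ≤ 2 * k * exC n k l :=
      Nat.mul_le_mul_left _ h7
    omega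
  have h9 : C * ((n / s : ℕ) : ℝ) ^ k ≤ 2 * k * (exC n k l : ℝ) + k ^ 2 * (n : ℝ) ^ (k - 1) := by
    rw [hC]; exact_mod_cast h8
  have h10 : (n : ℝ) * (1 / s - 1 / (n : ℝ)) ≤ ((n / s : ℕ) : ℝ) := by
    have e : (n : ℝ) * (1 / s - 1 / (n : ℝ)) = n / s - 1 := by field_simp
    rw [e]
    have h := Nat.lt_div_mul_add (a := n) (b := s) hs
    have h' : (n : ℝ) < ((n / s : ℕ) : ℝ) * s + s := by exact_mod_cast h
    rw [sub_le_iff_le_add, div_le_iff₀ hsR]
    linarith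
  have h11 : 0 ≤ 1 / (s : ℝ) - 1 / (n : ℝ) := by
    rw [sub_nonneg]
    refine one_div_le_one_div_of_le hsR ?_
    exact_mod_cast (by omega : s ≤ n)
  have h12 : (n : ℝ) ^ k * (1 / s - 1 / (n : ℝ)) ^ k ≤ ((n / s : ℕ) : ℝ) ^ k := by
    rw [← mul_pow]
    exact pow_le_pow_left₀ (mul_nonneg hnR.le h11) h10 _
  have h13 : (n : ℝ) ^ k = (n : ℝ) ^ (k - 1) * n := by
    rw [← pow_succ]; congr 1; omega
  have h14 : (n : ℝ) ^ k * (2 * k * x) ≤
      (n : ℝ) ^ k * (C * (1 / s - 1 / (n : ℝ)) ^ k - k ^ 2 * (1 / (n : ℝ))) :=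
    mul_le_mul_of_nonneg_left h1.le (by positivity)
  have h15 : (n : ℝ) ^ k * (C * (1 / s - 1 / (n : ℝ)) ^ k - k ^ 2 * (1 / (n : ℝ))) =
      C * ((n : ℝ) ^ k * (1 / s - 1 / (n : ℝ)) ^ k) - k ^ 2 * (n : ℝ) ^ (k - 1) := by
    rw [mul_sub]
    congr 1
    · ring
    · rw [h13]; field_simp
  rw [h15] at h14
  have h16 : C * ((n : ℝ) ^ k * (1 / s - 1 / (n : ℝ)) ^ k) ≤ C * ((n / s : ℕ) : ℝ) ^ k :=
    mul_le_mul_of_nonneg_left h12 hC0
  have h17 : 2 * (k : ℝ) * (x * (n : ℝ) ^ k) ≤ 2 * k * (exC n k l : ℝ) := by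
    calc 2 * (k : ℝ) * (x * (n : ℝ) ^ k) = (n : ℝ) ^ k * (2 * k * x) := by ring
      _ ≤ _ := h14
      _ ≤ C * ((n / s : ℕ) : ℝ) ^ k - k ^ 2 * (n : ℝ) ^ (k - 1) := by linarith
      _ ≤ _ := by linarith
  exact le_of_mul_le_mul_left h17 (by positivity)

end Pool.Agent.CycGT
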