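import Pool.Agent.W_1bfdb5_h19.Arc

/-!
# Graphs given by classes modulo m

* `cls_odd`: along a walk of length `r` the class changes by an integer `e` with `|e| ≤ r`,
  `e ≡ r` modulo 2 (induction on the walk); for a closed walk `m` divides `e`, and `r < m`, so
  `e = 0`, and `r` is even.
* `cls_clos`: sort the maps `ZMod k → V` by the classes of their values: a map is a closed walk iff
  the sequence of classes is a pattern (consecutive classes differ by one; then consecutive vertices
  are distinct, because `1 ≠ 0` in `ZMod m`), and a given pattern `p` comes from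
  `∏ i, #{x | c x = p i}` maps.
-/

namespace Pool.Agent.CycGT

open Finset
open scoped Classical

/-- The graph in which two vertices are adjacent when their classes differ by one. -/
def CG {V : Type} {m : ℕ} (c : V → ZMod m) : SimpleGraph V :=
  SimpleGraph.fromRel (fun x y => c y = c x + 1)

lemma NegA_adj {V : Type} {m : ℕ} (c : V → ZMod m) {x y : V} :
    (CG c).Adj x y ↔ x ≠ y ∧ (c y = c x + 1 ∨ c x = c y + 1) := by
  unfold CG
  rw [SimpleGraph.fromRel_adj]

/-- the change of the class along a walk -/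
lemma NegA_walk {V : Type} {m : ℕ} (c : V → ZMod m) : ∀ (r : ℕ) (u v : V), Wk (CG c) r u v →
    ∃ e : ℤ, -(r : ℤ) ≤ e ∧ e ≤ r ∧ (∃ q : ℤ, e = r - 2 * q) ∧ c v = c u + (e : ZMod m) := by
  intro r
  induction r with
  | zero =>
    intro u v h
    rw [wk_zero] at h
    subst h
    exact ⟨0, by simp, by simp, ⟨0, by simp⟩, by simp⟩
  | succ r ih =>
    intro u v h
    rw [wk_succ] at h
    obtain ⟨w, h1, h2⟩ := h
    obtain ⟨e, e1, e2, ⟨q, hq⟩, e3⟩ := ih w v h2
    rw [NegA_adj] at h1
    rcases h1.2 with h3 | h3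
    · refine ⟨e + 1, ?_, ?_, ⟨q, ?_⟩, ?_⟩
      · push_cast
        omega
      · push_cast
        omega
      · push_cast
        omega
      · rw [e3, h3]
        push_cast
        ring
    · refine ⟨e - 1, ?_, ?_, ⟨q + 1, ?_⟩, ?_⟩
      · push_cast
        omega
      · push_cast
        omega
      · push_cast
        omega
      · rw [e3, h3]
        push_cast
        ring

theorem cls_odd {V : Type} {m : ℕ} (ho : Odd m) (c : V → ZMod m) : OddFree (CG c) m := by
  intro r hr hor v hw
  obtain ⟨e, e1, e2, ⟨q, hq⟩, e3⟩ := NegA_walk c r v v hw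
  have h1 : ((e : ℤ) : ZMod m) = 0 := by
    have h2 := e3
    exact (left_eq_add.1 h2)
  rw [ZMod.intCast_zmod_eq_zero_iff_dvd] at h1
  have h3 : e = 0 := by
    by_contra hne
    have h4 := Int.le_of_dvd (abs_pos.2 hne) ((dvd_abs _ _).2 h1)
    have h5 : |e| ≤ r := abs_le.2 ⟨by omega, e2⟩
    omega
  obtain ⟨a, ha⟩ := hor
  omega

/-- Closed walks with steps `1`, `-1` in `ZMod m`. -/
noncomputable def pats (k m : ℕ) [NeZero k] [NeZero m] : Finset (ZMod k → ZMod m) :=
  univ.filter (fun p => ∀ i, p (i + 1) = p i + 1 ∨ p i = p (i + 1) + 1)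

theorem cls_clos {V : Type} [Fintype V] {k m : ℕ} [NeZero k] [NeZero m] (hm : 3 ≤ m)
    (c : V → ZMod m) :
    #(clos (CG c) k) = ∑ p ∈ pats k m, ∏ i, #((univ : Finset V).filter (fun x => c x = p i)) := by
  have hne : (1 : ZMod m) ≠ 0 := by
    intro h1
    have h2 : ((1 : ℕ) : ZMod m) = 0 := by
      rw [Nat.cast_one]
      exact h1
    rw [ZMod.natCast_eq_zero_iff] at h2
    have := Nat.le_of_dvd one_pos h2
    omega
  have hmem : ∀ w : ZMod k → V, w ∈ clos (CG c) k ↔ (fun i => c (w i)) ∈ pats k m := by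
    intro w
    simp only [clos, pats, IsCl, mem_filter, mem_univ, true_and]
    refine forall_congr' fun i => ?_
    rw [NegA_adj]
    refine and_iff_right_of_imp ?_
    rintro h1 h2
    rw [h2] at h1
    rcases h1 with h1 | h1
    · exact hne (left_eq_add.1 h1)
    · exact hne (left_eq_add.1 h1)
  have hmaps : Set.MapsTo (fun w : ZMod k → V => fun i => c (w i)) (clos (CG c) k : Set (ZMod k → V))
      (pats k m : Set (ZMod k → ZMod m)) := by
    intro w hw
    exact (hmem w).1 hw
  rw [card_eq_sum_card_fiberwise hmaps]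
  refine sum_congr rfl fun p hp => ?_
  rw [← Fintype.card_piFinset]
  congr 1
  ext w
  rw [mem_filter, Fintype.mem_piFinset, hmem]
  constructor
  · rintro ⟨-, h2⟩ i
    rw [mem_filter]
    exact ⟨mem_univ _, congrFun h2 i⟩
  · intro h1
    have h2 : (fun i => c (w i)) = p := funext fun i => (mem_filter.1 (h1 i)).2
    rw [h2]
    exact ⟨hp, rfl⟩

end Pool.Agent.CycGT
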