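import Mathlib

/-! See the comment at the head of NegB.lean. -/

namespace Pool.Agent.CycGT

theorem poly_ineq (m j : ℕ) (h : 7 ≤ m ∧ 27 * (m + 2 * j) ≤ j ^ 3 ∧ 33 ≤ m + 2 * j ∨ m = 5 ∧ 27 ≤ j) :
    (m + 2 * j + 2) ^ 4 ≤ (j + 1) ^ 2 * j * m ^ 2 * (m + j) := by
  rcases h with ⟨h7, h27, h33⟩ | ⟨rfl, h27⟩
  · rcases le_total m j with hmj | hmj
    · obtain ⟨a, rfl⟩ := Nat.exists_eq_add_of_le h7
      obtain ⟨c, rfl⟩ := Nat.exists_eq_add_of_le hmj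
      have key : (7 + a + c + 1) ^ 2 * (7 + a + c) * (7 + a) ^ 2 * (7 + a + (7 + a + c)) =
          (7 + a + 2 * (7 + a + c) + 2) ^ 4 +
          (27487 + 45352 * c ^ 1 + 11706 * c ^ 2 + 1077 * c ^ 3 + 33 * c ^ 4 + 106444 * a ^ 1 +
          60108 * a ^ 1 * c ^ 1 + 10226 * a ^ 1 * c ^ 2 + 667 * a ^ 1 * c ^ 3 +
          14 * a ^ 1 * c ^ 4 + 57772 * a ^ 2 + 22045 * a ^ 2 * c ^ 1 + 2599 * a ^ 2 * c ^ 2 +
          107 * a ^ 2 * c ^ 3 + 1 * a ^ 2 * c ^ 4 + 13252 * a ^ 3 + 3497 * a ^ 3 * c ^ 1 +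
          260 * a ^ 3 * c ^ 2 + 5 * a ^ 3 * c ^ 3 + 1531 * a ^ 4 + 255 * a ^ 4 * c ^ 1 +
          9 * a ^ 4 * c ^ 2 + 88 * a ^ 5 + 7 * a ^ 5 * c ^ 1 + 2 * a ^ 6) := by ring
      rw [key]
      exact Nat.le_add_right _ _
    · have hA : (m + 2 * j + 2) ^ 4 ≤ 2 * (m + 2 * j) ^ 4 := by
        generalize m + 2 * j = k at h33
        obtain ⟨b, rfl⟩ := Nat.exists_eq_add_of_le h33
        have key : 2 * (33 + b) ^ 4 = (33 + b + 2) ^ 4 +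
            (871217 + 115996 * b ^ 1 + 5718 * b ^ 2 + 124 * b ^ 3 + 1 * b ^ 4) := by ring
        rw [key]
        exact Nat.le_add_right _ _
      have hB : 2 * (m + 2 * j) ^ 3 ≤ 27 * (m ^ 2 * (m + j)) := by
        obtain ⟨a, rfl⟩ := Nat.exists_eq_add_of_le hmj
        have key : 27 * ((j + a) ^ 2 * (j + a + j)) = 2 * (j + a + 2 * j) ^ 3 +
            (81 * j ^ 2 * a + 90 * j * a ^ 2 + 25 * a ^ 3) := by ring
        rw [key]
        exact Nat.le_add_right _ _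
      have hC : j ^ 3 ≤ (j + 1) ^ 2 * j := by
        have : (j + 1) ^ 2 * j = j ^ 3 + (2 * j ^ 2 + j) := by ring
        rw [this]
        exact Nat.le_add_right _ _
      calc (m + 2 * j + 2) ^ 4 ≤ 2 * (m + 2 * j) ^ 4 := hA
        _ = (m + 2 * j) * (2 * (m + 2 * j) ^ 3) := by ring
        _ ≤ (m + 2 * j) * (27 * (m ^ 2 * (m + j))) := Nat.mul_le_mul_left _ hB
        _ = (27 * (m + 2 * j)) * (m ^ 2 * (m + j)) := by ring
        _ ≤ ((j + 1) ^ 2 * j) * (m ^ 2 * (m + j)) := Nat.mul_le_mul_right _ (h27.trans hC)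
        _ = (j + 1) ^ 2 * j * m ^ 2 * (m + j) := by ring
  · obtain ⟨b, rfl⟩ := Nat.exists_eq_add_of_le h27
    have key : (27 + b + 1) ^ 2 * (27 + b) * 5 ^ 2 * (5 + (27 + b)) =
        (5 + 2 * (27 + b) + 2) ^ 4 +
        (3088559 + 550152 * b ^ 1 + 34496 * b ^ 2 + 923 * b ^ 3 + 9 * b ^ 4) := by ring
    rw [key]
    exact Nat.le_add_right _ _

end Pool.Agent.CycGT
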