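import Pool.Agent.W_1bfdb5_h19.NegA

/-!
# Weighted blow-ups of C_5: closed walks by a transfer recursion

`trL a k`: for a list `a` of five weights, the sum over all closed walks `p` of length `k` in `ZMod 5`
of the product of the weights of its vertices, computed with five starting vectors.
-/

namespace Pool.Agent.CycGT

open Finset
open scoped Classical

/-- Weights of the classes: `x, x, y, y, y`. -/
def wt5 (x y : ℕ) (t : ZMod 5) : ℕ := if t.val < 2 then x else y

/-- One step: `v` is the vector of the weights of the walks with a given end. -/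
def st5 (x y : ℕ) (v : ℕ × ℕ × ℕ × ℕ × ℕ) : ℕ × ℕ × ℕ × ℕ × ℕ :=
  ((v.2.2.2.2 + v.2.1) * x, (v.1 + v.2.2.1) * x, (v.2.1 + v.2.2.2.1) * y,
    (v.2.2.1 + v.2.2.2.2) * y, (v.2.2.2.1 + v.1) * y)

/-- The total weight of the closed walks of length `k`. -/
def tr5 (x y k : ℕ) : ℕ :=
  ((st5 x y)^[k] (1, 0, 0, 0, 0)).1 + ((st5 x y)^[k] (0, 1, 0, 0, 0)).2.1 +
    ((st5 x y)^[k] (0, 0, 1, 0, 0)).2.2.1 + ((st5 x y)^[k] (0, 0, 0, 1, 0)).2.2.2.1 +
    ((st5 x y)^[k] (0, 0, 0, 0, 1)).2.2.2.2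

lemma NegD_path {α R : Type} [Fintype α] [DecidableEq α] [CommSemiring R] (T : α → α → R) :
    ∀ (m : ℕ) (s t : α), ∑ q : Fin m → α,
      (∏ i : Fin m, T ((Fin.cons s q : Fin (m + 1) → α) i.castSucc) (q i)) *
        T ((Fin.cons s q : Fin (m + 1) → α) (Fin.last m)) t =
      ((Matrix.of T : Matrix α α R) ^ (m + 1)) s t := by
  intro m
  induction m with
  | zero =>
    intro s t
    simp [Matrix.of_apply]
  | succ m ih =>
    intro s t
    rw [pow_succ', Matrix.mul_apply]
    rw [← (Fin.consEquiv (fun _ : Fin (m + 1) => α)).sum_comp, Fintype.sum_prod_type]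
    refine Finset.sum_congr rfl fun a _ => ?_
    rw [← ih a t, Finset.mul_sum]
    refine Finset.sum_congr rfl fun q _ => ?_
    have hc : (Fin.consEquiv (fun _ : Fin (m + 1) => α)) (a, q) =
        (Fin.cons a q : Fin (m + 1) → α) := rfl
    rw [hc, Fin.prod_univ_succ, ← Fin.succ_last]
    simp only [Fin.castSucc_zero, Fin.cons_zero, Fin.cons_succ, Fin.castSucc_succ, Matrix.of_apply]
    ring

lemma NegD_cyc {α R : Type} [Fintype α] [DecidableEq α] [CommSemiring R] (T : α → α → R)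
    (m : ℕ) :
    ∑ p : Fin (m + 1) → α, ∏ i : Fin (m + 1), T (p i) (p (i + 1)) =
      ∑ s : α, ((Matrix.of T : Matrix α α R) ^ (m + 1)) s s := by
  rw [← (Fin.consEquiv (fun _ : Fin (m + 1) => α)).sum_comp, Fintype.sum_prod_type]
  refine Finset.sum_congr rfl fun s _ => ?_
  rw [← NegD_path T m s s]
  refine Finset.sum_congr rfl fun q _ => ?_
  have hc : (Fin.consEquiv (fun _ : Fin (m + 1) => α)) (s, q) =
      (Fin.cons s q : Fin (m + 1) → α) := rfl
  rw [hc, Fin.prod_univ_castSucc, Fin.last_add_one, Fin.cons_zero]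
  congr 1
  refine Finset.prod_congr rfl fun i _ => ?_
  rw [Fin.coeSucc_eq_succ, Fin.cons_succ]

/-- the transfer matrix -/
def NegD_T (x y : ℕ) (s t : ZMod 5) : ℕ := if t = s + 1 ∨ s = t + 1 then wt5 x y t else 0

lemma NegD_row (x y : ℕ) (M : Matrix (ZMod 5) (ZMod 5) ℕ) (s : ZMod 5) :
    st5 x y (M s 0, M s 1, M s 2, M s 3, M s 4) =
      ((M * Matrix.of (NegD_T x y)) s 0, (M * Matrix.of (NegD_T x y)) s 1,
        (M * Matrix.of (NegD_T x y)) s 2, (M * Matrix.of (NegD_T x y)) s 3,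
        (M * Matrix.of (NegD_T x y)) s 4) := by
  have h : ∀ t, (M * Matrix.of (NegD_T x y)) s t =
      M s 0 * NegD_T x y 0 t + M s 1 * NegD_T x y 1 t + M s 2 * NegD_T x y 2 t +
        M s 3 * NegD_T x y 3 t + M s 4 * NegD_T x y 4 t := by
    intro t
    rw [Matrix.mul_apply]
    exact Fin.sum_univ_five (fun j : Fin 5 => M s j * Matrix.of (NegD_T x y) j t)
  have f00 : NegD_T x y 0 0 = 0 := if_neg (by decide)
  have f01 : NegD_T x y 0 1 = x := by
    unfold NegD_T wt5
    rw [if_pos (by decide), if_pos (by decide)]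
  have f02 : NegD_T x y 0 2 = 0 := if_neg (by decide)
  have f03 : NegD_T x y 0 3 = 0 := if_neg (by decide)
  have f04 : NegD_T x y 0 4 = y := by
    unfold NegD_T wt5
    rw [if_pos (by decide), if_neg (by decide)]
  have f10 : NegD_T x y 1 0 = x := by
    unfold NegD_T wt5
    rw [if_pos (by decide), if_pos (by decide)]
  have f11 : NegD_T x y 1 1 = 0 := if_neg (by decide)
  have f12 : NegD_T x y 1 2 = y := by
    unfold NegD_T wt5
    rw [if_pos (by decide), if_neg (by decide)]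
  have f13 : NegD_T x y 1 3 = 0 := if_neg (by decide)
  have f14 : NegD_T x y 1 4 = 0 := if_neg (by decide)
  have f20 : NegD_T x y 2 0 = 0 := if_neg (by decide)
  have f21 : NegD_T x y 2 1 = x := by
    unfold NegD_T wt5
    rw [if_pos (by decide), if_pos (by decide)]
  have f22 : NegD_T x y 2 2 = 0 := if_neg (by decide)
  have f23 : NegD_T x y 2 3 = y := by
    unfold NegD_T wt5
    rw [if_pos (by decide), if_neg (by decide)]
  have f24 : NegD_T x y 2 4 = 0 := if_neg (by decide)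
  have f30 : NegD_T x y 3 0 = 0 := if_neg (by decide)
  have f31 : NegD_T x y 3 1 = 0 := if_neg (by decide)
  have f32 : NegD_T x y 3 2 = y := by
    unfold NegD_T wt5
    rw [if_pos (by decide), if_neg (by decide)]
  have f33 : NegD_T x y 3 3 = 0 := if_neg (by decide)
  have f34 : NegD_T x y 3 4 = y := by
    unfold NegD_T wt5
    rw [if_pos (by decide), if_neg (by decide)]
  have f40 : NegD_T x y 4 0 = x := by
    unfold NegD_T wt5
    rw [if_pos (by decide), if_pos (by decide)]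
  have f41 : NegD_T x y 4 1 = 0 := if_neg (by decide)
  have f42 : NegD_T x y 4 2 = 0 := if_neg (by decide)
  have f43 : NegD_T x y 4 3 = y := by
    unfold NegD_T wt5
    rw [if_pos (by decide), if_neg (by decide)]
  have f44 : NegD_T x y 4 4 = 0 := if_neg (by decide)
  rw [h, h, h, h, h]
  simp only [f00, f01, f02, f03, f04, f10, f11, f12, f13, f14, f20, f21, f22, f23, f24, f30, f31, f32, f33, f34, f40, f41, f42, f43, f44, mul_zero, add_zero, zero_add, st5]
  refine Prod.ext_iff.2 ⟨?_, Prod.ext_iff.2 ⟨?_, Prod.ext_iff.2 ⟨?_, Prod.ext_iff.2 ⟨?_, ?_⟩⟩⟩⟩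
  · show (M s 4 + M s 1) * x = _
    ring
  · show (M s 0 + M s 2) * x = _
    ring
  · show (M s 1 + M s 3) * y = _
    ring
  · show (M s 2 + M s 4) * y = _
    ring
  · show (M s 3 + M s 0) * y = _
    ring

lemma NegD_iter (x y : ℕ) (s : ZMod 5) : ∀ k : ℕ,
    (st5 x y)^[k] ((1 : Matrix (ZMod 5) (ZMod 5) ℕ) s 0, (1 : Matrix (ZMod 5) (ZMod 5) ℕ) s 1,
      (1 : Matrix (ZMod 5) (ZMod 5) ℕ) s 2, (1 : Matrix (ZMod 5) (ZMod 5) ℕ) s 3,
      (1 : Matrix (ZMod 5) (ZMod 5) ℕ) s 4) =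
      ((Matrix.of (NegD_T x y) ^ k) s 0, (Matrix.of (NegD_T x y) ^ k) s 1,
        (Matrix.of (NegD_T x y) ^ k) s 2, (Matrix.of (NegD_T x y) ^ k) s 3,
        (Matrix.of (NegD_T x y) ^ k) s 4) := by
  intro k
  induction k with
  | zero =>
    rw [Function.iterate_zero, id_eq, pow_zero]
  | succ k ih =>
    rw [Function.iterate_succ_apply', ih, pow_succ]
    exact NegD_row x y _ s

lemma NegD_tr (x y k : ℕ) :
    ∑ s : ZMod 5, (Matrix.of (NegD_T x y) ^ k) s s = tr5 x y k := by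
  have h0 := NegD_iter x y 0 k
  have h1 := NegD_iter x y 1 k
  have h2 := NegD_iter x y 2 k
  have h3 := NegD_iter x y 3 k
  have h4 := NegD_iter x y 4 k
  have e : ∀ s t : ZMod 5, (1 : Matrix (ZMod 5) (ZMod 5) ℕ) s t = if s = t then 1 else 0 :=
    fun s t => Matrix.one_apply
  simp only [e] at h0 h1 h2 h3 h4
  unfold tr5
  have a0 : (st5 x y)^[k] (1, 0, 0, 0, 0) = _ := h0
  have a1 : (st5 x y)^[k] (0, 1, 0, 0, 0) = _ := h1
  have a2 : (st5 x y)^[k] (0, 0, 1, 0, 0) = _ := h2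
  have a3 : (st5 x y)^[k] (0, 0, 0, 1, 0) = _ := h3
  have a4 : (st5 x y)^[k] (0, 0, 0, 0, 1) = _ := h4
  rw [a0, a1, a2, a3, a4]
  exact Fin.sum_univ_five (fun j : Fin 5 => (Matrix.of (NegD_T x y) ^ k) j j)

lemma NegD_prod {ι : Type} [Fintype ι] (x y : ℕ) (σ : ι ≃ ι) (p : ι → ZMod 5) :
    ∏ i, NegD_T x y (p i) (p (σ i)) =
      if (∀ i, p (σ i) = p i + 1 ∨ p i = p (σ i) + 1) then ∏ i, wt5 x y (p i) else 0 := by
  split_ifs with h
  · rw [← σ.prod_comp (fun i => wt5 x y (p i))]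
    refine Finset.prod_congr rfl fun i _ => ?_
    exact if_pos (h i)
  · push Not at h
    obtain ⟨i, h1, h2⟩ := h
    refine Finset.prod_eq_zero (Finset.mem_univ i) ?_
    refine if_neg ?_
    rintro (h3 | h3)
    · exact h1 h3
    · exact h2 h3

/-- The recursion computes the sum over all patterns.  For a start `s`, after `i` steps the entry
`t` is the sum over all walks from `s` to `t` with `i` steps of the product of the weights of all
vertices but the first. -/
theorem tr5_eq (x y k : ℕ) [NeZero k] :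
    ∑ p ∈ pats k 5, ∏ i, wt5 x y (p i) = tr5 x y k := by
  obtain ⟨m, rfl⟩ : ∃ m, k = m + 1 := Nat.exists_eq_succ_of_ne_zero (NeZero.ne k)
  rw [← NegD_tr, pats, Finset.sum_filter]
  refine Eq.trans ?_ (NegD_cyc (NegD_T x y) m)
  refine Finset.sum_congr rfl fun p _ => ?_
  exact (NegD_prod x y (Equiv.addRight (1 : ZMod (m + 1))) p).symm

end Pool.Agent.CycGT
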