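import Pool.Agent.W_1bfdb5_h19.NegD

/-!
# Blow-ups of C_5 with weights x, x, y, y, y: sizes of the classes
-/

namespace Pool.Agent.CycGT

open Finset
open scoped Classical

/-- Classes of the vertices `0, ..., 2 x + 3 y - 1`, with sizes `x, x, y, y, y`. -/
def cl5 (x y : ℕ) (i : Fin (2 * x + 3 * y)) : ZMod 5 :=
  if (i : ℕ) < x then 0 else if (i : ℕ) < 2 * x then 1 else if (i : ℕ) < 2 * x + y then 2
  else if (i : ℕ) < 2 * x + 2 * y then 3 else 4

private theorem NegE_ic (N a b : ℕ) (hb : b ≤ N) :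
    #((univ : Finset (Fin N)).filter (fun i : Fin N => a ≤ (i : ℕ) ∧ (i : ℕ) < b)) = b - a := by
  rw [← Nat.card_Ico a b]
  refine Finset.card_bij (fun (i : Fin N) _ => (i : ℕ)) ?_ ?_ ?_
  · intro i hi
    rw [mem_filter] at hi
    exact mem_Ico.2 hi.2
  · intro i _ j _ h
    exact Fin.ext h
  · intro n hn
    rw [mem_Ico] at hn
    exact ⟨⟨n, lt_of_lt_of_le hn.2 hb⟩, mem_filter.2 ⟨mem_univ _, hn⟩, rfl⟩

private theorem NegE_cl (x y : ℕ) (t : ZMod 5) (a b : ℕ) (hb : b ≤ 2 * x + 3 * y)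
    (h : ∀ i : Fin (2 * x + 3 * y), cl5 x y i = t ↔ a ≤ (i : ℕ) ∧ (i : ℕ) < b) :
    #((univ : Finset (Fin (2 * x + 3 * y))).filter (fun i => cl5 x y i = t)) = b - a := by
  have e : (univ : Finset (Fin (2 * x + 3 * y))).filter (fun i => cl5 x y i = t) =
      univ.filter (fun i : Fin (2 * x + 3 * y) => a ≤ (i : ℕ) ∧ (i : ℕ) < b) :=
    filter_congr fun i _ => h i
  rw [e, NegE_ic (2 * x + 3 * y) a b hb]

theorem cl5_card (x y : ℕ) (t : ZMod 5) :
    #((univ : Finset (Fin (2 * x + 3 * y))).filter (fun i => cl5 x y i = t)) = wt5 x y t := by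
  have ht : t = 0 ∨ t = 1 ∨ t = 2 ∨ t = 3 ∨ t = 4 := by
    revert t
    decide
  have w0 : wt5 x y 0 = x := rfl
  have w1 : wt5 x y 1 = x := rfl
  have w2 : wt5 x y 2 = y := rfl
  have w3 : wt5 x y 3 = y := rfl
  have w4 : wt5 x y 4 = y := rfl
  have n01 : (0 : ZMod 5) ≠ 1 := by decide
  have n02 : (0 : ZMod 5) ≠ 2 := by decide
  have n03 : (0 : ZMod 5) ≠ 3 := by decide
  have n04 : (0 : ZMod 5) ≠ 4 := by decide
  have n12 : (1 : ZMod 5) ≠ 2 := by decide
  have n13 : (1 : ZMod 5) ≠ 3 := by decide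
  have n14 : (1 : ZMod 5) ≠ 4 := by decide
  have n23 : (2 : ZMod 5) ≠ 3 := by decide
  have n24 : (2 : ZMod 5) ≠ 4 := by decide
  have n34 : (3 : ZMod 5) ≠ 4 := by decide
  rcases ht with rfl | rfl | rfl | rfl | rfl
  · rw [NegE_cl x y 0 0 x (by omega), w0]
    · omega
    · intro i
      unfold cl5
      split_ifs <;>
        simp [n01.symm, n02.symm, n03.symm, n04.symm] <;> omega
  · rw [NegE_cl x y 1 x (2 * x) (by omega), w1]
    · omega
    · intro i
      unfold cl5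
      split_ifs <;> simp [n01, n12.symm, n13.symm, n14.symm] <;> omega
  · rw [NegE_cl x y 2 (2 * x) (2 * x + y) (by omega), w2]
    · omega
    · intro i
      unfold cl5
      split_ifs <;> simp [n02, n12, n23.symm, n24.symm] <;> omega
  · rw [NegE_cl x y 3 (2 * x + y) (2 * x + 2 * y) (by omega), w3]
    · omega
    · intro i
      unfold cl5
      split_ifs <;> simp [n03, n13, n23, n34.symm] <;> omega
  · rw [NegE_cl x y 4 (2 * x + 2 * y) (2 * x + 3 * y) (by omega), w4]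
    · omega
    · intro i
      have hi := i.2
      unfold cl5
      split_ifs <;> simp [n04, n14, n24, n34] <;> omega

theorem clos5 (x y k : ℕ) [NeZero k] : #(clos (CG (cl5 x y)) k) = tr5 x y k := by
  rw [cls_clos (by norm_num) (cl5 x y), ← tr5_eq]
  exact sum_congr rfl fun p _ => prod_congr rfl fun i _ => cl5_card x y (p i)

end Pool.Agent.CycGT
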