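import Mathlib

/-!
# The numerical inequality for the closed walks of length m

Steps (all sums over `t : ZMod m`, `M = ∑ b t = A + S`).
(a) Cyclic inequality: for `x ≥ 0` on `ZMod m`, `m ≥ 5`: `10 ∑ x t x (t+1) ≤ 3 (∑ x t)^2`.
    Proof: `0 ≤ ∑ (x t - x (t+1) + x (t+2))^2 = 3 r0 - 4 r1 + 2 r2` with
    `rk = ∑ x t x (t+k)`, and `(∑ x t)^2 ≥ r0 + 2 r1 + 2 r2` (the shifts `0, 1, -1, 2, -2` are
    distinct).
(b) If `β t > -1`, `∑ β t = 0`: `∑ β t β (t+1) ≤ (m-4) ∑ (β t - log (1 + β t))`.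
    Proof: `β = p - q`, `p = max β 0`, `q = max (-β) 0`, `P = ∑ p = ∑ q`.
    `∑ β t β (t+1) ≤ ∑ p t p (t+1) + ∑ q t q (t+1) ≤ 3/10 P^2 + ∑ q^2`, the first sum is `0`
    if at most one `β t` is positive.
    `x - log (1 + x) ≥ x^2 / 2` for `x ≤ 0`, `x - log (1 + x) ≥ x^2 / (2 (1 + x))` for `x ≥ 0`.
    Cauchy: `∑ q^2 ≥ P^2 / N`, `N` the number of negative `β t`; `∑ p^2 / (1 + p) ≥ P^2 / m`
    (as `P ≤ N`).  Finally `(m - 6) / (2 (m - 2)) + (m - 4) / (2 m) ≥ 3 / 10` for `m ≥ 7`.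
(c) With `∑ b t = M`: `exp (((m-4)/m) ∑ log (b t)) * ∑ b t b (t+1) ≤ M^(m-2) / m^(m-3)`
    (normalise `b t = (M/m) (1 + β t)`, `log x ≤ x - 1`, (b)).
(d) With `∑ b t = M`: `exp (((m-4)/m) ∑ log (b t)) * b u ≤ 2 (M/m)^(m-3)` for every `u`.
    Normalised: `log (1 + β) - ((m-4)/m) (β - log (1 + β) + β^2 / (2 (m-1))) ≤ log 2`;
    use `log (1 + β) ≤ log (5/2) - 3/5 + 2/5 β`.
(e) `T ≤ ∑ b t b (t+1) + (1/4) ∑ s t s (t+1)` (expand), and
    `∑ s t s (t+1) ≤ ∑ s t b t` (because `2 b t ≥ s (t-1) + s (t+1)`) `≤ S * max b`.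
(f) `(2A + S) (A + 2S) A ≤ 2 M^3 (1 - S/(2M))` and
    `(1 - S/(2M)) (T0 + S X / 4) ≤ T0/2 + M X / 4 + T0/2` in the form
    `≤ max T0 (T0/2 + M X / 4)`, where `T0 = ∑ b t b (t+1)`, `X = max b`; by (c), (d) both are fine.
(g) `U`: `A + 2S + mU ≤ (A + 2S) (1 + m U / M)` and `(1 + U/M)^(m+1) ≥ 1 + (m+1) U/M`.
-/

namespace Pool.Agent.CycGT

open Finset

private theorem numA_ne (m : ℕ) [NeZero m] (hm : 5 ≤ m) (k : ℕ) (hk : 0 < k) (hk4 : k ≤ 4)
    (z : ZMod m) (hz : (k : ZMod m) = z) : z ≠ 0 := by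
  rw [← hz]
  intro h
  rw [ZMod.natCast_eq_zero_iff] at h
  have := Nat.le_of_dvd hk h
  omega

private theorem numA_log_neg {q : ℝ} (h0 : 0 ≤ q) (h1 : q < 1) :
    q ^ 2 / 2 ≤ -q - Real.log (1 + -q) := by
  have h := Real.hasSum_pow_div_log_of_abs_lt_one (x := q) (by rw [abs_of_nonneg h0]; exact h1)
  have h2 := sum_le_hasSum (Finset.range 2) (fun i _ => by positivity) h
  rw [Finset.sum_range_succ, Finset.sum_range_one] at h2
  rw [← sub_eq_add_neg]
  norm_num at h2
  linarith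

private theorem numA_log_pos {p : ℝ} (h0 : 0 ≤ p) :
    p ^ 2 / (2 * (1 + p)) ≤ p - Real.log (1 + p) := by
  have hy : (0 : ℝ) < 1 + p := by linarith
  have hs : 0 ≤ Real.log (1 + p) := Real.log_nonneg (by linarith)
  have h := Real.self_le_sinh_iff.2 hs
  rw [Real.sinh_eq, Real.exp_neg, Real.exp_log hy] at h
  have e : p - (1 + p - (1 + p)⁻¹) / 2 = p ^ 2 / (2 * (1 + p)) := by
    field_simp
    ring
  linarith

/-- (a) -/
theorem cyc_ineq (m : ℕ) [NeZero m] (hm : 5 ≤ m) (x : ZMod m → ℝ) (hx : ∀ t, 0 ≤ x t) :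
    10 * ∑ t, x t * x (t + 1) ≤ 3 * (∑ t, x t) ^ 2 := by
  classical
  set r : ZMod m → ℝ := fun k => ∑ t, x t * x (t + k) with hr
  have rnn : ∀ k, 0 ≤ r k := fun k => Finset.sum_nonneg fun t _ => mul_nonneg (hx _) (hx _)
  have rneg : ∀ k, r (-k) = r k := by
    intro k
    have := Equiv.sum_comp (Equiv.addRight k) (fun t => x t * x (t + -k))
    simp only [Equiv.coe_addRight] at this
    rw [hr]
    simp only
    rw [← this]
    refine Finset.sum_congr rfl fun t _ => ?_
    rw [add_neg_cancel_right]; ring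
  have hsq : (∑ t, x t) ^ 2 = ∑ k, r k := by
    rw [sq, Finset.sum_mul_sum, hr]
    simp only
    rw [Finset.sum_comm (s := (Finset.univ : Finset (ZMod m)))]
    conv_rhs => rw [Finset.sum_comm]
    rw [Finset.sum_comm]
    refine Finset.sum_congr rfl fun t _ => ?_
    exact (Equiv.sum_comp (Equiv.addLeft t) (fun s => x t * x s)).symm
  have h1 : (1 : ZMod m) ≠ 0 := numA_ne m hm 1 (by norm_num) (by norm_num) 1 (by norm_num)
  have h2 : (2 : ZMod m) ≠ 0 := numA_ne m hm 2 (by norm_num) (by norm_num) 2 (by norm_num)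
  have h3 : (3 : ZMod m) ≠ 0 := numA_ne m hm 3 (by norm_num) (by norm_num) 3 (by norm_num)
  have h4 : (4 : ZMod m) ≠ 0 := numA_ne m hm 4 (by norm_num) (by norm_num) 4 (by norm_num)
  have hlow : r 0 + 2 * r 1 + 2 * r 2 ≤ ∑ k, r k := by
    have hsub : ∑ k ∈ ({0, 1, -1, 2, -2} : Finset (ZMod m)), r k ≤ ∑ k, r k :=
      Finset.sum_le_sum_of_subset_of_nonneg (Finset.subset_univ _) fun k _ _ => rnn k
    have e : ∑ k ∈ ({0, 1, -1, 2, -2} : Finset (ZMod m)), r k
        = r 0 + (r 1 + (r (-1) + (r 2 + r (-2)))) := by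
      rw [Finset.sum_insert, Finset.sum_insert, Finset.sum_insert, Finset.sum_insert,
        Finset.sum_singleton]
      · simp only [Finset.mem_singleton]
        intro h
        apply h4
        linear_combination h
      · simp only [Finset.mem_insert, Finset.mem_singleton, not_or]
        refine ⟨fun h => h3 ?_, fun h => h1 ?_⟩
        · linear_combination -h
        · linear_combination h
      · simp only [Finset.mem_insert, Finset.mem_singleton, not_or]
        refine ⟨fun h => h2 ?_, fun h => h1 ?_, fun h => h3 ?_⟩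
        · linear_combination h
        · linear_combination -h
        · linear_combination h
      · simp only [Finset.mem_insert, Finset.mem_singleton, not_or]
        refine ⟨fun h => h1 ?_, fun h => h1 ?_, fun h => h2 ?_, fun h => h2 ?_⟩
        · linear_combination -h
        · linear_combination h
        · linear_combination -h
        · linear_combination h
    rw [e, rneg, rneg] at hsub
    linarith
  have shift1 : ∀ f : ZMod m → ℝ, ∑ t, f (t + 1) = ∑ t, f t := fun f =>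
    Equiv.sum_comp (Equiv.addRight (1 : ZMod m)) f
  have hpos : 0 ≤ ∑ t, (x t - x (t + 1) + x (t + 2)) ^ 2 :=
    Finset.sum_nonneg fun t _ => sq_nonneg _
  have hexp : ∑ t, (x t - x (t + 1) + x (t + 2)) ^ 2 = 3 * r 0 - 4 * r 1 + 2 * r 2 := by
    have r0 : ∑ t, x t * x t = r 0 := by simp [hr]
    have s1 : ∑ t, x (t + 1) * x (t + 1) = r 0 := by
      rw [← r0]; exact shift1 (fun t => x t * x t)
    have s2 : ∑ t, x (t + 2) * x (t + 2) = r 0 := by
      rw [← s1, ← shift1 (fun t => x (t + 1) * x (t + 1))]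
      refine Finset.sum_congr rfl fun t _ => ?_
      rw [show t + 1 + 1 = t + 2 by ring]
    have c1 : ∑ t, x t * x (t + 1) = r 1 := rfl
    have c2 : ∑ t, x (t + 1) * x (t + 2) = r 1 := by
      rw [← c1, ← shift1 (fun t => x t * x (t + 1))]
      refine Finset.sum_congr rfl fun t _ => ?_
      rw [show t + 1 + 1 = t + 2 by ring]
    have c3 : ∑ t, x t * x (t + 2) = r 2 := rfl
    have : ∑ t, (x t - x (t + 1) + x (t + 2)) ^ 2
        = ∑ t, x t * x t + ∑ t, x (t + 1) * x (t + 1) + ∑ t, x (t + 2) * x (t + 2)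
          - 2 * ∑ t, x t * x (t + 1) - 2 * ∑ t, x (t + 1) * x (t + 2)
          + 2 * ∑ t, x t * x (t + 2) := by
      simp only [Finset.mul_sum, ← Finset.sum_add_distrib, ← Finset.sum_sub_distrib]
      exact Finset.sum_congr rfl fun t _ => by ring
    rw [this, r0, s1, s2, c1, c2, c3]; ring
  have hr1 : ∑ t, x t * x (t + 1) = r 1 := rfl
  rw [hsq, hr1]
  have := rnn 2
  rw [hexp] at hpos
  linarith

/-- (b) -/
theorem log_ineq (m : ℕ) [NeZero m] (hm : 7 ≤ m) (β : ZMod m → ℝ) (hβ : ∀ t, -1 < β t)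
    (h0 : ∑ t, β t = 0) :
    ∑ t, β t * β (t + 1) ≤ (m - 4) * ∑ t, (β t - Real.log (1 + β t)) := by
  classical
  set p : ZMod m → ℝ := fun t => max (β t) 0 with hp
  set q : ZMod m → ℝ := fun t => max (-β t) 0 with hq
  have p0 : ∀ t, 0 ≤ p t := fun t => le_max_right _ _
  have q0 : ∀ t, 0 ≤ q t := fun t => le_max_right _ _
  have q1 : ∀ t, q t < 1 := fun t => max_lt (by have := hβ t; linarith) one_pos
  have hpq : ∀ t, β t = p t - q t := by
    intro t
    rcases le_total 0 (β t) with h | h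
    · simp only [hp, hq]; rw [max_eq_left h, max_eq_right (by linarith)]; ring
    · simp only [hp, hq]; rw [max_eq_right h, max_eq_left (by linarith)]; ring
  set P : ℝ := ∑ t, p t with hP
  have hPq : ∑ t, q t = P := by
    have : ∑ t, (p t - q t) = 0 := by
      rw [← h0]; exact Finset.sum_congr rfl fun t _ => (hpq t).symm
    rw [Finset.sum_sub_distrib] at this
    linarith
  have P0 : 0 ≤ P := Finset.sum_nonneg fun t _ => p0 t
  have mR : (7 : ℝ) ≤ m := by exact_mod_cast hm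
  -- the lower bound for the right side
  have hR : 1 / 2 * ∑ t, q t ^ 2 + 1 / 2 * ∑ t, p t ^ 2 / (1 + p t)
      ≤ ∑ t, (β t - Real.log (1 + β t)) := by
    rw [Finset.mul_sum, Finset.mul_sum, ← Finset.sum_add_distrib]
    refine Finset.sum_le_sum fun t _ => ?_
    rcases le_total 0 (β t) with h | h
    · have e1 : p t = β t := max_eq_left h
      have e2 : q t = 0 := max_eq_right (by linarith)
      rw [e1, e2]
      have := numA_log_pos h
      have e3 : 1 / 2 * (β t ^ 2 / (1 + β t)) = β t ^ 2 / (2 * (1 + β t)) := by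
        have : (1 + β t) ≠ 0 := by linarith
        field_simp
      rw [e3]
      simpa using this
    · have e1 : p t = 0 := max_eq_right h
      have e2 : q t = -β t := max_eq_left (by linarith)
      have h3 := numA_log_neg (q := -β t) (by linarith) (by have := hβ t; linarith)
      rw [e1, e2]
      rw [neg_neg] at h3
      have : (1 : ℝ) / 2 * (-β t) ^ 2 + 1 / 2 * (0 ^ 2 / (1 + 0)) = (-β t) ^ 2 / 2 := by ring
      rw [this]
      exact h3
  -- the upper bound for the left side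
  have hL : ∑ t, β t * β (t + 1) ≤ ∑ t, p t * p (t + 1) + ∑ t, q t ^ 2 := by
    have hqq : ∑ t, q t * q (t + 1) ≤ ∑ t, q t ^ 2 := by
      have sh : ∑ t, q (t + 1) ^ 2 = ∑ t, q t ^ 2 :=
        Equiv.sum_comp (Equiv.addRight (1 : ZMod m)) (fun t => q t ^ 2)
      have : ∑ t, q t * q (t + 1) ≤ ∑ t, (1 / 2 * q t ^ 2 + 1 / 2 * q (t + 1) ^ 2) :=
        Finset.sum_le_sum fun t _ => by nlinarith [sq_nonneg (q t - q (t + 1))]
      rw [Finset.sum_add_distrib, ← Finset.mul_sum, ← Finset.mul_sum, sh] at this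
      linarith
    have : ∑ t, β t * β (t + 1) ≤ ∑ t, (p t * p (t + 1) + q t * q (t + 1)) := by
      refine Finset.sum_le_sum fun t _ => ?_
      rw [hpq t, hpq (t + 1)]
      nlinarith [mul_nonneg (p0 t) (q0 (t + 1)), mul_nonneg (q0 t) (p0 (t + 1))]
    rw [Finset.sum_add_distrib] at this
    linarith
  have Q0 : 0 ≤ ∑ t, q t ^ 2 := Finset.sum_nonneg fun t _ => sq_nonneg _
  have PP0 : 0 ≤ ∑ t, p t ^ 2 / (1 + p t) :=
    Finset.sum_nonneg fun t _ => div_nonneg (sq_nonneg _) (by have := p0 t; linarith)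
  have hRm : (m - 4 : ℝ) * (1 / 2 * ∑ t, q t ^ 2 + 1 / 2 * ∑ t, p t ^ 2 / (1 + p t))
      ≤ (m - 4) * ∑ t, (β t - Real.log (1 + β t)) :=
    mul_le_mul_of_nonneg_left hR (by linarith)
  refine le_trans hL (le_trans ?_ hRm)
  set T : Finset (ZMod m) := Finset.univ.filter fun t => 0 < β t with hT
  set S : Finset (ZMod m) := Finset.univ.filter fun t => β t < 0 with hS
  have pT : ∀ t, t ∉ T → p t = 0 := by
    intro t ht
    have : ¬ 0 < β t := fun h => ht (by rw [hT]; simp [h])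
    exact max_eq_right (not_lt.1 this)
  have qS : ∀ t, t ∉ S → q t = 0 := by
    intro t ht
    have : ¬ β t < 0 := fun h => ht (by rw [hS]; simp [h])
    exact max_eq_right (by linarith [not_lt.1 this])
  rcases Nat.lt_or_ge T.card 2 with hc | hc
  · -- at most one positive
    have hz : ∑ t, p t * p (t + 1) = 0 := by
      refine Finset.sum_eq_zero fun t _ => ?_
      by_contra hne
      have h1 : t ∈ T := by
        by_contra h; exact hne (by rw [pT t h]; ring)
      have h2 : t + 1 ∈ T := by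
        by_contra h; exact hne (by rw [pT _ h]; ring)
      have h3 : t ≠ t + 1 := by
        intro h
        have : (1 : ZMod m) = 0 := by linear_combination -h
        exact numA_ne m (by omega) 1 (by norm_num) (by norm_num) 1 (by norm_num) this
      have : 1 < T.card := Finset.one_lt_card.2 ⟨t, h1, t + 1, h2, h3⟩
      omega
    rw [hz]
    nlinarith [mul_nonneg (by linarith : (0 : ℝ) ≤ m - 6) Q0,
      mul_nonneg (by linarith : (0 : ℝ) ≤ m - 4) PP0]
  · have hcyc := cyc_ineq m (by omega) p p0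
    rw [← hP] at hcyc
    have hdisj : Disjoint T S := by
      rw [Finset.disjoint_left]
      intro t h1 h2
      rw [hT, Finset.mem_filter] at h1
      rw [hS, Finset.mem_filter] at h2
      linarith [h1.2, h2.2]
    have hcard : T.card + S.card ≤ m := by
      rw [← Finset.card_union_of_disjoint hdisj]
      have := Finset.card_le_univ (T ∪ S)
      rwa [ZMod.card] at this
    have hcardR : (T.card : ℝ) + S.card ≤ m := by exact_mod_cast hcard
    have hTR : (2 : ℝ) ≤ T.card := by exact_mod_cast hc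
    have PS : ∑ t ∈ S, q t = P := by
      rw [← hPq]
      exact Finset.sum_subset (Finset.subset_univ _) fun t _ ht => qS t ht
    have PT : ∑ t ∈ T, p t = P := by
      rw [hP]
      exact Finset.sum_subset (Finset.subset_univ _) fun t _ ht => pT t ht
    have PleS : P ≤ S.card := by
      rw [← PS]
      calc ∑ t ∈ S, q t ≤ ∑ t ∈ S, (1 : ℝ) := Finset.sum_le_sum fun t _ => (q1 t).le
        _ = S.card := by simp
    have hQ : P ^ 2 ≤ (m - 2) * ∑ t, q t ^ 2 := by
      have h1 := sq_sum_le_card_mul_sum_sq (s := S) (f := q)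
      rw [PS] at h1
      have h2 : ∑ t ∈ S, q t ^ 2 ≤ ∑ t, q t ^ 2 :=
        Finset.sum_le_sum_of_subset_of_nonneg (Finset.subset_univ _) fun t _ _ => sq_nonneg _
      have h3 : (S.card : ℝ) * ∑ t ∈ S, q t ^ 2 ≤ (m - 2) * ∑ t, q t ^ 2 :=
        mul_le_mul (by linarith) h2 (Finset.sum_nonneg fun t _ => sq_nonneg _) (by linarith)
      linarith
    have hPP : P ^ 2 ≤ m * ∑ t, p t ^ 2 / (1 + p t) := by
      have h1 := Finset.sq_sum_div_le_sum_sq_div T p (g := fun t => 1 + p t)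
        (fun t _ => by have := p0 t; linarith)
      rw [PT] at h1
      have h2 : ∑ t ∈ T, p t ^ 2 / (1 + p t) ≤ ∑ t, p t ^ 2 / (1 + p t) :=
        Finset.sum_le_sum_of_subset_of_nonneg (Finset.subset_univ _)
          fun t _ _ => div_nonneg (sq_nonneg _) (by have := p0 t; linarith)
      have h3 : ∑ t ∈ T, (1 + p t) = T.card + P := by
        rw [Finset.sum_add_distrib, PT]; simp
      rw [h3] at h1
      have h4 : (0 : ℝ) < T.card + P := by linarith
      rw [div_le_iff₀ h4] at h1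
      calc P ^ 2 ≤ (∑ t ∈ T, p t ^ 2 / (1 + p t)) * (T.card + P) := h1
        _ ≤ (∑ t, p t ^ 2 / (1 + p t)) * m :=
            mul_le_mul h2 (by linarith) h4.le PP0
        _ = m * ∑ t, p t ^ 2 / (1 + p t) := by ring
    -- final
    set X := ∑ t, q t ^ 2 with hX
    set Y := ∑ t, p t ^ 2 / (1 + p t) with hY
    set Z := ∑ t, p t * p (t + 1) with hZ
    -- 10 Z ≤ 3 P^2; P^2 ≤ (m-2) X; P^2 ≤ m Y
    have hm2 : (0 : ℝ) < m - 2 := by linarith
    have hm0 : (0 : ℝ) < m := by linarith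
    have hX' : P ^ 2 / (m - 2) ≤ X := by rw [div_le_iff₀ hm2]; linarith
    have hY' : P ^ 2 / m ≤ Y := by rw [div_le_iff₀ hm0]; linarith
    have key : 3 / 10 * P ^ 2 ≤ (m - 6) / 2 * (P ^ 2 / (m - 2)) + (m - 4) / 2 * (P ^ 2 / m) := by
      have e : (m - 6 : ℝ) / 2 * (P ^ 2 / (m - 2)) + (m - 4) / 2 * (P ^ 2 / m)
          - 3 / 10 * P ^ 2 = P ^ 2 * ((m - 6) / (2 * (m - 2)) + (m - 4) / (2 * m) - 3 / 10) := by
        field_simp
      have e2 : (m - 6 : ℝ) / (2 * (m - 2)) + (m - 4) / (2 * m) - 3 / 10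
          = (7 * m ^ 2 - 54 * m + 40) / (10 * m * (m - 2)) := by
        field_simp
        ring
      have e3 : (0 : ℝ) ≤ (7 * m ^ 2 - 54 * m + 40) / (10 * m * (m - 2)) := by
        apply div_nonneg
        · nlinarith
        · positivity
      have : 0 ≤ P ^ 2 * ((m - 6) / (2 * (m - 2)) + (m - 4) / (2 * m) - 3 / 10) :=
        mul_nonneg (sq_nonneg _) (by rw [e2]; exact e3)
      linarith
    have k1 : (m - 6 : ℝ) / 2 * (P ^ 2 / (m - 2)) ≤ (m - 6) / 2 * X :=
      mul_le_mul_of_nonneg_left hX' (by linarith)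
    have k2 : (m - 4 : ℝ) / 2 * (P ^ 2 / m) ≤ (m - 4) / 2 * Y :=
      mul_le_mul_of_nonneg_left hY' (by linarith)
    linarith

end Pool.Agent.CycGT
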