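import Pool.Agent.W_1bfdb5_h19.NumA

/-!
# The numerical inequality for the closed walks of length m

Steps (all sums over `t : ZMod m`, `M = ∑ b t = A + S`).
(a) Cyclic inequality: for `x ≥ 0` on `ZMod m`, `m ≥ 5`: `10 ∑ x t x (t+1) ≤ 3 (∑ x t)^2`.
    Proof: `0 ≤ ∑ (x t - x (t+1) + x (t+2))^2 = 3 r0 - 4 r1 + 2 r2` with
    `rk = ∑ x t x (t+k)`, and `(∑ x t)^2 ≥ r0 + 2 r1 + 2 r2` (the shifts `0, 1, -1, 2, -2` are
    distinct).
(b) If `β t > -1`, `∑ β t = 0`: `∑ β t β (t+1) ≤ (m-4) ∑ (β t - log (1 + β t))`.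
    Proof: `β = p - q`, `p = max β 0`, `q = max (-β) 0`, `P = ∑ p = ∑ q`.
    `∑ β t β (t+1) ≤ ∑ p t p (t+1) + ∑ q t q (t+1) ≤ 3/10 P^2 + ∑ q^2`, the first sum is `0`
    if at most one `β t` is positive.
    `x - log (1 + x) ≥ x^2 / 2` for `x ≤ 0`, `x - log (1 + x) ≥ x^2 / (2 (1 + x))` for `x ≥ 0`.
    Cauchy: `∑ q^2 ≥ P^2 / N`, `N` the number of negative `β t`; `∑ p^2 / (1 + p) ≥ P^2 / m`
    (as `P ≤ N`).  Finally `(m - 6) / (2 (m - 2)) + (m - 4) / (2 m) ≥ 3 / 10` for `m ≥ 7`.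
(c) With `∑ b t = M`: `exp (((m-4)/m) ∑ log (b t)) * ∑ b t b (t+1) ≤ M^(m-2) / m^(m-3)`
    (normalise `b t = (M/m) (1 + β t)`, `log x ≤ x - 1`, (b)).
(d) With `∑ b t = M`: `exp (((m-4)/m) ∑ log (b t)) * b u ≤ 2 (M/m)^(m-3)` for every `u`.
    Normalised: `log (1 + β) - ((m-4)/m) (β - log (1 + β) + β^2 / (2 (m-1))) ≤ log 2`;
    use `log (1 + β) ≤ log (5/2) - 3/5 + 2/5 β`.
(e) `T ≤ ∑ b t b (t+1) + (1/4) ∑ s t s (t+1)` (expand), and
    `∑ s t s (t+1) ≤ ∑ s t b t` (because `2 b t ≥ s (t-1) + s (t+1)`) `≤ S * max b`.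
(f) `(2A + S) (A + 2S) A ≤ 2 M^3 (1 - S/(2M))` and
    `(1 - S/(2M)) (T0 + S X / 4) ≤ T0/2 + M X / 4 + T0/2` in the form
    `≤ max T0 (T0/2 + M X / 4)`, where `T0 = ∑ b t b (t+1)`, `X = max b`; by (c), (d) both are fine.
(g) `U`: `A + 2S + mU ≤ (A + 2S) (1 + m U / M)` and `(1 + U/M)^(m+1) ≥ 1 + (m+1) U/M`.
-/

namespace Pool.Agent.CycGT

open Finset

private theorem numB_exp (m : ℕ) (hm : 7 ≤ m) {r : ℝ} (hr : 0 < r) (Λ : ℝ) :
    Real.exp (((m - 4 : ℝ) / m) * (m * Real.log r + Λ)) =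
      r ^ (m - 4) * Real.exp (((m - 4 : ℝ) / m) * Λ) := by
  have hm0 : (m : ℝ) ≠ 0 := by
    have : (7 : ℝ) ≤ m := by exact_mod_cast hm
    linarith
  have e : ((m - 4 : ℝ) / m) * (m * Real.log r + Λ) =
      ((m - 4 : ℕ) : ℝ) * Real.log r + ((m - 4 : ℝ) / m) * Λ := by
    rw [Nat.cast_sub (by omega)]
    push_cast
    field_simp
  rw [e, Real.exp_add, Real.exp_nat_mul, Real.exp_log hr]

private theorem numB_norm (m : ℕ) [NeZero m] (b : ZMod m → ℝ) (hb : ∀ t, 0 < b t) :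
    ∃ (r : ℝ) (β : ZMod m → ℝ), 0 < r ∧ (∀ t, -1 < β t) ∧ ∑ t, β t = 0 ∧
      (∀ t, b t = r * (1 + β t)) ∧ ∑ t, b t = m * r ∧
      ∑ t, Real.log (b t) = m * Real.log r + ∑ t, Real.log (1 + β t) := by
  have hm0 : (0 : ℝ) < m := by
    have : 0 < m := Nat.pos_of_ne_zero (NeZero.ne m)
    exact_mod_cast this
  have hM : 0 < ∑ t, b t := Finset.sum_pos (fun t _ => hb t) ⟨0, Finset.mem_univ _⟩
  obtain ⟨r, hr⟩ : ∃ r, r = (∑ t, b t) / m := ⟨_, rfl⟩
  have hr0 : 0 < r := by rw [hr]; positivity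
  have hMr : ∑ t, b t = m * r := by rw [hr]; field_simp
  have hbr : ∀ t, b t = r * (1 + (b t / r - 1)) := by
    intro t
    field_simp
    ring
  have hcard : ∑ _t : ZMod m, (1 : ℝ) = m := by simp
  refine ⟨r, fun t => b t / r - 1, hr0, ?_, ?_, hbr, hMr, ?_⟩
  · intro t
    have := div_pos (hb t) hr0
    linarith
  · rw [Finset.sum_sub_distrib, hcard, ← Finset.sum_div, hMr]
    field_simp
    ring
  · have e : ∀ t, Real.log (b t) = Real.log r + Real.log (1 + (b t / r - 1)) := by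
      intro t
      conv_lhs => rw [hbr t]
      refine Real.log_mul hr0.ne' ?_
      have := div_pos (hb t) hr0
      linarith
    simp only [e]
    rw [Finset.sum_add_distrib]
    simp

private theorem numB_log {q : ℝ} (h0 : 0 ≤ q) (h1 : q < 1) :
    Real.log (1 - q) ≤ -q - q ^ 2 / 2 := by
  have h := Real.hasSum_pow_div_log_of_abs_lt_one (x := q) (by rw [abs_of_nonneg h0]; exact h1)
  have h2 := sum_le_hasSum (Finset.range 2) (fun i _ => by positivity) h
  rw [Finset.sum_range_succ, Finset.sum_range_one] at h2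
  norm_num at h2
  linarith

private theorem numB_sum_log (m : ℕ) [NeZero m] (β : ZMod m → ℝ)
    (hβ : ∀ t, -1 < β t) (h0 : ∑ t, β t = 0) : ∑ t, Real.log (1 + β t) ≤ 0 := by
  rw [← h0]
  refine Finset.sum_le_sum fun t _ => ?_
  have := Real.log_le_sub_one_of_pos (x := 1 + β t) (by have := hβ t; linarith)
  linarith

/-- (c) -/
theorem gm_T (m : ℕ) [NeZero m] (hm : 7 ≤ m) (b : ZMod m → ℝ) (hb : ∀ t, 0 < b t) :
    Real.exp (((m - 4 : ℝ) / m) * ∑ t, Real.log (b t)) * ∑ t, b t * b (t + 1) ≤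
      (∑ t, b t) ^ (m - 2) / (m : ℝ) ^ (m - 3) := by
  obtain ⟨r, β, hr, hβ, h0, hb', hM, hlog⟩ := numB_norm m b hb
  have mR : (7 : ℝ) ≤ m := by exact_mod_cast hm
  have hm0 : (0 : ℝ) < m := by linarith
  rw [hlog, numB_exp m hm hr, hM]
  have shift : ∑ t, β (t + 1) = 0 := by
    rw [← h0]
    exact Equiv.sum_comp (Equiv.addRight (1 : ZMod m)) β
  have hQ : ∑ t, b t * b (t + 1) = r ^ 2 * (m + ∑ t, β t * β (t + 1)) := by
    have e1 : ∀ t, b t * b (t + 1) =
        r ^ 2 * (1 + (β t + β (t + 1) + β t * β (t + 1))) := by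
      intro t
      rw [hb' t, hb' (t + 1)]
      ring
    simp only [e1]
    rw [← Finset.mul_sum, Finset.sum_add_distrib, Finset.sum_add_distrib,
      Finset.sum_add_distrib, h0, shift]
    simp
  rw [hQ]
  obtain ⟨Λ, hΛ⟩ : ∃ Λ, Λ = ∑ t, Real.log (1 + β t) := ⟨_, rfl⟩
  obtain ⟨C, hC⟩ : ∃ C, C = ∑ t, β t * β (t + 1) := ⟨_, rfl⟩
  have h1 : C ≤ -((m - 4) * Λ) := by
    have h := log_ineq m hm β hβ h0
    rw [Finset.sum_sub_distrib, h0, ← hΛ, ← hC] at h
    linarith
  rw [← hΛ, ← hC]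
  have h2 : (m + C : ℝ) ≤ m * Real.exp (C / m) := by
    have := Real.add_one_le_exp (C / m)
    have h3 : (m : ℝ) * (C / m + 1) ≤ m * Real.exp (C / m) :=
      mul_le_mul_of_nonneg_left this hm0.le
    have h4 : (m : ℝ) * (C / m + 1) = m + C := by field_simp; ring
    linarith
  have h3 : Real.exp (((m - 4 : ℝ) / m) * Λ) * (m + C) ≤ m := by
    calc Real.exp (((m - 4 : ℝ) / m) * Λ) * (m + C)
        ≤ Real.exp (((m - 4 : ℝ) / m) * Λ) * (m * Real.exp (C / m)) :=
          mul_le_mul_of_nonneg_left h2 (Real.exp_pos _).le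
      _ = m * Real.exp (((m - 4 : ℝ) / m) * Λ + C / m) := by
          rw [Real.exp_add]
          ring
      _ ≤ m * 1 := by
          refine mul_le_mul_of_nonneg_left ?_ hm0.le
          rw [Real.exp_le_one_iff]
          have : ((m - 4 : ℝ) / m) * Λ + C / m = ((m - 4) * Λ + C) / m := by ring
          rw [this]
          exact div_nonpos_of_nonpos_of_nonneg (by linarith) hm0.le
      _ = m := mul_one _
  have e1 : r ^ (m - 4) * r ^ 2 = r ^ (m - 2) := by
    rw [← pow_add]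
    congr 1
    omega
  have e2 : ((m : ℝ) * r) ^ (m - 2) / (m : ℝ) ^ (m - 3) = m * r ^ (m - 2) := by
    rw [mul_pow]
    have : (m : ℝ) ^ (m - 2) = (m : ℝ) ^ (m - 3) * m := by
      rw [← pow_succ]
      congr 1
      omega
    rw [this]
    field_simp
  rw [e2]
  calc r ^ (m - 4) * Real.exp (((m - 4 : ℝ) / m) * Λ) * (r ^ 2 * (m + C))
      = r ^ (m - 4) * r ^ 2 * (Real.exp (((m - 4 : ℝ) / m) * Λ) * (m + C)) := by ring
    _ = r ^ (m - 2) * (Real.exp (((m - 4 : ℝ) / m) * Λ) * (m + C)) := by rw [e1]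
    _ ≤ r ^ (m - 2) * m := mul_le_mul_of_nonneg_left h3 (pow_pos hr _).le
    _ = m * r ^ (m - 2) := mul_comm _ _

private theorem numB_log_two : Real.log (5 / 2) ≤ 0.9163 ∧ 0.6931 ≤ Real.log 2 := by
  constructor
  · have h1 : (5 / 2 : ℝ) = 2 * (5 / 4) := by norm_num
    rw [h1, Real.log_mul (by norm_num) (by norm_num)]
    have h2 := Real.log_two_lt_d9
    have h3 : Real.log (5 / 4) ≤ 0.22315 := by
      rw [Real.log_le_iff_le_exp (by norm_num)]
      have h4 := Real.sum_le_exp_of_nonneg (x := 0.22315) (by norm_num) 6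
      refine le_trans ?_ h4
      simp only [Finset.sum_range_succ, Finset.sum_range_zero, Nat.factorial]
      norm_num
    linarith
  · have := Real.log_two_gt_d9
    linarith

private theorem numB_key (m : ℕ) (hm : 7 ≤ m) {β : ℝ} (h0 : 0 ≤ β) (h1 : β < m - 1) :
    Real.log (1 + β) + ((m - 4 : ℝ) / m) * (Real.log (1 + β) +
      (m - 1) * Real.log (1 - β / (m - 1))) ≤ Real.log 2 := by
  have mR : (7 : ℝ) ≤ m := by exact_mod_cast hm
  have hm0 : (0 : ℝ) < m := by linarith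
  have hm1 : (0 : ℝ) < m - 1 := by linarith
  have hL := numB_log (q := β / (m - 1)) (by positivity) (by rw [div_lt_one hm1]; exact h1)
  have hL2 : (m - 1 : ℝ) * Real.log (1 - β / (m - 1)) ≤ -β - β ^ 2 / (2 * (m - 1)) := by
    have h := mul_le_mul_of_nonneg_left hL hm1.le
    have e : (m - 1 : ℝ) * (-(β / (m - 1)) - (β / (m - 1)) ^ 2 / 2) =
        -β - β ^ 2 / (2 * (m - 1)) := by
      field_simp
    linarith
  have hlog : Real.log (1 + β) ≤ 0.3163 + 2 / 5 * β := by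
    have h2 := Real.log_le_sub_one_of_pos (x := (1 + β) / (5 / 2)) (by positivity)
    rw [Real.log_div (by linarith) (by norm_num)] at h2
    have h3 := numB_log_two.1
    linarith
  obtain ⟨x, hx⟩ : ∃ x : ℝ, x = 1 / m := ⟨_, rfl⟩
  have hx0 : 0 < x := by rw [hx]; positivity
  have hx7 : x ≤ 1 / 7 := by
    rw [hx]
    exact one_div_le_one_div_of_le (by norm_num) mR
  have hc : (m - 4 : ℝ) / m = 1 - 4 * x := by
    rw [hx]
    field_simp
  have hq : x / 2 * β ^ 2 ≤ β ^ 2 / (2 * (m - 1)) := by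
    have h2 : x / 2 ≤ 1 / (2 * (m - 1)) := by
      rw [hx, div_div, div_le_div_iff₀ (by positivity) (by positivity)]
      linarith
    have h3 := mul_le_mul_of_nonneg_right h2 (sq_nonneg β)
    have h4 : 1 / (2 * (m - 1 : ℝ)) * β ^ 2 = β ^ 2 / (2 * (m - 1)) := by ring
    linarith
  rw [hc]
  have hc0 : 0 ≤ 1 - 4 * x := by linarith
  have h5 : (1 - 4 * x) * (Real.log (1 + β) + (m - 1) * Real.log (1 - β / (m - 1))) ≤
      (1 - 4 * x) * (0.3163 + 2 / 5 * β + (-β - x / 2 * β ^ 2)) :=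
    mul_le_mul_of_nonneg_left (by linarith) hc0
  have h6 : (0.3163 + 2 / 5 * β) + (1 - 4 * x) * (0.3163 + 2 / 5 * β + (-β - x / 2 * β ^ 2)) ≤
      0.6931 := by
    have h7 : 3 / 14 * x * β ^ 2 ≤ (1 - 4 * x) * (x / 2 * β ^ 2) := by
      have : 0 ≤ x / 2 * β ^ 2 := by positivity
      nlinarith
    have h8 : 0 ≤ (1 - 7 * x) * (0.0605 + 0.2 * β) + x * (0.4235 + 1.26 - β + 3 / 14 * β ^ 2) := by
      have h9 : 0 ≤ 0.4235 + 1.26 - β + 3 / 14 * β ^ 2 := by
        nlinarith [sq_nonneg (β - 7 / 3)]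
      have h10 : 0 ≤ (1 - 7 * x) * (0.0605 + 0.2 * β) :=
        mul_nonneg (by linarith) (by positivity)
      have h11 := mul_nonneg hx0.le h9
      linarith
    nlinarith
  have h7 := numB_log_two.2
  linarith

/-- (d) -/
theorem gm_b (m : ℕ) [NeZero m] (hm : 7 ≤ m) (b : ZMod m → ℝ) (hb : ∀ t, 0 < b t)
    (u : ZMod m) :
    Real.exp (((m - 4 : ℝ) / m) * ∑ t, Real.log (b t)) * b u ≤
      2 * ((∑ t, b t) / m) ^ (m - 3) := by
  classical
  obtain ⟨r, β, hr, hβ, h0, hb', hM, hlog⟩ := numB_norm m b hb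
  have mR : (7 : ℝ) ≤ m := by exact_mod_cast hm
  have hm0 : (0 : ℝ) < m := by linarith
  have hm1 : (0 : ℝ) < m - 1 := by linarith
  have hS : ∑ t ∈ Finset.univ.erase u, β t = -β u := by
    have h := Finset.add_sum_erase Finset.univ β (Finset.mem_univ u)
    linarith
  have hcard : ((Finset.univ.erase u).card : ℝ) = m - 1 := by
    rw [Finset.card_erase_of_mem (Finset.mem_univ u), Finset.card_univ, ZMod.card,
      Nat.cast_sub (by omega)]
    push_cast
    ring
  have hfin : Real.exp (((m - 4 : ℝ) / m) * ∑ t, Real.log (1 + β t)) * (1 + β u) ≤ 2 := by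
    have hu := hβ u
    rcases le_total 0 (β u) with h | h
    · have hlt : β u < m - 1 := by
        have h1 : 0 < ∑ t ∈ Finset.univ.erase u, (1 + β t) := by
          refine Finset.sum_pos (fun t _ => by have := hβ t; linarith) ?_
          rw [← Finset.card_pos]
          have : (0 : ℝ) < ((Finset.univ.erase u).card : ℝ) := by rw [hcard]; exact hm1
          exact_mod_cast this
        rw [Finset.sum_add_distrib, hS, Finset.sum_const, nsmul_eq_mul, hcard] at h1
        linarith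
      have ha : 0 < 1 - β u / (m - 1) := by
        have : β u / (m - 1) < 1 := by rw [div_lt_one hm1]; exact hlt
        linarith
      have h2 : ∑ t ∈ Finset.univ.erase u, Real.log (1 + β t) ≤
          (m - 1) * Real.log (1 - β u / (m - 1)) := by
        have h3 : ∀ t ∈ Finset.univ.erase u, Real.log (1 + β t) ≤
            Real.log (1 - β u / (m - 1)) +
              ((1 + β t) / (1 - β u / (m - 1)) - 1) := by
          intro t _
          have h4 : 0 < 1 + β t := by have := hβ t; linarith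
          have h5 := Real.log_le_sub_one_of_pos (div_pos h4 ha)
          rw [Real.log_div h4.ne' ha.ne'] at h5
          linarith
        refine (Finset.sum_le_sum h3).trans ?_
        rw [Finset.sum_add_distrib, Finset.sum_sub_distrib, ← Finset.sum_div,
          Finset.sum_add_distrib, hS, Finset.sum_const, Finset.sum_const, nsmul_eq_mul,
          nsmul_eq_mul, hcard]
        have e : ((m - 1 : ℝ) * 1 + -β u) / (1 - β u / (m - 1)) = m - 1 := by
          rw [div_eq_iff ha.ne']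
          field_simp
          ring
        rw [e]
        linarith
      have h3 : ∑ t, Real.log (1 + β t) ≤ Real.log (1 + β u) +
          (m - 1) * Real.log (1 - β u / (m - 1)) := by
        rw [← Finset.add_sum_erase Finset.univ (fun t => Real.log (1 + β t))
          (Finset.mem_univ u)]
        linarith
      have h4 := numB_key m hm h hlt
      have h5 : (0 : ℝ) ≤ (m - 4 : ℝ) / m := div_nonneg (by linarith) hm0.le
      have h6 := mul_le_mul_of_nonneg_left h3 h5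
      have h7 : Real.exp (((m - 4 : ℝ) / m) * ∑ t, Real.log (1 + β t)) * (1 + β u) =
          Real.exp (((m - 4 : ℝ) / m) * ∑ t, Real.log (1 + β t) + Real.log (1 + β u)) := by
        rw [Real.exp_add, Real.exp_log (by linarith)]
      rw [h7, ← Real.exp_log (show (0 : ℝ) < 2 by norm_num), Real.exp_le_exp]
      linarith
    · have h1 := numB_sum_log m β hβ h0
      have h5 : (0 : ℝ) ≤ (m - 4 : ℝ) / m := div_nonneg (by linarith) hm0.le
      have h2 : Real.exp (((m - 4 : ℝ) / m) * ∑ t, Real.log (1 + β t)) ≤ 1 := by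
        rw [Real.exp_le_one_iff]
        exact mul_nonpos_of_nonneg_of_nonpos h5 h1
      have h3 := Real.exp_pos (((m - 4 : ℝ) / m) * ∑ t, Real.log (1 + β t))
      nlinarith
  rw [hlog, numB_exp m hm hr, hM, hb' u, mul_div_cancel_left₀ r hm0.ne']
  have e1 : r ^ (m - 4) * r = r ^ (m - 3) := by
    rw [← pow_succ]
    congr 1
    omega
  calc r ^ (m - 4) * Real.exp (((m - 4 : ℝ) / m) * ∑ t, Real.log (1 + β t)) * (r * (1 + β u))
      = r ^ (m - 4) * r *
          (Real.exp (((m - 4 : ℝ) / m) * ∑ t, Real.log (1 + β t)) * (1 + β u)) := by ring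
    _ = r ^ (m - 3) *
          (Real.exp (((m - 4 : ℝ) / m) * ∑ t, Real.log (1 + β t)) * (1 + β u)) := by rw [e1]
    _ ≤ r ^ (m - 3) * 2 := mul_le_mul_of_nonneg_left hfin (pow_pos hr _).le
    _ = 2 * r ^ (m - 3) := mul_comm _ _

end Pool.Agent.CycGT
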