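import Pool.Agent.W_1bfdb5_h19.Arc

/-!
# Closed walks and copies of cycles

* `noninj_le`: choose a pair `i ≠ j` with `c i = c j`; the other values are free.
* `free_clos`: an injective closed walk of length `l ≥ 3` is a copy of `cycleGraph l`
  (`SimpleGraph.Free` is the negation of `IsContained`, a copy is an injective homomorphism), so in
  a free graph every closed walk of length `l` is non-injective.
* `copy_le`: for a subgraph isomorphic to `C_k` fix a copy `f` with that subgraph; the `2k`
  closed walks `i ↦ f (j + i)`, `i ↦ f (j - i)` are distinct and have the same subgraph.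
* `inj_le`: an injective closed walk is a copy `f`; two copies with the same subgraph differ by an
  automorphism of `C_k`, which is `i ↦ j + i` or `i ↦ j - i`, so at most `2k` copies have a given
  subgraph.  See `SimpleGraph.copyCount_eq_card_image_copyToSubgraph`.
-/

namespace Pool.Agent.CycGT

open Finset
open scoped Classical

variable {V : Type} [Fintype V]

theorem Red1_pair (k : ℕ) [NeZero k] (i j : ZMod k) (hij : i ≠ j) :
    #((univ : Finset (ZMod k → V)).filter (fun c => c i = c j)) ≤ Fintype.card V ^ (k - 1) := by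
  have h1 : Fintype.card ({x : ZMod k // x ≠ j} → V) = Fintype.card V ^ (k - 1) := by
    rw [Fintype.card_fun, Fintype.card_subtype_compl, Fintype.card_subtype_eq, ZMod.card]
  rw [← h1, ← Finset.card_univ]
  refine Finset.card_le_card_of_injOn (fun c => fun x : {x : ZMod k // x ≠ j} => c x)
    (fun c _ => Finset.mem_coe.2 (mem_univ _)) ?_
  intro c hc c' hc' h
  rw [Finset.mem_coe, mem_filter] at hc hc'
  funext x
  by_cases hx : x = j
  · subst hx
    rw [← hc.2, ← hc'.2]
    exact congrFun h ⟨i, hij⟩
  · exact congrFun h ⟨x, hx⟩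

theorem noninj_le (k : ℕ) [NeZero k] :
    #((univ : Finset (ZMod k → V)).filter (fun c => ¬ Function.Injective c)) ≤
      k ^ 2 * Fintype.card V ^ (k - 1) := by
  set s : Finset (ZMod k × ZMod k) := univ.filter (fun q => q.1 ≠ q.2) with hs
  have h1 : (univ : Finset (ZMod k → V)).filter (fun c => ¬ Function.Injective c) ⊆
      s.biUnion (fun q => (univ : Finset (ZMod k → V)).filter (fun c => c q.1 = c q.2)) := by
    intro c hc
    rw [mem_filter] at hc
    obtain ⟨i, j, hij, hne⟩ : ∃ i j, c i = c j ∧ i ≠ j := by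
      by_contra hcon
      push Not at hcon
      exact hc.2 hcon
    rw [mem_biUnion]
    refine ⟨(i, j), ?_, ?_⟩
    · rw [hs, mem_filter]
      exact ⟨mem_univ _, hne⟩
    · rw [mem_filter]
      exact ⟨mem_univ _, hij⟩
  have h2 := Finset.card_biUnion_le_card_mul s
    (fun q => (univ : Finset (ZMod k → V)).filter (fun c => c q.1 = c q.2))
    (Fintype.card V ^ (k - 1)) (by
      intro q hq
      rw [hs, mem_filter] at hq
      exact Red1_pair k q.1 q.2 hq.2)
  have h3 : #s ≤ k ^ 2 := by
    have h4 : #s ≤ Fintype.card (ZMod k × ZMod k) := Finset.card_le_univ s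
    rw [Fintype.card_prod, ZMod.card] at h4
    rw [pow_two]
    exact h4
  calc _ ≤ _ := Finset.card_le_card h1
    _ ≤ #s * Fintype.card V ^ (k - 1) := h2
    _ ≤ k ^ 2 * Fintype.card V ^ (k - 1) := Nat.mul_le_mul_right _ h3

theorem free_clos (G : SimpleGraph V) (l : ℕ) [NeZero l] (hl : 3 ≤ l)
    (h : (SimpleGraph.cycleGraph l).Free G) :
    #(clos G l) ≤ l ^ 2 * Fintype.card V ^ (l - 1) := by
  refine le_trans (Finset.card_le_card ?_) (noninj_le l)
  intro c hc
  rw [clos, mem_filter] at hc
  rw [mem_filter]
  refine ⟨mem_univ _, fun hinj => h ?_⟩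
  have hc2 := hc.2
  clear hc h
  obtain ⟨n, rfl⟩ : ∃ n, l = n + 2 := ⟨l - 2, by omega⟩
  refine ⟨⟨⟨fun i : Fin (n + 2) => c i, ?_⟩, hinj⟩⟩
  intro u v huv
  rw [SimpleGraph.cycleGraph_adj] at huv
  rcases huv with huv | huv
  · have e : u = v + 1 := by rw [← huv, add_sub_cancel]
    rw [e]
    exact (hc2 v).symm
  · have e : v = u + 1 := by rw [← huv, add_sub_cancel]
    rw [e]
    exact hc2 u

end Pool.Agent.CycGT
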