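import Pool.Agent.W_1bfdb5_h19.Arc

/-!
# Many short closed walks give many longer ones

Let `n = |V|`, `δ = #clos j / n^j`, `N3 x y` the number of walks of length 3 from `x` to `y`,
`N x y` the number of walks of length `j - 1`.  Then `#clos (j+2) = ∑ x y, N3 x y * N y x`,
`#clos j = ∑ over adjacent x, y of N y x`, `N ≤ n^(j-2)`.
Let `H = {(x,y) : x ~ y, N3 x y ≤ (δ/2)^3 n^2}`, a symmetric relation, `e = #H`.
`e^4 / n^4 ≤ hom (C_4, H) ≤ ∑ over H of N3 ≤ e (δ/2)^3 n^2` (the first inequality is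
Cauchy-Schwarz twice), so `e ≤ (δ/2) n^2`.
So the sum of `N y x` over adjacent pairs outside `H` is at least `δ n^j - (δ/2) n^j`, and
`#clos (j+2) ≥ (δ/2)^3 n^2 * (δ/2) n^j`.
-/

namespace Pool.Agent.CycGT

open Finset
open scoped Classical

variable {V : Type} [Fintype V]

/-- the adjacency matrix -/
noncomputable def Red2_A (G : SimpleGraph V) : Matrix V V ℝ :=
  fun x y => if G.Adj x y then 1 else 0

omit [Fintype V] in
private lemma Red2_A_apply (G : SimpleGraph V) (x y : V) :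
    Red2_A G x y = if G.Adj x y then 1 else 0 := rfl

/-- sums over walks -/
private lemma Red2_path (A : Matrix V V ℝ) (k : ℕ) : ∀ F : V → V → ℝ,
    ∑ c : Fin (k + 1) → V, (∏ i : Fin k, A (c i.castSucc) (c i.succ)) *
      F (c 0) (c (Fin.last k)) = ∑ x, ∑ y, (A ^ k) x y * F x y := by
  induction k with
  | zero =>
    intro F
    have h1 : ∑ c : Fin 1 → V, F (c 0) (c 0) = ∑ x, F x x :=
      (Equiv.funUnique (Fin 1) V).sum_comp (fun x => F x x)
    have h2 : ∀ c : Fin 1 → V, (∏ i : Fin 0, A (c i.castSucc) (c i.succ)) *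
        F (c 0) (c (Fin.last 0)) = F (c 0) (c 0) := by
      intro c
      rw [Finset.univ_eq_empty, Finset.prod_empty, one_mul]
      rfl
    rw [Finset.sum_congr rfl (fun c _ => h2 c), h1]
    refine Finset.sum_congr rfl fun x _ => ?_
    rw [Finset.sum_eq_single x]
    · rw [pow_zero, Matrix.one_apply_eq, one_mul]
    · intro y _ hy
      rw [pow_zero, Matrix.one_apply_ne (Ne.symm hy), zero_mul]
    · intro h
      exact absurd (Finset.mem_univ x) h
  | succ k ih =>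
    intro F
    rw [← (Fin.consEquiv (fun _ => V)).sum_comp, Fintype.sum_prod_type]
    refine Finset.sum_congr rfl fun x _ => ?_
    have h1 : ∀ c' : Fin (k + 1) → V,
        (∏ i : Fin (k + 1), A ((Fin.consEquiv (fun _ => V)) (x, c') i.castSucc)
          ((Fin.consEquiv (fun _ => V)) (x, c') i.succ)) *
          F ((Fin.consEquiv (fun _ => V)) (x, c') 0)
            ((Fin.consEquiv (fun _ => V)) (x, c') (Fin.last (k + 1))) =
        (∏ i : Fin k, A (c' i.castSucc) (c' i.succ)) *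
          (A x (c' 0) * F x (c' (Fin.last k))) := by
      intro c'
      have e : ∀ i, (Fin.consEquiv (fun _ : Fin (k + 2) => V)) (x, c') i =
          (Fin.cons x c' : Fin (k + 2) → V) i := fun i => rfl
      simp only [e]
      rw [Fin.prod_univ_succ, Fin.castSucc_zero, Fin.cons_zero, Fin.cons_succ, ← Fin.succ_last,
        Fin.cons_succ]
      have e2 : ∀ i : Fin k, A ((Fin.cons x c' : Fin (k + 2) → V) i.succ.castSucc)
          ((Fin.cons x c' : Fin (k + 2) → V) i.succ.succ) = A (c' i.castSucc) (c' i.succ) := by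
        intro i
        rw [← Fin.succ_castSucc, Fin.cons_succ, Fin.cons_succ]
      rw [Finset.prod_congr rfl fun i _ => e2 i]
      ring
    rw [Finset.sum_congr rfl (fun c' _ => h1 c'), ih (fun z y => A x z * F x y), Finset.sum_comm]
    refine Finset.sum_congr rfl fun y _ => ?_
    rw [pow_succ', Matrix.mul_apply, Finset.sum_mul]
    refine Finset.sum_congr rfl fun z _ => ?_
    ring

private lemma Red2_clos (G : SimpleGraph V) (k : ℕ) :
    (#(clos G (k + 1)) : ℝ) = ∑ x, ∑ y, (Red2_A G ^ k) x y * Red2_A G y x := by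
  have h1 : (#(clos G (k + 1)) : ℝ) =
      ∑ c : Fin (k + 1) → V, ∏ i : Fin (k + 1), Red2_A G (c i) (c (i + 1)) := by
    unfold clos
    rw [Finset.card_filter, Nat.cast_sum]
    refine Finset.sum_congr rfl fun (c : Fin (k + 1) → V) _ => ?_
    have h2 : (∏ i : Fin (k + 1), Red2_A G (c i) (c (i + 1))) =
        if ∀ i : Fin (k + 1), G.Adj (c i) (c (i + 1)) then 1 else 0 := by
      simp only [Red2_A_apply]
      rw [Finset.prod_ite_zero]
      simp
    rw [h2]
    by_cases h : IsCl G (k + 1) c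
    · have h' : ∀ i : Fin (k + 1), G.Adj (c i) (c (i + 1)) := h
      rw [if_pos h, if_pos h', Nat.cast_one]
    · have h' : ¬ ∀ i : Fin (k + 1), G.Adj (c i) (c (i + 1)) := h
      rw [if_neg h, if_neg h', Nat.cast_zero]
  rw [h1, ← Red2_path (Red2_A G) k (fun x y => Red2_A G y x)]
  refine Finset.sum_congr rfl fun c _ => ?_
  rw [Fin.prod_univ_castSucc, Fin.last_add_one]
  congr 1
  refine Finset.prod_congr rfl fun i _ => ?_
  rw [Fin.coeSucc_eq_succ]

private lemma Red2_nonneg {B : Matrix V V ℝ} (hB : ∀ x y, 0 ≤ B x y) (m : ℕ) :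
    ∀ x y, 0 ≤ (B ^ m) x y := by
  induction m with
  | zero =>
    intro x y
    rw [pow_zero, Matrix.one_apply]
    split_ifs <;> norm_num
  | succ m ih =>
    intro x y
    rw [pow_succ', Matrix.mul_apply]
    exact Finset.sum_nonneg fun z _ => mul_nonneg (hB x z) (ih z y)

private lemma Red2_mono {A B : Matrix V V ℝ} (hB : ∀ x y, 0 ≤ B x y) (hBA : ∀ x y, B x y ≤ A x y)
    (m : ℕ) : ∀ x y, (B ^ m) x y ≤ (A ^ m) x y := by
  induction m with
  | zero =>
    intro x y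
    rw [pow_zero, pow_zero]
  | succ m ih =>
    intro x y
    rw [pow_succ', pow_succ', Matrix.mul_apply, Matrix.mul_apply]
    refine Finset.sum_le_sum fun z _ => ?_
    exact mul_le_mul (hBA x z) (ih z y) (Red2_nonneg hB m z y) ((hB x z).trans (hBA x z))

private lemma Red2_bound {A : Matrix V V ℝ} (h0 : ∀ x y, 0 ≤ A x y) (h1 : ∀ x y, A x y ≤ 1)
    (m : ℕ) : ∀ x y, (A ^ (m + 1)) x y ≤ (Fintype.card V : ℝ) ^ m := by
  induction m with
  | zero =>
    intro x y
    rw [zero_add, pow_one, pow_zero]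
    exact h1 x y
  | succ m ih =>
    intro x y
    rw [pow_succ', Matrix.mul_apply]
    calc ∑ z, A x z * (A ^ (m + 1)) z y ≤ ∑ z : V, 1 * (Fintype.card V : ℝ) ^ m := by
          refine Finset.sum_le_sum fun z _ => ?_
          exact mul_le_mul (h1 x z) (ih z y) (Red2_nonneg h0 _ z y) zero_le_one
      _ = (Fintype.card V : ℝ) ^ (m + 1) := by
          rw [Finset.sum_const, Finset.card_univ, nsmul_eq_mul]
          ring

private lemma Red2_symm {A : Matrix V V ℝ} (h : ∀ x y, A x y = A y x) (m : ℕ) :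
    ∀ x y, (A ^ m) x y = (A ^ m) y x := by
  have h1 : A.transpose = A := by
    ext x y
    exact h y x
  intro x y
  have h2 : (A ^ m).transpose = A ^ m := by
    rw [Matrix.transpose_pow, h1]
  conv_lhs => rw [← h2]
  rfl

/-- Cauchy-Schwarz twice -/
private lemma Red2_cs {B : Matrix V V ℝ} (h : ∀ x y, B x y = B y x) :
    (∑ x, ∑ y, B x y) ^ 4 ≤ (Fintype.card V : ℝ) ^ 4 * ∑ x, ∑ y, (B ^ 3) x y * B y x := by
  have hs2 := Red2_symm h 2
  have e1 : ∑ x, (∑ y, B x y) ^ 2 = ∑ y, ∑ z, (B ^ 2) y z := by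
    have h1 : ∀ x, (∑ y, B x y) ^ 2 = ∑ y, ∑ z, B y x * B x z := by
      intro x
      rw [sq, Finset.sum_mul_sum]
      refine Finset.sum_congr rfl fun y _ => Finset.sum_congr rfl fun z _ => ?_
      rw [h x y]
    rw [Finset.sum_congr rfl fun x _ => h1 x, Finset.sum_comm]
    refine Finset.sum_congr rfl fun y _ => ?_
    rw [Finset.sum_comm]
    refine Finset.sum_congr rfl fun z _ => ?_
    rw [sq, Matrix.mul_apply]
  have e2 : ∑ y, ∑ z, ((B ^ 2) y z) ^ 2 = ∑ x, ∑ y, (B ^ 3) x y * B y x := by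
    have h1 : ∑ x, ∑ y, (B ^ 3) x y * B y x = ∑ x, (B ^ 4) x x := by
      refine Finset.sum_congr rfl fun x _ => ?_
      rw [show (4 : ℕ) = 3 + 1 from rfl, pow_succ B 3, Matrix.mul_apply]
    rw [h1]
    refine Finset.sum_congr rfl fun x _ => ?_
    rw [show (4 : ℕ) = 2 + 2 from rfl, pow_add, Matrix.mul_apply]
    refine Finset.sum_congr rfl fun y _ => ?_
    rw [hs2 y x, sq]
  have c1 : (∑ x, ∑ y, B x y) ^ 2 ≤ (Fintype.card V : ℝ) * ∑ y, ∑ z, (B ^ 2) y z := by
    rw [← e1]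
    have := sq_sum_le_card_mul_sum_sq (s := (Finset.univ : Finset V)) (f := fun x => ∑ y, B x y)
    rwa [Finset.card_univ] at this
  have c2 : (∑ y, ∑ z, (B ^ 2) y z) ^ 2 ≤
      (Fintype.card V : ℝ) ^ 2 * ∑ x, ∑ y, (B ^ 3) x y * B y x := by
    rw [← e2]
    have := sq_sum_le_card_mul_sum_sq (s := (Finset.univ : Finset (V × V)))
      (f := fun p => (B ^ 2) p.1 p.2)
    rw [Fintype.sum_prod_type, Fintype.sum_prod_type, Finset.card_univ, Fintype.card_prod,
      Nat.cast_mul, ← sq] at this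
    exact this
  calc (∑ x, ∑ y, B x y) ^ 4 = ((∑ x, ∑ y, B x y) ^ 2) ^ 2 := by ring
    _ ≤ ((Fintype.card V : ℝ) * ∑ y, ∑ z, (B ^ 2) y z) ^ 2 :=
        pow_le_pow_left₀ (sq_nonneg _) c1 2
    _ = (Fintype.card V : ℝ) ^ 2 * (∑ y, ∑ z, (B ^ 2) y z) ^ 2 := by ring
    _ ≤ (Fintype.card V : ℝ) ^ 2 * ((Fintype.card V : ℝ) ^ 2 *
          ∑ x, ∑ y, (B ^ 3) x y * B y x) := mul_le_mul_of_nonneg_left c2 (sq_nonneg _)
    _ = (Fintype.card V : ℝ) ^ 4 * ∑ x, ∑ y, (B ^ 3) x y * B y x := by ring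

theorem step_up (G : SimpleGraph V) (j : ℕ) [NeZero j] (hj : 3 ≤ j) :
    ((#(clos G j) : ℝ) / (Fintype.card V : ℝ) ^ j / 2) ^ 4 * (Fintype.card V : ℝ) ^ (j + 2) ≤
      #(clos G (j + 2)) := by
  rcases Nat.eq_zero_or_pos (Fintype.card V) with hn0 | hn0
  · have h0 : (0 : ℝ) ^ (j + 2) = 0 := zero_pow (by omega)
    rw [hn0, Nat.cast_zero, h0, mul_zero]
    exact Nat.cast_nonneg _
  obtain ⟨k, rfl⟩ : ∃ k, j = k + 1 + 1 := ⟨j - 2, by omega⟩
  have hn : (0 : ℝ) < Fintype.card V := by exact_mod_cast hn0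
  obtain ⟨n, hnn⟩ : ∃ n : ℝ, n = Fintype.card V := ⟨_, rfl⟩
  obtain ⟨A, hA⟩ : ∃ A : Matrix V V ℝ, A = Red2_A G := ⟨_, rfl⟩
  have hAa : ∀ x y, A x y = if G.Adj x y then 1 else 0 := by
    intro x y
    rw [hA]
    rfl
  have hA0 : ∀ x y, 0 ≤ A x y := by
    intro x y
    rw [hAa]
    split_ifs <;> norm_num
  have hA1 : ∀ x y, A x y ≤ 1 := by
    intro x y
    rw [hAa]
    split_ifs <;> norm_num
  have hAs : ∀ x y, A x y = A y x := by
    intro x y
    rw [hAa, hAa]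
    simp only [G.adj_comm]
  have hT : (#(clos G (k + 1 + 1)) : ℝ) = ∑ x, ∑ y, (A ^ (k + 1)) x y * A y x := by
    rw [hA]
    exact Red2_clos G (k + 1)
  have hT2 : (#(clos G (k + 1 + 1 + 2)) : ℝ) = ∑ x, ∑ y, (A ^ (k + 1)) x y * (A ^ 3) y x := by
    rw [hA]
    refine (Red2_clos G (k + 1 + 2)).trans ?_
    have h1 : ∀ x, ∑ y, (Red2_A G ^ (k + 1 + 2)) x y * Red2_A G y x =
        ∑ y, (Red2_A G ^ (k + 1)) x y * (Red2_A G ^ 3) y x := by
      intro x
      rw [← Matrix.mul_apply, ← Matrix.mul_apply, ← pow_succ, ← pow_add]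
    exact Finset.sum_congr rfl fun x _ => h1 x
  rw [hT, hT2]
  rw [← hnn] at hn ⊢
  obtain ⟨T, hTd⟩ : ∃ T : ℝ, T = ∑ x, ∑ y, (A ^ (k + 1)) x y * A y x := ⟨_, rfl⟩
  rw [← hTd]
  have hT0 : 0 ≤ T := by
    rw [hTd]
    exact Finset.sum_nonneg fun x _ => Finset.sum_nonneg fun y _ =>
      mul_nonneg (Red2_nonneg hA0 _ x y) (hA0 y x)
  obtain ⟨t, ht⟩ : ∃ t : ℝ, t = T / n ^ (k + 1 + 1) / 2 := ⟨_, rfl⟩
  rw [← ht]
  have ht0 : 0 ≤ t := by
    rw [ht]
    positivity
  have hTt : T = 2 * t * n ^ (k + 1 + 1) := by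
    rw [ht]
    field_simp
  obtain ⟨B, hBd⟩ : ∃ B : Matrix V V ℝ, B = fun x y =>
    if G.Adj x y ∧ (A ^ 3) x y ≤ t ^ 3 * n ^ 2 then (1 : ℝ) else 0 := ⟨_, rfl⟩
  have hBa : ∀ x y, B x y = if G.Adj x y ∧ (A ^ 3) x y ≤ t ^ 3 * n ^ 2 then (1 : ℝ) else 0 := by
    intro x y
    rw [hBd]
  have hB0 : ∀ x y, 0 ≤ B x y := by
    intro x y
    rw [hBa]
    split_ifs <;> norm_num
  have hBA : ∀ x y, B x y ≤ A x y := by
    intro x y
    rw [hBa, hAa]
    by_cases h : G.Adj x y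
    · rw [if_pos h]
      split_ifs <;> norm_num
    · rw [if_neg h, if_neg (fun h' => h h'.1)]
  have hA3s := Red2_symm hAs 3
  have hBs : ∀ x y, B x y = B y x := by
    intro x y
    rw [hBa, hBa, hA3s x y]
    simp only [G.adj_comm]
  obtain ⟨e, he⟩ : ∃ e : ℝ, e = ∑ x, ∑ y, B x y := ⟨_, rfl⟩
  have he0 : 0 ≤ e := by
    rw [he]
    exact Finset.sum_nonneg fun x _ => Finset.sum_nonneg fun y _ => hB0 x y
  have hB3 : ∑ x, ∑ y, (B ^ 3) x y * B y x ≤ t ^ 3 * n ^ 2 * e := by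
    rw [he, Finset.mul_sum]
    refine Finset.sum_le_sum fun x _ => ?_
    rw [Finset.mul_sum]
    refine Finset.sum_le_sum fun y _ => ?_
    have h1 := Red2_mono hB0 hBA 3 x y
    rw [hBs y x]
    by_cases h : G.Adj x y ∧ (A ^ 3) x y ≤ t ^ 3 * n ^ 2
    · rw [hBa x y, if_pos h, mul_one, mul_one]
      exact h1.trans h.2
    · rw [hBa x y, if_neg h, mul_zero, mul_zero]
  have hcs := Red2_cs hBs
  rw [← he, ← hnn] at hcs
  have he2 : e ≤ t * n ^ 2 := by
    rcases he0.eq_or_lt with h | h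
    · rw [← h]
      positivity
    · have h1 : e ^ 4 ≤ n ^ 4 * (t ^ 3 * n ^ 2 * e) :=
        hcs.trans (mul_le_mul_of_nonneg_left hB3 (by positivity))
      have h2 : e ^ 3 ≤ (t * n ^ 2) ^ 3 := by
        have h3 : e ^ 3 * e ≤ (t * n ^ 2) ^ 3 * e := by
          calc e ^ 3 * e = e ^ 4 := by ring
            _ ≤ n ^ 4 * (t ^ 3 * n ^ 2 * e) := h1
            _ = (t * n ^ 2) ^ 3 * e := by ring
        exact le_of_mul_le_mul_right h3 h
      exact (pow_le_pow_iff_left₀ he0 (by positivity) (by norm_num)).1 h2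
  -- pairs outside `B`
  have hout : t * n ^ (k + 1 + 1) ≤ ∑ x, ∑ y, (A ^ (k + 1)) x y * (A y x - B y x) := by
    have h1 : ∑ x, ∑ y, (A ^ (k + 1)) x y * (A y x - B y x) =
        T - ∑ x, ∑ y, (A ^ (k + 1)) x y * B y x := by
      rw [hTd, ← Finset.sum_sub_distrib]
      refine Finset.sum_congr rfl fun x _ => ?_
      rw [← Finset.sum_sub_distrib]
      refine Finset.sum_congr rfl fun y _ => ?_
      ring
    have h2 : ∑ x, ∑ y, (A ^ (k + 1)) x y * B y x ≤ n ^ k * e := by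
      rw [he, Finset.mul_sum]
      refine Finset.sum_le_sum fun x _ => ?_
      rw [Finset.mul_sum]
      refine Finset.sum_le_sum fun y _ => ?_
      rw [hBs y x, hnn]
      exact mul_le_mul_of_nonneg_right (Red2_bound hA0 hA1 k x y) (hB0 x y)
    have h3 : n ^ k * e ≤ n ^ k * (t * n ^ 2) := mul_le_mul_of_nonneg_left he2 (by positivity)
    have h4 : n ^ k * (t * n ^ 2) = t * n ^ (k + 1 + 1) := by ring
    rw [h1, hTt]
    linarith
  have hfin : t ^ 3 * n ^ 2 * ∑ x, ∑ y, (A ^ (k + 1)) x y * (A y x - B y x) ≤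
      ∑ x, ∑ y, (A ^ (k + 1)) x y * (A ^ 3) y x := by
    rw [Finset.mul_sum]
    refine Finset.sum_le_sum fun x _ => ?_
    rw [Finset.mul_sum]
    refine Finset.sum_le_sum fun y _ => ?_
    have hN := Red2_nonneg hA0 (k + 1) x y
    have hN3 := Red2_nonneg hA0 3 y x
    have hthr : 0 ≤ t ^ 3 * n ^ 2 := by positivity
    have h1 : t ^ 3 * n ^ 2 * (A y x - B y x) ≤ (A ^ 3) y x := by
      rw [hBa y x, hAa y x]
      by_cases h : G.Adj y x
      · rw [if_pos h]
        by_cases h' : (A ^ 3) y x ≤ t ^ 3 * n ^ 2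
        · rw [if_pos ⟨h, h'⟩, sub_self, mul_zero]
          exact hN3
        · rw [if_neg (fun h'' => h' h''.2), sub_zero, mul_one]
          exact (not_le.1 h').le
      · rw [if_neg h, if_neg (fun h'' => h h''.1), sub_self, mul_zero]
        exact hN3
    calc t ^ 3 * n ^ 2 * ((A ^ (k + 1)) x y * (A y x - B y x)) =
          (A ^ (k + 1)) x y * (t ^ 3 * n ^ 2 * (A y x - B y x)) := by ring
      _ ≤ (A ^ (k + 1)) x y * (A ^ 3) y x := mul_le_mul_of_nonneg_left h1 hN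
  calc t ^ 4 * n ^ (k + 1 + 1 + 2) = t ^ 3 * n ^ 2 * (t * n ^ (k + 1 + 1)) := by ring
    _ ≤ t ^ 3 * n ^ 2 * ∑ x, ∑ y, (A ^ (k + 1)) x y * (A y x - B y x) :=
        mul_le_mul_of_nonneg_left hout (by positivity)
    _ ≤ _ := hfin

end Pool.Agent.CycGT
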