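import Pool.Agent.W_1bfdb5_h19.Arc

/-!
# Sampling

`n = |V|`.  For `φ : Fin q → V` let `H = G.comap φ` (adjacent iff the images are adjacent), and
let `X φ` be the number of INJECTIVE closed walks `κ : ZMod (2r+5) → Fin q` of `H`.
* `∑ φ, X φ = (q)_(2r+5) n^(q-(2r+5)) #clos G (2r+5)` (for fixed injective `κ`, the number of `φ`
  with `φ ∘ κ` a closed walk of `G` is `n^(q - (2r+5)) #clos G (2r+5)`).
* if `OddFree H (2r+3)` then `X φ ≤ #clos H (2r+5) ≤ B q^(2r+5)`; always `X φ ≤ q^(2r+5)`.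
* if not `OddFree H (2r+3)`: take an odd closed walk of `H` of minimal length `j`; `3 ≤ j ≤ 2r+1`,
  and it is an injective closed walk `ZMod j → Fin q` (if two of its vertices coincide it splits
  in two closed walks one of which is odd and shorter).  So the number of such `φ` is at most
  `∑ over j = 2i+3, i < r, of (q)_j n^(q-j) #clos G j ≤ ∑ q^j n^(q-j) #clos G j`.
If `q < 2r+5` the left side is zero.
-/

namespace Pool.Agent.CycGT

open Finset
open scoped Classical

variable {V : Type} [Fintype V] [Nonempty V]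

private lemma Red3_min {W : Type} (H : SimpleGraph W) (r : ℕ) (h : ¬ OddFree H (2 * r + 3)) :
    ∃ i, i < r ∧ ∃ c : ZMod (2 * i + 3) → W, Function.Injective c ∧ IsCl H (2 * i + 3) c := by
  unfold OddFree at h
  push Not at h
  obtain ⟨s0, hs0, hodd0, v0, hv0⟩ := h
  have hex : ∃ s, Odd s ∧ ∃ v, Wk H s v v := ⟨s0, hodd0, v0, hv0⟩
  obtain ⟨s, ⟨hodd, v, hv⟩, hmin⟩ : ∃ s, (Odd s ∧ ∃ v, Wk H s v v) ∧
      ∀ t, (Odd t ∧ ∃ v, Wk H t v v) → s ≤ t :=
    ⟨Nat.find hex, Nat.find_spec hex, fun t ht => Nat.find_min' hex ht⟩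
  have hss : s ≤ s0 := hmin s0 ⟨hodd0, v0, hv0⟩
  obtain ⟨k, hk⟩ := hodd
  have hk0 : k ≠ 0 := by
    rintro rfl
    have h1 : s = 1 := by omega
    rw [h1] at hv
    exact H.irrefl (wk_one.1 hv)
  obtain ⟨i, rfl⟩ : ∃ i, k = i + 1 := ⟨k - 1, by omega⟩
  obtain rfl : s = 2 * i + 3 := by omega
  refine ⟨i, by omega, ?_⟩
  obtain ⟨p, hp⟩ := hv
  have hval : ∀ t : ZMod (2 * i + 3), (t + 1).val = (t.val + 1) % (2 * i + 3) := by
    intro t
    rw [ZMod.val_add, ZMod.val_one_eq_one_mod, Nat.add_mod_mod]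
  have hcl : IsCl H (2 * i + 3) (fun t => p.getVert t.val) := by
    intro t
    show H.Adj (p.getVert t.val) (p.getVert (t + 1).val)
    have ht : t.val < 2 * i + 3 := ZMod.val_lt t
    have h1 := p.adj_getVert_succ (i := t.val) (by omega)
    rw [hval]
    by_cases h2 : t.val + 1 < 2 * i + 3
    · rw [Nat.mod_eq_of_lt h2]
      exact h1
    · have h3 : t.val + 1 = 2 * i + 3 := by omega
      rw [h3] at h1 ⊢
      rw [Nat.mod_self]
      have h4 : p.getVert (2 * i + 3) = v := by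
        rw [← hp]
        exact p.getVert_length
      rw [h4] at h1
      rw [p.getVert_zero]
      exact h1
  refine ⟨fun t => p.getVert t.val, ?_, hcl⟩
  have key : ∀ a b : ZMod (2 * i + 3), a.val < b.val → p.getVert a.val ≠ p.getVert b.val := by
    intro a b hab he
    have hb : b.val < 2 * i + 3 := ZMod.val_lt b
    have e1 : b = a + ((b.val - a.val : ℕ) : ZMod (2 * i + 3)) := by
      rw [Nat.cast_sub hab.le, ZMod.natCast_zmod_val, ZMod.natCast_zmod_val]
      ring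
    have e2 : b + ((2 * i + 3 - (b.val - a.val) : ℕ) : ZMod (2 * i + 3)) = a := by
      rw [Nat.cast_sub (by omega), ZMod.natCast_self, Nat.cast_sub hab.le, ZMod.natCast_zmod_val,
        ZMod.natCast_zmod_val]
      ring
    have w1 := hcl.along a (b.val - a.val)
    rw [← e1] at w1
    have w2 := hcl.along b (2 * i + 3 - (b.val - a.val))
    rw [e2] at w2
    rw [← he] at w1 w2
    rcases Nat.even_or_odd (b.val - a.val) with h5 | h5
    · have h6 : Odd (2 * i + 3 - (b.val - a.val)) := by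
        obtain ⟨m, hm⟩ := h5
        exact ⟨i + 1 - m, by omega⟩
      have h7 := hmin _ ⟨h6, _, w2⟩
      omega
    · have h7 := hmin _ ⟨h5, _, w1⟩
      omega
  intro a b hab
  beta_reduce at hab
  rcases lt_trichotomy a.val b.val with h1 | h1 | h1
  · exact absurd hab (key a b h1)
  · exact ZMod.val_injective _ h1
  · exact absurd hab.symm (key b a h1)

omit [Nonempty V] in
private lemma Red3_count {α β : Type} [Fintype α] [Fintype β] (κ : α ↪ β) (S : Finset (α → V)) :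
    #(univ.filter (fun φ : β → V => (fun a => φ (κ a)) ∈ S)) =
      Fintype.card V ^ (Fintype.card β - Fintype.card α) * #S := by
  have e1 : Fintype.card {b // b ∈ Set.range κ} = Fintype.card α :=
    (Fintype.card_congr (Equiv.ofInjective κ κ.injective)).symm
  have e2 : Fintype.card {b // ¬ b ∈ Set.range κ} = Fintype.card β - Fintype.card α := by
    rw [Fintype.card_subtype_compl, e1]
  have e3 : Fintype.card ({b // ¬ b ∈ Set.range κ} → V) =
      Fintype.card V ^ (Fintype.card β - Fintype.card α) := by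
    rw [Fintype.card_fun, e2]
  rw [Finset.card_equiv (t := S ×ˢ (univ : Finset ({b // ¬ b ∈ Set.range κ} → V)))
    ((Equiv.piEquivPiSubtypeProd (fun b => b ∈ Set.range κ) (fun _ => V)).trans
      (Equiv.prodCongr (Equiv.arrowCongr (Equiv.ofInjective κ κ.injective).symm (Equiv.refl V))
        (Equiv.refl _))) ?_]
  · rw [Finset.card_product, Finset.card_univ, e3, mul_comm]
  · intro φ
    rw [Finset.mem_filter, Finset.mem_product]
    constructor
    · rintro ⟨_, h⟩
      exact ⟨h, Finset.mem_univ _⟩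
    · rintro ⟨h, _⟩
      exact ⟨Finset.mem_univ _, h⟩

omit [Nonempty V] in
private lemma Red3_sum (G : SimpleGraph V) (q M : ℕ) [NeZero M] :
    ∑ φ : Fin q → V, #(univ.filter (fun κ : ZMod M ↪ Fin q => IsCl G M (fun t => φ (κ t)))) =
      q.descFactorial M * (Fintype.card V ^ (q - M) * #(clos G M)) := by
  simp only [Finset.card_filter]
  rw [Finset.sum_comm]
  have h1 : ∀ κ : ZMod M ↪ Fin q,
      (∑ φ : Fin q → V, if IsCl G M (fun t => φ (κ t)) then 1 else 0) =
        Fintype.card V ^ (q - M) * #(clos G M) := by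
    intro κ
    rw [← Finset.card_filter]
    have h2 := Red3_count κ (clos G M)
    rw [Fintype.card_fin, ZMod.card] at h2
    rw [← h2]
    congr 1
    ext φ
    simp only [clos, Finset.mem_filter, Finset.mem_univ, true_and]
  rw [Finset.sum_congr rfl fun κ _ => h1 κ, Finset.sum_const, Finset.card_univ, smul_eq_mul]
  congr 1
  rw [Fintype.card_embedding_eq, Fintype.card_fin, ZMod.card]

theorem sampling (r : ℕ) (B : ℝ) (hB0 : 0 ≤ B)
    (hB : ∀ (q : ℕ) (H : SimpleGraph (Fin q)), OddFree H (2 * r + 3) →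
      (#(clos H (2 * r + 5)) : ℝ) ≤ B * (q : ℝ) ^ (2 * r + 5))
    (G : SimpleGraph V) (q : ℕ) :
    (q.descFactorial (2 * r + 5) : ℝ) *
      ((#(clos G (2 * r + 5)) : ℝ) / (Fintype.card V : ℝ) ^ (2 * r + 5)) ≤
    (q : ℝ) ^ (2 * r + 5) * (B + ∑ i ∈ range r, (q : ℝ) ^ (2 * i + 3) *
      ((#(clos G (2 * i + 3)) : ℝ) / (Fintype.card V : ℝ) ^ (2 * i + 3))) := by
  have hn : (0 : ℝ) < Fintype.card V := by
    exact_mod_cast Fintype.card_pos
  rcases Nat.lt_or_ge q (2 * r + 5) with hq | hq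
  · rw [Nat.descFactorial_of_lt hq, Nat.cast_zero, zero_mul]
    refine mul_nonneg (by positivity) (add_nonneg hB0 (Finset.sum_nonneg fun i _ => ?_))
    positivity
  obtain ⟨n, hnn⟩ : ∃ n : ℝ, n = Fintype.card V := ⟨_, rfl⟩
  obtain ⟨X, hX⟩ : ∃ X : (Fin q → V) → ℕ, X = fun φ =>
    #(univ.filter (fun κ : ZMod (2 * r + 5) ↪ Fin q =>
      IsCl G (2 * r + 5) (fun t => φ (κ t)))) := ⟨_, rfl⟩
  obtain ⟨Y, hY⟩ : ∃ Y : ℕ → (Fin q → V) → ℕ, Y = fun i φ =>
    #(univ.filter (fun κ : ZMod (2 * i + 3) ↪ Fin q =>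
      IsCl G (2 * i + 3) (fun t => φ (κ t)))) := ⟨_, rfl⟩
  have key : ∀ φ : Fin q → V, (X φ : ℝ) ≤ B * (q : ℝ) ^ (2 * r + 5) +
      (q : ℝ) ^ (2 * r + 5) * ∑ i ∈ range r, (Y i φ : ℝ) := by
    intro φ
    obtain ⟨H, hH⟩ : ∃ H : SimpleGraph (Fin q), H = G.comap φ := ⟨_, rfl⟩
    have hX1 : X φ ≤ #(clos H (2 * r + 5)) := by
      rw [hX]
      refine Finset.card_le_card_of_injOn (fun κ => (κ : ZMod (2 * r + 5) → Fin q)) ?_ ?_
      · intro κ hκ
        have hκ' := (Finset.mem_filter.1 hκ).2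
        refine Finset.mem_coe.2 (Finset.mem_filter.2 ⟨Finset.mem_univ _, ?_⟩)
        intro t
        rw [hH]
        exact hκ' t
      · intro κ _ κ' _ h
        exact DFunLike.coe_injective h
    have hX2 : #(clos H (2 * r + 5)) ≤ q ^ (2 * r + 5) := by
      refine (Finset.card_le_univ _).trans ?_
      rw [Fintype.card_fun, Fintype.card_fin, ZMod.card]
    have hS0 : (0 : ℝ) ≤ ∑ i ∈ range r, (Y i φ : ℝ) :=
      Finset.sum_nonneg fun i _ => Nat.cast_nonneg _
    by_cases hO : OddFree H (2 * r + 3)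
    · have h1 := hB q H hO
      have h2 : (X φ : ℝ) ≤ #(clos H (2 * r + 5)) := by exact_mod_cast hX1
      have h3 : (0 : ℝ) ≤ (q : ℝ) ^ (2 * r + 5) * ∑ i ∈ range r, (Y i φ : ℝ) :=
        mul_nonneg (by positivity) hS0
      linarith
    · obtain ⟨i, hi, c, hcinj, hc⟩ := Red3_min H r hO
      have h1 : 1 ≤ Y i φ := by
        rw [hY]
        refine Finset.card_pos.2 ⟨⟨c, hcinj⟩, ?_⟩
        refine Finset.mem_filter.2 ⟨Finset.mem_univ _, ?_⟩
        intro t
        have h2 := hc t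
        rw [hH] at h2
        exact h2
      have h2 : (1 : ℝ) ≤ ∑ i ∈ range r, (Y i φ : ℝ) := by
        have h3 : (Y i φ : ℝ) ≤ ∑ i ∈ range r, (Y i φ : ℝ) :=
          Finset.single_le_sum (f := fun i => (Y i φ : ℝ)) (fun i _ => Nat.cast_nonneg _)
            (Finset.mem_range.2 hi)
        have h4 : (1 : ℝ) ≤ (Y i φ : ℝ) := by exact_mod_cast h1
        linarith
      have h3 : (X φ : ℝ) ≤ (q : ℝ) ^ (2 * r + 5) := by exact_mod_cast hX1.trans hX2
      have h4 : (q : ℝ) ^ (2 * r + 5) * 1 ≤ (q : ℝ) ^ (2 * r + 5) * ∑ i ∈ range r, (Y i φ : ℝ) :=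
        mul_le_mul_of_nonneg_left h2 (by positivity)
      have h5 : 0 ≤ B * (q : ℝ) ^ (2 * r + 5) := mul_nonneg hB0 (by positivity)
      linarith
  -- sum over `φ`
  have hsumX : ∑ φ : Fin q → V, (X φ : ℝ) = (q.descFactorial (2 * r + 5) : ℝ) *
      (n ^ (q - (2 * r + 5)) * #(clos G (2 * r + 5))) := by
    have h1 := Red3_sum G q (2 * r + 5)
    rw [hX, hnn]
    exact_mod_cast h1
  have hsumY : ∀ i, ∑ φ : Fin q → V, (Y i φ : ℝ) = (q.descFactorial (2 * i + 3) : ℝ) *
      (n ^ (q - (2 * i + 3)) * #(clos G (2 * i + 3))) := by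
    intro i
    have h1 := Red3_sum G q (2 * i + 3)
    rw [hY, hnn]
    exact_mod_cast h1
  have hcardφ : (Fintype.card (Fin q → V) : ℝ) = n ^ q := by
    rw [Fintype.card_fun, Fintype.card_fin, hnn]
    push_cast
    rfl
  have hmain : (q.descFactorial (2 * r + 5) : ℝ) *
      (n ^ (q - (2 * r + 5)) * #(clos G (2 * r + 5))) ≤
      n ^ q * (B * (q : ℝ) ^ (2 * r + 5)) + (q : ℝ) ^ (2 * r + 5) *
        ∑ i ∈ range r, ((q.descFactorial (2 * i + 3) : ℝ) *
          (n ^ (q - (2 * i + 3)) * #(clos G (2 * i + 3)))) := by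
    rw [← hsumX]
    refine (Finset.sum_le_sum fun φ _ => key φ).trans (le_of_eq ?_)
    rw [Finset.sum_add_distrib, Finset.sum_const, Finset.card_univ, nsmul_eq_mul, hcardφ,
      ← Finset.mul_sum, Finset.sum_comm]
    congr 2
    exact Finset.sum_congr rfl fun i _ => hsumY i
  rw [← hnn] at hn ⊢
  have hnq : (0 : ℝ) < n ^ q := by positivity
  refine le_of_mul_le_mul_right ?_ hnq
  have hdiv : ∀ (M : ℕ) (C : ℝ), M ≤ q → C / n ^ M * n ^ q = n ^ (q - M) * C := by
    intro M C hM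
    have h1 : n ^ q = n ^ (q - M) * n ^ M := by
      rw [← pow_add, Nat.sub_add_cancel hM]
    rw [h1]
    field_simp
  have hL : (q.descFactorial (2 * r + 5) : ℝ) *
      ((#(clos G (2 * r + 5)) : ℝ) / n ^ (2 * r + 5)) * n ^ q =
      (q.descFactorial (2 * r + 5) : ℝ) * (n ^ (q - (2 * r + 5)) * #(clos G (2 * r + 5))) := by
    rw [mul_assoc, hdiv _ _ hq]
  rw [hL]
  refine hmain.trans ?_
  have hR : (q : ℝ) ^ (2 * r + 5) * (B + ∑ i ∈ range r, (q : ℝ) ^ (2 * i + 3) *
      ((#(clos G (2 * i + 3)) : ℝ) / n ^ (2 * i + 3))) * n ^ q =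
      n ^ q * (B * (q : ℝ) ^ (2 * r + 5)) + (q : ℝ) ^ (2 * r + 5) *
        ∑ i ∈ range r, ((q : ℝ) ^ (2 * i + 3) *
          (((#(clos G (2 * i + 3)) : ℝ) / n ^ (2 * i + 3)) * n ^ q)) := by
    have h1 : (∑ i ∈ range r, (q : ℝ) ^ (2 * i + 3) *
        ((#(clos G (2 * i + 3)) : ℝ) / n ^ (2 * i + 3))) * n ^ q =
        ∑ i ∈ range r, ((q : ℝ) ^ (2 * i + 3) *
          (((#(clos G (2 * i + 3)) : ℝ) / n ^ (2 * i + 3)) * n ^ q)) := by
      rw [Finset.sum_mul]
      exact Finset.sum_congr rfl fun i _ => by ring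
    rw [← h1]
    ring
  rw [hR]
  refine add_le_add_right (mul_le_mul_of_nonneg_left ?_ (by positivity)) _
  refine Finset.sum_le_sum fun i hi => ?_
  have hi' := Finset.mem_range.1 hi
  rw [hdiv _ _ (by omega)]
  refine mul_le_mul_of_nonneg_right ?_ (by positivity)
  exact_mod_cast Nat.descFactorial_le_pow q (2 * i + 3)

end Pool.Agent.CycGT
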